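import Pool.Agent.H84.LG.Dia
import Pool.Agent.H84.LG.Alf
import Pool.Agent.H91.SR.Avd

/-!
[H84 LG AVO]  POLYLOG RATE (copy of the module of SHARP RATE), piece 5: the letters of one stage avoid all targets (local lemma).

* `nz_near`: `exists_pt`: `y = z0 • pt d b u`, `‖u‖ ≤ 1/3`; `Ctx.cnt` with `X = Xs` (`Amp_zero`, `Amp_mono`) gives the finite set
  `Z` of the zeros of `Jc (Fb Xs b)` in `‖u‖ ≤ 5/4`; `N = Z.image (pt d b)`. For `z` with `DD d y z ≤ 1/4`: `chart_near`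
  (`H47/SR/Nea`) gives `z = z' • pt d b u'`, `‖u'‖ ≤ 1`, and `JJ Xs (pt d b u') = 0` (`JJ_phase`), `JJ_pt_iff`: `u' ∈ Z`.
* `avo`: apply `Pool.H91.SR.avoid` with `ι = ℂ × Option (ℂ × ℂ)`, `K = ⌈1/be⌉₊`, `T = TT d`, `ρ = 2 * 10^18 * be`,
  `α b i c = alf X σ w b i.1 c`, `S b i = Tg e σ s w X b i.1 i.2`, `A b i = σ (w b / nm (Fb X b i.1)) / 2` (`alf_own`,
  `Tg_diam`, `nm_low`). Index set: `Zc b` = the points `u` of the finite set of `Ctx.cnt` for `X` with `‖u‖ ≤ 1/2` and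
  `JJ X (pt d b u) = 0` (`JJ_pt_iff`); for such `u` let `J(b,u)` be an index with `IsJ` if there is one (else `0`) and
  `N(b,u)` the finite set of `nz_near` for `y = ob X (pt d b u) (J(b,u))` (`isU_ob`, `pt_unit`);
  `I b = {(u, none), (u, some z) : u ∈ Zc b, z ∈ N(b,u)}`, so `card ≤ CN LL (CN LL + 1)` and `M = ⌊CN LL (CN LL + 1)⌋₊`,
  condition `h4` from `lll`. `Y = (σ : ℂ) • YY d s w F`, `Amp_YY`.
  Check of `Avo`: let `v` be the sum over the centres within `T` of `b`; `ee_cut` and `tail`: `‖ee - v‖ ≤ be^4 σ (w b/nm)`, so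
  `‖chi - v‖ ≤ 2 be^4 σ (w b/nm)`. If `DD .. z ≤ rh` for a critical `z` near `ob X c J`: `IsJ_uniq` (`J = J(b,u)`), `z = ζ • z'`
  with `z' ∈ N(b,u)`, `DD_phase_right`, so `v ∈ Tg .. (some z')`, contradiction. The pair: `v ∈ Tg .. none`.
-/

set_option autoImplicit false

open Polynomial ComplexConjugate Filter Topology

namespace Pool.Agent.H84.LG

open Pool.H70.SF Pool.Agent.H85.LD Pool.H91.SR Pool.Agent.H70.PL Pool.Agent.H47.SR

variable {d : ℕ} {A e CN σ : ℝ} {s : Finset ℂ} {w : ℂ → ℝ} {Xs X : CV d}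

/-- the critical points of the static map near a point of the sphere -/
theorem nz_near (h : Ctx A e CN d s w Xs) {y : ℂ × ℂ} (hy : IsU y) : ∃ N : Finset (ℂ × ℂ),
    (N.card : ℝ) ≤ CN * LL d ∧ (∀ z ∈ N, IsU z) ∧ ∀ z, IsU z → JJ Xs z = 0 → DD d y z ≤ 1 / 4 →
      ∃ z' ∈ N, ∃ ζ : ℂ, ‖ζ‖ = 1 ∧ z = ζ • z' := by
  classical
  have hc0 : 0 ≤ c1 * hh d := mul_nonneg (by unfold c1; norm_num) (hh_pos h.d1).le
  obtain ⟨b, hb, u0, z0, hu0, hz0, hy0⟩ := exists_pt h.d1 h.wor.cov hy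
  obtain ⟨Z, hZc, hZ⟩ := h.cnt Xs (by
    rw [sub_self]
    exact Amp_mono h.wor.wgt.pos hc0 (Amp_zero s w)) b hb
  refine ⟨Z.image (pt d b), ?_, ?_, ?_⟩
  · exact le_trans (by exact_mod_cast Finset.card_image_le) hZc
  · intro z hz
    obtain ⟨v, _, rfl⟩ := Finset.mem_image.1 hz
    exact pt_unit d b v
  · intro z hz hJ hD
    obtain ⟨u', z', hz', hy', hu', _, _⟩ := chart_near h.d1 hu0 hz0 hy0 hz hD
    refine ⟨pt d b u', Finset.mem_image_of_mem _ (hZ u' (by linarith) ?_), z', hz', hy'⟩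
    rw [← JJ_pt_iff h.d1, ← JJ_phase Xs hz', ← hy']
    exact hJ

/-- the perturbation `Y` avoids the targets -/
def Avo (e σ : ℝ) (s : Finset ℂ) (w : ℂ → ℝ) (Xs X Y : CV d) : Prop :=
  ∀ b ∈ s, ∀ u : ℂ, ‖u‖ ≤ 1 / 2 → JJ X (pt d b u) = 0 → ∀ J, IsJ e σ s w X (pt d b u) J → ∀ c', IsU c' →
    DD d (ob (X + Y) c' 0) (ob X (pt d b u) 0) ≤ D0 σ s w X (pt d b u) →
    ‖chi (FF X (pt d b u)) (FF (X + Y) c') - ee (Fb X b u) (Fb Y b u)‖ ≤
      be e d ^ 4 * σ * (w b / nm (Fb X b u)) →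
    (∀ z, IsU z → JJ Xs z = 0 → DD d (ob X (pt d b u) J) z ≤ 1 / 4 →
      rh e σ s w X (pt d b u) J < DD d (ob (X + Y) c' J) z) ∧
    (1 ≤ J → rh e σ s w X (pt d b u) J < DD d (ob (X + Y) c' J) (ob (X + Y) c' (J - pp J)))

theorem avo (h : Stg A e CN σ s w Xs X) : ∃ Y : CV d, Amp s w (cY * σ) Y ∧ Avo e σ s w Xs X Y := by
  classical
  have hctx := h.ctx
  have hd := hctx.d1
  have hamp := amp1 h
  have hbe := hctx.bpos
  have hL := hctx.L1
  have hCN := hctx.CN1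
  have hwp := hctx.wor.wgt.pos
  -- the finite sets of critical points
  have hZ0 : ∀ b : ℂ, ∃ Z : Finset ℂ, b ∈ s → ((Z.card : ℝ) ≤ CN * LL d ∧
      ∀ u : ℂ, ‖u‖ ≤ 5 / 4 → Jc (Fb X b) u = 0 → u ∈ Z) := by
    intro b
    by_cases hb : b ∈ s
    · obtain ⟨Z, h1, h2⟩ := hctx.cnt X hamp b hb
      exact ⟨Z, fun _ => ⟨h1, h2⟩⟩
    · exact ⟨∅, fun hb' => absurd hb' hb⟩
  choose Z hZ using hZ0
  -- the index to be treated
  have hJ0 : ∀ b u : ℂ, ∃ J0 : ℕ, ∀ J, IsJ e σ s w X (pt d b u) J → J = J0 := by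
    intro b u
    by_cases hex : ∃ J, IsJ e σ s w X (pt d b u) J
    · obtain ⟨J1, hJ1⟩ := hex
      exact ⟨J1, fun J hJ => IsJ_uniq hJ hJ1⟩
    · exact ⟨0, fun J hJ => absurd ⟨J, hJ⟩ hex⟩
  choose J0 hJ0 using hJ0
  -- the critical points of the static map near the orbit point
  have hN0 : ∀ b u : ℂ, ∃ N : Finset (ℂ × ℂ), (N.card : ℝ) ≤ CN * LL d ∧ (∀ z ∈ N, IsU z) ∧
      ∀ z, IsU z → JJ Xs z = 0 → DD d (ob X (pt d b u) (J0 b u)) z ≤ 1 / 4 →
        ∃ z' ∈ N, ∃ ζ : ℂ, ‖ζ‖ = 1 ∧ z = ζ • z' :=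
    fun b u => nz_near hctx (isU_ob hctx hamp (pt_unit d b u) (J0 b u))
  choose N hN1 hN2 hN3 using hN0
  obtain ⟨I, hI⟩ : ∃ I : ℂ → Finset (ℂ × Option (ℂ × ℂ)), ∀ b, I b =
      ((Z b).filter (fun u => ‖u‖ ≤ 1 / 2 ∧ JJ X (pt d b u) = 0)).biUnion
        (fun u => insert (u, none) ((N b u).image (fun z => (u, some z)))) := ⟨_, fun _ => rfl⟩
  have hIm : ∀ b, ∀ i ∈ I b, ‖i.1‖ ≤ 1 / 2 ∧ JJ X (pt d b i.1) = 0 := by
    intro b i hi
    rw [hI, Finset.mem_biUnion] at hi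
    obtain ⟨u, hu, hi⟩ := hi
    have hu' := (Finset.mem_filter.1 hu).2
    rcases Finset.mem_insert.1 hi with h1 | h1
    · rw [h1]
      exact hu'
    · obtain ⟨z, _, hz⟩ := Finset.mem_image.1 h1
      rw [← hz]
      exact hu'
  have hIn : ∀ b ∈ s, ∀ u : ℂ, ‖u‖ ≤ 1 / 2 → JJ X (pt d b u) = 0 → (u, none) ∈ I b ∧
      ∀ z ∈ N b u, (u, some z) ∈ I b := by
    intro b hb u hu hJ
    have h1 : u ∈ (Z b).filter (fun u => ‖u‖ ≤ 1 / 2 ∧ JJ X (pt d b u) = 0) := by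
      rw [Finset.mem_filter]
      exact ⟨(hZ b hb).2 u (by linarith) ((JJ_pt_iff hd X b u).1 hJ), hu, hJ⟩
    rw [hI]
    refine ⟨Finset.mem_biUnion.2 ⟨u, h1, Finset.mem_insert_self _ _⟩, fun z hz => ?_⟩
    exact Finset.mem_biUnion.2 ⟨u, h1, Finset.mem_insert_of_mem (Finset.mem_image_of_mem _ hz)⟩
  have hCL : 0 ≤ CN * LL d := mul_nonneg (by linarith) (by linarith)
  have hcard : ∀ b ∈ s, (I b).card ≤ ⌊(CN * LL d) * (CN * LL d + 1)⌋₊ := by
    intro b hb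
    apply Nat.le_floor
    have h1 : ((I b).card : ℝ) ≤ ∑ u ∈ (Z b).filter (fun u => ‖u‖ ≤ 1 / 2 ∧ JJ X (pt d b u) = 0), (CN * LL d + 1) := by
      rw [hI]
      refine le_trans (Nat.cast_le.2 Finset.card_biUnion_le) ?_
      push_cast
      refine Finset.sum_le_sum fun u _ => ?_
      have h2 : ((insert (u, (none : Option (ℂ × ℂ))) ((N b u).image (fun z => (u, some z)))).card : ℝ) ≤
          ((N b u).card : ℝ) + 1 := by
        have h3 := Finset.card_insert_le (u, (none : Option (ℂ × ℂ))) ((N b u).image (fun z => (u, some z)))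
        have h4 := Finset.card_image_le (s := N b u) (f := fun z => (u, some z))
        exact_mod_cast h3.trans (Nat.add_le_add_right h4 1)
      exact h2.trans (by linarith [hN1 b u])
    rw [Finset.sum_const, nsmul_eq_mul] at h1
    refine h1.trans (mul_le_mul_of_nonneg_right ?_ (by linarith))
    refine le_trans ?_ (hZ b hb).1
    exact_mod_cast Finset.card_filter_le _ _
  have hnm : ∀ b ∈ s, ∀ u : ℂ, ‖u‖ ≤ 1 / 2 → 0 < nm (Fb X b u) :=
    fun b hb u hu => (nm_low hctx hamp hb (by linarith)).2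
  obtain ⟨F, hF, hav⟩ := avoid d hd s hctx.wor.sep ⌈1 / be e d⌉₊ ⌊(CN * LL d) * (CN * LL d + 1)⌋₊
    (by
      rw [Nat.one_le_ceil_iff]
      positivity) (TT d) (by unfold TT; linarith) (2 * 10 ^ 18 * be e d) (by positivity)
    (by
      have h1 : 1 / be e d ≤ (⌈1 / be e d⌉₊ : ℝ) := Nat.le_ceil _
      have h2 : 2 * 10 ^ 18 * be e d * (1 / be e d) ≤ 2 * 10 ^ 18 * be e d * (⌈1 / be e d⌉₊ : ℝ) :=
        mul_le_mul_of_nonneg_left h1 (by positivity)
      have h3 : 2 * 10 ^ 18 * be e d * (1 / be e d) = 2 * 10 ^ 18 := by field_simp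
      rw [h3] at h2
      refine le_trans ?_ h2
      norm_num) I hcard
    (fun b i c => alf X σ w b i.1 c) (fun b i => Tg e σ s w X b i.1 i.2) (fun b i => σ * (w b / nm (Fb X b i.1)) / 2)
    (by
      intro b hb i hi
      have h1 := hnm b hb i.1 (hIm b i hi).1
      have h2 := h.spos
      have h3 := hwp b
      positivity)
    (by
      intro b hb i hi
      exact alf_own hd X h.spos (hwp b) (hnm b hb i.1 (hIm b i hi).1))
    (by
      intro b hb i hi x hx y hy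
      refine (Tg_diam h hb (hIm b i hi).1 (hIm b i hi).2 i.2 hx hy).trans (le_of_eq ?_)
      ring)
    (by
      refine le_trans ?_ hctx.lll
      have h1 : (⌊(CN * LL d) * (CN * LL d + 1)⌋₊ : ℝ) ≤ (CN * LL d) * (CN * LL d + 1) :=
        Nat.floor_le (mul_nonneg hCL (by linarith))
      have h2 : (⌊(CN * LL d) * (CN * LL d + 1)⌋₊ : ℝ) ≤ (CN * LL d) * (CN * LL d + 2) :=
        h1.trans (mul_le_mul_of_nonneg_left (by linarith) hCL)
      refine mul_le_mul_of_nonneg_right ?_ (by positivity)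
      refine mul_le_mul_of_nonneg_left ?_ (by norm_num)
      exact mul_le_mul_of_nonneg_right h2 (by positivity))
  obtain ⟨Y, hY⟩ : ∃ Y : CV d, Y = (σ : ℂ) • YY d s w F := ⟨_, rfl⟩
  have hAmp : Amp s w (cY * σ) Y := by
    rw [hY]
    exact Amp_YY hd hctx.wor.sep hctx.wor.wgt F hF h.spos.le
  refine ⟨Y, hAmp, ?_⟩
  intro b hb u hu hJJ J hJ c' hc' hD hchi
  obtain ⟨v, hv⟩ : ∃ v : ℂ, v = ∑ c ∈ s.filter (fun c => √d * sg b c ≤ TT d),
      ((alf X σ w b u c).1 * (F c).1 + (alf X σ w b u c).2 * (F c).2) := ⟨_, rfl⟩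
  have hn := hnm b hb u hu
  have hcut := ee_cut hd hctx.wor.sep hctx.wor.wgt X h.spos.le F hF b (u := u) (by linarith) hn
    (T := TT d) (by unfold TT; linarith)
  rw [← hY, ← hv] at hcut
  have hW0 : 0 ≤ σ * (w b / nm (Fb X b u)) := by
    have h2 := h.spos
    have h3 := hwp b
    positivity
  have hchi' : ‖chi (FF X (pt d b u)) (FF (X + Y) c') - v‖ ≤ 2 * be e d ^ 4 * σ * (w b / nm (Fb X b u)) := by
    have h1 : chi (FF X (pt d b u)) (FF (X + Y) c') - v =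
        (chi (FF X (pt d b u)) (FF (X + Y) c') - ee (Fb X b u) (Fb Y b u)) + (ee (Fb X b u) (Fb Y b u) - v) := by ring
    rw [h1]
    refine (norm_add_le _ _).trans ?_
    have h2 : σ * (2 * 10 ^ 15 * Real.exp (-(2 * TT d))) * (w b / nm (Fb X b u)) ≤
        be e d ^ 4 * (σ * (w b / nm (Fb X b u))) := by
      have h3 : 2 * 10 ^ 15 * Real.exp (-(2 * TT d)) ≤ be e d ^ 4 := by
        have h4 := Real.exp_pos (-(2 * TT d))
        linarith [hctx.tail]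
      have h5 := mul_le_mul_of_nonneg_right h3 hW0
      linarith
    linarith
  have hJe := hJ0 b u J hJ
  obtain ⟨hm0, hm1⟩ := hIn b hb u hu hJJ
  constructor
  · intro z hz hzJ hDz
    by_contra hcon
    rw [not_lt] at hcon
    rw [hJe] at hDz
    obtain ⟨z', hz'N, ζ, hζ, hzz⟩ := hN3 b u z hz hzJ hDz
    refine hav b hb (u, some z') (hm1 z' hz'N) ?_
    show _ ∈ Tg e σ s w X b u (some z')
    have h5 : v ∈ Tg e σ s w X b u (some z') := by
      refine ⟨J, Y, c', hJ, hAmp, hc', hD, hchi', hN2 b u z' hz'N, ?_⟩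
      rw [hzz, DD_phase_right hζ] at hcon
      exact hcon
    rw [hv] at h5
    exact h5
  · intro hJ1
    by_contra hcon
    rw [not_lt] at hcon
    refine hav b hb (u, none) hm0 ?_
    show _ ∈ Tg e σ s w X b u none
    have h5 : v ∈ Tg e σ s w X b u none := ⟨J, Y, c', hJ, hAmp, hc', hD, hchi', hJ1, hcon⟩
    rw [hv] at h5
    exact h5

end Pool.Agent.H84.LG
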