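import Pool.Agent.H84.LG.Def
import Pool.Agent.H47.SF.Cht

/-!
[H84 LG BAS]  POLYLOG RATE (copy of the module of SHARP RATE), piece 5: basic facts in homogeneous coordinates (linearity in `X`, cell distance, phases of
orbits, the affine coordinate `chi`).

Proofs. Linearity: unfold. `DD_tri`: `Pool.Agent.H47.SF.tri`. `ob_phase`: induction with `nx_phase`
(`Pool.Agent.H47.SR`), `ob X c 0 = nx X c`, `ob X c (l+1) = nx X (ob X c l)`. `Ph_phase`: `aa_phase`, `ob_phase`.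
`EE_phase`: `WW` contains only `‖wd‖` (`wd_smul_left`), `FF_smul`, `nm_smul`.
`chi_dist`: with the unit vector `e = a/|a|` `frame` gives `|a|² wd G1 G2 = pr G1 a wd a G2 - wd a G1 pr G2 a`, so
`chi a G1 - chi a G2 = -|a|² wd G1 G2 / (pr G1 a pr G2 a)`; `lag`: `‖pr G a‖² = |G|²|a|² - ‖wd G a‖² ≥ 3/4 |G|²|a|²`.
-/

set_option autoImplicit false

open Polynomial ComplexConjugate Filter Topology

namespace Pool.Agent.H84.LG

open Pool.H70.SF Pool.Agent.H85.LD Pool.H91.SR Pool.Agent.H70.PL Pool.Agent.H47.SR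

variable {d : ℕ}

theorem hev_add (p q : Fin (d + 1) → ℂ) (u : ℂ × ℂ) : hev (p + q) u = hev p u + hev q u := by
  unfold hev
  rw [← Finset.sum_add_distrib]
  refine Finset.sum_congr rfl fun k _ => ?_
  simp only [Pi.add_apply]
  ring

theorem hev_sub (p q : Fin (d + 1) → ℂ) (u : ℂ × ℂ) : hev (p - q) u = hev p u - hev q u := by
  unfold hev
  rw [← Finset.sum_sub_distrib]
  refine Finset.sum_congr rfl fun k _ => ?_
  simp only [Pi.sub_apply]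
  ring

theorem hev_csmul (a : ℂ) (p : Fin (d + 1) → ℂ) (u : ℂ × ℂ) : hev (a • p) u = a * hev p u := by
  unfold hev
  rw [Finset.mul_sum]
  refine Finset.sum_congr rfl fun k _ => ?_
  simp only [Pi.smul_apply, smul_eq_mul]
  ring

theorem FF_add (X Y : CV d) (u : ℂ × ℂ) : FF (X + Y) u = FF X u + FF Y u := by
  unfold FF
  simp only [Prod.fst_add, Prod.snd_add, hev_add, Prod.mk_add_mk]

theorem FF_sub (X Y : CV d) (u : ℂ × ℂ) : FF (X - Y) u = FF X u - FF Y u := by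
  unfold FF
  simp only [Prod.fst_sub, Prod.snd_sub, hev_sub, Prod.mk_sub_mk]

theorem FF_csmul (a : ℂ) (X : CV d) (u : ℂ × ℂ) : FF (a • X) u = a • FF X u := by
  unfold FF
  simp only [Prod.smul_fst, Prod.smul_snd, hev_csmul, Prod.smul_mk, smul_eq_mul]

theorem Fb_add (X Y : CV d) (b u : ℂ) : Fb (X + Y) b u = Fb X b u + Fb Y b u := FF_add X Y _

theorem Fb_sub (X Y : CV d) (b u : ℂ) : Fb (X - Y) b u = Fb X b u - Fb Y b u := FF_sub X Y _

theorem Fb_csmul (a : ℂ) (X : CV d) (b u : ℂ) : Fb (a • X) b u = a • Fb X b u := FF_csmul a X _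

theorem Amp_add {s : Finset ℂ} {w : ℂ → ℝ} {a a' : ℝ} {X Y : CV d} (hX : Amp s w a X) (hY : Amp s w a' Y) :
    Amp s w (a + a') (X + Y) := by
  intro b hb u hu
  rw [Fb_add, add_mul]
  exact (nm_add _ _).trans (add_le_add (hX b hb u hu) (hY b hb u hu))

theorem Amp_mono {s : Finset ℂ} {w : ℂ → ℝ} (hw : ∀ b, 0 < w b) {a a' : ℝ} (h : a ≤ a') {X : CV d}
    (hX : Amp s w a X) : Amp s w a' X := by
  intro b hb u hu
  exact (hX b hb u hu).trans (mul_le_mul_of_nonneg_right h (hw b).le)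

theorem Amp_zero (s : Finset ℂ) (w : ℂ → ℝ) : Amp s w 0 (0 : CV d) := by
  intro b _ u _
  have h : Fb (0 : CV d) b u = 0 := by
    unfold Fb FF hev
    simp
  rw [h, (nm_eq_zero _).2 rfl, zero_mul]

/-- unit vectors and phases -/
theorem isU_phase {z : ℂ} (hz : ‖z‖ = 1) {y : ℂ × ℂ} (hy : IsU y) : IsU (z • y) := by
  show n2 _ = 1
  rw [Pool.Agent.H47.SF.n2_smul, hz, one_pow, one_mul]
  exact hy

theorem DD_nonneg (y z : ℂ × ℂ) : 0 ≤ DD d y z := mul_nonneg (Real.sqrt_nonneg _) (norm_nonneg _)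

theorem DD_comm (y z : ℂ × ℂ) : DD d y z = DD d z y := by
  unfold DD
  rw [Pool.Agent.H47.SF.wd_comm]

theorem DD_tri {x y z : ℂ × ℂ} (hx : IsU x) (hy : IsU y) (hz : IsU z) : DD d x z ≤ DD d x y + DD d y z := by
  unfold DD
  rw [← mul_add]
  exact mul_le_mul_of_nonneg_left (Pool.Agent.H47.SF.tri hx hy hz) (Real.sqrt_nonneg _)

theorem DD_phase {z1 z2 : ℂ} (h1 : ‖z1‖ = 1) (h2 : ‖z2‖ = 1) (y1 y2 : ℂ × ℂ) :
    DD d (z1 • y1) (z2 • y2) = DD d y1 y2 := by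
  unfold DD
  rw [wd_phase h1 h2]

theorem DD_phase_left {z1 : ℂ} (h1 : ‖z1‖ = 1) (y1 y2 : ℂ × ℂ) : DD d (z1 • y1) y2 = DD d y1 y2 := by
  have h := DD_phase (d := d) h1 (norm_one (α := ℂ)) y1 y2
  rwa [one_smul] at h

theorem DD_phase_right {z2 : ℂ} (h2 : ‖z2‖ = 1) (y1 y2 : ℂ × ℂ) : DD d y1 (z2 • y2) = DD d y1 y2 := by
  rw [DD_comm, DD_phase_left h2, DD_comm]

/-- orbits of a point with another phase -/
theorem ob_phase (X : CV d) {z : ℂ} (hz : ‖z‖ = 1) (c : ℂ × ℂ) (j : ℕ) :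
    ∃ ζ : ℂ, ‖ζ‖ = 1 ∧ ob X (z • c) j = ζ • ob X c j := by
  induction j with
  | zero =>
    refine ⟨z ^ d, by rw [norm_pow, hz, one_pow], ?_⟩
    show nx X (z • c) = _
    rw [nx_phase X hz]
    rfl
  | succ j ih =>
    obtain ⟨ζ, h1, h2⟩ := ih
    refine ⟨ζ ^ d, by rw [norm_pow, h1, one_pow], ?_⟩
    show nx X (ob X (z • c) j) = _
    rw [h2, nx_phase X h1]
    rfl

theorem Ph_phase (X : CV d) {z : ℂ} (hz : ‖z‖ = 1) (c : ℂ × ℂ) (j : ℕ) : Ph X (z • c) j = Ph X c j := by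
  unfold Ph al
  refine Finset.prod_congr rfl fun l _ => ?_
  obtain ⟨ζ, h1, h2⟩ := ob_phase X hz c l
  rw [h2, aa_phase X h1]

theorem WW_phase (s : Finset ℂ) (w : ℂ → ℝ) {z : ℂ} (hz : ‖z‖ = 1) (c : ℂ × ℂ) : WW d s w (z • c) = WW d s w c := by
  unfold WW
  refine Finset.sum_congr rfl fun b _ => ?_
  rw [DD_phase_left hz]

theorem EE_phase (s : Finset ℂ) (w : ℂ → ℝ) (X : CV d) {z : ℂ} (hz : ‖z‖ = 1) (c : ℂ × ℂ) :
    EE s w X (z • c) = EE s w X c := by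
  unfold EE
  rw [WW_phase s w hz, Pool.Agent.H47.SF.FF_smul, nm_smul, norm_pow, hz, one_pow, one_mul]

theorem xx_phase (Cx σ : ℝ) (s : Finset ℂ) (w : ℂ → ℝ) (X : CV d) {z : ℂ} (hz : ‖z‖ = 1) (c : ℂ × ℂ) (j : ℕ) :
    xx Cx σ s w X (z • c) j = xx Cx σ s w X c j := by
  unfold xx
  rw [EE_phase s w X hz, Ph_phase X hz]

theorem Gd_phase (Xs : CV d) (δ : ℝ) {z : ℂ} (hz : ‖z‖ = 1) (y : ℂ × ℂ) : Gd Xs δ (z • y) ↔ Gd Xs δ y := by
  unfold Gd
  simp only [DD_phase_left hz]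

theorem JJ_phase (X : CV d) {z : ℂ} (hz : ‖z‖ = 1) (y : ℂ × ℂ) : JJ X (z • y) = 0 ↔ JJ X y = 0 := by
  rw [Pool.Agent.H47.SF.JJ_smul]
  have h : z ≠ 0 := by
    rintro rfl
    rw [norm_zero] at hz
    exact zero_ne_one hz
  constructor
  · intro h1
    rcases mul_eq_zero.1 h1 with h2 | h2
    · exact absurd h2 (pow_ne_zero _ h)
    · exact h2
  · intro h1
    rw [h1, mul_zero]

private theorem nsqc (a : ℂ × ℂ) : ((nm a ^ 2 : ℝ) : ℂ) = a.1 * conj a.1 + a.2 * conj a.2 := by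
  rw [nm_sq, Complex.mul_conj, Complex.mul_conj, Complex.normSq_eq_norm_sq, Complex.normSq_eq_norm_sq]
  push_cast
  ring

theorem n2_eq (a : ℂ × ℂ) : n2 a = nm a ^ 2 := by
  rw [nm_sq]
  rfl

/-- the wedge of two directions in terms of a third vector -/
theorem wd_frame (a G1 G2 : ℂ × ℂ) :
    ((nm a ^ 2 : ℝ) : ℂ) * wd G1 G2 = pr G1 a * wd a G2 - wd a G1 * pr G2 a := by
  rw [nsqc]
  unfold pr wd
  ring

/-- the scalar product is not small when the directions are close -/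
theorem pr_low {a G : ℂ × ℂ} (w1 : ‖wd a G‖ ≤ 1 / 2 * (nm a * nm G)) : 4 / 5 * (nm a * nm G) ≤ ‖pr G a‖ := by
  have h := lag G a
  have h1 : ‖wd G a‖ = ‖wd a G‖ := Pool.Agent.H47.SF.wd_comm G a
  rw [h1] at h
  have ha := nm_nonneg a
  have hG := nm_nonneg G
  have h0 : 0 ≤ nm a * nm G := mul_nonneg ha hG
  have h2 : ‖wd a G‖ ^ 2 ≤ (1 / 2 * (nm a * nm G)) ^ 2 := pow_le_pow_left₀ (norm_nonneg _) w1 2
  apply le_of_sq_le_sq _ (norm_nonneg _)
  nlinarith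

/-- two values of the affine coordinate -/
theorem chi_dist {a G1 G2 : ℂ × ℂ} (ha : 0 < nm a) (h1 : 0 < nm G1) (h2 : 0 < nm G2)
    (w1 : ‖wd a G1‖ ≤ 1 / 2 * (nm a * nm G1)) (w2 : ‖wd a G2‖ ≤ 1 / 2 * (nm a * nm G2)) :
    ‖chi a G1 - chi a G2‖ ≤ 2 * (‖wd G1 G2‖ / (nm G1 * nm G2)) := by
  have p1 := pr_low w1
  have p2 := pr_low w2
  have q1 : 0 < ‖pr G1 a‖ := lt_of_lt_of_le (by positivity) p1
  have q2 : 0 < ‖pr G2 a‖ := lt_of_lt_of_le (by positivity) p2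
  have r1 : pr G1 a ≠ 0 := norm_pos_iff.1 q1
  have r2 : pr G2 a ≠ 0 := norm_pos_iff.1 q2
  have h := wd_frame a G1 G2
  have e : chi a G1 - chi a G2 = -(((nm a ^ 2 : ℝ) : ℂ) * wd G1 G2) / (pr G1 a * pr G2 a) := by
    unfold chi
    rw [h]
    field_simp
    ring
  rw [e, norm_div, norm_neg, norm_mul, norm_mul, Complex.norm_real, Real.norm_of_nonneg (by positivity),
    div_le_iff₀ (by positivity)]
  have h3 : 4 / 5 * (nm a * nm G1) * (4 / 5 * (nm a * nm G2)) ≤ ‖pr G1 a‖ * ‖pr G2 a‖ :=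
    mul_le_mul p1 p2 (by positivity) q1.le
  have h4 : 2 * (‖wd G1 G2‖ / (nm G1 * nm G2)) * (4 / 5 * (nm a * nm G1) * (4 / 5 * (nm a * nm G2))) ≤
      2 * (‖wd G1 G2‖ / (nm G1 * nm G2)) * (‖pr G1 a‖ * ‖pr G2 a‖) :=
    mul_le_mul_of_nonneg_left h3 (by positivity)
  refine le_trans ?_ h4
  have h5 : 2 * (‖wd G1 G2‖ / (nm G1 * nm G2)) * (4 / 5 * (nm a * nm G1) * (4 / 5 * (nm a * nm G2))) =
      32 / 25 * (nm a ^ 2 * ‖wd G1 G2‖) := by
    field_simp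
    ring
  rw [h5]
  have h6 : 0 ≤ nm a ^ 2 * ‖wd G1 G2‖ := by positivity
  linarith

/-- `chi` does not change when the vectors are multiplied by positive numbers -/
theorem chi_smul (a G : ℂ × ℂ) {r : ℝ} (hr : 0 < r) {z : ℂ} (hz : z ≠ 0) : chi ((r : ℂ) • a) (z • G) = chi a G := by
  have hr' : (r : ℂ) ≠ 0 := by exact_mod_cast hr.ne'
  unfold chi wd pr
  simp only [Prod.smul_fst, Prod.smul_snd, smul_eq_mul, map_mul, Complex.conj_ofReal]
  rw [show (r : ℂ) * a.1 * (z * G.2) - (r : ℂ) * a.2 * (z * G.1) = ((r : ℂ) * z) * (a.1 * G.2 - a.2 * G.1) by ring,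
    show z * G.1 * ((r : ℂ) * conj a.1) + z * G.2 * ((r : ℂ) * conj a.2) =
      ((r : ℂ) * z) * (G.1 * conj a.1 + G.2 * conj a.2) by ring]
  exact mul_div_mul_left _ _ (mul_ne_zero hr' hz)

/-- `ee` is invariant under a common positive factor -/
theorem ee_smul (a y : ℂ × ℂ) {r : ℝ} (hr : 0 < r) : ee ((r : ℂ) • a) ((r : ℂ) • y) = ee a y := by
  have hr' : (r : ℂ) ≠ 0 := by exact_mod_cast hr.ne'
  unfold ee
  rw [Pool.Agent.H47.SF.n2_smul, Complex.norm_real, Real.norm_of_nonneg hr.le]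
  unfold wd
  simp only [Prod.smul_fst, Prod.smul_snd, smul_eq_mul]
  push_cast
  rw [show (r : ℂ) * a.1 * ((r : ℂ) * y.2) - (r : ℂ) * a.2 * ((r : ℂ) * y.1) =
    (r : ℂ) ^ 2 * (a.1 * y.2 - a.2 * y.1) by ring]
  exact mul_div_mul_left _ _ (pow_ne_zero _ hr')

theorem ee_le (a y : ℂ × ℂ) (ha : 0 < nm a) : ‖ee a y‖ ≤ nm y / nm a := by
  unfold ee
  rw [norm_div, Complex.norm_real, n2_eq, Real.norm_of_nonneg (by positivity), div_le_div_iff₀ (by positivity) ha]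
  have h := mul_le_mul_of_nonneg_right (wd_le a y) ha.le
  linarith

end Pool.Agent.H84.LG
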