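import Mathlib

/-!
POLYLOG RATE (MP_8f2e1c_an), piece 3, module ALG: pure algebra of complex numbers close to a positive real number.

Divide everything by `a` (as in `cvd_alg2` of `H44/SR/CVD`), so `a = 1`, `y ≤ η/50 ≤ 1/5000`. Let `h0 = bc/ac`, `h1 = B1/A1`. Then
`ac * B1 - bc * A1 = ac * A1 * (h1 - h0)`, `A1 * conj ac + B1 * conj bc = A1 * conj ac * (1 + h1 * conj h0)`, and
`‖h0‖, ‖h1‖ ≤ (53/100) η/(1 - (53/100) η) ≤ 0.54 η`, so `‖h1 * conj h0‖ ≤ 0.3 η² ≤ 0.003 η`. The first quotient is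
`(ac/conj ac) (h1 - h0)/(1 + h1 conj h0)` with `‖ac/conj ac - 1‖ = ‖ac - conj ac‖/‖ac‖ ≤ 1.07 η` and `‖h1 - h0‖ ≤ y + 12 η y ≤ 1.12 y`,
`‖(h1 - h0) - yb‖ ≤ 12 η y`; so it differs from `yb` by at most `12 η y + 1.12 y (1.07 η + 0.01 η) 1.1 ≤ 14 η y`. The second quotient:
`‖ac yb' - bc ya' - yb (‖ac‖² + ‖bc‖²)‖ ≤ ‖ac‖ ‖yb' - yb‖ + ‖yb‖ ‖ac‖ ‖1 - conj ac‖ + ‖bc‖ ‖ya'‖ + ‖yb‖ ‖bc‖² ≤ 3 η y`, and
`‖ac‖² + ‖bc‖² ≥ 0.98`; it differs from `yb` by at most `4 η y`. Total `18 η y ≤ 80 η y`.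
-/

set_option autoImplicit false

open ComplexConjugate

namespace Pool.Agent.H84.LG.CV

private theorem cvd_quo {N D x : ℂ} {E k : ℝ} (hk : 0 < k) (hD : k ≤ ‖D‖) (h : ‖N - x * D‖ ≤ E * k) :
    ‖N / D - x‖ ≤ E := by
  have hD0 : 0 < ‖D‖ := lt_of_lt_of_le hk hD
  have hD1 : D ≠ 0 := norm_pos_iff.1 hD0
  have h1 : N / D - x = (N - x * D) / D := by field_simp
  have hE : 0 ≤ E := by
    by_contra hneg
    push Not at hneg
    have := norm_nonneg (N - x * D)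
    nlinarith
  rw [h1, norm_div, div_le_iff₀ hD0]
  exact h.trans (mul_le_mul_of_nonneg_left hD hE)

private theorem cvd_nsq (z : ℂ) : ((‖z‖ ^ 2 : ℝ) : ℂ) = z * conj z := by
  rw [Complex.mul_conj, Complex.normSq_eq_norm_sq]

private theorem near_one {η : ℝ} {z : ℂ} (hη1 : η ≤ 1 / 100) (h : ‖z - 1‖ ≤ 53 / 100 * η) :
    ‖z‖ ≤ 10053 / 10000 ∧ 9947 / 10000 ≤ ‖z‖ := by
  constructor
  · have h' := norm_add_le (z - 1) 1
    rw [sub_add_cancel, norm_one] at h'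
    linarith
  · have h' := norm_sub_norm_le (1 : ℂ) (1 - z)
    rw [norm_one, norm_sub_rev 1 z, sub_sub_cancel] at h'
    linarith

private theorem cvd_alg1 {η y : ℝ} {ac bc A1 B1 yb yb' ya' : ℂ} (hη : 0 < η)
    (hη1 : η ≤ 1 / 100) (hy : 0 ≤ y) (hya : y ≤ η / 50)
    (h1 : ‖ac - 1‖ ≤ 53 / 100 * η) (h2 : ‖bc‖ ≤ 53 / 100 * η)
    (h3 : ‖A1 - 1‖ ≤ 53 / 100 * η) (h4 : ‖B1‖ ≤ 53 / 100 * η)
    (h5 : ‖B1 / A1 - bc / ac - yb‖ ≤ 12 * η * y)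
    (h6 : ‖yb‖ ≤ y) (h7 : ‖ya'‖ ≤ y) (h8 : ‖yb' - yb‖ ≤ η * y) :
    98 / 100 ≤ ‖A1 * conj ac + B1 * conj bc‖ ∧
    ‖(ac * B1 - bc * A1) / (A1 * conj ac + B1 * conj bc) -
      (ac * yb' - bc * ya') / ((‖ac‖ ^ 2 + ‖bc‖ ^ 2 : ℝ) : ℂ)‖ ≤ 80 * η * y := by
  have hηy : 0 ≤ η * y := mul_nonneg hη.le hy
  obtain ⟨ha1, ha2⟩ := near_one hη1 h1
  obtain ⟨hA1, hA2⟩ := near_one hη1 h3
  have hca : ‖conj ac‖ = ‖ac‖ := by rw [RCLike.norm_conj]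
  have hcb : ‖conj bc‖ = ‖bc‖ := by rw [RCLike.norm_conj]
  have hb : ‖bc‖ ≤ 53 / 10000 := by linarith
  have hB : ‖B1‖ ≤ 53 / 10000 := by linarith
  have ha0 := norm_nonneg ac
  have hb0 := norm_nonneg bc
  have hA0 := norm_nonneg A1
  have hB0 := norm_nonneg B1
  have hy0 := norm_nonneg yb
  have hac : ac ≠ 0 := by
    intro h
    rw [h, norm_zero] at ha2
    norm_num at ha2
  have hA : A1 ≠ 0 := by
    intro h
    rw [h, norm_zero] at hA2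
    norm_num at hA2
  have hBb : ‖B1 * conj bc‖ ≤ 53 / 10000 * (53 / 100 * η) := by
    rw [norm_mul, hcb]
    exact mul_le_mul hB h2 hb0 (by norm_num)
  have hBb' : ‖B1 * conj bc‖ ≤ 1 / 10000 := by
    refine hBb.trans ?_
    linarith
  have hD1 : 98 / 100 ≤ ‖A1 * conj ac + B1 * conj bc‖ := by
    have h := norm_sub_norm_le (A1 * conj ac) (-(B1 * conj bc))
    rw [norm_neg, sub_neg_eq_add, norm_mul, hca] at h
    have h' : 9947 / 10000 * (9947 / 10000) ≤ ‖A1‖ * ‖ac‖ := mul_le_mul hA2 ha2 (by norm_num) hA0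
    linarith
  refine ⟨hD1, ?_⟩
  have e1 : ‖(ac * B1 - bc * A1) / (A1 * conj ac + B1 * conj bc) - yb‖ ≤ 14 * (η * y) := by
    refine cvd_quo (k := 98 / 100) (by norm_num) hD1 ?_
    have hid : ac * B1 - bc * A1 - yb * (A1 * conj ac + B1 * conj bc) =
        ac * A1 * (B1 / A1 - bc / ac - yb) + yb * A1 * ((ac - 1) - conj (ac - 1)) -
          yb * (B1 * conj bc) := by
      rw [map_sub, map_one]
      field_simp
      ring
    rw [hid]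
    have n1 : ‖ac * A1 * (B1 / A1 - bc / ac - yb)‖ ≤
        10053 / 10000 * (10053 / 10000) * (12 * η * y) := by
      rw [norm_mul, norm_mul]
      exact mul_le_mul (mul_le_mul ha1 hA1 hA0 (by norm_num)) h5 (norm_nonneg _) (by norm_num)
    have n2 : ‖yb * A1 * ((ac - 1) - conj (ac - 1))‖ ≤ y * (10053 / 10000) * (106 / 100 * η) := by
      rw [norm_mul, norm_mul]
      have h := norm_sub_le (ac - 1) (conj (ac - 1))
      rw [RCLike.norm_conj] at h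
      exact mul_le_mul (mul_le_mul h6 hA1 hA0 hy) (by linarith) (norm_nonneg _) (by positivity)
    have n3 : ‖yb * (B1 * conj bc)‖ ≤ y * (53 / 10000 * (53 / 100 * η)) := by
      rw [norm_mul]
      exact mul_le_mul h6 hBb (norm_nonneg _) hy
    refine (norm_sub_le _ _).trans ((add_le_add ((norm_add_le _ _).trans (add_le_add n1 n2)) n3).trans ?_)
    nlinarith
  have e2 : ‖(ac * yb' - bc * ya') / ((‖ac‖ ^ 2 + ‖bc‖ ^ 2 : ℝ) : ℂ) - yb‖ ≤ 4 * (η * y) := by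
    have hD2 : 98 / 100 ≤ ‖((‖ac‖ ^ 2 + ‖bc‖ ^ 2 : ℝ) : ℂ)‖ := by
      rw [Complex.norm_real, Real.norm_of_nonneg (by positivity)]
      nlinarith
    refine cvd_quo (k := 98 / 100) (by norm_num) hD2 ?_
    have hid : ac * yb' - bc * ya' - yb * ((‖ac‖ ^ 2 + ‖bc‖ ^ 2 : ℝ) : ℂ) =
        ac * (yb' - yb) - yb * (ac * conj (ac - 1)) - bc * ya' - yb * (bc * conj bc) := by
      rw [Complex.ofReal_add, cvd_nsq, cvd_nsq, map_sub, map_one]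
      ring
    rw [hid]
    have n1 : ‖ac * (yb' - yb)‖ ≤ 10053 / 10000 * (η * y) := by
      rw [norm_mul]
      exact mul_le_mul ha1 h8 (norm_nonneg _) (by norm_num)
    have n2 : ‖yb * (ac * conj (ac - 1))‖ ≤ y * (10053 / 10000 * (53 / 100 * η)) := by
      rw [norm_mul, norm_mul, RCLike.norm_conj]
      exact mul_le_mul h6 (mul_le_mul ha1 h1 (norm_nonneg _) (by norm_num)) (by positivity) hy
    have n3 : ‖bc * ya'‖ ≤ 53 / 100 * η * y := by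
      rw [norm_mul]
      exact mul_le_mul h2 h7 (norm_nonneg _) (by positivity)
    have n4 : ‖yb * (bc * conj bc)‖ ≤ y * (53 / 10000 * (53 / 100 * η)) := by
      rw [norm_mul, norm_mul, hcb]
      exact mul_le_mul h6 (mul_le_mul hb h2 hb0 (by norm_num)) (by positivity) hy
    refine (norm_sub_le _ _).trans ((add_le_add ((norm_sub_le _ _).trans (add_le_add
      ((norm_sub_le _ _).trans (add_le_add n1 n2)) n3)) n4).trans ?_)
    nlinarith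
  have e3 : (ac * B1 - bc * A1) / (A1 * conj ac + B1 * conj bc) -
      (ac * yb' - bc * ya') / ((‖ac‖ ^ 2 + ‖bc‖ ^ 2 : ℝ) : ℂ) =
      ((ac * B1 - bc * A1) / (A1 * conj ac + B1 * conj bc) - yb) -
      ((ac * yb' - bc * ya') / ((‖ac‖ ^ 2 + ‖bc‖ ^ 2 : ℝ) : ℂ) - yb) := by ring
  rw [e3]
  refine (norm_sub_le _ _).trans ((add_le_add e1 e2).trans ?_)
  nlinarith

theorem cvd_alg {a η y : ℝ} {ac bc A1 B1 yb yb' ya' : ℂ} (ha : 0 < a) (hη : 0 < η)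
    (hη1 : η ≤ 1 / 100) (hy : 0 ≤ y) (hya : y ≤ η / 50 * a)
    (h1 : ‖ac - a‖ ≤ 53 / 100 * η * a) (h2 : ‖bc‖ ≤ 53 / 100 * η * a)
    (h3 : ‖A1 - a‖ ≤ 53 / 100 * η * a) (h4 : ‖B1‖ ≤ 53 / 100 * η * a)
    (h5 : ‖B1 / A1 - bc / ac - yb / a‖ ≤ 12 * η * (y / a))
    (h6 : ‖yb‖ ≤ y) (h7 : ‖ya'‖ ≤ y) (h8 : ‖yb' - yb‖ ≤ η * y) :
    A1 * conj ac + B1 * conj bc ≠ 0 ∧
    ‖(ac * B1 - bc * A1) / (A1 * conj ac + B1 * conj bc) -
      (ac * yb' - bc * ya') / ((‖ac‖ ^ 2 + ‖bc‖ ^ 2 : ℝ) : ℂ)‖ ≤ 80 * η * (y / a) := by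
  have hac : (a : ℂ) ≠ 0 := by exact_mod_cast ha.ne'
  have hna : ‖(a : ℂ)‖ = a := by rw [Complex.norm_real, Real.norm_of_nonneg ha.le]
  have hdiv : ∀ z : ℂ, ∃ x : ℂ, z = a * x := fun z => ⟨z / a, by field_simp⟩
  obtain ⟨ac', rfl⟩ := hdiv ac
  obtain ⟨bc', rfl⟩ := hdiv bc
  obtain ⟨A', rfl⟩ := hdiv A1
  obtain ⟨B', rfl⟩ := hdiv B1
  obtain ⟨yb1, rfl⟩ := hdiv yb
  obtain ⟨ya2, rfl⟩ := hdiv ya'
  obtain ⟨yb2, rfl⟩ := hdiv yb'
  obtain ⟨Y, rfl⟩ : ∃ Y, y = a * Y := ⟨y / a, by field_simp⟩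
  have hY : a * Y / a = Y := by field_simp
  rw [hY] at h5 ⊢
  have g0 : 0 ≤ Y := nonneg_of_mul_nonneg_right hy ha
  have hone : ∀ z : ℂ, ‖(a : ℂ) * z - a‖ ≤ 53 / 100 * η * a → ‖z - 1‖ ≤ 53 / 100 * η := by
    intro z hz
    have h : (a : ℂ) * z - a = a * (z - 1) := by ring
    rw [h, norm_mul, hna] at hz
    have h' : a * ‖z - 1‖ ≤ a * (53 / 100 * η) := hz.trans (le_of_eq (by ring))
    exact le_of_mul_le_mul_left h' ha
  have hsm : ∀ z : ℂ, ‖(a : ℂ) * z‖ ≤ 53 / 100 * η * a → ‖z‖ ≤ 53 / 100 * η := by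
    intro z hz
    rw [norm_mul, hna] at hz
    have h' : a * ‖z‖ ≤ a * (53 / 100 * η) := hz.trans (le_of_eq (by ring))
    exact le_of_mul_le_mul_left h' ha
  have g1 := hone _ h1
  have g2 := hsm _ h2
  have g3 := hone _ h3
  have g4 := hsm _ h4
  rw [mul_div_mul_left _ _ hac, mul_div_mul_left _ _ hac, mul_div_cancel_left₀ _ hac] at h5
  have g6 : ‖yb1‖ ≤ Y := by
    rw [norm_mul, hna] at h6
    exact le_of_mul_le_mul_left h6 ha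
  have g7 : ‖ya2‖ ≤ Y := by
    rw [norm_mul, hna] at h7
    exact le_of_mul_le_mul_left h7 ha
  have g8 : ‖yb2 - yb1‖ ≤ η * Y := by
    rw [← mul_sub, norm_mul, hna] at h8
    have h : a * ‖yb2 - yb1‖ ≤ a * (η * Y) := h8.trans (le_of_eq (by ring))
    exact le_of_mul_le_mul_left h ha
  have g9 : Y ≤ η / 50 := by
    have h : a * Y ≤ a * (η / 50) := hya.trans (le_of_eq (by ring))
    exact le_of_mul_le_mul_left h ha
  obtain ⟨k1, k2⟩ := cvd_alg1 hη hη1 g0 g9 g1 g2 g3 g4 h5 g6 g7 g8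
  have d1 : (a : ℂ) * A' * conj (a * ac') + a * B' * conj (a * bc') =
      (a : ℂ) ^ 2 * (A' * conj ac' + B' * conj bc') := by
    rw [map_mul, map_mul, Complex.conj_ofReal]
    ring
  have d2 : (((‖(a : ℂ) * ac'‖ ^ 2 + ‖(a : ℂ) * bc'‖ ^ 2 : ℝ)) : ℂ) =
      (a : ℂ) ^ 2 * ((‖ac'‖ ^ 2 + ‖bc'‖ ^ 2 : ℝ) : ℂ) := by
    rw [norm_mul, norm_mul, hna]
    push_cast
    ring
  have d3 : (a : ℂ) * ac' * (a * B') - a * bc' * (a * A') =
      (a : ℂ) ^ 2 * (ac' * B' - bc' * A') := by ring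
  have d4 : (a : ℂ) * ac' * (a * yb2) - a * bc' * (a * ya2) =
      (a : ℂ) ^ 2 * (ac' * yb2 - bc' * ya2) := by ring
  have ha2 : (a : ℂ) ^ 2 ≠ 0 := pow_ne_zero 2 hac
  rw [d1, d2, d3, d4, mul_div_mul_left _ _ ha2, mul_div_mul_left _ _ ha2]
  refine ⟨mul_ne_zero ha2 ?_, k2⟩
  intro h
  rw [h, norm_zero] at k1
  norm_num at k1

end Pool.Agent.H84.LG.CV
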