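import Pool.Agent.H84.LG.PF1
import Pool.Agent.H70.PL.Per

/-!
POLYLOG RATE (MP_8f2e1c_an), piece 2, module F1P: (F3) and (F1') for perturbed maps.

`f3`: `nm (F1 - F) ≤ τ w` and `k1 t w ≤ nm F`. `f1p`: `f1` at `u`, `per_J` (`τ ≤ k1 t`): `‖J1 u - J u‖ ≤ 2 τ w (nm (F u) + nm (F' u))`,
and `2 τ ≤ k2 t / 16` (`Kog.fac`).
-/

set_option autoImplicit false

namespace Pool.Agent.H84.LG.PL

open Pool.H70.SF Pool.Agent.H70.PL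

theorem f3 (M A L t τ q q1 qn k1 k2 kap w : ℝ) (hM : 1 ≤ M) (hA : 100 * M ≤ A)
    (hw : 0 < w) (hK : Kog A L t τ q q1 qn k1 k2 kap) (F F1 : ℂ → ℂ × ℂ)
    (hF : Sta M w t k1 k2 qn F) (hP : Per τ w F F1) (u : ℂ) (hu : ‖u‖ ≤ 2) :
    nm (F1 u - F u) ≤ τ / (k1 * t) * nm (F u) := by
  obtain ⟨hA0, ht, hqn, hk1, hk2, hkap, hq, -⟩ := hK.fac hM hA
  have h1 := hP.near u (by linarith)
  have h2 := hF.low u hu
  have h3 : 0 < k1 * t := mul_pos hk1 ht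
  refine h1.trans ?_
  rw [div_mul_eq_mul_div, le_div_iff₀ h3]
  calc τ * w * (k1 * t) = τ * (k1 * t * w) := by ring
    _ ≤ τ * nm (F u) := mul_le_mul_of_nonneg_left h2 hK.τ0

/-- (F1') -/
theorem f1p (M A L t τ q q1 qn k1 k2 kap w : ℝ) (hM : 1 ≤ M) (hA : 100 * M ≤ A)
    (hw : 0 < w) (hK : Kog A L t τ q q1 qn k1 k2 kap) (F F1 : ℂ → ℂ × ℂ)
    (hF : Sta M w t k1 k2 qn F) (hP : Per τ w F F1) (u : ℂ) (hu : ‖u‖ ≤ 5 / 4) (S : ℝ)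
    (hS : Nsc F u S) (hz : ∀ z, ‖z - u‖ < q * S → Jc F z ≠ 0) :
    k2 / 16 * t * w * (nm (F u) + nm (deriv F u)) ≤ ‖Jc F1 u‖ := by
  obtain ⟨hA0, ht, hqn, hk1, hk2, hkap, hq, -, -, -, -, -, hτ1, hτ2, -⟩ := hK.fac hM hA
  have h1 := f1 M A L t τ q q1 qn k1 k2 kap w hM hA hw hK F hF u hu S hS hz
  have h2 := per_J hw hK.τ0 hτ1 hF hP u (by linarith)
  have h3 : ‖Jc F u‖ ≤ ‖Jc F1 u‖ + ‖Jc F1 u - Jc F u‖ := by
    have h10 := norm_sub_le (Jc F1 u) (Jc F1 u - Jc F u)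
    rwa [sub_sub_cancel] at h10
  have hX : 0 ≤ nm (F u) + nm (deriv F u) := add_nonneg (nm_nonneg _) (nm_nonneg _)
  obtain ⟨X, hXe⟩ : ∃ X, X = nm (F u) + nm (deriv F u) := ⟨_, rfl⟩
  rw [← hXe] at h1 h2 hX ⊢
  have h4 : 2 * τ * w * X ≤ k2 / 16 * t * w * X := by
    apply mul_le_mul_of_nonneg_right _ hX
    apply mul_le_mul_of_nonneg_right _ hw.le
    have : 0 < k2 * t := mul_pos hk2 ht
    linarith
  have h5 : k2 / 8 * t * w * X = k2 / 16 * t * w * X + k2 / 16 * t * w * X := by ring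
  linarith

end Pool.Agent.H84.LG.PL
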