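import Pool.Agent.H84.LG.CDef

/-!
POLYLOG RATE (MP_8f2e1c_an), piece 3, module BT: a perturbed map at the natural scale of the static map, in the frame of the
static map (compare `H84/LG/CBase`, where the frame is that of the perturbed map).

Let `a = nm (F u)`, `Per τ w F G`, constants `Cs.num`: `τ w ≤ (η/100) a`, `τ w ≤ a / 40000`.
`bt_sch`: `nm (G v - F u) ≤ nm (G v - F v) + nm (F v - F u)` (`nm_tri`), `Per.near` (`‖v‖ ≤ 3`), `nsc_sch`.
`bt_der`: `cauD` for `G` with `c = F u`, centre `v`, radius `S/4`: on `‖x - v‖ ≤ S/4` one has `‖x - u‖ ≤ S`, so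
`nm (G x - F u) ≤ a/2 + a/40000 ≤ (51/100) a`; `nm (G' v) ≤ (51/100) a / (S/4) ≤ 3 a / S`.
`bt_nm`: `bt_sch` with `‖v - u‖ / S ≤ 1/2`: `nm (G v - F u) ≤ a/4 + a/40000 ≤ (3/10) a`, `nm_rev`.
`bt_pr`: `pr (G v) e = a + pr (G v - F u) e` (`pr_sub`, `Dir.prr`), `pr_le`, `Dir.one`; derivative: `‖pr (G' v) e‖ ≤ nm (G' v) ≤ 3 a / S` and
`a ≤ (10/7) ‖pr (G v) e‖`.
`bt_eta`: `wd e (G v) = wd e (G v - F u)` (`Dir.wdd`), `wd_le`; `‖v - u‖ / S ≤ η`, so both are at most `η a / 2 + (η/100) a`.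
`bt_path`: `Per τ w F (G0 + θ (G1 - G0))`: differentiability, and `nm` of
`(1 - θ) (G0 v - F v) + θ (G1 v - F v)` is at most `(1 - θ) τ w + θ τ w` (`nm_add`, `nm_smul`).
-/

set_option autoImplicit false

namespace Pool.Agent.H84.LG.CV

open Pool.H70.SF Pool.Agent.H70.PL Pool.Agent.H44.SR Pool.Agent.H84.LG.PL

variable {M A L t τ q q1 qn k1 k2 kap w η : ℝ} {F : ℂ → ℂ × ℂ} {u : ℂ} {S : ℝ} {e : ℂ × ℂ}

theorem bt_norm3 (h : Cs M A L t τ q q1 qn k1 k2 kap w η F u S e) {v : ℂ} (hv : ‖v - u‖ ≤ S) :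
    ‖v‖ ≤ 2 := by
  have h1 := norm_add_le (v - u) u
  rw [sub_add_cancel] at h1
  have h2 := h.u1
  have h3 := h.nsc.2.1
  linarith

theorem bt_sch (h : Cs M A L t τ q q1 qn k1 k2 kap w η F u S e) {G : ℂ → ℂ × ℂ} (hG : Per τ w F G) (v : ℂ)
    (hv : ‖v - u‖ ≤ S) : nm (G v - F u) ≤ ‖v - u‖ / S * (nm (F u) / 2) + τ * w := by
  have h1 := nm_tri (G v) (F v) (F u)
  have h2 := hG.near v (by linarith [bt_norm3 h hv])
  have h3 := nsc_sch h.sta.dif h.nsc v hv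
  linarith

theorem bt_der (h : Cs M A L t τ q q1 qn k1 k2 kap w η F u S e) {G : ℂ → ℂ × ℂ} (hG : Per τ w F G) (v : ℂ)
    (hv : ‖v - u‖ ≤ 3 / 4 * S) : nm (deriv G v) ≤ 3 * nm (F u) / S := by
  obtain ⟨ha, haM, ht, hk1, hk2, hkap, hq, hη, hqη, hS0, hS1, hML, hτη, hτ4, hτ1⟩ := h.num
  have h7 := cauD hG.dif (F u) v (S / 4) (51 / 100 * nm (F u)) (by linarith) fun x hx => by
    have h8 : ‖x - u‖ ≤ S := by
      have h9 : x - u = (x - v) + (v - u) := by ring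
      rw [h9]
      have := norm_add_le (x - v) (v - u)
      linarith
    refine (bt_sch h hG x h8).trans ?_
    have h10 : ‖x - u‖ / S ≤ 1 := (div_le_one hS0).2 h8
    nlinarith
  have e1 : 51 / 100 * nm (F u) / (S / 4) = 51 / 25 * (nm (F u) / S) := by
    field_simp
    ring
  have e2 : 3 * nm (F u) / S = 3 * (nm (F u) / S) := by ring
  have hpos : 0 < nm (F u) / S := div_pos ha hS0
  rw [e1] at h7
  rw [e2]
  linarith

theorem bt_half (h : Cs M A L t τ q q1 qn k1 k2 kap w η F u S e) {G : ℂ → ℂ × ℂ} (hG : Per τ w F G) (v : ℂ)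
    (hv : ‖v - u‖ ≤ S / 2) : nm (G v - F u) ≤ 3 / 10 * nm (F u) := by
  obtain ⟨ha, haM, ht, hk1, hk2, hkap, hq, hη, hqη, hS0, hS1, hML, hτη, hτ4, hτ1⟩ := h.num
  have h1 := bt_sch h hG v (by linarith)
  have h2 : ‖v - u‖ / S ≤ 1 / 2 := by
    rw [div_le_iff₀ hS0]
    linarith
  have h3 : ‖v - u‖ / S * (nm (F u) / 2) ≤ 1 / 2 * (nm (F u) / 2) :=
    mul_le_mul_of_nonneg_right h2 (by linarith)
  linarith

theorem bt_nm (h : Cs M A L t τ q q1 qn k1 k2 kap w η F u S e) {G : ℂ → ℂ × ℂ} (hG : Per τ w F G) (v : ℂ)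
    (hv : ‖v - u‖ ≤ S / 2) : 7 / 10 * nm (F u) ≤ nm (G v) ∧ nm (G v) ≤ 13 / 10 * nm (F u) := by
  have h1 := bt_half h hG v hv
  have h2 := nm_rev (G v) (F u)
  have h3 := nm_rev (F u) (G v)
  rw [nm_sub_comm (F u) (G v)] at h3
  constructor <;> linarith

theorem bt_prs (h : Cs M A L t τ q q1 qn k1 k2 kap w η F u S e) (a : ℂ × ℂ) :
    ‖pr a e - nm (F u)‖ ≤ nm (a - F u) ∧ ‖wd e a‖ ≤ nm (a - F u) := by
  constructor
  · rw [← h.dir.prr, ← pr_sub]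
    have := pr_le (a - F u) e
    rw [h.dir.one, mul_one] at this
    exact this
  · have e1 : wd e a = wd e (a - F u) := by
      have h0 := h.dir.wdd
      simp only [wd] at h0 ⊢
      simp only [Prod.fst_sub, Prod.snd_sub]
      linear_combination h0
    rw [e1]
    have := wd_le e (a - F u)
    rw [h.dir.one, one_mul] at this
    exact this

theorem bt_pr (h : Cs M A L t τ q q1 qn k1 k2 kap w η F u S e) {G : ℂ → ℂ × ℂ} (hG : Per τ w F G) (v : ℂ)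
    (hv : ‖v - u‖ ≤ S / 2) : 7 / 10 * nm (F u) ≤ ‖pr (G v) e‖ ∧ ‖pr (G v) e‖ ≤ 13 / 10 * nm (F u) ∧
      ‖pr (deriv G v) e‖ ≤ 5 / S * ‖pr (G v) e‖ ∧ pr (G v) e ≠ 0 := by
  obtain ⟨ha, haM, ht, hk1, hk2, hkap, hq, hη, hqη, hS0, hS1, hML, hτη, hτ4, hτ1⟩ := h.num
  have h1 := bt_half h hG v hv
  have h2 := (bt_prs h (G v)).1
  have h11 : ‖(nm (F u) : ℂ)‖ = nm (F u) := by
    rw [Complex.norm_real, Real.norm_of_nonneg (nm_nonneg _)]
  have h12 := norm_sub_norm_le (nm (F u) : ℂ) (pr (G v) e)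
  rw [h11, norm_sub_rev] at h12
  have h13 := norm_sub_norm_le (pr (G v) e) (nm (F u) : ℂ)
  rw [h11] at h13
  have h14 : 7 / 10 * nm (F u) ≤ ‖pr (G v) e‖ := by linarith
  refine ⟨h14, by linarith, ?_, ?_⟩
  · have h15 := pr_le (deriv G v) e
    rw [h.dir.one, mul_one] at h15
    refine h15.trans ((bt_der h hG v (by linarith)).trans ?_)
    rw [div_mul_eq_mul_div]
    exact div_le_div_of_nonneg_right (by linarith) hS0.le
  · intro h0
    rw [h0, norm_zero] at h14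
    linarith

theorem bt_eta (h : Cs M A L t τ q q1 qn k1 k2 kap w η F u S e) {G : ℂ → ℂ × ℂ} (hG : Per τ w F G) (v : ℂ)
    (hv : ‖v - u‖ ≤ η * S) : ‖pr (G v) e - nm (F u)‖ ≤ 53 / 100 * η * nm (F u) ∧
      ‖wd e (G v)‖ ≤ 53 / 100 * η * nm (F u) := by
  obtain ⟨ha, haM, ht, hk1, hk2, hkap, hq, hη, hqη, hS0, hS1, hML, hτη, hτ4, hτ1⟩ := h.num
  have hη1 := h.kcg.η1
  have hvS : ‖v - u‖ ≤ S := by
    refine hv.trans ?_
    nlinarith
  have h1 := bt_sch h hG v hvS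
  have h2 : ‖v - u‖ / S ≤ η := by
    rw [div_le_iff₀ hS0]
    exact hv
  have h3 : ‖v - u‖ / S * (nm (F u) / 2) ≤ η * (nm (F u) / 2) :=
    mul_le_mul_of_nonneg_right h2 (by linarith)
  have hηa : 0 < η * nm (F u) := mul_pos hη ha
  have h4 : nm (G v - F u) ≤ 53 / 100 * η * nm (F u) := by nlinarith
  exact ⟨(bt_prs h (G v)).1.trans h4, (bt_prs h (G v)).2.trans h4⟩

/-- the segment between two perturbed maps -/
theorem bt_path (hw : 0 < w) (hτ : 0 ≤ τ) {G0 G1 : ℂ → ℂ × ℂ} (h0 : Per τ w F G0) (h1 : Per τ w F G1) (θ : ℝ)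
    (hθ0 : 0 ≤ θ) (hθ1 : θ ≤ 1) : Per τ w F (fun v => G0 v + (θ : ℂ) • (G1 v - G0 v)) := by
  refine ⟨h0.dif.add ((h1.dif.sub h0.dif).const_smul (θ : ℂ)), fun v hv => ?_⟩
  have e1 : G0 v + (θ : ℂ) • (G1 v - G0 v) - F v =
      ((1 - θ : ℝ) : ℂ) • (G0 v - F v) + (θ : ℂ) • (G1 v - F v) := by
    ext
    · simp only [Prod.fst_add, Prod.fst_sub, Prod.smul_fst, smul_eq_mul]
      push_cast
      ring
    · simp only [Prod.snd_add, Prod.snd_sub, Prod.smul_snd, smul_eq_mul]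
      push_cast
      ring
  show nm (G0 v + (θ : ℂ) • (G1 v - G0 v) - F v) ≤ τ * w
  rw [e1]
  refine (nm_add _ _).trans ?_
  rw [nm_smul, nm_smul, Complex.norm_real, Complex.norm_real, Real.norm_of_nonneg hθ0,
    Real.norm_of_nonneg (by linarith : (0 : ℝ) ≤ 1 - θ)]
  have h2 := mul_le_mul_of_nonneg_left (h0.near v hv) (by linarith : (0 : ℝ) ≤ 1 - θ)
  have h3 := mul_le_mul_of_nonneg_left (h1.near v hv) hθ0
  linarith

end Pool.Agent.H84.LG.CV
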