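import Pool.Agent.H84.LG.CHom
import Pool.Agent.H84.LG.CAlg

/-!
POLYLOG RATE (MP_8f2e1c_an), piece 3, module CVD: displacement of the critical values (same statement as `cvd` of
`H44/SR/CVD`, with `Kcg` instead of `Kcv`; the auxiliary identities `cvd_frame`, `cvd_pr_self` and the case `s = 0` can be copied from there).

Case `s = 0`: `F1 = F0` on `‖v‖ ≤ 3`, `c = u`. Case `0 < s`: `dir_ex` for the STATIC map `F` at `u` gives `e`; `Cs`; `hom` gives `c`.
Let `a = nm (F u)`, `ac = pr (F0 c) e`, `bc = wd e (F0 c)`, `A1 = pr (F1 u) e`, `B1 = wd e (F1 u)`, `yb = wd e (Y u)`, `yb' = wd e (Y c)`,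
`ya' = pr (Y c) e`, `Y = F1 - F0`, `y = s w ≤ τ w ≤ (η/100) a`. `bt_eta` at `c` for `F0` and at `u` for `F1` (`‖u - u‖ = 0`);
`‖yb' - yb‖ ≤ nm (Y c - Y u) ≤ y ‖c - u‖ ≤ η y` (Cauchy with radius 1 and `mvP`, as in `zero_step`). `frame`:
`wd (F0 c) (F1 u) = ac B1 - bc A1`, `wd (F0 c) (Y c) = ac yb' - bc ya'`, `pr (F1 u) (F0 c) = A1 conj ac + B1 conj bc` (`cvd_frame`),
`nm (F0 c)² = ‖ac‖² + ‖bc‖²`. `cvd_alg` gives the bound `80 η (y/a)`, and `nm (F0 c) ≤ (1 + η) a`: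
`nm (F0 c - F u) ≤ η a/2 + (η/100) a` (`bt_sch`), so `y/a ≤ (101/100) (y/nm (F0 c))` and `80 · 1.01 ≤ 100`.
`nm (F1 u - F0 c) ≤ nm (F1 u - F u) + nm (F u - F0 c) ≤ τ w + η a/2 + τ w ≤ (53/100) η a ≤ η nm (F0 c)`.
-/

set_option autoImplicit false

namespace Pool.Agent.H84.LG.CV

open Pool.H70.SF Pool.Agent.H70.PL Pool.Agent.H44.SR Pool.Agent.H84.LG.PL ComplexConjugate

private theorem ccvd_nsq (z : ℂ) : ((‖z‖ ^ 2 : ℝ) : ℂ) = z * conj z := by
  rw [Complex.mul_conj, Complex.normSq_eq_norm_sq]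

private theorem ccvd_frame (a b e : ℂ × ℂ) (he : nm e = 1) :
    pr a b = pr a e * conj (pr b e) + wd e a * conj (wd e b) := by
  have h1 : e.1 * conj e.1 + e.2 * conj e.2 = 1 := by
    rw [← ccvd_nsq, ← ccvd_nsq, ← Complex.ofReal_add, ← nm_sq, he]
    norm_num
  have h2 : pr a e * conj (pr b e) + wd e a * conj (wd e b) =
      (e.1 * conj e.1 + e.2 * conj e.2) * pr a b := by
    simp only [wd, pr, map_add, map_sub, map_mul, Complex.conj_conj]
    ring
  rw [h2, h1, one_mul]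

private theorem ccvd_pr_self (a : ℂ × ℂ) : pr a a = ((nm a ^ 2 : ℝ) : ℂ) := by
  rw [nm_sq, Complex.ofReal_add, ccvd_nsq, ccvd_nsq]
  rfl

private theorem ccvd_wd_sub (e a b : ℂ × ℂ) : wd e (a - b) = wd e a - wd e b := by
  simp only [wd, Prod.fst_sub, Prod.snd_sub]
  ring

private theorem ccvd_wd_self (a : ℂ × ℂ) : wd a a = 0 := by
  simp only [wd]
  ring

theorem cvd (M A L t τ q q1 qn k1 k2 kap w η : ℝ) (hM : 1 ≤ M) (hA : 100 * M ≤ A)
    (hw : 0 < w) (hK : Kog A L t τ q q1 qn k1 k2 kap) (hη : Kcg M L q η)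
    (F F0 F1 : ℂ → ℂ × ℂ)
    (hF : Sta M w t k1 k2 qn F) (hP : Per τ w F F0) (hP1 : Per τ w F F1) (u : ℂ) (hu : ‖u‖ ≤ 1)
    (S : ℝ) (hS : Nsc F u S) (s : ℝ) (hs : 0 ≤ s) (hsτ : s ≤ τ)
    (hY : ∀ v, ‖v‖ ≤ 3 → nm (F1 v - F0 v) ≤ s * w) (hJ : Jc F1 u = 0) :
    ∃ c, ‖c - u‖ ≤ η * S ∧ Jc F0 c = 0 ∧ nm (F1 u - F0 c) ≤ η * nm (F0 c) ∧
      pr (F1 u) (F0 c) ≠ 0 ∧
      ‖wd (F0 c) (F1 u) / pr (F1 u) (F0 c) -
        wd (F0 c) (F1 c - F0 c) / ((nm (F0 c) ^ 2 : ℝ) : ℂ)‖ ≤ 100 * η * (s * w / nm (F0 c)) := by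
  obtain ⟨b1, b2, b3, b4, b5, b6⟩ := bs_nm M A L t τ q q1 qn k1 k2 kap w hM hA hw hK F F0 hF hP u
    (by linarith)
  obtain ⟨e, he⟩ := dir_ex b1
  have hC : Cs M A L t τ q q1 qn k1 k2 kap w η F u S e := ⟨hM, hA, hw, hK, hη, hF, hu, hS, he⟩
  obtain ⟨-, -, ht, hk1, hk2, hkap, hq, hη0, hqη, hS0, hS1, hML, hτη, hτa, hτ1⟩ := hC.num
  have hη1 := hη.η1
  rcases hs.eq_or_lt with hs0 | hspos
  · have heq : ∀ v, ‖v‖ ≤ 3 → F1 v = F0 v := by
      intro v hv
      have h1 := hY v hv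
      rw [← hs0, zero_mul] at h1
      have h2 := (nm_eq_zero _).1 (le_antisymm h1 (nm_nonneg _))
      exact sub_eq_zero.1 h2
    have hu3 : F1 u = F0 u := heq u (by linarith)
    have hder : deriv F1 u = deriv F0 u := by
      apply Filter.EventuallyEq.deriv_eq
      have h3 : Metric.ball (0 : ℂ) 3 ∈ nhds u := Metric.isOpen_ball.mem_nhds (by
        rw [mem_ball_zero_iff]
        linarith)
      filter_upwards [h3] with v hv
      rw [mem_ball_zero_iff] at hv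
      exact heq v hv.le
    have hJ0 : Jc F0 u = 0 := by
      unfold Jc at hJ ⊢
      rw [← hu3, ← hder]
      exact hJ
    refine ⟨u, ?_, hJ0, ?_, ?_, ?_⟩
    · rw [sub_self, norm_zero]
      exact mul_nonneg hη0.le hS0.le
    · rw [hu3, sub_self, (nm_eq_zero (0 : ℂ × ℂ)).2 rfl]
      positivity
    · rw [hu3, ccvd_pr_self]
      have : nm (F0 u) ^ 2 ≠ 0 := pow_ne_zero 2 b2.ne'
      exact_mod_cast this
    · rw [hu3, ccvd_wd_self, sub_self]
      have h5 : wd (F0 u) 0 = 0 := by simp [wd]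
      rw [h5, zero_div, zero_div, sub_zero, norm_zero]
      positivity
  · obtain ⟨c, c1, c2, c3⟩ := hom hC hP hP1 s hspos hsτ hY hJ
    have hηS2 : η * S ≤ 1 / 100 * S := mul_le_mul_of_nonneg_right hη1 hS0.le
    have hcS : ‖c - u‖ ≤ S := by linarith
    have hcq : ‖c - u‖ / S ≤ η := by
      rw [div_le_iff₀ hS0]
      exact c1
    have hcu1 : ‖c - u‖ ≤ 1 := by linarith
    have hc3 : ‖c‖ ≤ 3 := by
      have h := norm_add_le (c - u) u
      rw [sub_add_cancel] at h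
      linarith
    obtain ⟨p1, p2⟩ := bt_eta hC hP c c1
    obtain ⟨r1, r2⟩ := bt_eta hC hP1 u (by rw [sub_self, norm_zero]; positivity)
    have hsch := bt_sch hC hP c hcS
    set a := nm (F u) with ha
    set y := s * w with hy
    have hy0 : 0 ≤ y := mul_nonneg hs hw.le
    have hyτ : y ≤ τ * w := mul_le_mul_of_nonneg_right hsτ hw.le
    have hηa0 : 0 ≤ η * a := mul_nonneg hη0.le b1.le
    have hya : y ≤ η / 50 * a := by linarith
    have hY0 : Differentiable ℂ (fun v => F1 v - F0 v) := hP1.dif.sub hP.dif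
    have hdY : ∀ v, ‖v - u‖ ≤ 1 → nm (deriv (fun v => F1 v - F0 v) v) ≤ y := by
      intro v hv
      have h := cauP hY0 v 1 y one_pos (fun z hz => hY z (by
        have h1 := norm_add_le (z - v) v
        have h2 := norm_add_le (v - u) u
        rw [sub_add_cancel] at h1 h2
        linarith))
      rwa [div_one] at h
    have hmv := mvP hY0 u 1 y hdY c u hcu1 (by rw [sub_self, norm_zero]; exact zero_le_one)
    have hηS : η * S ≤ η * 1 := mul_le_mul_of_nonneg_left hS1 hη0.le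
    have hcη : ‖c - u‖ ≤ η := by linarith
    have hYu := hY u (by linarith)
    have hYc := hY c hc3
    have h6 : ‖wd e (F1 u - F0 u)‖ ≤ y := by
      have h := wd_le e (F1 u - F0 u)
      rw [he.one, one_mul] at h
      exact h.trans hYu
    have h7 : ‖pr (F1 c - F0 c) e‖ ≤ y := by
      have h := pr_le (F1 c - F0 c) e
      rw [he.one, mul_one] at h
      exact h.trans hYc
    have h8 : ‖wd e (F1 c - F0 c) - wd e (F1 u - F0 u)‖ ≤ η * y := by
      rw [← ccvd_wd_sub]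
      have h := wd_le e (F1 c - F0 c - (F1 u - F0 u))
      rw [he.one, one_mul] at h
      refine h.trans (hmv.trans ?_)
      calc y * ‖c - u‖ ≤ y * η := mul_le_mul_of_nonneg_left hcη hy0
        _ = η * y := mul_comm _ _
    obtain ⟨k1', k2'⟩ := cvd_alg b1 hη0 hη1 hy0 hya p1 p2 r1 r2 c3 h6 h7 h8
    have q1' : pr (F1 u) (F0 c) = pr (F1 u) e * conj (pr (F0 c) e) +
        wd e (F1 u) * conj (wd e (F0 c)) := ccvd_frame (F1 u) (F0 c) e he.one
    have q2 : wd (F0 c) (F1 u) = pr (F0 c) e * wd e (F1 u) - wd e (F0 c) * pr (F1 u) e :=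
      frame (F0 c) (F1 u) e he.one
    have q3 : wd (F0 c) (F1 c - F0 c) = pr (F0 c) e * wd e (F1 c - F0 c) -
        wd e (F0 c) * pr (F1 c - F0 c) e := frame _ _ _ he.one
    have q4 : nm (F0 c) ^ 2 = ‖pr (F0 c) e‖ ^ 2 + ‖wd e (F0 c)‖ ^ 2 := by
      have h := ccvd_frame (F0 c) (F0 c) e he.one
      rw [ccvd_pr_self, ← ccvd_nsq, ← ccvd_nsq, ← Complex.ofReal_add] at h
      exact_mod_cast h
    have hsch' : nm (F0 c - F u) ≤ 51 / 100 * (η * a) := by
      refine hsch.trans ?_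
      have h1 : ‖c - u‖ / S * (a / 2) ≤ η * (a / 2) :=
        mul_le_mul_of_nonneg_right hcq (by positivity)
      linarith
    have hηa : η * a ≤ 1 / 100 * a := mul_le_mul_of_nonneg_right hη1 b1.le
    have hnc1 : nm (F0 c) ≤ 101 / 100 * a := by
      have h := nm_rev (F0 c) (F u)
      linarith
    have hnc2 : 99 / 100 * a ≤ nm (F0 c) := by
      have h := nm_rev (F u) (F0 c)
      rw [nm_sub_comm] at h
      linarith
    have hnc0 : 0 < nm (F0 c) := lt_of_lt_of_le (by positivity) hnc2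
    refine ⟨c, c1, c2, ?_, ?_, ?_⟩
    · have h := nm_tri (F1 u) (F u) (F0 c)
      rw [nm_sub_comm (F u) (F0 c)] at h
      have h9 := hP1.near u (by linarith)
      have h10 : η * (99 / 100 * a) ≤ η * nm (F0 c) := mul_le_mul_of_nonneg_left hnc2 hη0.le
      linarith
    · rw [q1']
      exact k1'
    · rw [q1', q2, q3, q4]
      refine k2'.trans ?_
      have h8 : y / a ≤ 101 / 100 * (y / nm (F0 c)) := by
        rw [div_le_iff₀ b1]
        have h9 : 101 / 100 * (y / nm (F0 c)) * a = y * (101 / 100 * a / nm (F0 c)) := by ring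
        rw [h9]
        have h10 : 1 ≤ 101 / 100 * a / nm (F0 c) := by
          rw [le_div_iff₀ hnc0]
          linarith
        exact le_mul_of_one_le_right hy0 h10
      have h11 : 0 ≤ y / nm (F0 c) := div_nonneg hy0 hnc0.le
      have h12 := mul_le_mul_of_nonneg_left h8 hη0.le
      have h13 := mul_nonneg hη0.le h11
      linarith

end Pool.Agent.H84.LG.CV
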