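import Pool.Agent.H70.PL.Def

/-!
POLYLOG RATE (MP_8f2e1c_an), piece 2 (PLANAR): the relations between the constants.

The definitions `nm`, `pr`, `Nsc`, `Jc`, `Sta`, `Per` are those of `H70/PL/Def`. `Kog A ..`: `A` is a large absolute constant,
`L = log d`, `t = L^130/√d`, `τ = C1/√d`, `q = L^(-15)`, `q1 = q/(A L)`, `qn = q1/(A L)`, `k1 = qn^2`, `k2 = qn^4`,
`kap = L^(-90)`. All these numbers except `t`, `τ` are powers of `1/log d`.
-/

set_option autoImplicit false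

namespace Pool.Agent.H84.LG.PL

open Pool.H70.SF Pool.Agent.H70.PL

/-- relations between the constants; `A` is a large absolute constant, `τ = C1 h` -/
structure Kog (A L t τ q q1 qn k1 k2 kap : ℝ) : Prop where
  L1 : 1 ≤ L
  t1 : t ≤ 1
  tL : Real.exp (-L) ≤ t
  q1' : q ≤ 1 / 8
  q1p : 0 < q1
  q1q : A * L * q1 ≤ q
  qnL : Real.exp (-L) ≤ qn
  qnq : A * L * qn ≤ q1
  k1L : Real.exp (-L) ≤ k1
  k1b : k1 ≤ 1
  k2L : Real.exp (-L) ≤ k2
  k2b : k2 ≤ 1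
  kapL : Real.exp (-L) ≤ kap
  kapk : A ^ 2 * L * kap ≤ k2 * q
  kapq : A * kap ≤ k2 * qn
  τ0 : 0 ≤ τ
  τk : A * τ ≤ kap * k1 * t

/-- elementary consequences -/
theorem Kog.fac {M A L t τ q q1 qn k1 k2 kap : ℝ} (hM : 1 ≤ M) (hA : 100 * M ≤ A)
    (hK : Kog A L t τ q q1 qn k1 k2 kap) :
    0 < A ∧ 0 < t ∧ 0 < qn ∧ 0 < k1 ∧ 0 < k2 ∧ 0 < kap ∧ 0 < q ∧ q1 ≤ q / 100 ∧ qn ≤ q1 / 100 ∧
      kap ≤ 1 / 400 ∧ kap ≤ qn ∧ τ ≤ kap * t / 100 ∧ τ ≤ k1 * t ∧ τ ≤ k2 * t / 10000 ∧ τ ≤ 1 / 100 := by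
  have hA100 : 100 ≤ A := by linarith
  have hA0 : 0 < A := by linarith
  have hL := hK.L1
  have hq1p := hK.q1p
  have ht : 0 < t := lt_of_lt_of_le (Real.exp_pos _) hK.tL
  have hqn : 0 < qn := lt_of_lt_of_le (Real.exp_pos _) hK.qnL
  have hk1 : 0 < k1 := lt_of_lt_of_le (Real.exp_pos _) hK.k1L
  have hk2 : 0 < k2 := lt_of_lt_of_le (Real.exp_pos _) hK.k2L
  have hkap : 0 < kap := lt_of_lt_of_le (Real.exp_pos _) hK.kapL
  have hAL : 100 ≤ A * L := by nlinarith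
  have h1 : q1 ≤ q / 100 := by
    have := hK.q1q
    have h2 : 100 * q1 ≤ A * L * q1 := mul_le_mul_of_nonneg_right hAL hq1p.le
    linarith
  have hq : 0 < q := by linarith
  have h2 : qn ≤ q1 / 100 := by
    have := hK.qnq
    have h3 : 100 * qn ≤ A * L * qn := mul_le_mul_of_nonneg_right hAL hqn.le
    linarith
  have hq8 := hK.q1'
  have hk2b := hK.k2b
  have hk1b := hK.k1b
  have h3 : k2 * qn ≤ qn := by nlinarith
  have h4 : 100 * kap ≤ A * kap := mul_le_mul_of_nonneg_right hA100 hkap.le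
  have h5 := hK.kapq
  have h6 : kap ≤ qn := by linarith
  have hτ := hK.τk
  have hτ0 := hK.τ0
  have h7 : 100 * τ ≤ A * τ := mul_le_mul_of_nonneg_right hA100 hτ0
  have h8 : kap * k1 * t ≤ kap * t := by
    have : 0 < kap * t := mul_pos hkap ht
    nlinarith
  have h9 : τ ≤ kap * t / 100 := by linarith
  have hkap1 : kap ≤ 1 := by linarith
  have h10 : kap * k1 * t ≤ k1 * t := by
    have : 0 < k1 * t := mul_pos hk1 ht
    nlinarith
  have h11 : k2 * qn ≤ k2 := by nlinarith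
  have h12 : kap ≤ k2 / 100 := by linarith
  have h13 : kap * t ≤ k2 / 100 * t := mul_le_mul_of_nonneg_right h12 ht.le
  have h14 : kap * t ≤ 1 * 1 := mul_le_mul hkap1 hK.t1 ht.le zero_le_one
  refine ⟨hA0, ht, hqn, hk1, hk2, hkap, hq, h1, h2, by linarith, h6, h9, by linarith, by linarith, by linarith⟩

end Pool.Agent.H84.LG.PL
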