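import Pool.Agent.H84.LG.Def
import Pool.Agent.H84.LG.PDef

/-!
POLYLOG RATE (MP_8f2e1c_an): the constants for large `d` (compare `H84/SR2/Kon` and `H91/SR/Kst`; `e` is a dummy).

`L = LL d = log d → ∞`. `be = L^(-3)`, `qq = L^(-15)`, `q1 = L^(-16)/A`, `qn = L^(-17)/A²`, `k1 = L^(-34)/A⁴`, `k2 = L^(-68)/A⁸`,
`kap = L^(-90)`, `tt = L^130 hh`. Every relation is `C ≤ L` after multiplication by a power of `L`.
-/

set_option autoImplicit false

open Filter Topology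

namespace Pool.Agent.H84.LG

open Pool.Agent.H70.PL Pool.Agent.H84.LG.PL

theorem LL_ge (C : ℝ) : ∀ᶠ d : ℕ in atTop, C ≤ LL d := by
  unfold LL
  exact (Real.tendsto_log_atTop.comp (tendsto_natCast_atTop_atTop (R := ℝ))).eventually_ge_atTop C

theorem LL_one : ∀ᶠ d : ℕ in atTop, 1 ≤ LL d := LL_ge 1

theorem LL_ev (C : ℝ) (k : ℕ) {a : ℝ} (ha : 0 < a) : ∀ᶠ d : ℕ in atTop, C * LL d ^ k ≤ (d : ℝ) ^ a := by
  have h := (((isLittleO_log_rpow_rpow_atTop (k : ℝ) ha).const_mul_left C).comp_tendsto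
    tendsto_natCast_atTop_atTop).def (c := 1) one_pos
  filter_upwards [h] with d h3
  simp only [Function.comp_apply, Real.norm_eq_abs, one_mul, Real.rpow_natCast] at h3
  unfold LL
  calc C * Real.log d ^ k ≤ |C * Real.log d ^ k| := le_abs_self _
    _ ≤ |(d : ℝ) ^ a| := h3
    _ = (d : ℝ) ^ a := abs_of_nonneg (Real.rpow_nonneg (Nat.cast_nonneg d) a)

theorem be_nn (e : ℝ) (d : ℕ) : 0 ≤ be e d := by
  unfold be LL
  have : 0 ≤ Real.log d := Real.log_natCast_nonneg d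
  positivity

theorem xl_nn (d : ℕ) : 0 ≤ xl d := by
  unfold xl LL
  have : 0 ≤ Real.log d := Real.log_natCast_nonneg d
  positivity

theorem LL_pos {d : ℕ} (hd : 2 ≤ d) : 0 < LL d := by
  unfold LL
  exact Real.log_pos (by exact_mod_cast hd)

theorem be_pos (e : ℝ) {d : ℕ} (hd : 2 ≤ d) : 0 < be e d := by
  unfold be
  have := LL_pos hd
  positivity

theorem be_le_one {e : ℝ} {d : ℕ} (hL : 1 ≤ LL d) : be e d ≤ 1 := by
  unfold be
  exact pow_le_one₀ (by positivity) (inv_le_one_of_one_le₀ hL)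

theorem be_L {e : ℝ} {d : ℕ} (hL : 0 < LL d) : be e d * LL d ^ 3 = 1 := by
  unfold be
  rw [← mul_pow, inv_mul_cancel₀ hL.ne', one_pow]

/-- powers of the logarithm against `1/be` -/
theorem be_LL (e C : ℝ) {k : ℕ} (hk : k ≤ 2) : ∀ᶠ d : ℕ in atTop, C * LL d ^ k * be e d ≤ 1 := by
  filter_upwards [LL_ge |C|, LL_one] with d h1 h2
  have hL : 0 < LL d := by linarith
  have hb : 0 ≤ be e d := be_nn e d
  have h3 : C * LL d ^ k ≤ LL d ^ 3 := by
    calc C * LL d ^ k ≤ LL d * LL d ^ 2 := by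
          apply mul_le_mul ((le_abs_self C).trans h1) (pow_le_pow_right₀ h2 hk) (by positivity) hL.le
      _ = LL d ^ 3 := by ring
  calc C * LL d ^ k * be e d ≤ LL d ^ 3 * be e d := mul_le_mul_of_nonneg_right h3 hb
    _ = 1 := by rw [mul_comm]; exact be_L hL

theorem hh_pos {d : ℕ} (hd : 1 ≤ d) : 0 < hh d := by
  unfold hh
  have : (0 : ℝ) < d := by exact_mod_cast hd
  positivity

theorem hh_sqrt {d : ℕ} (hd : 1 ≤ d) : √(d : ℝ) * hh d = 1 := by
  unfold hh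
  have : (0 : ℝ) < √d := Real.sqrt_pos.2 (by exact_mod_cast hd)
  field_simp

theorem tt_pos (e : ℝ) {d : ℕ} (hd : 2 ≤ d) : 0 < tt e d := by
  unfold tt
  have := LL_pos hd
  have := hh_pos (d := d) (by omega)
  positivity

theorem hh_le_tt (e : ℝ) {d : ℕ} (hL : 1 ≤ LL d) : hh d ≤ tt e d := by
  unfold tt
  have h1 : 0 ≤ hh d := by unfold hh; positivity
  have h2 : 1 ≤ LL d ^ 130 := one_le_pow₀ hL
  nlinarith

/-- `√d kap tt = L^40` -/
theorem skt (e : ℝ) {d : ℕ} (hd : 2 ≤ d) : √(d : ℝ) * (kap e d * tt e d) = LL d ^ 40 := by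
  have hL := LL_pos hd
  unfold kap tt
  have h1 : √(d : ℝ) * ((LL d)⁻¹ ^ 90 * (LL d ^ 130 * hh d)) =
      (LL d)⁻¹ ^ 90 * LL d ^ 130 * (√(d : ℝ) * hh d) := by ring
  rw [h1, hh_sqrt (by omega), mul_one, inv_pow]
  field_simp

/-- `kap tt = L^40 hh` -/
theorem kap_tt (e : ℝ) {d : ℕ} (hd : 2 ≤ d) : kap e d * tt e d = LL d ^ 40 * hh d := by
  have hL := LL_pos hd
  unfold kap tt
  have h1 : (LL d)⁻¹ ^ 90 * (LL d ^ 130 * hh d) = (LL d)⁻¹ ^ 90 * LL d ^ 130 * hh d := by ring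
  rw [h1, inv_pow]
  field_simp

theorem qn_eq {A e : ℝ} (hA : 0 < A) {d : ℕ} (hd : 2 ≤ d) : qn A e d = ((A ^ 2) * LL d ^ 17)⁻¹ := by
  have hL := LL_pos hd
  unfold qn q1 qq be
  rw [inv_pow]
  field_simp

theorem qn_pos {A : ℝ} (hA : 0 < A) (e : ℝ) {d : ℕ} (hd : 2 ≤ d) : 0 < qn A e d := by
  rw [qn_eq hA hd]
  have := LL_pos hd
  positivity

theorem kap_pos (e : ℝ) {d : ℕ} (hd : 2 ≤ d) : 0 < kap e d := by
  unfold kap
  have := LL_pos hd
  positivity

theorem kap_le_one (e : ℝ) {d : ℕ} (hL : 1 ≤ LL d) : kap e d ≤ 1 := by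
  unfold kap
  exact pow_le_one₀ (by positivity) (inv_le_one_of_one_le₀ hL)

/-- `exp (-L)` is below every power of `1/L` -/
theorem exp_le_inv (C : ℝ) (k : ℕ) : ∀ᶠ d : ℕ in atTop, Real.exp (-LL d) ≤ (C * LL d ^ k)⁻¹ ∨ C ≤ 0 := by
  filter_upwards [LL_ev C k one_pos, LL_one, eventually_ge_atTop 1] with d h1 h2 h3
  rcases le_or_gt C 0 with hC | hC
  · exact Or.inr hC
  · left
    have hd0 : (0 : ℝ) < d := by exact_mod_cast h3
    have hexp : Real.exp (-LL d) = ((d : ℝ) ^ (1 : ℝ))⁻¹ := by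
      unfold LL
      rw [Real.exp_neg, Real.exp_log hd0, Real.rpow_one]
    rw [hexp]
    exact inv_anti₀ (by positivity) h1

/-- a constant times `hh` is below `kap k1 tt` -/
theorem hh_small (C : ℝ) {A : ℝ} (hA : 0 < A) (e : ℝ) :
    ∀ᶠ d : ℕ in atTop, C * hh d ≤ kap e d * k1 A e d * tt e d := by
  filter_upwards [LL_ge (|C| * A ^ 4), LL_one, eventually_ge_atTop 2] with d h1 h2 h3
  have hL : 0 < LL d := by linarith
  have h4 : kap e d * k1 A e d * tt e d = LL d ^ 6 / A ^ 4 * hh d := by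
    have h5 : kap e d * k1 A e d * tt e d = (kap e d * tt e d) * k1 A e d := by ring
    have h6 : k1 A e d = (A ^ 4)⁻¹ * (LL d ^ 34)⁻¹ := by
      unfold k1
      rw [qn_eq hA h3, inv_pow, mul_pow, mul_inv, ← pow_mul, ← pow_mul]
    have h7 : LL d ^ 40 = LL d ^ 6 * LL d ^ 34 := by ring
    have h8 : LL d ^ 34 * (LL d ^ 34)⁻¹ = 1 := mul_inv_cancel₀ (pow_ne_zero _ hL.ne')
    rw [h5, kap_tt e h3, h6, h7]
    calc LL d ^ 6 * LL d ^ 34 * hh d * ((A ^ 4)⁻¹ * (LL d ^ 34)⁻¹) =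
        LL d ^ 6 * (A ^ 4)⁻¹ * hh d * (LL d ^ 34 * (LL d ^ 34)⁻¹) := by ring
      _ = LL d ^ 6 / A ^ 4 * hh d := by rw [h8, mul_one, div_eq_mul_inv]
  rw [h4]
  apply mul_le_mul_of_nonneg_right _ (hh_pos (by omega)).le
  rw [le_div_iff₀ (by positivity)]
  calc C * A ^ 4 ≤ |C| * A ^ 4 := mul_le_mul_of_nonneg_right (le_abs_self C) (by positivity)
    _ ≤ LL d := h1
    _ = LL d ^ 1 := (pow_one _).symm
    _ ≤ LL d ^ 6 := pow_le_pow_right₀ h2 (by norm_num)

/-- a constant times `hh` is below `k1 tt` -/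
theorem hh_small1 (C : ℝ) {A : ℝ} (hA : 0 < A) (e : ℝ) :
    ∀ᶠ d : ℕ in atTop, C * hh d ≤ k1 A e d * tt e d := by
  filter_upwards [hh_small C hA e, LL_one, eventually_ge_atTop 2] with d h1 h2 h3
  refine h1.trans ?_
  have h4 := kap_le_one e h2
  have h5 : 0 ≤ k1 A e d * tt e d := by
    have h6 := qn_pos hA e h3
    have h7 := tt_pos e h3
    unfold k1
    exact mul_nonneg (pow_nonneg h6.le 2) h7.le
  calc kap e d * k1 A e d * tt e d = kap e d * (k1 A e d * tt e d) := by ring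
    _ ≤ 1 * (k1 A e d * tt e d) := mul_le_mul_of_nonneg_right h4 h5
    _ = _ := one_mul _

theorem kon_ev {A C1 e : ℝ} (hA : 1 ≤ A) (hC : 0 ≤ C1) : ∀ᶠ d : ℕ in atTop,
    Kog A (LL d) (tt e d) (C1 * hh d) (qq e d) (q1 A e d) (qn A e d) (k1 A e d) (k2 A e d) (kap e d) := by
  have hA0 : 0 < A := by linarith
  filter_upwards [LL_one, LL_ge 8, LL_ge (A ^ 11), exp_le_inv (A ^ 8) 68, exp_le_inv 1 90,
    hh_small (A * C1) hA0 e, LL_ev 1 130 (show (0 : ℝ) < 1 / 2 by norm_num), eventually_ge_atTop 2] with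
    d hL hL8 hLA hx1 hx2 hτ htt hd
  have hL0 : 0 < LL d := by linarith
  have hd0 : (0 : ℝ) < d := by exact_mod_cast (by omega : 0 < d)
  have hd1 : (1 : ℝ) ≤ d := by exact_mod_cast (by omega : 1 ≤ d)
  have hhp := hh_pos (d := d) (by omega)
  have hqn := qn_eq (e := e) hA0 hd
  have hqn0 := qn_pos hA0 e hd
  have hA2 : 1 ≤ A ^ 2 * LL d ^ 17 := one_le_mul_of_one_le_of_one_le (one_le_pow₀ hA) (one_le_pow₀ hL)
  have hqn1 : qn A e d ≤ 1 := by
    rw [hqn]
    exact inv_le_one_of_one_le₀ hA2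
  have hk2 : Real.exp (-LL d) ≤ k2 A e d := by
    have h1 := hx1.resolve_right (by push Not; positivity)
    unfold k2
    rw [hqn]
    refine h1.trans (le_of_eq ?_)
    rw [inv_pow]
    ring
  have hkk : k2 A e d ≤ k1 A e d := by
    unfold k1 k2
    exact pow_le_pow_of_le_one hqn0.le hqn1 (by norm_num)
  have hkq : k1 A e d ≤ qn A e d := by
    unfold k1
    calc qn A e d ^ 2 ≤ qn A e d ^ 1 := pow_le_pow_of_le_one hqn0.le hqn1 (by norm_num)
      _ = qn A e d := pow_one _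
  have hb0 := be_pos e hd
  have hb1 := be_le_one (e := e) hL
  have hqq0 : 0 < qq e d := by
    unfold qq
    positivity
  have hqqe : qq e d = (LL d ^ 15)⁻¹ := by
    unfold qq be
    rw [inv_pow]
    rw [inv_pow]
    ring
  refine ⟨hL, ?_, ?_, ?_, ?_, ?_, hk2.trans (hkk.trans hkq), ?_, hk2.trans hkk, ?_, hk2, ?_, ?_, ?_, ?_, ?_, ?_⟩
  · -- t ≤ 1
    unfold tt hh
    rw [one_mul] at htt
    rw [mul_one_div, div_le_one (Real.sqrt_pos.2 hd0), Real.sqrt_eq_rpow]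
    exact htt
  · -- exp (-L) ≤ t
    have h1 : Real.exp (-LL d) ≤ hh d := by
      unfold LL hh
      rw [Real.exp_neg, Real.exp_log hd0, one_div]
      apply inv_anti₀ (Real.sqrt_pos.2 hd0)
      rw [Real.sqrt_le_left hd0.le]
      nlinarith
    exact h1.trans (hh_le_tt e hL)
  · rw [hqqe]
    have : (8 : ℝ) ≤ LL d ^ 15 := hL8.trans (by
      calc LL d = LL d ^ 1 := (pow_one _).symm
        _ ≤ LL d ^ 15 := pow_le_pow_right₀ hL (by norm_num))
    rw [one_div]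
    exact inv_anti₀ (by norm_num) this
  · unfold q1
    positivity
  · unfold q1
    rw [mul_div_cancel₀ _ (by positivity)]
  · unfold qn
    rw [mul_div_cancel₀ _ (by positivity)]
  · unfold k1
    exact pow_le_one₀ hqn0.le hqn1
  · unfold k2
    exact pow_le_one₀ hqn0.le hqn1
  · have h1 := hx2.resolve_right (by norm_num)
    unfold kap
    rw [one_mul] at h1
    rw [inv_pow]
    exact h1
  · -- A² L kap ≤ k2 q
    have h1 : k2 A e d * qq e d = (A ^ 8 * LL d ^ 83)⁻¹ := by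
      unfold k2
      rw [hqn, hqqe, inv_pow]
      field_simp
    have h2 : A ^ 2 * LL d * kap e d = A ^ 2 * (LL d ^ 89)⁻¹ := by
      unfold kap
      rw [inv_pow]
      field_simp
    rw [h1, h2, ← div_eq_mul_inv, inv_eq_one_div, div_le_div_iff₀ (by positivity) (by positivity)]
    calc A ^ 2 * (A ^ 8 * LL d ^ 83) = A ^ 10 * LL d ^ 83 := by ring
      _ ≤ A ^ 11 * LL d ^ 83 := by
          apply mul_le_mul_of_nonneg_right (pow_le_pow_right₀ hA (by norm_num)) (by positivity)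
      _ ≤ LL d * LL d ^ 83 := mul_le_mul_of_nonneg_right hLA (by positivity)
      _ = LL d ^ 84 := by ring
      _ ≤ LL d ^ 89 := pow_le_pow_right₀ hL (by norm_num)
      _ = 1 * LL d ^ 89 := (one_mul _).symm
  · -- A kap ≤ k2 qn
    have h1 : k2 A e d * qn A e d = (A ^ 10 * LL d ^ 85)⁻¹ := by
      unfold k2
      rw [hqn, inv_pow]
      field_simp
    have h2 : A * kap e d = A * (LL d ^ 90)⁻¹ := by
      unfold kap
      rw [inv_pow]
    rw [h1, h2, ← div_eq_mul_inv, inv_eq_one_div, div_le_div_iff₀ (by positivity) (by positivity)]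
    calc A * (A ^ 10 * LL d ^ 85) = A ^ 11 * LL d ^ 85 := by ring
      _ ≤ LL d * LL d ^ 85 := mul_le_mul_of_nonneg_right hLA (by positivity)
      _ = LL d ^ 86 := by ring
      _ ≤ LL d ^ 90 := pow_le_pow_right₀ hL (by norm_num)
      _ = 1 * LL d ^ 90 := (one_mul _).symm
  · positivity
  · rw [← mul_assoc]
    exact hτ

end Pool.Agent.H84.LG
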