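import Pool.Agent.H84.LG.CBase
import Pool.Agent.H44.SR.SUR
import Pool.Agent.H84.LG.PF2
import Pool.Agent.H44.DN.SPK
import Pool.Agent.H70.PL.Nex

/-!
POLYLOG RATE (MP_8f2e1c_an), piece 3 (displacement of critical values): the setting.

`Cs`: static map `F`, point `u`, natural scale `S` of `F` at `u`, unit vector `e` in the direction of `F u`; `Kcg`: relation
between the constants, `η` is the relative radius. `a = nm (F u)`. All perturbed maps `G` are compared with the static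
map `F` in the frame `e`.
-/

set_option autoImplicit false

namespace Pool.Agent.H84.LG.CV

open Pool.H70.SF Pool.Agent.H70.PL Pool.Agent.H44.SR Pool.Agent.H84.LG.PL

/-- relations between the constants of piece 3 -/
structure Kcg (M L q η : ℝ) : Prop where
  η1 : η ≤ 1 / 100
  ηq : 100000 * M ^ 2 * L * q ≤ η

/-- the setting of piece 3 -/
structure Cs (M A L t τ q q1 qn k1 k2 kap w η : ℝ) (F : ℂ → ℂ × ℂ) (u : ℂ) (S : ℝ) (e : ℂ × ℂ) : Prop where
  M1 : 1 ≤ M
  A1 : 100 * M ≤ A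
  w0 : 0 < w
  kog : Kog A L t τ q q1 qn k1 k2 kap
  kcg : Kcg M L q η
  sta : Sta M w t k1 k2 qn F
  u1 : ‖u‖ ≤ 1
  nsc : Nsc F u S
  dir : Dir F u e

variable {M A L t τ q q1 qn k1 k2 kap w η : ℝ} {F : ℂ → ℂ × ℂ} {u : ℂ} {S : ℝ} {e : ℂ × ℂ}

/-- elementary consequences -/
theorem Cs.num (h : Cs M A L t τ q q1 qn k1 k2 kap w η F u S e) :
    0 < nm (F u) ∧ nm (F u) ≤ M * w ∧ 0 < t ∧ 0 < k1 ∧ 0 < k2 ∧ 0 < kap ∧ 0 < q ∧ 0 < η ∧ q ≤ η / 100000 ∧
      0 < S ∧ S ≤ 1 ∧ 1 ≤ M ^ 2 * L ∧ τ * w ≤ η / 100 * nm (F u) ∧ τ * w ≤ nm (F u) / 40000 ∧ τ ≤ 1 := by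
  obtain ⟨hA0, ht, hqn, hk1, hk2, hkap, hq, g1, g2, g3, g4, g5, g6, g7, g8⟩ := h.kog.fac h.M1 h.A1
  have hM := h.M1
  have hL := h.kog.L1
  have hw := h.w0
  have hlow := h.sta.low u (by linarith [h.u1])
  have hbd := h.sta.bd u (by linarith [h.u1])
  have hpos : 0 < nm (F u) := lt_of_lt_of_le (by positivity) hlow
  have hM2 : 1 ≤ M ^ 2 := one_le_pow₀ hM
  have hML : 1 ≤ M ^ 2 * L := by nlinarith
  have hηq : q ≤ η / 100000 := by
    have h1 := h.kcg.ηq
    have h2 : 100000 * q * 1 ≤ 100000 * q * (M ^ 2 * L) := mul_le_mul_of_nonneg_left hML (by positivity)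
    nlinarith
  have hτ : A * τ * w ≤ kap * nm (F u) := by
    have h1 : A * τ * w ≤ kap * k1 * t * w := mul_le_mul_of_nonneg_right h.kog.τk hw.le
    have h2 : kap * (k1 * t * w) ≤ kap * nm (F u) := mul_le_mul_of_nonneg_left hlow hkap.le
    linarith
  have hA100 : 100 ≤ A := by linarith [h.A1]
  have hτ0 := h.kog.τ0
  have hτw : 100 * (τ * w) ≤ kap * nm (F u) := by
    have h1 : 100 * (τ * w) ≤ A * (τ * w) := mul_le_mul_of_nonneg_right hA100 (by positivity)
    linarith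
  have hkη : kap ≤ η := by linarith [h.kog.q1p]
  have h5 : kap * nm (F u) ≤ η * nm (F u) := mul_le_mul_of_nonneg_right hkη hpos.le
  have h6 : kap * nm (F u) ≤ 1 / 400 * nm (F u) := mul_le_mul_of_nonneg_right g3 hpos.le
  refine ⟨hpos, hbd, ht, hk1, hk2, hkap, hq, by linarith, hηq, h.nsc.1, h.nsc.2.1, hML, by linarith, by linarith,
    by linarith⟩

/-- the coordinates of two values of one map agree iff the values are parallel -/
theorem hh_eq {G : ℂ → ℂ × ℂ} {x y : ℂ} (he : nm e = 1) (hx : pr (G x) e ≠ 0) (hy : pr (G y) e ≠ 0)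
    (hxy : hh e G x = hh e G y) : wd (G y) (G x) = 0 := by
  unfold hh at hxy
  rw [div_eq_div_iff hx hy] at hxy
  rw [frame (G y) (G x) e he]
  linear_combination hxy

end Pool.Agent.H84.LG.CV
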