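import Pool.Agent.H84.LG.CBt

/-!
POLYLOG RATE (MP_8f2e1c_an), piece 3, module ZER: the difference of the coordinates of two perturbed maps is nearly
constant near `u` (compare `H44/SR/ZERO`, whose algebra `zs_alg` can be copied).

`zs_alg` (pure algebra): `α = pr (G0 v) e`, `β = pr (G1 v) e`, `b = wd e (G0 v)`, `yb = wd e (Y v)`, `y0 = wd e (Y u)`, `Y = G1 - G0`,
`a0 = nm (F u)`, `y = s w`:
`(b + yb)/β - b/α - y0/a0 = (yb - y0)/β - y0 (β - a0)/(β a0) - b (β - α)/(α β)`.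
`zero_step`: `bt_eta` and `bt_pr` for `G0` and `G1`; `‖β - α‖ ≤ y` (`pr_sub`, `pr_le`); `‖yb - y0‖ ≤ y ‖v - u‖ ≤ y η` (Cauchy for `Y` with radius
1 gives `nm (Y' z) ≤ s w` for `‖z‖ ≤ 2`, `mvP`); `y = s w ≤ τ w ≤ (η/100) a`.
-/

set_option autoImplicit false

namespace Pool.Agent.H84.LG.CV

open Pool.H70.SF Pool.Agent.H70.PL Pool.Agent.H44.SR Pool.Agent.H84.LG.PL

variable {M A L t τ q q1 qn k1 k2 kap w η : ℝ} {F : ℂ → ℂ × ℂ} {u : ℂ} {S : ℝ} {e : ℂ × ℂ}

private theorem zs_alg (α β b yb y0 : ℂ) (a0 η y : ℝ) (ha : 0 < a0) (hη : 0 < η) (hy : 0 ≤ y)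
    (h1 : ‖α - a0‖ ≤ 53 / 100 * η * a0) (h2 : ‖b‖ ≤ 53 / 100 * η * a0) (h3 : 7 / 10 * a0 ≤ ‖α‖)
    (h4 : 69 / 100 * a0 ≤ ‖β‖) (h5 : ‖β - α‖ ≤ y) (h6 : ‖yb - y0‖ ≤ y * η) (h7 : ‖y0‖ ≤ y)
    (h8 : y ≤ 11 / 1000 * η * a0) :
    ‖(b + yb) / β - b / α - y0 / a0‖ ≤ 4 * η * (y / a0) := by
  have hα0 : 0 < ‖α‖ := by nlinarith
  have hβ0 : 0 < ‖β‖ := by nlinarith
  have hα : α ≠ 0 := norm_pos_iff.1 hα0
  have hβ : β ≠ 0 := norm_pos_iff.1 hβ0
  have hac : (a0 : ℂ) ≠ 0 := by exact_mod_cast ha.ne'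
  have e : (b + yb) / β - b / α - y0 / a0
      = ((yb - y0) / β - y0 * (β - a0) / (β * a0)) - b * (β - α) / (α * β) := by
    field_simp
    ring
  rw [e]
  have t1 : ‖(yb - y0) / β‖ ≤ y * η / (69 / 100 * a0) := by
    rw [norm_div]
    exact div_le_div₀ (by positivity) h6 (by positivity) h4
  have hna : ‖(a0 : ℂ)‖ = a0 := by
    rw [Complex.norm_real, Real.norm_of_nonneg ha.le]
  have hβa : ‖β - a0‖ ≤ 541 / 1000 * η * a0 := by
    calc ‖β - a0‖ = ‖(β - α) + (α - a0)‖ := by rw [sub_add_sub_cancel]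
      _ ≤ ‖β - α‖ + ‖α - a0‖ := norm_add_le _ _
      _ ≤ 541 / 1000 * η * a0 := by linarith
  have t2 : ‖y0 * (β - a0) / (β * a0)‖ ≤ y * (541 / 1000 * η * a0) / (69 / 100 * a0 * a0) := by
    rw [norm_div, norm_mul, norm_mul, hna]
    apply div_le_div₀ (by positivity) _ (by positivity) _
    · exact mul_le_mul h7 hβa (norm_nonneg _) hy
    · exact mul_le_mul_of_nonneg_right h4 ha.le
  have t3 : ‖b * (β - α) / (α * β)‖ ≤ 53 / 100 * η * a0 * y / (7 / 10 * a0 * (69 / 100 * a0)) := by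
    rw [norm_div, norm_mul, norm_mul]
    apply div_le_div₀ (by positivity) _ (by positivity) _
    · exact mul_le_mul h2 h5 (norm_nonneg _) (by positivity)
    · exact mul_le_mul h3 h4 (by positivity) (by positivity)
  have t4 := norm_sub_le ((yb - y0) / β - y0 * (β - a0) / (β * a0)) (b * (β - α) / (α * β))
  have t5 := norm_sub_le ((yb - y0) / β) (y0 * (β - a0) / (β * a0))
  have e1 : y * η / (69 / 100 * a0) = 100 / 69 * (η * (y / a0)) := by
    field_simp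
  have e2 : y * (541 / 1000 * η * a0) / (69 / 100 * a0 * a0) = 541 / 690 * (η * (y / a0)) := by
    field_simp
    ring
  have e3 : 53 / 100 * η * a0 * y / (7 / 10 * a0 * (69 / 100 * a0))
      = 530 / 483 * (η * (y / a0)) := by
    field_simp
    ring
  rw [e1] at t1
  rw [e2] at t2
  rw [e3] at t3
  have hp : 0 ≤ η * (y / a0) := by positivity
  have e4 : 4 * η * (y / a0) = 4 * (η * (y / a0)) := by ring
  rw [e4]
  linarith

theorem zero_step (h : Cs M A L t τ q q1 qn k1 k2 kap w η F u S e) {G0 G1 : ℂ → ℂ × ℂ} (h0 : Per τ w F G0)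
    (h1 : Per τ w F G1) (s : ℝ) (hs : 0 ≤ s) (hsτ : s ≤ τ) (hY : ∀ v, ‖v‖ ≤ 3 → nm (G1 v - G0 v) ≤ s * w) (v : ℂ)
    (hv : ‖v - u‖ ≤ η * S) :
    ‖hh e G1 v - hh e G0 v - wd e (G1 u - G0 u) / nm (F u)‖ ≤ 4 * η * (s * w / nm (F u)) := by
  obtain ⟨ha, haM, ht, hk1, hk2, hkap, hq, hη, hqη, hS0, hS1, hML, hτη, hτ4, hτ1⟩ := h.num
  have hη1 := h.kcg.η1
  have hw := h.w0
  have hu := h.u1
  have hvS : ‖v - u‖ ≤ S / 2 := by nlinarith
  have hvη : ‖v - u‖ ≤ η := by nlinarith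
  have hv2 : ‖v‖ ≤ 3 := by linarith [bt_norm3 h (show ‖v - u‖ ≤ S by linarith)]
  have hy : 0 ≤ s * w := mul_nonneg hs hw.le
  have hYd : Differentiable ℂ (fun x => G1 x - G0 x) := h1.dif.sub h0.dif
  have hlin : ∀ a b : ℂ × ℂ, wd e (a - b) = wd e a - wd e b := by
    intro a b
    simp only [wd, Prod.fst_sub, Prod.snd_sub]
    ring
  have hY1 : nm ((G1 v - G0 v) - (G1 u - G0 u)) ≤ (s * w) * ‖v - u‖ := by
    have hder : ∀ z, ‖z - u‖ ≤ ‖v - u‖ → nm (deriv (fun x => G1 x - G0 x) z) ≤ s * w := by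
      intro z hz
      have := cauP hYd z 1 (s * w) one_pos (fun x hx => by
        apply hY
        have e1 : x = (x - z) + ((z - u) + u) := by ring
        rw [e1]
        have h1 := norm_add_le (x - z) ((z - u) + u)
        have h2 := norm_add_le (z - u) u
        linarith)
      rwa [div_one] at this
    have := mvP hYd u ‖v - u‖ (s * w) hder v u le_rfl (by simp)
    exact this
  obtain ⟨b1, b2⟩ := bt_eta h h0 v hv
  have b3 := (bt_pr h h0 v hvS).1
  have c1 := (bt_pr h h1 v hvS).1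
  have key := zs_alg (pr (G0 v) e) (pr (G1 v) e) (wd e (G0 v)) (wd e (G1 v - G0 v))
    (wd e (G1 u - G0 u)) (nm (F u)) η (s * w) ha hη hy b1 b2 b3 (by linarith)
    (by
      rw [← pr_sub]
      have h1 := pr_le (G1 v - G0 v) e
      rw [h.dir.one, mul_one] at h1
      exact h1.trans (hY v hv2))
    (by
      rw [← hlin]
      have h1 := wd_le e ((G1 v - G0 v) - (G1 u - G0 u))
      rw [h.dir.one, one_mul] at h1
      refine h1.trans (hY1.trans ?_)
      exact mul_le_mul_of_nonneg_left hvη hy)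
    (by
      have h1 := wd_le e (G1 u - G0 u)
      rw [h.dir.one, one_mul] at h1
      exact h1.trans (hY u (by linarith)))
    (by
      have h1 : s * w ≤ τ * w := mul_le_mul_of_nonneg_right hsτ hw.le
      have h4 : 0 < η * nm (F u) := mul_pos hη ha
      linarith)
  have e1 : wd e (G0 v) + wd e (G1 v - G0 v) = wd e (G1 v) := by
    rw [hlin]
    ring
  rw [e1] at key
  exact key

end Pool.Agent.H84.LG.CV
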