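import Pool.Agent.H84.LG.CSid
import Pool.Agent.H84.LG.CZer
import Pool.Agent.H84.LG.CInv

/-!
POLYLOG RATE (MP_8f2e1c_an), piece 3, module EXC: one small step of the homotopy (compare `H44/SR/EXC`, same structure of
proof).

Let `h0 = hh e G0`, `h1 = hh e G1`, `a = nm (F u)`, `r = 8 η s w / a > 0`, `e* = wd e (G1 u - G0 u) / a`. Suppose no `c0` with `‖c0 - u‖ < ρ`,
`Jc G0 c0 = 0` has `‖h0 c0 - h0 c1‖ < r`. `side` for `G0`, `c = c1`: radius `R ∈ [ρ, ρ + 4 q S]`, `R ≤ η S < S/2`, with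
`r ≤ k2 t w q S/(60000 M² L a) ≤ ‖h0 v - h0 c1‖` for `‖v - u‖ = R`. `inv_branch2` (`u0 = u`, `c = c1`, `U = ball u (S/2)`): for `v ∈ ball u R` with
`‖h0 v - h0 c1‖ < r` the derivative `h0' v = Jc G0 v/(pr (G0 v) e)²` (`hh_der`, `bt_pr`) is not zero: if `‖v - u‖ < ρ` this is the assumption, if
`ρ ≤ ‖v - u‖ < R` it is `low`. So there is `g` on `ball (h0 c1) r` with `g (h0 c1) = c1`, `h0 (g z) = z`, `g z ∈ ball u R`, and
`‖h1 (g z) - z - e*‖ ≤ 4 η s w/a = r/2` (`zero_step` at `g z`). The function `z ↦ h1 (g z) - z - e*` has derivative `-1` at `h0 c1`, because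
`h1' c1 = 0` (`Jc G1 c1 = 0`, `hh_der`); Cauchy on the circle of radius `6 η s w/a`
(`Complex.norm_deriv_le_of_forall_mem_sphere_norm_le`) gives `1 ≤ 4/6`, a contradiction.
-/

set_option autoImplicit false

namespace Pool.Agent.H84.LG.CV

open Pool.H70.SF Pool.Agent.H70.PL Pool.Agent.H44.SR Pool.Agent.H84.LG.PL

variable {M A L t τ q q1 qn k1 k2 kap w η : ℝ} {F : ℂ → ℂ × ℂ} {u : ℂ} {S : ℝ} {e : ℂ × ℂ} {ρ : ℝ}

theorem exc (h : Cs M A L t τ q q1 qn k1 k2 kap w η F u S e) (hρ : Ann q η F u S ρ) {G0 G1 : ℂ → ℂ × ℂ}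
    (h0 : Per τ w F G0) (h1 : Per τ w F G1) (s : ℝ) (hs : 0 < s) (hsτ : s ≤ τ)
    (hY : ∀ v, ‖v‖ ≤ 3 → nm (G1 v - G0 v) ≤ s * w)
    (hsm : 8 * η * (s * w / nm (F u)) ≤ k2 * t * w * q * S / (60000 * M ^ 2 * L * nm (F u))) (c1 : ℂ)
    (hc1 : ‖c1 - u‖ < ρ) (hJ : Jc G1 c1 = 0) :
    ∃ c0, ‖c0 - u‖ < ρ ∧ Jc G0 c0 = 0 ∧ ‖hh e G0 c0 - hh e G0 c1‖ < 8 * η * (s * w / nm (F u)) := by
  by_contra hcon
  push Not at hcon
  obtain ⟨ha0, -, ht, -, hk2, -, hq, hη0, hqη, hS0, -, -, -, -, -⟩ := h.num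
  have hη1 := h.kcg.η1
  have hw := h.w0
  have he := h.dir.one
  have hy0 : 0 < s * w / nm (F u) := div_pos (mul_pos hs hw) ha0
  set y : ℝ := s * w / nm (F u) with hydef
  have hr : 0 < 8 * η * y := by positivity
  have hηS : 0 < η * S := mul_pos hη0 hS0
  have hr1 := hρ.r1
  have hr2 := hρ.r2
  have hc1' : ‖c1 - u‖ ≤ η * S := by linarith
  obtain ⟨R, hR1, hR2, hside⟩ := side h hρ h0 c1 hc1'
  have hqS : q * S ≤ η / 100000 * S := mul_le_mul_of_nonneg_right hqη hS0.le
  have hRη : R ≤ η * S := by nlinarith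
  have hηS2 : η * S ≤ 1 / 100 * S := mul_le_mul_of_nonneg_right hη1 hS0.le
  have hRS : R < S / 2 := by linarith
  have hR0 : 0 < R := by linarith
  have hpr : ∀ v ∈ Metric.ball u (S / 2), pr (G0 v) e ≠ 0 := by
    intro v hv
    rw [Metric.mem_ball, dist_eq_norm] at hv
    exact (bt_pr h h0 v hv.le).2.2.2
  have hpr1 : ∀ v ∈ Metric.ball u (S / 2), pr (G1 v) e ≠ 0 := by
    intro v hv
    rw [Metric.mem_ball, dist_eq_norm] at hv
    exact (bt_pr h h1 v hv.le).2.2.2
  have hsub : Metric.closedBall u R ⊆ Metric.ball u (S / 2) := by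
    intro v hv
    rw [Metric.mem_closedBall] at hv
    rw [Metric.mem_ball]
    linarith
  have hsph : ∀ v ∈ Metric.sphere u R, 8 * η * y ≤ ‖hh e G0 v - hh e G0 c1‖ := by
    intro v hv
    rw [mem_sphere_iff_norm] at hv
    exact hsm.trans (hside v hv)
  have hder : ∀ v ∈ Metric.ball u R, ‖hh e G0 v - hh e G0 c1‖ < 8 * η * y →
      deriv (hh e G0) v ≠ 0 := by
    intro v hv hv2
    have hv1 := hsub (Metric.ball_subset_closedBall hv)
    rw [(hh_der h0.dif he (hpr v hv1)).deriv]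
    rw [Metric.mem_ball, dist_eq_norm] at hv
    have hJv : Jc G0 v ≠ 0 := by
      intro hz
      by_cases hvρ : ‖v - u‖ < ρ
      · have := hcon v hvρ hz
        linarith
      · have h3 := low h hρ h0 v (by
          rw [abs_le]
          constructor <;> nlinarith)
        rw [hz, norm_zero] at h3
        have h4 : 0 < k2 / 40 * t * w * nm (F u) := by positivity
        linarith
    exact div_ne_zero hJv (pow_ne_zero 2 (hpr v hv1))
  have hcb : c1 ∈ Metric.ball u R := by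
    rw [Metric.mem_ball, dist_eq_norm]
    linarith
  obtain ⟨g, hg1, hg2, hg3⟩ := inv_branch2 (h := hh e G0) (u0 := u) (c := c1) hR0 hr
    Metric.isOpen_ball hsub (hh_diff h0.dif he hpr) hcb hsph hder
  set z0 : ℂ := hh e G0 c1 with hz0
  set es : ℂ := wd e (G1 u - G0 u) / nm (F u) with hes
  have h0b : z0 ∈ Metric.ball z0 (8 * η * y) := Metric.mem_ball_self hr
  have hdiff : ∀ z ∈ Metric.ball z0 (8 * η * y),
      DifferentiableAt ℂ (fun z => hh e G1 (g z) - z - es) z := by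
    intro z hz
    have h3 : DifferentiableAt ℂ g z := hg1.differentiableAt (Metric.isOpen_ball.mem_nhds hz)
    have h4 : DifferentiableAt ℂ (hh e G1) (g z) :=
      (hh_der h1.dif he
        (hpr1 (g z) (hsub (Metric.ball_subset_closedBall (hg3 z hz).1)))).differentiableAt
    have h5 : DifferentiableAt ℂ (fun z => hh e G1 (g z)) z := h4.comp z h3
    exact (h5.sub differentiableAt_id).sub_const es
  have hbd : ∀ z ∈ Metric.ball z0 (8 * η * y), ‖hh e G1 (g z) - z - es‖ ≤ 4 * η * y := by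
    intro z hz
    have h3 := hg3 z hz
    have h4 : ‖g z - u‖ ≤ η * S := by
      have := h3.1
      rw [Metric.mem_ball, dist_eq_norm] at this
      linarith
    have h5 := zero_step h h0 h1 s hs.le hsτ hY (g z) h4
    rw [h3.2] at h5
    exact h5
  have hr' : 0 < 6 * η * y := by positivity
  have hsub2 : Metric.closedBall z0 (6 * η * y) ⊆ Metric.ball z0 (8 * η * y) := by
    apply Metric.closedBall_subset_ball
    nlinarith
  have hcau : ‖deriv (fun z => hh e G1 (g z) - z - es) z0‖ ≤ 4 * η * y / (6 * η * y) := by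
    apply Complex.norm_deriv_le_of_forall_mem_sphere_norm_le hr'
    · apply DifferentiableOn.diffContOnCl
      rw [closure_ball _ hr'.ne']
      intro z hz
      exact (hdiff z (hsub2 hz)).differentiableWithinAt
    · intro z hz
      exact hbd z (hsub2 (Metric.sphere_subset_closedBall hz))
  have hval : deriv (fun z => hh e G1 (g z) - z - es) z0 = -1 := by
    have h3 : HasDerivAt g (deriv g z0) z0 :=
      (hg1.differentiableAt (Metric.isOpen_ball.mem_nhds h0b)).hasDerivAt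
    have h4 : HasDerivAt (hh e G1) 0 (g z0) := by
      rw [hg2]
      have h5 := hh_der h1.dif he (hpr1 c1 (hsub (Metric.ball_subset_closedBall hcb)))
      rw [hJ, zero_div] at h5
      exact h5
    have h5 : HasDerivAt (fun z => hh e G1 (g z)) (0 * deriv g z0) z0 := h4.comp z0 h3
    have h6 : HasDerivAt (fun z => hh e G1 (g z) - z - es) (0 * deriv g z0 - 1) z0 :=
      (h5.sub (hasDerivAt_id' z0)).sub_const es
    rw [h6.deriv]
    ring
  rw [hval, norm_neg, norm_one, le_div_iff₀ hr'] at hcau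
  nlinarith

end Pool.Agent.H84.LG.CV
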