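import Pool.Agent.H84.LG.CDef

/-!
POLYLOG RATE (MP_8f2e1c_an), piece 3, module GAP: choice of radii.

`gap` (Mathlib only, compare `circ_ex` in `H44/SR/CIRC`): suppose every `x ∈ [a, a + l]` has some `z ∈ Z` with `|‖z - u‖ - x| < l/(4 n)`. Apply it to the `n + 1`
points `a + j l/n`, `j ≤ n`; by the pigeonhole principle two of them, at distance `≥ l/n`, have the same `z`, but
`2 l/(4 n) < l/n`.
`ann`: `Z` = zeros of `Jc F` in `‖z‖ ≤ 5/4` (`f2_J` with `F1 = F`, `per_self`), card `≤ 300 M² L`; `n = ⌊300 M² L⌋ + 1 ≤ 301 M² L`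
(`1 ≤ M² L`); `gap` on `[η S/2, 3 η S/4]` (`l = η S/4`): distances at least `η S/(16 n) > 16 q S`, since
`η ≥ 100000 M² L q > 256 · 301 M² L q ≥ 256 n q`. If `|‖z - u‖ - ρ| ≤ 16 q S` and `Jc F z = 0` then `‖z‖ ≤ 5/4`
(`‖z - u‖ ≤ η S + 16 q S ≤ 1/50`), so `z ∈ Z`: contradiction.
-/

set_option autoImplicit false

namespace Pool.Agent.H84.LG.CV

open Pool.H70.SF Pool.Agent.H70.PL Pool.Agent.H44.SR Pool.Agent.H84.LG.PL

theorem gap (u : ℂ) (a l : ℝ) (hl : 0 < l) (Z : Finset ℂ) (n : ℕ) (hn : 1 ≤ n) (hZ : Z.card ≤ n) :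
    ∃ x, a ≤ x ∧ x ≤ a + l ∧ ∀ z ∈ Z, l / (4 * n) ≤ |‖z - u‖ - x| := by
  by_contra hno
  push Not at hno
  have hn1 : (1 : ℝ) ≤ n := by exact_mod_cast hn
  have hn0 : (0 : ℝ) < n := by linarith
  have hd : 0 < l / n := by positivity
  have hj : ∀ j ∈ Finset.range (n + 1), ∃ z ∈ Z,
      |‖z - u‖ - (a + j * (l / n))| < l / (4 * n) := by
    intro j hj
    have hj1 : (j : ℝ) ≤ n := by
      have : j ≤ n := Nat.lt_succ_iff.1 (Finset.mem_range.1 hj)
      exact_mod_cast this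
    refine hno _ ?_ ?_
    · have : 0 ≤ (j : ℝ) * (l / n) := by positivity
      linarith
    · have h1 : (j : ℝ) * (l / n) ≤ n * (l / n) :=
        mul_le_mul_of_nonneg_right hj1 hd.le
      have h2 : (n : ℝ) * (l / n) = l := by
        field_simp
      linarith
  have hex : ∀ j : ℕ, ∃ z : ℂ, j ∈ Finset.range (n + 1) → z ∈ Z ∧
      |‖z - u‖ - (a + j * (l / n))| < l / (4 * n) := by
    intro j
    by_cases h : j ∈ Finset.range (n + 1)
    · obtain ⟨z, hz, hz'⟩ := hj j h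
      exact ⟨z, fun _ => ⟨hz, hz'⟩⟩
    · exact ⟨0, fun h' => absurd h' h⟩
  choose f hf using hex
  obtain ⟨j, hjm, k, hkm, hjk, hfe⟩ := Finset.exists_ne_map_eq_of_card_lt_of_maps_to
    (s := Finset.range (n + 1)) (t := Z) (f := f) (by
      rw [Finset.card_range]
      omega) (fun j hj => (hf j hj).1)
  have key : ∀ a' ∈ Finset.range (n + 1), ∀ b ∈ Finset.range (n + 1), a' < b → f a' ≠ f b := by
    intro a' ha b hb hab he
    have h1 := (hf a' ha).2
    have h2 := (hf b hb).2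
    rw [he] at h1
    rw [abs_lt] at h1 h2
    have h3 : ((a' : ℝ) + 1) ≤ b := by exact_mod_cast hab
    have h4 : ((b : ℝ) - a') * (l / n) < 2 * (l / (4 * n)) := by
      have : ((b : ℝ) - a') * (l / n) = b * (l / n) - a' * (l / n) := by ring
      rw [this]
      linarith
    have h5 : 2 * (l / (4 * n)) = 1 / 2 * (l / n) := by
      field_simp
      norm_num
    rw [h5] at h4
    have h6 : 1 * (l / n) ≤ ((b : ℝ) - a') * (l / n) :=
      mul_le_mul_of_nonneg_right (by linarith) hd.le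
    linarith
  rcases Nat.lt_or_gt_of_ne hjk with h | h
  · exact key j hjm k hkm h hfe
  · exact key k hkm j hjm h hfe.symm

variable {M A L t τ q q1 qn k1 k2 kap w η : ℝ} {F : ℂ → ℂ × ℂ} {u : ℂ} {S : ℝ} {e : ℂ × ℂ}

theorem ann (h : Cs M A L t τ q q1 qn k1 k2 kap w η F u S e) :
    ∃ ρ, η * S / 2 ≤ ρ ∧ ρ ≤ 3 / 4 * (η * S) ∧ ∀ z, |‖z - u‖ - ρ| ≤ 16 * q * S → Jc F z ≠ 0 := by
  obtain ⟨ha, haM, ht, hk1, hk2, hkap, hq, hη, hqη, hS0, hS1, hML, hτη, hτ4, hτ1⟩ := h.num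
  have hη1 := h.kcg.η1
  have hL := h.kog.L1
  have hu := h.u1
  obtain ⟨f1, c1⟩ := f2_J M A L t τ q q1 qn k1 k2 kap w h.M1 h.A1 h.w0 h.kog F F h.sta
    (per_self h.kog.τ0 h.w0 h.sta.dif)
  obtain ⟨n, hn⟩ : ∃ n : ℕ, n = ⌊300 * (M ^ 2 * L)⌋₊ + 1 := ⟨_, rfl⟩
  have hn1 : 1 ≤ n := by omega
  have hnR : (n : ℝ) ≤ 301 * (M ^ 2 * L) := by
    have h1 : ((⌊300 * (M ^ 2 * L)⌋₊ : ℕ) : ℝ) ≤ 300 * (M ^ 2 * L) :=
      Nat.floor_le (by positivity)
    rw [hn]
    push_cast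
    linarith
  have hn0 : (0 : ℝ) < n := by exact_mod_cast (by omega : 0 < n)
  have hcard : f1.toFinset.card ≤ n := by
    have h2 : f1.toFinset.card ≤ ⌊300 * (M ^ 2 * L)⌋₊ := by
      apply Nat.le_floor
      rw [← Set.ncard_eq_toFinset_card _ f1]
      linarith
    omega
  have hηS0 : 0 < η * S := mul_pos hη hS0
  obtain ⟨ρ, hρ1, hρ2, hρ3⟩ := gap u (η * S / 2) (η * S / 4) (by linarith) f1.toFinset n hn1 hcard
  refine ⟨ρ, hρ1, by linarith, ?_⟩
  intro z hz h0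
  have hηS : η * S ≤ 1 / 100 := by nlinarith
  have hqS : 16 * q * S ≤ 1 / 100 := by
    have h1 : q * S ≤ q := by nlinarith
    nlinarith
  have hz54 : ‖z‖ ≤ 5 / 4 := by
    have h2 := norm_add_le (z - u) u
    rw [sub_add_cancel] at h2
    have h3 := (abs_le.1 hz).2
    linarith
  have hlt : 16 * q * S < η * S / 4 / (4 * n) := by
    rw [lt_div_iff₀ (by positivity)]
    have h1 : 256 * (q * n) < η := by
      have h2 : q * n ≤ q * (301 * (M ^ 2 * L)) := mul_le_mul_of_nonneg_left hnR hq.le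
      have h3 := h.kcg.ηq
      have h4 : 0 < q * (M ^ 2 * L) := by
        have : 0 < M ^ 2 * L := by linarith
        positivity
      have h5 : 100000 * (q * (M ^ 2 * L)) ≤ η := by
        have : 100000 * (q * (M ^ 2 * L)) = 100000 * M ^ 2 * L * q := by ring
        linarith
      linarith
    have h6 : 256 * (q * n) * S < η * S := mul_lt_mul_of_pos_right h1 hS0
    have h7 : 16 * q * S * (4 * n) = 256 * (q * n) * S / 4 := by ring
    linarith
  have hmem : z ∈ f1.toFinset := (Set.Finite.mem_toFinset f1).2 ⟨hz54, h0⟩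
  have h1 := hρ3 z hmem
  linarith

end Pool.Agent.H84.LG.CV
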