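import Pool.Agent.H84.LG.CExc

/-!
POLYLOG RATE (MP_8f2e1c_an), piece 3, module HOM: the homotopy from `F1` to `F0` in `N` small steps.

`a = nm (F u)`, `Y = F1 - F0`. `ann` gives `ρ`, `Ann q η F u S ρ`. Choose `N ≥ 1` (natural number) with
`8 η (s w/a) ≤ N * (k2 t w q S/(60000 M² L a))` (the right factor is positive), `s' = s/N ≤ τ`. For `k ≤ N` let
`G k v = F0 v + (k/N) (F1 v - F0 v)` (`bt_path` with `θ = k/N`): `G 0 = F0`, `G N = F1`, `G (k+1) v - G k v = (1/N) (F1 v - F0 v)`, so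
`nm (G (k+1) v - G k v) ≤ s' w` on `‖v‖ ≤ 3` (`nm_smul`).
Claim by induction on `j ≤ N`: there is `c` with `‖c - u‖ < ρ`, `Jc (G (N-j)) c = 0` and
`‖hh e F1 u - hh e (G (N-j)) c - (j/N) (wd e (F1 u - F0 u)/a)‖ ≤ 12 η (j/N) (s w/a)`.
`j = 0`: `c = u` (`ρ > 0`). Step: `exc` with `G1 = G (N-j)`, `G0 = G (N-j-1)`, `c1 = c` gives `c0` with `‖hh e G0 c0 - hh e G0 c‖ < 8 η (s' w/a)`, and
`zero_step` at `v = c` gives `‖hh e G1 c - hh e G0 c - wd e (G1 u - G0 u)/a‖ ≤ 4 η (s' w/a)`, where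
`wd e (G1 u - G0 u) = (1/N) wd e (F1 u - F0 u)`. Add. `j = N` is the theorem (`G 0 = F0` as functions: `funext`, `simp`).
-/

set_option autoImplicit false

namespace Pool.Agent.H84.LG.CV

open Pool.H70.SF Pool.Agent.H70.PL Pool.Agent.H44.SR Pool.Agent.H84.LG.PL

variable {M A L t τ q q1 qn k1 k2 kap w η : ℝ} {F : ℂ → ℂ × ℂ} {u : ℂ} {S : ℝ} {e : ℂ × ℂ}

private theorem path_zero (F0 F1 : ℂ → ℂ × ℂ) :
    (fun v => F0 v + (((0 : ℝ)) : ℂ) • (F1 v - F0 v)) = F0 := by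
  funext v
  rw [Complex.ofReal_zero, zero_smul, add_zero]

private theorem path_one (F0 F1 : ℂ → ℂ × ℂ) :
    (fun v => F0 v + (((1 : ℝ)) : ℂ) • (F1 v - F0 v)) = F1 := by
  funext v
  rw [Complex.ofReal_one, one_smul, add_sub_cancel]

private theorem path_sub (F0 F1 : ℂ → ℂ × ℂ) (a b : ℝ) (v : ℂ) :
    (F0 v + (a : ℂ) • (F1 v - F0 v)) - (F0 v + (b : ℂ) • (F1 v - F0 v)) =
      ((a - b : ℝ) : ℂ) • (F1 v - F0 v) := by
  rw [add_sub_add_left_eq_sub, ← sub_smul, Complex.ofReal_sub]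

private theorem wd_smul (e : ℂ × ℂ) (c : ℂ) (x : ℂ × ℂ) : wd e (c • x) = c * wd e x := by
  simp only [wd, Prod.smul_fst, Prod.smul_snd, smul_eq_mul]
  ring

/-- one step of the homotopy -/
private theorem hom_step (h : Cs M A L t τ q q1 qn k1 k2 kap w η F u S e) {F0 F1 : ℂ → ℂ × ℂ}
    (h0 : Per τ w F F0) (h1 : Per τ w F F1) (s : ℝ) (hs : 0 < s) (hsτ : s ≤ τ)
    (hY : ∀ v, ‖v‖ ≤ 3 → nm (F1 v - F0 v) ≤ s * w) {ρ : ℝ} (hρ : Ann q η F u S ρ) (N : ℝ)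
    (hN : 1 ≤ N)
    (hsm : 8 * η * (s / N * w / nm (F u)) ≤ k2 * t * w * q * S / (60000 * M ^ 2 * L * nm (F u)))
    (θ θ' : ℝ) (hθ : θ ≤ 1) (hθ' : 0 ≤ θ') (hd : θ - θ' = 1 / N) (c : ℂ) (hc : ‖c - u‖ < ρ)
    (hJ : Jc (fun v => F0 v + (θ : ℂ) • (F1 v - F0 v)) c = 0) :
    ∃ c0, ‖c0 - u‖ < ρ ∧ Jc (fun v => F0 v + (θ' : ℂ) • (F1 v - F0 v)) c0 = 0 ∧
      ‖hh e (fun v => F0 v + (θ : ℂ) • (F1 v - F0 v)) c -
        hh e (fun v => F0 v + (θ' : ℂ) • (F1 v - F0 v)) c0 -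
        ((1 / N : ℝ) : ℂ) * (wd e (F1 u - F0 u) / nm (F u))‖ ≤
        12 * η * (s / N * w / nm (F u)) := by
  obtain ⟨ha, -, -, -, -, -, -, hη, -, hS, -, -, -, -, -⟩ := h.num
  have hN0 : 0 < N := by linarith
  have hθθ : θ' ≤ θ := by
    have : 0 < 1 / N := by positivity
    linarith
  have hτ0 : 0 ≤ τ := hs.le.trans hsτ
  have p1 := bt_path h.w0 hτ0 h0 h1 θ (hθ'.trans hθθ) hθ
  have p0 := bt_path h.w0 hτ0 h0 h1 θ' hθ' (hθθ.trans hθ)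
  obtain ⟨G1, hG1⟩ : ∃ G : ℂ → ℂ × ℂ, G = fun v => F0 v + (θ : ℂ) • (F1 v - F0 v) := ⟨_, rfl⟩
  obtain ⟨G0, hG0⟩ : ∃ G : ℂ → ℂ × ℂ, G = fun v => F0 v + (θ' : ℂ) • (F1 v - F0 v) := ⟨_, rfl⟩
  rw [← hG1] at p1 hJ ⊢
  rw [← hG0] at p0 ⊢
  have hdif : ∀ v, G1 v - G0 v = ((1 / N : ℝ) : ℂ) • (F1 v - F0 v) := by
    intro v
    rw [hG1, hG0]
    simp only
    rw [path_sub, hd]
  have hs' : 0 < s / N := by positivity
  have hs'τ : s / N ≤ τ := by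
    refine le_trans ?_ hsτ
    rw [div_le_iff₀ hN0]
    nlinarith
  have hY' : ∀ v, ‖v‖ ≤ 3 → nm (G1 v - G0 v) ≤ s / N * w := by
    intro v hv
    rw [hdif v, nm_smul, Complex.norm_real, Real.norm_of_nonneg (by positivity)]
    calc 1 / N * nm (F1 v - F0 v) ≤ 1 / N * (s * w) :=
          mul_le_mul_of_nonneg_left (hY v hv) (by positivity)
      _ = s / N * w := by ring
  obtain ⟨c0, hc0, hJ0, hn0⟩ := exc h hρ p0 p1 (s / N) hs' hs'τ hY' hsm c hc hJ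
  have hcη : ‖c - u‖ ≤ η * S := by
    have := hρ.r2
    have h2 : 0 < η * S := by positivity
    linarith
  have hz := zero_step h p0 p1 (s / N) hs'.le hs'τ hY' c hcη
  rw [hdif u, wd_smul] at hz
  refine ⟨c0, hc0, hJ0, ?_⟩
  have hid : hh e G1 c - hh e G0 c0 - ((1 / N : ℝ) : ℂ) * (wd e (F1 u - F0 u) / nm (F u)) =
      (hh e G1 c - hh e G0 c - ((1 / N : ℝ) : ℂ) * wd e (F1 u - F0 u) / nm (F u)) -
        (hh e G0 c0 - hh e G0 c) := by ring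
  rw [hid]
  refine (norm_sub_le _ _).trans ((add_le_add hz hn0.le).trans (le_of_eq ?_))
  ring

theorem hom (h : Cs M A L t τ q q1 qn k1 k2 kap w η F u S e) {F0 F1 : ℂ → ℂ × ℂ}
    (h0 : Per τ w F F0) (h1 : Per τ w F F1) (s : ℝ) (hs : 0 < s) (hsτ : s ≤ τ)
    (hY : ∀ v, ‖v‖ ≤ 3 → nm (F1 v - F0 v) ≤ s * w) (hJ : Jc F1 u = 0) :
    ∃ c, ‖c - u‖ ≤ η * S ∧ Jc F0 c = 0 ∧
      ‖hh e F1 u - hh e F0 c - wd e (F1 u - F0 u) / nm (F u)‖ ≤ 12 * η * (s * w / nm (F u)) := by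
  obtain ⟨ρ, hρ1, hρ2, hρ3⟩ := ann h
  have hρ : Ann q η F u S ρ := ⟨hρ1, hρ2, hρ3⟩
  obtain ⟨ha, -, ht, -, hk2, -, hq, hη, -, hS, -, hML, -, -, -⟩ := h.num
  have hw := h.w0
  have hM := h.M1
  have hηS : 0 < η * S := by positivity
  obtain ⟨a, hadef⟩ : ∃ a, a = nm (F u) := ⟨_, rfl⟩
  have hY0 : 0 < k2 * t * w * q * S / (60000 * M ^ 2 * L * nm (F u)) := by
    have h5 : 60000 * M ^ 2 * L * nm (F u) = 60000 * (M ^ 2 * L) * nm (F u) := by ring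
    rw [h5]
    have : 0 < M ^ 2 * L := by linarith
    positivity
  obtain ⟨n, hn⟩ := exists_nat_ge (8 * η * (s * w / nm (F u)) /
    (k2 * t * w * q * S / (60000 * M ^ 2 * L * nm (F u))))
  obtain ⟨N, hNdef⟩ : ∃ N : ℕ, N = n + 1 := ⟨_, rfl⟩
  have hN1 : (1 : ℝ) ≤ N := by
    rw [hNdef]
    push_cast
    have : (0 : ℝ) ≤ n := Nat.cast_nonneg n
    linarith
  have hN0 : (0 : ℝ) < N := by linarith
  have hnN : (n : ℝ) ≤ N := by
    rw [hNdef]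
    push_cast
    linarith
  have hsm : 8 * η * (s / N * w / nm (F u)) ≤
      k2 * t * w * q * S / (60000 * M ^ 2 * L * nm (F u)) := by
    rw [div_le_iff₀ hY0] at hn
    have h6 : 8 * η * (s / N * w / nm (F u)) = 8 * η * (s * w / nm (F u)) / N := by
      field_simp
    rw [h6, div_le_iff₀ hN0]
    refine hn.trans ?_
    rw [mul_comm]
    exact mul_le_mul_of_nonneg_left hnN hY0.le
  have key : ∀ j : ℕ, j ≤ N → ∃ c, ‖c - u‖ < ρ ∧
      Jc (fun v => F0 v + ((1 - (j : ℝ) / N : ℝ) : ℂ) • (F1 v - F0 v)) c = 0 ∧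
      ‖hh e F1 u - hh e (fun v => F0 v + ((1 - (j : ℝ) / N : ℝ) : ℂ) • (F1 v - F0 v)) c -
        (((j : ℝ) / N : ℝ) : ℂ) * (wd e (F1 u - F0 u) / nm (F u))‖ ≤
        12 * η * ((j : ℝ) / N * (s * w / nm (F u))) := by
    intro j
    induction j with
    | zero =>
      intro _
      refine ⟨u, ?_, ?_, ?_⟩
      · rw [sub_self, norm_zero]
        linarith
      · rw [Nat.cast_zero, zero_div, sub_zero, path_one]
        exact hJ
      · rw [Nat.cast_zero, zero_div, sub_zero, path_one, Complex.ofReal_zero, zero_mul, sub_self,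
          sub_zero, norm_zero, zero_mul, mul_zero]
    | succ j ih =>
      intro hj
      obtain ⟨c, hc, hJc, hnc⟩ := ih (by omega)
      have hjN : ((j : ℝ) + 1) / N ≤ 1 := by
        rw [div_le_one hN0]
        exact_mod_cast hj
      have hj0 : (0 : ℝ) ≤ (j : ℝ) / N := by positivity
      obtain ⟨c0, hc0, hJ0, hn0⟩ := hom_step h h0 h1 s hs hsτ hY hρ (N : ℝ) hN1 hsm
        (1 - (j : ℝ) / N) (1 - ((j : ℝ) + 1) / N) (by linarith) (by linarith) (by ring) c hc hJc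
      refine ⟨c0, hc0, ?_, ?_⟩
      · rw [Nat.cast_succ]
        exact hJ0
      · rw [Nat.cast_succ]
        have hid : hh e F1 u -
            hh e (fun v => F0 v + ((1 - ((j : ℝ) + 1) / N : ℝ) : ℂ) • (F1 v - F0 v)) c0 -
            ((((j : ℝ) + 1) / N : ℝ) : ℂ) * (wd e (F1 u - F0 u) / nm (F u)) =
            (hh e F1 u - hh e (fun v => F0 v + ((1 - (j : ℝ) / N : ℝ) : ℂ) • (F1 v - F0 v)) c -
              (((j : ℝ) / N : ℝ) : ℂ) * (wd e (F1 u - F0 u) / nm (F u))) +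
            (hh e (fun v => F0 v + ((1 - (j : ℝ) / N : ℝ) : ℂ) • (F1 v - F0 v)) c -
              hh e (fun v => F0 v + ((1 - ((j : ℝ) + 1) / N : ℝ) : ℂ) • (F1 v - F0 v)) c0 -
              ((1 / N : ℝ) : ℂ) * (wd e (F1 u - F0 u) / nm (F u))) := by
          push_cast
          ring
        rw [hid]
        refine (norm_add_le _ _).trans ((add_le_add hnc hn0).trans (le_of_eq ?_))
        ring
  obtain ⟨c, hc, hJc, hnc⟩ := key N le_rfl
  have hNN : (N : ℝ) / N = 1 := div_self hN0.ne'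
  rw [hNN, sub_self, path_zero] at hJc
  rw [hNN, sub_self, path_zero, Complex.ofReal_one, one_mul, one_mul] at hnc
  exact ⟨c, by linarith, hJc, hnc⟩

end Pool.Agent.H84.LG.CV
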