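import Pool.Agent.H84.LG.CBt

/-!
POLYLOG RATE (MP_8f2e1c_an), piece 3, module LOW: lower bounds on an annulus free of zeros of the static Jacobian.

`Ann`: the annulus given by `ann` (H84/LG/CGap). Note `q S ≤ η S/100000`, `η ≤ 1/100`.
`low`: `‖v - u‖ ≤ ρ + 12 q S ≤ S/8` and `‖v‖ ≤ 5/4`; `nsc_ex` at `v` (`nm (F v) ≥ k1 t w > 0`), `nsc_cmp`: `S_v ≤ 4 S`; if
`‖z - v‖ < q S_v ≤ 4 q S` then `|‖z - u‖ - ρ| ≤ 16 q S`; `f1p` at `v` for `G`: `‖Jc G v‖ ≥ (k2/16) t w nm (F v)` and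
`nm (F v) ≥ nm (F u)/2` (`nsc_nm`); `1/32 ≥ 1/40`.
`logd`: `spk` (H44/DN/SPK) for `Jc G` on `ball v (2 q S)`: there `|‖x - u‖ - ρ| ≤ 12 q S`, so by `low` `Jc G x ≠ 0`, and `‖Jc G x‖ < X = 9 M² w²`
(`per_bJ`, `τ ≤ 1`): `‖(Jc G)' v‖ 2 q S ≤ 2 ‖Jc G v‖ log (X/‖Jc G v‖)`; by `low` and `nm (F u) ≥ k1 t w`:
`‖Jc G v‖ ≥ (k2/40) k1 t² w² ≥ exp (-4 L) w²/40`, `log (X/‖Jc G v‖) ≤ 4 L + log (360 M²) ≤ 4 L + 6 + 2 (M - 1) ≤ 22 M² L`
(`exp 6 ≥ 360`; compare `good_der` in `H84/LG/PGood`).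
-/

set_option autoImplicit false

namespace Pool.Agent.H84.LG.CV

open Pool.H70.SF Pool.Agent.H70.PL Pool.Agent.H44.SR Pool.Agent.H84.LG.PL

/-- an annulus free of zeros of the static Jacobian -/
structure Ann (q η : ℝ) (F : ℂ → ℂ × ℂ) (u : ℂ) (S ρ : ℝ) : Prop where
  r1 : η * S / 2 ≤ ρ
  r2 : ρ ≤ 3 / 4 * (η * S)
  free : ∀ z, |‖z - u‖ - ρ| ≤ 16 * q * S → Jc F z ≠ 0

variable {M A L t τ q q1 qn k1 k2 kap w η : ℝ} {F : ℂ → ℂ × ℂ} {u : ℂ} {S : ℝ} {e : ℂ × ℂ} {ρ : ℝ}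

theorem low (h : Cs M A L t τ q q1 qn k1 k2 kap w η F u S e) (hρ : Ann q η F u S ρ) {G : ℂ → ℂ × ℂ}
    (hG : Per τ w F G) (v : ℂ) (hv : |‖v - u‖ - ρ| ≤ 12 * q * S) :
    k2 / 40 * t * w * nm (F u) ≤ ‖Jc G v‖ := by
  obtain ⟨ha, haM, ht, hk1, hk2, hkap, hq, hη, hqη, hS0, hS1, hML, hτη, hτ4, hτ1⟩ := h.num
  have hη1 := h.kcg.η1
  have hu := h.u1
  have hw := h.w0
  have hηS : η * S ≤ 1 / 100 * S := mul_le_mul_of_nonneg_right hη1 hS0.le
  have hqS : q * S ≤ 1 / 10000000 * S := mul_le_mul_of_nonneg_right (by linarith) hS0.le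
  have hvu : ‖v - u‖ ≤ S / 8 := by
    have h3 := (abs_le.1 hv).2
    have h4 := hρ.r2
    linarith
  have hv1 : ‖v‖ ≤ 5 / 4 := by
    have h2 := norm_add_le (v - u) u
    rw [sub_add_cancel] at h2
    linarith
  have hlow := h.sta.low v (by linarith)
  have hpos : 0 < k1 * t * w := by positivity
  have b1 : 0 < nm (F v) := hpos.trans_le hlow
  obtain ⟨Sv, hSv⟩ := nsc_ex h.sta.dif.continuous v b1
  obtain ⟨c1, c2⟩ := nsc_cmp h.sta.dif h.nsc hSv ha hvu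
  have h1 := f1p M A L t τ q q1 qn k1 k2 kap w h.M1 h.A1 hw h.kog F G h.sta hG v hv1 Sv hSv (by
    intro z hzv
    apply hρ.free
    have h3 : q * Sv ≤ q * (4 * S) := mul_le_mul_of_nonneg_left c2 hq.le
    have h4 := abs_norm_sub_norm_le (z - u) (v - u)
    have h5 : z - u - (v - u) = z - v := by ring
    rw [h5] at h4
    have h6 := abs_le.1 h4
    have h7 := abs_le.1 hv
    rw [abs_le]
    constructor
    · linarith [h6.1, h7.1]
    · linarith [h6.2, h7.2])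
  refine le_trans ?_ h1
  have h2 := (nsc_nm h.nsc v (by linarith)).1
  have h3 := nm_nonneg (deriv F v)
  have hc : 0 < k2 * t * w := by positivity
  have h4 : k2 * t * w * nm (F u) ≤ k2 * t * w * (2 * (nm (F v) + nm (deriv F v))) :=
    mul_le_mul_of_nonneg_left (by linarith) hc.le
  have h5 : 0 ≤ k2 * t * w * (nm (F v) + nm (deriv F v)) :=
    mul_nonneg hc.le (by linarith)
  calc k2 / 40 * t * w * nm (F u) = 1 / 40 * (k2 * t * w * nm (F u)) := by ring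
    _ ≤ 1 / 40 * (k2 * t * w * (2 * (nm (F v) + nm (deriv F v)))) :=
        mul_le_mul_of_nonneg_left h4 (by norm_num)
    _ ≤ k2 / 16 * t * w * (nm (F v) + nm (deriv F v)) := by linarith

theorem logd (h : Cs M A L t τ q q1 qn k1 k2 kap w η F u S e) (hρ : Ann q η F u S ρ) {G : ℂ → ℂ × ℂ}
    (hG : Per τ w F G) (v : ℂ) (hv : |‖v - u‖ - ρ| ≤ 10 * q * S) :
    ‖deriv (Jc G) v‖ ≤ 22 * M ^ 2 * L / (q * S) * ‖Jc G v‖ := by
  obtain ⟨ha, haM, ht, hk1, hk2, hkap, hq, hη, hqη, hS0, hS1, hML, hτη, hτ4, hτ1⟩ := h.num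
  have hη1 := h.kcg.η1
  have hu := h.u1
  have hw := h.w0
  have hM := h.M1
  have hL := h.kog.L1
  have hqS0 : 0 < q * S := mul_pos hq hS0
  have hηS : η * S ≤ 1 / 100 * S := mul_le_mul_of_nonneg_right hη1 hS0.le
  have hqS : q * S ≤ 1 / 10000000 * S := mul_le_mul_of_nonneg_right (by linarith) hS0.le
  have hlo : 0 < k2 / 40 * t * w * nm (F u) := by positivity
  have hM2 : 1 ≤ M ^ 2 := one_le_pow₀ hM
  have hw2 : 0 < w ^ 2 := by positivity
  have h1 := Pool.Agent.H44.DN.spk (F := Jc G) (z := v) (σ := 2 * q * S) (X := 9 * M ^ 2 * w ^ 2)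
    (by positivity) (dif_Jc hG.dif).differentiableOn (by
      intro x hx
      rw [mem_ball_iff_norm] at hx
      have h4 := abs_norm_sub_norm_le (x - u) (v - u)
      have h5 : x - u - (v - u) = x - v := by ring
      rw [h5] at h4
      have h6 := abs_le.1 h4
      have h7 := abs_le.1 hv
      have hx12 : |‖x - u‖ - ρ| ≤ 12 * q * S := by
        rw [abs_le]
        constructor
        · linarith [h6.1, h7.1]
        · linarith [h6.2, h7.2]
      have h3 := low h hρ hG x hx12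
      refine ⟨norm_pos_iff.1 (hlo.trans_le h3), ?_⟩
      have h8 : ‖x‖ ≤ 5 / 2 := by
        have h1 := norm_add_le (x - u) u
        rw [sub_add_cancel] at h1
        have h2 := (abs_le.1 hx12).2
        have h9 := hρ.r2
        linarith
      have h9 := per_bJ hM hw hτ1 h.sta hG x h8
      have h10 : 0 < M ^ 2 * w ^ 2 := by positivity
      linarith)
  have h2 := low h hρ hG v (by linarith)
  have hlow := h.sta.low u (by linarith)
  have hE : 0 < Real.exp (-L) := Real.exp_pos _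
  have hE4 : Real.exp (-(4 * L)) =
      Real.exp (-L) * Real.exp (-L) * (Real.exp (-L) * Real.exp (-L)) := by
    rw [← Real.exp_add, ← Real.exp_add]
    congr 1
    ring
  have g2 : Real.exp (-L) * Real.exp (-L) ≤ k2 * k1 :=
    mul_le_mul h.kog.k2L h.kog.k1L hE.le hk2.le
  have g3 : Real.exp (-L) * Real.exp (-L) ≤ t * t := mul_le_mul h.kog.tL h.kog.tL hE.le ht.le
  have g4 : Real.exp (-(4 * L)) ≤ k2 * k1 * (t * t) := by
    rw [hE4]
    exact mul_le_mul g2 g3 (by positivity) (by positivity)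
  have g5 : Real.exp (-(4 * L)) * w ^ 2 / 40 ≤ ‖Jc G v‖ := by
    refine le_trans ?_ h2
    calc Real.exp (-(4 * L)) * w ^ 2 / 40 = Real.exp (-(4 * L)) * (w ^ 2 / 40) := by ring
      _ ≤ k2 * k1 * (t * t) * (w ^ 2 / 40) := mul_le_mul_of_nonneg_right g4 (by positivity)
      _ = k2 / 40 * t * w * (k1 * t * w) := by ring
      _ ≤ k2 / 40 * t * w * nm (F u) := mul_le_mul_of_nonneg_left hlow (by positivity)
  obtain ⟨J, hJ⟩ : ∃ J : ℝ, J = ‖Jc G v‖ := ⟨_, rfl⟩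
  rw [← hJ] at h1 g5 ⊢
  have hJ0 : 0 < J := lt_of_lt_of_le (by positivity) g5
  have h3 : Real.log (9 * M ^ 2 * w ^ 2 / J) ≤ 22 * M ^ 2 * L := by
    have h4 : 9 * M ^ 2 * w ^ 2 / J ≤ 2 ^ 8 * (45 / 32 * M ^ 2) * Real.exp (4 * L) := by
      rw [div_le_iff₀ hJ0]
      calc 9 * M ^ 2 * w ^ 2 =
            2 ^ 8 * (45 / 32 * M ^ 2) * Real.exp (4 * L) * (Real.exp (-(4 * L)) * w ^ 2 / 40) := by
            rw [Real.exp_neg]
            have := Real.exp_ne_zero (4 * L)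
            field_simp
            ring
        _ ≤ 2 ^ 8 * (45 / 32 * M ^ 2) * Real.exp (4 * L) * J :=
            mul_le_mul_of_nonneg_left g5 (by positivity)
    have h5 : 0 < 9 * M ^ 2 * w ^ 2 / J := by positivity
    have h6 := Real.log_le_log h5 h4
    have h7 : Real.log (2 ^ 8 * (45 / 32 * M ^ 2) * Real.exp (4 * L)) =
        8 * Real.log 2 + Real.log (45 / 32 * M ^ 2) + 4 * L := by
      rw [Real.log_mul (by positivity) (Real.exp_ne_zero _), Real.log_exp,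
        Real.log_mul (by positivity) (by positivity), Real.log_pow]
      push_cast
      ring
    have h8 : Real.log (45 / 32 * M ^ 2) ≤ 45 / 32 * M ^ 2 - 1 :=
      Real.log_le_sub_one_of_pos (by positivity)
    have h9 := Real.log_two_lt_d9
    rw [h7] at h6
    nlinarith
  have h4 : ‖deriv (Jc G) v‖ * (2 * q * S) ≤ 2 * J * (22 * M ^ 2 * L) :=
    h1.trans (mul_le_mul_of_nonneg_left h3 (by positivity))
  have h5 : 22 * M ^ 2 * L / (q * S) * J = 22 * M ^ 2 * L * J / (q * S) := by ring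
  rw [h5, le_div_iff₀ hqS0]
  linarith

end Pool.Agent.H84.LG.CV
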