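import Pool.Agent.H84.LG.PF1p
import Pool.Agent.H70.PL.Nex
import Pool.Agent.H44.DN.SPK

/-!
POLYLOG RATE (MP_8f2e1c_an), piece 2, module GOOD: points far from the zeros of the static Jacobian. (The old module with the
same statements is `H70/PL/Good`, its proofs can be adapted.)

Let `J1 = Jc F1`. Constants: `Kog.fac`.
`good_P`: `‖v‖ ≤ 5/4` and `ball v (q S') ⊆ ball u R` (`q S' ≤ q ≤ R/2`), so `nsc_ex` at `v` and `f1p` apply at `v`.
`good_low`: `good_P` and `nm (F v) ≥ k1 t w`: `‖J1 v‖ ≥ (k2/16) k1 t² w² ≥ exp (-4 L) w² / 16`.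
`good_der`: `J1` has no zero in `ball v (R/4) ⊆ ball u (R/2)` and `‖J1‖ < X = 9 M² w²` there (`per_bJ`, `τ ≤ 1`);
`Pool.Agent.H44.DN.spk` gives `‖J1' v‖ R/4 ≤ 2 ‖J1 v‖ log (X / ‖J1 v‖)`, `log (X / ‖J1 v‖) ≤ 4 L + log (144 M²)`, and
`log (144 M²) = log 144 + 2 log M ≤ 5 + 2 (M - 1)` (`exp 5 ≥ 144`, `Real.exp_one_gt_d9`), so it is at most `9 M² L ≤ 22 M² L`.
`good_const`: let `r0 = R / (400 M² L) ≤ R/400`. Let `m` be the maximum of `‖J1‖` on the closed disc `‖x - v‖ ≤ r0`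
(compact, continuous), attained at `x0`; all these points are in `closedBall u (R/4)`, so `‖J1'‖ ≤ (200 M² L / R) m` on the disc, and
by the mean value inequality (`Convex.norm_image_sub_le_of_norm_deriv_le` on the closed ball)
`m ≤ ‖J1 v‖ + r0 (200 M² L / R) m = ‖J1 v‖ + m/2`.
`good_J`: case `r0 ≤ S`: `‖J1 v‖ ≥ (k2/16) t w nm (F v) ≥ (k2/16) r0 t w nm (F v) / S` and `kap / 2 ≤ k2 r0 / 16`: by `kapk` and `q ≤ R/2`:
`kap ≤ k2 q / (A² L) ≤ k2 R / (20000 M² L)`, `k2 r0 / 16 = k2 R / (6400 M² L)`. Case `S < r0` (`< 1`): by `Nsc` there is `v1`, `‖v1 - v‖ ≤ S`,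
`nm (F v1 - F v) = nm (F v) / 2`; if `nm (F' x) ≤ nm (F v) / (4 S)` for all `‖x - v‖ ≤ S` then `mvP` gives `nm (F v) / 2 ≤ nm (F v) / 4`,
a contradiction (`nm (F v) > 0`). So `nm (F' x) > nm (F v) / (4 S)` for some `x`, `‖x - v‖ ≤ S ≤ r0`: `good_P` at `x`:
`‖J1 x‖ ≥ (k2/64) t w nm (F v) / S`, and `‖J1 x‖ ≤ 2 ‖J1 v‖` (`good_const`), and `kap ≤ k2 / 64` (from `kapq`, `qn ≤ 1`, `A ≥ 100`).
-/

set_option autoImplicit false

namespace Pool.Agent.H84.LG.PL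

open Pool.H70.SF Pool.Agent.H70.PL

theorem good_P (M A L t τ q q1 qn k1 k2 kap w : ℝ) (hM : 1 ≤ M) (hA : 100 * M ≤ A)
    (hw : 0 < w) (hK : Kog A L t τ q q1 qn k1 k2 kap) (F F1 : ℂ → ℂ × ℂ)
    (hF : Sta M w t k1 k2 qn F) (hP : Per τ w F F1) (u : ℂ) (hu : ‖u‖ ≤ 1) (R : ℝ)
    (hqR : q ≤ R / 2) (hR : R ≤ 1 / 4) (hz : ∀ z, ‖z - u‖ < R → Jc F z ≠ 0) (v : ℂ)
    (hv : ‖v - u‖ ≤ R / 2) : k2 / 16 * t * w * (nm (F v) + nm (deriv F v)) ≤ ‖Jc F1 v‖ := by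
  obtain ⟨hA0, ht, hqn, hk1, hk2, hkap, hq, -⟩ := hK.fac hM hA
  have hv2 : ‖v‖ ≤ 5 / 4 := by
    have h1 := norm_add_le (v - u) u
    rw [sub_add_cancel] at h1
    linarith
  have hlow := hF.low v (by linarith)
  have hktw : 0 < k1 * t * w := mul_pos (mul_pos hk1 ht) hw
  obtain ⟨S, hS⟩ := nsc_ex hF.dif.continuous v (hktw.trans_le hlow)
  refine f1p M A L t τ q q1 qn k1 k2 kap w hM hA hw hK F F1 hF hP v hv2 S hS fun z hz' => ?_
  apply hz
  have h1 : q * S ≤ q := by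
    have := hS.2.1
    nlinarith
  have h2 := norm_add_le (z - v) (v - u)
  rw [sub_add_sub_cancel] at h2
  linarith

theorem good_low (M A L t τ q q1 qn k1 k2 kap w : ℝ) (hM : 1 ≤ M) (hA : 100 * M ≤ A)
    (hw : 0 < w) (hK : Kog A L t τ q q1 qn k1 k2 kap) (F F1 : ℂ → ℂ × ℂ)
    (hF : Sta M w t k1 k2 qn F) (hP : Per τ w F F1) (u : ℂ) (hu : ‖u‖ ≤ 1) (R : ℝ)
    (hqR : q ≤ R / 2) (hR : R ≤ 1 / 4) (hz : ∀ z, ‖z - u‖ < R → Jc F z ≠ 0) (v : ℂ)
    (hv : ‖v - u‖ ≤ R / 2) : Real.exp (-(4 * L)) * w ^ 2 / 16 ≤ ‖Jc F1 v‖ := by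
  obtain ⟨hA0, ht, hqn, hk1, hk2, hkap, hq, -⟩ := hK.fac hM hA
  have hv2 : ‖v‖ ≤ 2 := by
    have h1 := norm_add_le (v - u) u
    rw [sub_add_cancel] at h1
    linarith
  have hlow := hF.low v hv2
  have h1 := good_P M A L t τ q q1 qn k1 k2 kap w hM hA hw hK F F1 hF hP u hu R hqR hR hz v hv
  refine le_trans ?_ h1
  have hE : 0 < Real.exp (-L) := Real.exp_pos _
  have hE4 : Real.exp (-(4 * L)) =
      Real.exp (-L) * Real.exp (-L) * (Real.exp (-L) * Real.exp (-L)) := by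
    rw [← Real.exp_add, ← Real.exp_add]
    congr 1
    ring
  have h2 : Real.exp (-L) * Real.exp (-L) ≤ k2 * k1 := mul_le_mul hK.k2L hK.k1L hE.le hk2.le
  have h3 : Real.exp (-L) * Real.exp (-L) ≤ t * t := mul_le_mul hK.tL hK.tL hE.le ht.le
  have h4 : Real.exp (-(4 * L)) ≤ k2 * k1 * (t * t) := by
    rw [hE4]
    exact mul_le_mul h2 h3 (by positivity) (by positivity)
  have h5 : k1 * t * w ≤ nm (F v) + nm (deriv F v) := by
    have := nm_nonneg (deriv F v)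
    linarith
  calc Real.exp (-(4 * L)) * w ^ 2 / 16 = Real.exp (-(4 * L)) * (w ^ 2 / 16) := by ring
    _ ≤ k2 * k1 * (t * t) * (w ^ 2 / 16) := mul_le_mul_of_nonneg_right h4 (by positivity)
    _ = k2 / 16 * t * w * (k1 * t * w) := by ring
    _ ≤ k2 / 16 * t * w * (nm (F v) + nm (deriv F v)) :=
        mul_le_mul_of_nonneg_left h5 (by positivity)

theorem good_der (M A L t τ q q1 qn k1 k2 kap w : ℝ) (hM : 1 ≤ M) (hA : 100 * M ≤ A)
    (hw : 0 < w) (hK : Kog A L t τ q q1 qn k1 k2 kap) (F F1 : ℂ → ℂ × ℂ)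
    (hF : Sta M w t k1 k2 qn F) (hP : Per τ w F F1) (u : ℂ) (hu : ‖u‖ ≤ 1) (R : ℝ)
    (hqR : q ≤ R / 2) (hR : R ≤ 1 / 4) (hz : ∀ z, ‖z - u‖ < R → Jc F z ≠ 0) (v : ℂ)
    (hv : ‖v - u‖ ≤ R / 4) : ‖deriv (Jc F1) v‖ ≤ 200 * M ^ 2 * L / R * ‖Jc F1 v‖ := by
  obtain ⟨hA0, ht, hqn, hk1, hk2, hkap, hq, -, -, -, -, -, -, -, hτ⟩ := hK.fac hM hA
  have hR0 : 0 < R := by linarith
  have hL := hK.L1
  have hlow := good_low M A L t τ q q1 qn k1 k2 kap w hM hA hw hK F F1 hF hP u hu R hqR hR hz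
  have hbl : ∀ x, ‖x - v‖ < R / 4 → ‖x - u‖ ≤ R / 2 := by
    intro x hx
    have h2 := norm_add_le (x - v) (v - u)
    rw [sub_add_sub_cancel] at h2
    linarith
  have hM2 : 1 ≤ M ^ 2 := one_le_pow₀ hM
  have hw2 : 0 < w ^ 2 := by positivity
  have hlo : 0 < Real.exp (-(4 * L)) * w ^ 2 / 16 := by positivity
  have h1 := Pool.Agent.H44.DN.spk (F := Jc F1) (z := v) (σ := R / 4) (X := 9 * M ^ 2 * w ^ 2)
    (by linarith) (dif_Jc hP.dif).differentiableOn (by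
      intro x hx
      rw [mem_ball_iff_norm] at hx
      have h2 := hbl x hx
      have h3 := hlow x h2
      refine ⟨norm_pos_iff.1 (hlo.trans_le h3), ?_⟩
      have h4 : ‖x‖ ≤ 5 / 2 := by
        have h1 := norm_add_le (x - u) u
        rw [sub_add_cancel] at h1
        linarith
      have h5 := per_bJ hM hw (by linarith) hF hP x h4
      have h6 : 0 < M ^ 2 * w ^ 2 := by positivity
      linarith)
  have h2 := hlow v (by linarith)
  obtain ⟨J, hJ⟩ : ∃ J : ℝ, J = ‖Jc F1 v‖ := ⟨_, rfl⟩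
  rw [← hJ] at h1 h2 ⊢
  have hJ0 : 0 < J := hlo.trans_le h2
  have h3 : Real.log (9 * M ^ 2 * w ^ 2 / J) ≤ 22 * M ^ 2 * L := by
    have h4 : 9 * M ^ 2 * w ^ 2 / J ≤ 2 ^ 8 * (9 / 16 * M ^ 2) * Real.exp (4 * L) := by
      rw [div_le_iff₀ hJ0]
      calc 9 * M ^ 2 * w ^ 2 =
            2 ^ 8 * (9 / 16 * M ^ 2) * Real.exp (4 * L) * (Real.exp (-(4 * L)) * w ^ 2 / 16) := by
            rw [Real.exp_neg]
            have := Real.exp_ne_zero (4 * L)
            field_simp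
            ring
        _ ≤ 2 ^ 8 * (9 / 16 * M ^ 2) * Real.exp (4 * L) * J :=
            mul_le_mul_of_nonneg_left h2 (by positivity)
    have h5 : 0 < 9 * M ^ 2 * w ^ 2 / J := by positivity
    have h6 := Real.log_le_log h5 h4
    have h7 : Real.log (2 ^ 8 * (9 / 16 * M ^ 2) * Real.exp (4 * L)) =
        8 * Real.log 2 + Real.log (9 / 16 * M ^ 2) + 4 * L := by
      rw [Real.log_mul (by positivity) (Real.exp_ne_zero _), Real.log_exp,
        Real.log_mul (by positivity) (by positivity), Real.log_pow]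
      push_cast
      ring
    have h8 : Real.log (9 / 16 * M ^ 2) ≤ 9 / 16 * M ^ 2 - 1 :=
      Real.log_le_sub_one_of_pos (by positivity)
    have h9 := Real.log_two_lt_d9
    rw [h7] at h6
    nlinarith
  have h4 : ‖deriv (Jc F1) v‖ * (R / 4) ≤ 2 * J * (22 * M ^ 2 * L) :=
    h1.trans (mul_le_mul_of_nonneg_left h3 (by positivity))
  have h5 : 200 * M ^ 2 * L / R * J = 200 * M ^ 2 * L * J / R := by ring
  rw [h5, le_div_iff₀ hR0]
  have h6 : 0 ≤ M ^ 2 * L * J := by positivity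
  nlinarith

theorem good_const (M A L t τ q q1 qn k1 k2 kap w : ℝ) (hM : 1 ≤ M) (hA : 100 * M ≤ A)
    (hw : 0 < w) (hK : Kog A L t τ q q1 qn k1 k2 kap) (F F1 : ℂ → ℂ × ℂ)
    (hF : Sta M w t k1 k2 qn F) (hP : Per τ w F F1) (u : ℂ) (hu : ‖u‖ ≤ 1) (R : ℝ)
    (hqR : q ≤ R / 2) (hR : R ≤ 1 / 4) (hz : ∀ z, ‖z - u‖ < R → Jc F z ≠ 0) (v : ℂ)
    (hv : ‖v - u‖ ≤ R / 8) (x : ℂ) (hx : ‖x - v‖ ≤ R / (400 * M ^ 2 * L)) : ‖Jc F1 x‖ ≤ 2 * ‖Jc F1 v‖ := by
  obtain ⟨hA0, ht, hqn, hk1, hk2, hkap, hq, -⟩ := hK.fac hM hA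
  have hR0 : 0 < R := by linarith
  have hL := hK.L1
  have hM2 : 1 ≤ M ^ 2 := one_le_pow₀ hM
  have hML : 1 ≤ M ^ 2 * L := by nlinarith
  obtain ⟨r0, hr0⟩ : ∃ r0 : ℝ, r0 = R / (400 * M ^ 2 * L) := ⟨_, rfl⟩
  have hr0p : 0 < r0 := by rw [hr0]; positivity
  have hr0e : 400 * (M ^ 2 * L) * r0 = R := by
    rw [hr0]; field_simp
  have hr0R : r0 ≤ R / 400 := by nlinarith
  rw [← hr0] at hx
  have hder : ∀ z ∈ Metric.closedBall v r0, ‖deriv (Jc F1) z‖ ≤ 200 * M ^ 2 * L / R * ‖Jc F1 z‖ := by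
    intro z hz'
    rw [mem_closedBall_iff_norm] at hz'
    refine good_der M A L t τ q q1 qn k1 k2 kap w hM hA hw hK F F1 hF hP u hu R hqR hR hz z ?_
    have h2 := norm_add_le (z - v) (v - u)
    rw [sub_add_sub_cancel] at h2
    linarith
  have hdif := dif_Jc hP.dif
  have hvb : v ∈ Metric.closedBall v r0 := Metric.mem_closedBall_self hr0p.le
  have hxb : x ∈ Metric.closedBall v r0 := by rw [mem_closedBall_iff_norm]; exact hx
  obtain ⟨x0, hx0, hmax⟩ := (isCompact_closedBall v r0).exists_isMaxOn ⟨v, hvb⟩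
    (f := fun z => ‖Jc F1 z‖) (hdif.continuous.norm.continuousOn)
  have hmax' : ∀ z ∈ Metric.closedBall v r0, ‖Jc F1 z‖ ≤ ‖Jc F1 x0‖ := fun z hz' => hmax hz'
  have h1 := Convex.norm_image_sub_le_of_norm_deriv_le (𝕜 := ℂ) (f := Jc F1)
    (s := Metric.closedBall v r0) (C := 200 * M ^ 2 * L / R * ‖Jc F1 x0‖) (x := v) (y := x0)
    (fun z _ => hdif z)
    (fun z hz' => (hder z hz').trans (mul_le_mul_of_nonneg_left (hmax' z hz') (by positivity)))
    (convex_closedBall v r0) hvb hx0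
  rw [mem_closedBall_iff_norm] at hx0
  have h2 : 200 * M ^ 2 * L / R * ‖Jc F1 x0‖ * ‖x0 - v‖ ≤ ‖Jc F1 x0‖ / 2 := by
    calc 200 * M ^ 2 * L / R * ‖Jc F1 x0‖ * ‖x0 - v‖ ≤
          200 * M ^ 2 * L / R * ‖Jc F1 x0‖ * r0 := mul_le_mul_of_nonneg_left hx0 (by positivity)
      _ = ‖Jc F1 x0‖ / 2 := by
          rw [hr0]; field_simp; ring
  have h3 : ‖Jc F1 x0‖ ≤ ‖Jc F1 v‖ + ‖Jc F1 x0 - Jc F1 v‖ := by
    have h10 := norm_add_le (Jc F1 v) (Jc F1 x0 - Jc F1 v)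
    rwa [add_sub_cancel] at h10
  have h4 := hmax' x hxb
  linarith

theorem good_J (M A L t τ q q1 qn k1 k2 kap w : ℝ) (hM : 1 ≤ M) (hA : 100 * M ≤ A)
    (hw : 0 < w) (hK : Kog A L t τ q q1 qn k1 k2 kap) (F F1 : ℂ → ℂ × ℂ)
    (hF : Sta M w t k1 k2 qn F) (hP : Per τ w F F1) (u : ℂ) (hu : ‖u‖ ≤ 1) (R : ℝ)
    (hqR : q ≤ R / 2) (hR : R ≤ 1 / 4) (hz : ∀ z, ‖z - u‖ < R → Jc F z ≠ 0) (v : ℂ)
    (hv : ‖v - u‖ ≤ R / 8) (S : ℝ) (hS : Nsc F v S) :
    kap / 2 * t * w * nm (F v) / S ≤ ‖Jc F1 v‖ := by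
  obtain ⟨hA0, ht, hqn, hk1, hk2, hkap, hq, hq1q, hqnq, -⟩ := hK.fac hM hA
  have hR0 : 0 < R := by linarith
  have hL := hK.L1
  have hM2 : 1 ≤ M ^ 2 := one_le_pow₀ hM
  have hML : 1 ≤ M ^ 2 * L := by nlinarith
  have hML0 : 0 < M ^ 2 * L := by linarith
  obtain ⟨r0, hr0⟩ : ∃ r0 : ℝ, r0 = R / (400 * M ^ 2 * L) := ⟨_, rfl⟩
  have hr0p : 0 < r0 := by rw [hr0]; positivity
  have hr0e : 400 * (M ^ 2 * L) * r0 = R := by
    rw [hr0]; field_simp
  have hr0R : r0 ≤ R / 400 := by nlinarith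
  have hS0 := hS.1
  have hv2 : ‖v‖ ≤ 2 := by
    have h1 := norm_add_le (v - u) u
    rw [sub_add_cancel] at h1
    linarith
  have hlow := hF.low v hv2
  have hktw : 0 < k1 * t * w := mul_pos (mul_pos hk1 ht) hw
  have hFv : 0 < nm (F v) := hktw.trans_le hlow
  rcases le_or_gt r0 S with hrS | hrS
  · have h1 := good_P M A L t τ q q1 qn k1 k2 kap w hM hA hw hK F F1 hF hP u hu R hqR hR hz v
      (by linarith)
    refine le_trans ?_ h1
    have h2 : kap / 2 ≤ k2 / 16 * r0 := by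
      have h3 := hK.kapk
      have h4 : (100 * M) ^ 2 ≤ A ^ 2 := pow_le_pow_left₀ (by linarith) hA 2
      have h5 : (100 * M) ^ 2 * (L * kap) ≤ A ^ 2 * (L * kap) :=
        mul_le_mul_of_nonneg_right h4 (by positivity)
      have h6 : k2 * q ≤ k2 * (R / 2) := mul_le_mul_of_nonneg_left hqR hk2.le
      have h7 : 10000 * (M ^ 2 * L) * kap ≤ 200 * (M ^ 2 * L) * (k2 * r0) := by
        calc 10000 * (M ^ 2 * L) * kap = (100 * M) ^ 2 * (L * kap) := by ring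
          _ ≤ A ^ 2 * (L * kap) := h5
          _ = A ^ 2 * L * kap := by ring
          _ ≤ k2 * (R / 2) := h3.trans h6
          _ = 200 * (M ^ 2 * L) * (k2 * r0) := by rw [← hr0e]; ring
      have h8 : 50 * kap ≤ k2 * r0 := by
        by_contra hn
        push Not at hn
        have h9 : 200 * (M ^ 2 * L) * (k2 * r0) < 200 * (M ^ 2 * L) * (50 * kap) :=
          mul_lt_mul_of_pos_left hn (by positivity)
        have h10 : 200 * (M ^ 2 * L) * (50 * kap) = 10000 * (M ^ 2 * L) * kap := by ring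
        linarith
      have h9 : 0 < k2 * r0 := mul_pos hk2 hr0p
      linarith
    have h3 : 0 ≤ nm (deriv F v) := nm_nonneg _
    rw [div_le_iff₀ hS0]
    calc kap / 2 * t * w * nm (F v) = kap / 2 * (t * w * nm (F v)) := by ring
      _ ≤ k2 / 16 * r0 * (t * w * nm (F v)) := mul_le_mul_of_nonneg_right h2 (by positivity)
      _ = k2 / 16 * t * w * nm (F v) * r0 := by ring
      _ ≤ k2 / 16 * t * w * (nm (F v) + nm (deriv F v)) * S := by
          apply mul_le_mul _ hrS hr0p.le (by positivity)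
          apply mul_le_mul_of_nonneg_left _ (by positivity)
          linarith
  · have hS1 : S ≠ 1 := by
      intro h; rw [h] at hrS; linarith
    obtain ⟨v1, hv1, hv1'⟩ := hS.2.2.2.resolve_left hS1
    have hex : ∃ x, ‖x - v‖ ≤ S ∧ nm (F v) / (4 * S) < nm (deriv F x) := by
      by_contra hn
      push Not at hn
      have h1 := mvP hF.dif v S (nm (F v) / (4 * S)) hn v1 v hv1
        (by rw [sub_self, norm_zero]; exact hS0.le)
      rw [hv1'] at h1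
      have h2 : nm (F v) / (4 * S) * ‖v1 - v‖ ≤ nm (F v) / (4 * S) * S :=
        mul_le_mul_of_nonneg_left hv1 (by positivity)
      have h3 : nm (F v) / (4 * S) * S = nm (F v) / 4 := by field_simp
      linarith
    obtain ⟨x, hx, hx'⟩ := hex
    have hxu : ‖x - u‖ ≤ R / 2 := by
      have h2 := norm_add_le (x - v) (v - u)
      rw [sub_add_sub_cancel] at h2
      linarith
    have h1 := good_P M A L t τ q q1 qn k1 k2 kap w hM hA hw hK F F1 hF hP u hu R hqR hR hz x hxu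
    have h2 := good_const M A L t τ q q1 qn k1 k2 kap w hM hA hw hK F F1 hF hP u hu R hqR hR hz v
      hv x (by rw [← hr0]; linarith)
    have h3 : 0 ≤ nm (F x) := nm_nonneg _
    have h4 : kap ≤ k2 / 100 := by
      have h5 := hK.kapq
      have h6 := hK.q1'
      have h7 : k2 * qn ≤ k2 * 1 := mul_le_mul_of_nonneg_left (by linarith) hk2.le
      have h8 : 100 * kap ≤ A * kap := mul_le_mul_of_nonneg_right (by linarith) hkap.le
      linarith
    have h5 : k2 / 16 * t * w * (nm (F v) / (4 * S)) ≤ 2 * ‖Jc F1 v‖ := by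
      calc k2 / 16 * t * w * (nm (F v) / (4 * S)) ≤
            k2 / 16 * t * w * (nm (F x) + nm (deriv F x)) := by
            apply mul_le_mul_of_nonneg_left _ (by positivity)
            linarith
        _ ≤ 2 * ‖Jc F1 v‖ := h1.trans h2
    have h6 : kap / 2 * t * w * nm (F v) / S = 64 * kap / 2 * (t * w * (nm (F v) / (4 * S))) / 16 := by
      field_simp
      ring
    have h7 : 0 ≤ t * w * (nm (F v) / (4 * S)) := by positivity
    have h8 : k2 / 16 * t * w * (nm (F v) / (4 * S)) = k2 / 16 * (t * w * (nm (F v) / (4 * S))) := by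
      ring
    rw [h6]
    rw [h8] at h5
    nlinarith

end Pool.Agent.H84.LG.PL
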