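import Pool.Agent.H84.LG.CBase
import Pool.Agent.H44.SR.SUR
import Pool.Agent.H84.LG.PGood

/-!
POLYLOG RATE (copy of `H44/SR/PLA` with the constants of `H84/LG`), piece 4 (planar), module PLA: lower bound of the expansion at good points, expansion of the coordinate of the centre map.

`K = ‖Jc F0 u‖ / nm (F0 u) ^ 2`, `a0 = nm (F0 u)`.
`plA`: `good_J` (H70/PL/Good) at `v = u`: `kap / 2 * t * w * nm (F u) / S ≤ ‖Jc F0 u‖`; `nm (F u) ≥ 1000/1001 a0` (`bs_nm`) and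
`a0 ≤ 1001/1000 M w` (`Sta.bd`). Upper bound: `bs_der` at `v = u`.
`pl_exp`: `B = 200 M² L / R + 10 / S`. On `ball u (2 r)` (contained in `‖v - u‖ ≤ R/4` and in `‖v - u‖ ≤ S/2`) the function `h = hh e F0` is differentiable
with `deriv h v = Jc F0 v / (pr (F0 v) e)²` (`hh_der`), not zero (`good_low` or `good_J`; `bs_pr`), and `‖h''‖ ≤ (B1 + 2 B2) ‖h'‖` (`hh_der2`) with
`B1 = 200 M² L / R` (`good_der`), `B2 = 5 / S` (`bs_pr`), so `B1 + 2 B2 = B`, and `B * (2 r) ≤ 1/10 + 1/10 ≤ 1/4`: `surj_log` with `δ = 2 r`.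
`deriv h u = Jc F0 u / a0²` as `pr (F0 u) e = a0`. If `r = 0` then `u1 = u2 = u` and both statements are trivial.
-/

set_option autoImplicit false

namespace Pool.Agent.H84.LG.CV

open Pool.Agent.H44.SR Pool.Agent.H84.LG.PL

open Pool.H70.SF Pool.Agent.H70.PL Metric

theorem plA (M A L t τ q q1 qn k1 k2 kap w : ℝ) (hM : 1 ≤ M) (hA : 100 * M ≤ A)
    (hw : 0 < w) (hK : Kog A L t τ q q1 qn k1 k2 kap) (F F0 : ℂ → ℂ × ℂ)
    (hF : Sta M w t k1 k2 qn F) (hP : Per τ w F F0) (u : ℂ) (hu : ‖u‖ ≤ 1) (S : ℝ)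
    (hS : Nsc F u S) (R : ℝ) (hqR : q ≤ R / 2) (hR : R ≤ 1 / 4)
    (hz : ∀ z, ‖z - u‖ < R → Jc F z ≠ 0) :
    kap * t * w / (3 * nm (F0 u)) ≤ ‖Jc F0 u‖ / nm (F0 u) ^ 2 * S ∧
      kap * t / (3 * M) ≤ ‖Jc F0 u‖ / nm (F0 u) ^ 2 * S ∧
      ‖Jc F0 u‖ / nm (F0 u) ^ 2 * S ≤ 5 := by
  have ht : 0 < t := (Real.exp_pos _).trans_le hK.tL
  have hkap : 0 < kap := (Real.exp_pos _).trans_le hK.kapL
  have hq : 0 < q := by
    have h1 := hK.q1q
    have h2 := hK.q1p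
    have h3 := hK.L1
    have h4 : 0 < A * L * q1 := by
      have : 0 < A := by linarith
      have : 0 < L := by linarith
      positivity
    linarith
  have hM0 : 0 < M := by linarith
  have hS0 := hS.1
  obtain ⟨h1, h2, h3, h4, -, -⟩ := bs_nm M A L t τ q q1 qn k1 k2 kap w hM hA hw hK F F0 hF
    hP u (by linarith)
  have h5 := good_J M A L t τ q q1 qn k1 k2 kap w hM hA hw hK F F0 hF hP u hu R hqR hR hz u
    (by rw [sub_self, norm_zero]; linarith) S hS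
  have h6 := (bs_der M A L t τ q q1 qn k1 k2 kap w hM hA hw hK F F0 hF hP u hu S hS u
    (by rw [sub_self, norm_zero]; positivity)).2
  have h7 := hF.bd u (by linarith)
  obtain ⟨a, ha⟩ : ∃ a, a = nm (F0 u) := ⟨_, rfl⟩
  obtain ⟨J, hJ⟩ : ∃ J, J = ‖Jc F0 u‖ := ⟨_, rfl⟩
  rw [← ha] at h2 h3 h4 h6 ⊢
  rw [← hJ] at h5 h6 ⊢
  have h8 : kap / 2 * t * w * nm (F u) ≤ J * S := by
    rwa [div_le_iff₀ hS0] at h5
  have hktw : 0 < kap / 2 * t * w := by positivity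
  have h9 : kap / 2 * t * w * (1000 / 1001 * a) ≤ J * S := by
    refine (mul_le_mul_of_nonneg_left ?_ hktw.le).trans h8
    linarith
  have hA1 : kap * t * w / (3 * a) ≤ J / a ^ 2 * S := by
    have e1 : J / a ^ 2 * S = J * S / a ^ 2 := by ring
    have e2 : kap * t * w / (3 * a) = (kap * t * w * a / 3) / a ^ 2 := by
      field_simp
    rw [e1, e2]
    refine div_le_div_of_nonneg_right ?_ (by positivity)
    have h10 : 0 < kap * t * w * a := by positivity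
    linarith
  refine ⟨hA1, ?_, ?_⟩
  · have e1 : J / a ^ 2 * S = J * S / a ^ 2 := by ring
    have h11 : 1000 / 1001 * a ≤ M * w := by linarith
    have h12 : kap * t * a * (1000 / 1001 * a) ≤ kap * t * a * (M * w) :=
      mul_le_mul_of_nonneg_left h11 (by positivity)
    have h13 : 3 * M * (kap / 2 * t * w * (1000 / 1001 * a)) ≤ 3 * M * (J * S) :=
      mul_le_mul_of_nonneg_left h9 (by positivity)
    have h14 : 0 < kap * t * a ^ 2 := by positivity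
    rw [e1, div_le_div_iff₀ (by positivity) (by positivity)]
    nlinarith
  · have e1 : J / a ^ 2 * S = J * S / a ^ 2 := by ring
    rw [e1, div_le_iff₀ (by positivity)]
    have h12 := mul_le_mul_of_nonneg_right h6 hS0.le
    rwa [div_mul_cancel₀ _ hS0.ne'] at h12

theorem pl_exp (M A L t τ q q1 qn k1 k2 kap w : ℝ) (hM : 1 ≤ M) (hA : 100 * M ≤ A)
    (hw : 0 < w) (hK : Kog A L t τ q q1 qn k1 k2 kap) (F F0 : ℂ → ℂ × ℂ)
    (hF : Sta M w t k1 k2 qn F) (hP : Per τ w F F0) (u : ℂ) (hu : ‖u‖ ≤ 1) (S : ℝ)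
    (hS : Nsc F u S) (R : ℝ) (hqR : q ≤ R / 2) (hR : R ≤ 1 / 4)
    (hz : ∀ z, ‖z - u‖ < R → Jc F z ≠ 0) (e : ℂ × ℂ) (he : Dir F0 u e) (r : ℝ) (hr : 0 ≤ r)
    (hrR : 4000 * M ^ 2 * L * r ≤ R) (hrS : 200 * r ≤ S) (u1 u2 : ℂ) (h1 : ‖u1 - u‖ ≤ r)
    (h2 : ‖u2 - u‖ ≤ r) :
    ‖hh e F0 u1 - hh e F0 u2 - Jc F0 u / (nm (F0 u) : ℂ) ^ 2 * (u1 - u2)‖ ≤
        4 * (r * (200 * M ^ 2 * L / R + 10 / S)) * (‖Jc F0 u‖ / nm (F0 u) ^ 2) * ‖u1 - u2‖ ∧
      ‖Jc F0 u1 / pr (F0 u1) e ^ 2 - Jc F0 u / (nm (F0 u) : ℂ) ^ 2‖ ≤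
        4 * (r * (200 * M ^ 2 * L / R + 10 / S)) * (‖Jc F0 u‖ / nm (F0 u) ^ 2) := by
  rcases hr.eq_or_lt with hr0 | hr0
  · rw [← hr0] at h1 h2 ⊢
    have e1 : u1 = u := sub_eq_zero.1 (norm_le_zero_iff.1 h1)
    have e2 : u2 = u := sub_eq_zero.1 (norm_le_zero_iff.1 h2)
    rw [e1, e2, he.prr]
    simp
  have hq : 0 < q := by
    have h1 := hK.q1q
    have h2 := hK.q1p
    have h3 := hK.L1
    have h4 : 0 < A * L * q1 := by
      have : 0 < A := by linarith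
      have : 0 < L := by linarith
      positivity
    linarith
  have hR0 : 0 < R := by linarith
  have hL := hK.L1
  have hL0 : 0 < L := by linarith
  have hS0 := hS.1
  obtain ⟨-, a0, -, -, -, -⟩ := bs_nm M A L t τ q q1 qn k1 k2 kap w hM hA hw hK F F0 hF
    hP u (by linarith)
  have hM2 : 1 ≤ M ^ 2 := one_le_pow₀ hM
  have hML : 1 ≤ M ^ 2 * L := by nlinarith
  have hrR' : 4000 * r ≤ R := by
    have h3 : 4000 * r ≤ 4000 * M ^ 2 * L * r := by
      have : 0 ≤ (M ^ 2 * L - 1) * r := mul_nonneg (by linarith) hr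
      nlinarith
    linarith
  have hball : ∀ v ∈ ball u (2 * r), ‖v - u‖ ≤ R / 4 ∧ ‖v - u‖ ≤ S / 2 := by
    intro v hv
    rw [mem_ball_iff_norm] at hv
    constructor <;> linarith
  have hpr := fun v hv => bs_pr M A L t τ q q1 qn k1 k2 kap w hM hA hw hK F F0 hF hP u hu S
    hS e he v (hball v hv).2
  have hne : ∀ v ∈ ball u (2 * r), pr (F0 v) e ≠ 0 := by
    intro v hv h0
    have h3 := (hpr v hv).2.2.1
    rw [h0, norm_zero] at h3
    linarith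
  have hJne : ∀ v ∈ ball u (2 * r), Jc F0 v ≠ 0 := by
    intro v hv h0
    have h3 := good_low M A L t τ q q1 qn k1 k2 kap w hM hA hw hK F F0 hF hP u hu R hqR hR
      hz v (by linarith [(hball v hv).1])
    rw [h0, norm_zero] at h3
    have h4 : 0 < Real.exp (-(4 * L)) * w ^ 2 / 2 := by positivity
    linarith
  have hder : ∀ v ∈ ball u (2 * r), deriv (hh e F0) v = Jc F0 v / pr (F0 v) e ^ 2 :=
    fun v hv => (hh_der hP.dif he.one (hne v hv)).deriv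
  have hB0 : 0 ≤ 200 * M ^ 2 * L / R + 10 / S := by positivity
  have hBδ : (200 * M ^ 2 * L / R + 10 / S) * (2 * r) ≤ 1 / 4 := by
    have h3 : 200 * M ^ 2 * L / R * (2 * r) ≤ 1 / 10 := by
      rw [div_mul_eq_mul_div, div_le_iff₀ hR0]
      linarith
    have h4 : 10 / S * (2 * r) ≤ 1 / 10 := by
      rw [div_mul_eq_mul_div, div_le_iff₀ hS0]
      linarith
    linarith
  obtain ⟨g1, g2, -⟩ := surj_log (h := hh e F0) (u := u) (δ := 2 * r)
    (B := 200 * M ^ 2 * L / R + 10 / S) (by linarith) (hh_diff hP.dif he.one hne)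
    (fun v hv => by
      rw [hder v hv]
      exact div_ne_zero (hJne v hv) (pow_ne_zero 2 (hne v hv))) hB0
    (fun v hv => by
      have h3 := hh_der2 hP.dif he.one (hne v hv)
        (good_der M A L t τ q q1 qn k1 k2 kap w hM hA hw hK F F0 hF hP u hu R hqR hR hz v
          (hball v hv).1) (hpr v hv).2.2.2.2
      have e1 : 200 * M ^ 2 * L / R + 2 * (5 / S) = 200 * M ^ 2 * L / R + 10 / S := by ring
      rw [e1] at h3
      exact h3) hBδ
  have hu0 : u ∈ ball u (2 * r) := mem_ball_self (by linarith)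
  have m1 : u1 ∈ ball u (2 * r) := by
    rw [mem_ball_iff_norm]
    linarith
  have m2 : u2 ∈ ball u (2 * r) := by
    rw [mem_ball_iff_norm]
    linarith
  have hdu : deriv (hh e F0) u = Jc F0 u / (nm (F0 u) : ℂ) ^ 2 := by
    rw [hder u hu0, he.prr]
  have hnorm : ‖deriv (hh e F0) u‖ = ‖Jc F0 u‖ / nm (F0 u) ^ 2 := by
    rw [hdu, norm_div, norm_pow, Complex.norm_real, Real.norm_of_nonneg (nm_nonneg _)]
  have g1' := g1 u1 m1
  have g2' := g2 u1 m1 u2 m2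
  rw [hder u1 m1, hnorm, hdu] at g1'
  rw [hnorm, hdu] at g2'
  obtain ⟨B, hB⟩ : ∃ B, B = 200 * M ^ 2 * L / R + 10 / S := ⟨_, rfl⟩
  rw [← hB] at g1' g2' hB0 ⊢
  obtain ⟨K, hK'⟩ : ∃ K, K = ‖Jc F0 u‖ / nm (F0 u) ^ 2 := ⟨_, rfl⟩
  have hK0 : 0 ≤ K := by rw [hK']; positivity
  rw [← hK'] at g1' g2' ⊢
  refine ⟨?_, g1'.trans ?_⟩
  · have e1 : 2 * B * (2 * r) * K * ‖u1 - u2‖ = 4 * (r * B) * K * ‖u1 - u2‖ := by ring
    rw [← e1]
    exact g2'
  · have h3 : 2 * B * ‖u1 - u‖ * K ≤ 2 * B * r * K :=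
      mul_le_mul_of_nonneg_right (mul_le_mul_of_nonneg_left h1 (by positivity)) hK0
    have h4 : 0 ≤ B * r * K := by positivity
    linarith

end Pool.Agent.H84.LG.CV
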