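import Pool.Agent.H84.LG.CPla

/-!
POLYLOG RATE (copy of `H44/SR/PLB` with the constants of `H84/LG`), piece 4 (planar), module PLB: images of two near points by two near maps.

`K = ‖Jc F0 u‖ / nm (F0 u)²`, `a0 = nm (F0 u)`, `y = s w`, `e` with `Dir F0 u e` (`dir_ex`, `bs_nm`), `B = 200 M² L / R + 10 / S`, `δ = ‖u1 - u2‖ ≤ 2 r`.
`hi = hh e Fi ui`. `bs_two`: `pr (Fi ui) e ≠ 0` and `‖hi - hh e F0 ui‖ ≤ 3 y / a0`. `pl_exp`: so `| ‖h1 - h2‖ - K δ | ≤ 4 r B K δ + 6 y / a0`.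
`hh_dist` (`a = F1 u1`, `b = F2 u2`): the quotient is `‖h1 - h2‖ θ`, `θ = 1 / (√(1 + ‖h1‖²) √(1 + ‖h2‖²))`, `1 - (‖h1‖² + ‖h2‖²) ≤ θ ≤ 1`
(`pl_theta`; e.g. `√(1+x) ≤ 1 + x/2` and `1/((1+x/2)(1+y/2)) ≥ 1 - x/2 - y/2`).
`‖hi‖ ≤ ‖hh e F0 ui‖ + 3 y / a0 ≤ r / S + 3 y / a0` (`bs_pr`: `(53/100) / (7/10) ≤ 1`), `r / S ≤ 1/200`, `y / a0 ≤ 1/1000` (`bs_nm`, `s ≤ τ`), so
`‖h1‖² + ‖h2‖² ≤ 4 (r/S)² + 36 (y/a0)² ≤ (1/50) (r/S) + (36/1000) y/a0`.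
`K δ ≤ (5 / S) 2 r ≤ 1/20` (`plA`). Total: `|quotient - K δ| ≤ 4 r B K δ + 6 y/a0 + (1/50) (r/S) K δ + (1/20) (36/1000) y/a0
≤ K δ (800 M² L r / R + 41 r / S) + 7 y / a0`, and `y / a0 ≤ 3 K s / (kap t)` by `plA` (`S ≤ 1`).
-/

set_option autoImplicit false

namespace Pool.Agent.H84.LG.CV

open Pool.Agent.H44.SR Pool.Agent.H84.LG.PL

open Pool.H70.SF Pool.Agent.H70.PL Metric

theorem pl_theta (x y : ℝ) (hx : 0 ≤ x) (hy : 0 ≤ y) :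
    1 - (x ^ 2 + y ^ 2) ≤ 1 / (√(1 + x ^ 2) * √(1 + y ^ 2)) ∧
      1 / (√(1 + x ^ 2) * √(1 + y ^ 2)) ≤ 1 := by
  have hsx : 0 < √(1 + x ^ 2) := Real.sqrt_pos.2 (by positivity)
  have hsy : 0 < √(1 + y ^ 2) := Real.sqrt_pos.2 (by positivity)
  have h1x : 1 ≤ √(1 + x ^ 2) := Real.one_le_sqrt.2 (by nlinarith [sq_nonneg x])
  have h1y : 1 ≤ √(1 + y ^ 2) := Real.one_le_sqrt.2 (by nlinarith [sq_nonneg y])
  have h2x : √(1 + x ^ 2) ≤ 1 + x ^ 2 / 2 := by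
    refine Real.sqrt_le_iff.2 ⟨by positivity, ?_⟩
    nlinarith [sq_nonneg (x ^ 2)]
  have h2y : √(1 + y ^ 2) ≤ 1 + y ^ 2 / 2 := by
    refine Real.sqrt_le_iff.2 ⟨by positivity, ?_⟩
    nlinarith [sq_nonneg (y ^ 2)]
  have hmul : 1 ≤ √(1 + x ^ 2) * √(1 + y ^ 2) := by nlinarith
  constructor
  · rw [le_div_iff₀ (by positivity)]
    rcases le_total (1 - (x ^ 2 + y ^ 2)) 0 with h | h
    · have : (1 - (x ^ 2 + y ^ 2)) * (√(1 + x ^ 2) * √(1 + y ^ 2)) ≤ 0 :=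
        mul_nonpos_of_nonpos_of_nonneg h (by positivity)
      linarith
    · have h3 : √(1 + x ^ 2) * √(1 + y ^ 2) ≤ (1 + x ^ 2 / 2) * (1 + y ^ 2 / 2) :=
        mul_le_mul h2x h2y hsy.le (by positivity)
      have h4 := mul_le_mul_of_nonneg_left h3 h
      refine h4.trans ?_
      obtain ⟨a, ha⟩ : ∃ a, a = x ^ 2 := ⟨_, rfl⟩
      obtain ⟨b, hb⟩ : ∃ b, b = y ^ 2 := ⟨_, rfl⟩
      have ha0 : 0 ≤ a := by rw [ha]; positivity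
      have hb0 : 0 ≤ b := by rw [hb]; positivity
      rw [← ha, ← hb] at h ⊢
      linarith [mul_nonneg ha0 hb0, mul_nonneg ha0 ha0, mul_nonneg hb0 hb0,
        mul_nonneg (mul_nonneg ha0 hb0) (add_nonneg ha0 hb0)]
  · rw [div_le_one (by positivity)]
    exact hmul

theorem plB (M A L t τ q q1 qn k1 k2 kap w : ℝ) (hM : 1 ≤ M) (hA : 100 * M ≤ A)
    (hw : 0 < w) (hK : Kog A L t τ q q1 qn k1 k2 kap) (F F0 F1 F2 : ℂ → ℂ × ℂ)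
    (hF : Sta M w t k1 k2 qn F) (hP : Per τ w F F0) (u : ℂ) (hu : ‖u‖ ≤ 1) (S : ℝ)
    (hS : Nsc F u S) (R : ℝ) (hqR : q ≤ R / 2) (hR : R ≤ 1 / 4)
    (hz : ∀ z, ‖z - u‖ < R → Jc F z ≠ 0) (s : ℝ) (hs : 0 ≤ s) (hsτ : s ≤ τ)
    (hY1 : ∀ v, ‖v‖ ≤ 3 → nm (F1 v - F0 v) ≤ s * w) (hY2 : ∀ v, ‖v‖ ≤ 3 → nm (F2 v - F0 v) ≤ s * w)
    (r : ℝ) (hr : 0 ≤ r) (hrR : 4000 * M ^ 2 * L * r ≤ R) (hrS : 200 * r ≤ S) (u1 u2 : ℂ)
    (h1 : ‖u1 - u‖ ≤ r) (h2 : ‖u2 - u‖ ≤ r) :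
    |‖wd (F1 u1) (F2 u2)‖ / (nm (F1 u1) * nm (F2 u2)) - ‖Jc F0 u‖ / nm (F0 u) ^ 2 * ‖u1 - u2‖| ≤
      ‖Jc F0 u‖ / nm (F0 u) ^ 2 *
        (1000 * M ^ 2 * (r * (L / R + 1 / S)) * ‖u1 - u2‖ + 30 * (s / (kap * t))) := by
  have hS0 : 0 < S := hS.1
  have hS1 : S ≤ 1 := hS.2.1
  have hM0 : 0 < M := by linarith
  have hL1 := hK.L1
  have hkap : 0 < kap := lt_of_lt_of_le (Real.exp_pos _) hK.kapL
  have ht0 : 0 < t := lt_of_lt_of_le (Real.exp_pos _) hK.tL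
  obtain ⟨-, ha0, -, -, -, hτw⟩ := bs_nm M A L t τ q q1 qn k1 k2 kap w hM hA hw hK F F0 hF hP u
    (by linarith)
  obtain ⟨A1, A2, A3⟩ := plA M A L t τ q q1 qn k1 k2 kap w hM hA hw hK F F0 hF hP u hu S hS R
    hqR hR hz
  have hq0 : 0 < q := lt_of_lt_of_le (mul_pos (mul_pos (by linarith) (by linarith)) hK.q1p) hK.q1q
  have hR0 : 0 < R := by linarith
  obtain ⟨e, he⟩ := dir_ex ha0
  obtain ⟨a0, hae⟩ : ∃ a0, a0 = nm (F0 u) := ⟨_, rfl⟩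
  obtain ⟨K, hKe⟩ : ∃ K, K = ‖Jc F0 u‖ / nm (F0 u) ^ 2 := ⟨_, rfl⟩
  obtain ⟨y, hy⟩ : ∃ y, y = s * w / nm (F0 u) := ⟨_, rfl⟩
  obtain ⟨B, hB⟩ : ∃ B, B = 200 * M ^ 2 * L / R + 10 / S := ⟨_, rfl⟩
  have hB0 : 0 ≤ B := by rw [hB]; positivity
  have hK0 : 0 ≤ K := by rw [hKe]; positivity
  have hy0 : 0 ≤ y := by rw [hy]; positivity
  have hy1 : y ≤ 1 / 1000 := by
    rw [hy, div_le_iff₀ ha0]
    have : s * w ≤ τ * w := mul_le_mul_of_nonneg_right hsτ hw.le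
    linarith
  have hyK : y ≤ 3 * K * (s / (kap * t)) := by
    have h3 : kap * t * w / (3 * nm (F0 u)) ≤ K := by
      rw [← hKe] at A1
      exact A1.trans (mul_le_of_le_one_right hK0 hS1)
    rw [div_le_iff₀ (by positivity)] at h3
    have h4 : w / nm (F0 u) ≤ 3 * K / (kap * t) := by
      rw [div_le_div_iff₀ ha0 (by positivity)]
      linarith
    calc y = s * (w / nm (F0 u)) := by rw [hy]; ring
      _ ≤ s * (3 * K / (kap * t)) := mul_le_mul_of_nonneg_left h4 hs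
      _ = 3 * K * (s / (kap * t)) := by ring
  have hrS' : r / S ≤ 1 / 200 := by
    rw [div_le_iff₀ hS0]
    linarith
  have hrS0 : 0 ≤ r / S := by positivity
  have hu1 : ‖u1 - u‖ ≤ S / 2 := by linarith
  have hu2 : ‖u2 - u‖ ≤ S / 2 := by linarith
  obtain ⟨d, hd⟩ : ∃ d, d = ‖u1 - u2‖ := ⟨_, rfl⟩
  have hd0 : 0 ≤ d := by rw [hd]; positivity
  have hd2 : d ≤ 2 * r := by
    have h3 : u1 - u2 = (u1 - u) - (u2 - u) := by ring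
    rw [hd, h3]
    have := norm_sub_le (u1 - u) (u2 - u)
    linarith
  have hKd : K * d ≤ 1 / 20 := by
    rw [← hKe] at A3
    have h3 : K ≤ 5 / S := by
      rw [le_div_iff₀ hS0]
      exact A3
    calc K * d ≤ 5 / S * (2 * r) := mul_le_mul h3 hd2 hd0 (by positivity)
      _ = 10 * (r / S) := by ring
      _ ≤ 1 / 20 := by linarith
  have hKd0 : 0 ≤ K * d := by positivity
  -- the coordinates
  have T1 := bs_two M A L t τ q q1 qn k1 k2 kap w hM hA hw hK F F0 F1 hF hP u hu S hS e he s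
    hsτ hY1 u1 hu1
  have T2 := bs_two M A L t τ q q1 qn k1 k2 kap w hM hA hw hK F F0 F2 hF hP u hu S hS e he s
    hsτ hY2 u2 hu2
  have P1 := bs_pr M A L t τ q q1 qn k1 k2 kap w hM hA hw hK F F0 hF hP u hu S hS e he u1 hu1
  have P2 := bs_pr M A L t τ q q1 qn k1 k2 kap w hM hA hw hK F F0 hF hP u hu S hS e he u2 hu2
  have E := (pl_exp M A L t τ q q1 qn k1 k2 kap w hM hA hw hK F F0 hF hP u hu S hS R hqR hR hz
    e he r hr hrR hrS u1 u2 h1 h2).1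
  rw [← hy] at T1 T2
  rw [← hB, ← hKe, ← hd] at E
  have hn1 : pr (F1 u1) e ≠ 0 := by
    rw [← norm_pos_iff]
    linarith [T1.1, mul_pos (by norm_num : (0 : ℝ) < 69 / 100) ha0]
  have hn2 : pr (F2 u2) e ≠ 0 := by
    rw [← norm_pos_iff]
    linarith [T2.1, mul_pos (by norm_num : (0 : ℝ) < 69 / 100) ha0]
  have hco : ∀ v : ℂ, ‖v - u‖ ≤ r → ‖wd e (F0 v)‖ ≤ 53 / 100 * (‖v - u‖ / S) * nm (F0 u) →
      7 / 10 * nm (F0 u) ≤ ‖pr (F0 v) e‖ → ‖hh e F0 v‖ ≤ r / S := by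
    intro v hv g1 g2
    unfold hh
    rw [norm_div]
    have g3 : 0 < ‖pr (F0 v) e‖ := lt_of_lt_of_le (by positivity) g2
    rw [div_le_iff₀ g3]
    have g4 : ‖v - u‖ / S ≤ r / S := div_le_div_of_nonneg_right hv hS0.le
    calc ‖wd e (F0 v)‖ ≤ 53 / 100 * (‖v - u‖ / S) * nm (F0 u) := g1
      _ ≤ 53 / 100 * (r / S) * nm (F0 u) := by gcongr
      _ ≤ r / S * (7 / 10 * nm (F0 u)) := by
        have := mul_nonneg hrS0 ha0.le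
        linarith
      _ ≤ r / S * ‖pr (F0 v) e‖ := mul_le_mul_of_nonneg_left g2 hrS0
  have c1 := hco u1 h1 P1.2.1 P1.2.2.1
  have c2 := hco u2 h2 P2.2.1 P2.2.2.1
  obtain ⟨x1, hx1⟩ : ∃ x1, x1 = hh e F1 u1 := ⟨_, rfl⟩
  obtain ⟨x2, hx2⟩ : ∃ x2, x2 = hh e F2 u2 := ⟨_, rfl⟩
  obtain ⟨z1, hz1⟩ : ∃ z1, z1 = hh e F0 u1 := ⟨_, rfl⟩
  obtain ⟨z2, hz2⟩ : ∃ z2, z2 = hh e F0 u2 := ⟨_, rfl⟩
  have D := hh_dist he.one hn1 hn2
  change _ = ‖hh e F1 u1 - hh e F2 u2‖ / (√(1 + ‖hh e F1 u1‖ ^ 2) * √(1 + ‖hh e F2 u2‖ ^ 2)) at D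
  have t1 := T1.2.2
  have t2 := T2.2.2
  rw [← hx1, ← hx2] at D
  rw [← hx1, ← hz1] at t1
  rw [← hx2, ← hz2] at t2
  rw [← hz1, ← hz2] at E
  rw [← hz1] at c1
  rw [← hz2] at c2
  have s1 : ‖x1‖ ≤ r / S + 3 * y := by
    have : x1 = (x1 - z1) + z1 := by ring
    rw [this]
    have := norm_add_le (x1 - z1) z1
    linarith
  have s2 : ‖x2‖ ≤ r / S + 3 * y := by
    have : x2 = (x2 - z2) + z2 := by ring
    rw [this]
    have := norm_add_le (x2 - z2) z2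
    linarith
  have sq : ∀ x : ℂ, ‖x‖ ≤ r / S + 3 * y → ‖x‖ ^ 2 ≤ 1 / 100 * (r / S) + 18 / 1000 * y := by
    intro x hx
    have g1 : ‖x‖ ^ 2 ≤ (r / S + 3 * y) ^ 2 := by
      have := norm_nonneg x
      gcongr
    have g2 := mul_le_mul_of_nonneg_left hrS' hrS0
    have g3 := mul_le_mul_of_nonneg_left hy1 hy0
    linarith [sq_nonneg (r / S - 3 * y)]
  have q1' := sq x1 s1
  have q2' := sq x2 s2
  obtain ⟨Th1, Th2⟩ := pl_theta ‖x1‖ ‖x2‖ (norm_nonneg _) (norm_nonneg _)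
  obtain ⟨θ, hθ⟩ : ∃ θ, θ = 1 / (√(1 + ‖x1‖ ^ 2) * √(1 + ‖x2‖ ^ 2)) := ⟨_, rfl⟩
  rw [← hθ] at Th1 Th2
  have hθ0 : 0 ≤ θ := by rw [hθ]; positivity
  have D' : ‖wd (F1 u1) (F2 u2)‖ / (nm (F1 u1) * nm (F2 u2)) = ‖x1 - x2‖ * θ := by
    rw [D, hθ]
    ring
  -- the linear part
  have hc : ‖Jc F0 u / (nm (F0 u) : ℂ) ^ 2 * (u1 - u2)‖ = K * d := by
    rw [norm_mul, norm_div, norm_pow, Complex.norm_real, Real.norm_of_nonneg ha0.le, ← hKe, ← hd]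
  have l1 : |‖z1 - z2‖ - K * d| ≤ 4 * (r * B) * K * d := by
    rw [← hc]
    exact (abs_norm_sub_norm_le _ _).trans E
  have l2 : |‖x1 - x2‖ - ‖z1 - z2‖| ≤ 6 * y := by
    refine (abs_norm_sub_norm_le _ _).trans ?_
    have : x1 - x2 - (z1 - z2) = (x1 - z1) - (x2 - z2) := by ring
    rw [this]
    have := norm_sub_le (x1 - z1) (x2 - z2)
    linarith
  have l3 : |‖x1 - x2‖ - K * d| ≤ 4 * (r * B) * K * d + 6 * y := by
    have : ‖x1 - x2‖ - K * d = (‖x1 - x2‖ - ‖z1 - z2‖) + (‖z1 - z2‖ - K * d) := by ring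
    rw [this]
    have := abs_add_le (‖x1 - x2‖ - ‖z1 - z2‖) (‖z1 - z2‖ - K * d)
    linarith
  have l4 : |‖x1 - x2‖ * θ - K * d| ≤ (4 * (r * B) * K * d + 6 * y) +
      K * d * (1 / 50 * (r / S) + 36 / 1000 * y) := by
    have g1 : ‖x1 - x2‖ * θ - K * d = (‖x1 - x2‖ - K * d) * θ - K * d * (1 - θ) := by ring
    rw [g1]
    have g2 := abs_sub (( ‖x1 - x2‖ - K * d) * θ) (K * d * (1 - θ))
    have g3 : |(‖x1 - x2‖ - K * d) * θ| ≤ |‖x1 - x2‖ - K * d| := by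
      rw [abs_mul, abs_of_nonneg hθ0]
      exact mul_le_of_le_one_right (abs_nonneg _) Th2
    have g4 : |K * d * (1 - θ)| ≤ K * d * (1 / 50 * (r / S) + 36 / 1000 * y) := by
      rw [abs_of_nonneg (mul_nonneg hKd0 (by linarith))]
      refine mul_le_mul_of_nonneg_left ?_ hKd0
      linarith
    linarith
  rw [D', ← hKe, ← hd]
  refine l4.trans ?_
  have f1 : 4 * (r * B) * K * d = (800 * M ^ 2 * (r * (L / R)) + 40 * (r / S)) * (K * d) := by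
    rw [hB]
    ring
  have f2 : K * (1000 * M ^ 2 * (r * (L / R + 1 / S)) * d + 30 * (s / (kap * t))) =
      (1000 * M ^ 2 * (r * (L / R)) + 1000 * M ^ 2 * (r / S)) * (K * d) +
        30 * K * (s / (kap * t)) := by ring
  rw [f1, f2]
  have f3 : K * d * (36 / 1000 * y) ≤ 1 / 20 * (36 / 1000 * y) :=
    mul_le_mul_of_nonneg_right hKd (by positivity)
  have f4 : 0 ≤ M ^ 2 * (r * (L / R)) * (K * d) := by positivity
  have hM2 : 1 ≤ M ^ 2 := one_le_pow₀ hM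
  have f5 : r / S * (K * d) ≤ M ^ 2 * (r / S) * (K * d) := by
    have := mul_le_mul_of_nonneg_right hM2 (mul_nonneg hrS0 hKd0)
    linarith
  have f6 : 0 ≤ r / S * (K * d) := mul_nonneg hrS0 hKd0
  have f7 : 0 ≤ K * (s / (kap * t)) := by positivity
  linarith

end Pool.Agent.H84.LG.CV
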