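import Pool.Agent.H84.LG.CLow
import Pool.Agent.H84.LG.CGap

/-!
POLYLOG RATE (MP_8f2e1c_an), piece 3, module SID: a circle on which the coordinate stays away from its value at a given
point (compare `H44/SR/SIDE`, same structure of proof).

`c` with `‖c - u‖ ≤ η S`. Let `e'` be a unit vector with `wd (G z) e' = 0 ↔ wd (G c) (G z) = 0` (`dir_ex` at `c` for `G`, `G c ≠ 0` by `bt_nm`: `G c`
is a multiple of `e'`: `nm (G c) > 0`, `Dir.prr`, `Dir.wdd` and `lag` / `frame`; only the direction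
'`wd (G c) (G z) = 0` implies `wd (G z) e' = 0`' is needed: `frame (G c) (G z) e'` gives
`wd (G c) (G z) = pr (G c) e' * wd e' (G z) - wd e' (G c) * pr (G z) e' = nm (G c) * wd e' (G z)`).
`Z` = `{z | ‖z‖ ≤ 5/4 ∧ wd (G z) e' = 0}`, finite, card `≤ 300 M² L` (`f2_e`); `n = ⌊300 M² L⌋ + 1 ≤ 301 M² L`; `gap` on
`[ρ, ρ + 4 q S]`: radius `r` with distances at least `q S / n ≥ q S/(301 M² L) > δ := q S/(400 M² L)`.
Let `‖v - u‖ = r`, `h = hh e G`. On `ball v δ`: `|‖x - u‖ - ρ| ≤ 4 q S + δ ≤ 10 q S`, `‖x - u‖ ≤ S/2`; `pr (G x) e ≠ 0` (`bt_pr`), `Jc G x ≠ 0` (`low`),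
`h' = Jc G/(pr (G ·) e)²` (`hh_der`) is not zero, `‖h''‖ ≤ (22 M² L/(q S) + 2 (5/S)) ‖h'‖ ≤ (24 M² L/(q S)) ‖h'‖` (`hh_der2`, `logd`, `bt_pr`;
`10 q ≤ 2 M² L`), and `24 M² L/(q S) * δ ≤ 1/4`: `surj_log` (H44/SR/SUR) on `ball v δ`: the image contains
`ball (h v) (‖h' v‖ δ/2)`. If `‖h v - h c‖ < ‖h' v‖ δ/2` there is `z ∈ ball v δ` with `h z = h c`, so `wd (G c) (G z) = 0` (`hh_eq`),
`z ∈ Z` (`‖z‖ ≤ 5/4`) and `|‖z - u‖ - r| < δ`: contradiction. So `‖h v - h c‖ ≥ ‖h' v‖ δ/2`,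
`‖h' v‖ ≥ (k2/40) t w a/((13/10) a)² ≥ k2 t w/(70 a)`, `a = nm (F u)`; `70 · 800 ≤ 60000`.
-/

set_option autoImplicit false

namespace Pool.Agent.H84.LG.CV

open Pool.H70.SF Pool.Agent.H70.PL Pool.Agent.H44.SR Pool.Agent.H84.LG.PL

variable {M A L t τ q q1 qn k1 k2 kap w η : ℝ} {F : ℂ → ℂ × ℂ} {u : ℂ} {S : ℝ} {e : ℂ × ℂ} {ρ : ℝ}

theorem side (h : Cs M A L t τ q q1 qn k1 k2 kap w η F u S e) (hρ : Ann q η F u S ρ) {G : ℂ → ℂ × ℂ}
    (hG : Per τ w F G) (c : ℂ) (hc : ‖c - u‖ ≤ η * S) :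
    ∃ r, ρ ≤ r ∧ r ≤ ρ + 4 * q * S ∧ ∀ v, ‖v - u‖ = r →
      k2 * t * w * q * S / (60000 * M ^ 2 * L * nm (F u)) ≤ ‖hh e G v - hh e G c‖ := by
  obtain ⟨ha, -, ht, hk1, hk2, hkap, hq, hη0, hqη, hS0, hS1, hML, -, -, -⟩ := h.num
  have hη1 := h.kcg.η1
  have hM0 : 0 < M := by linarith [h.M1]
  have hL0 : 0 < L := by linarith [h.kog.L1]
  have hw := h.w0
  have hML0 : 0 < M ^ 2 * L := by linarith
  have hqS : 0 < q * S := mul_pos hq hS0
  have hηS : η * S ≤ S / 100 := by nlinarith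
  have hqSη : q * S ≤ η * S / 100000 := by nlinarith
  have hcS : ‖c - u‖ ≤ S / 2 := by linarith
  have hGc : 0 < nm (G c) := lt_of_lt_of_le (by positivity) (bt_nm h hG c hcS).1
  obtain ⟨e', he'⟩ := dir_ex (F0 := G) (u := c) hGc
  obtain ⟨hfin, hcard⟩ := f2_e M A L t τ q q1 qn k1 k2 kap w h.M1 h.A1 hw h.kog F G h.sta hG e' he'.one
  obtain ⟨n, hn⟩ : ∃ n : ℕ, n = ⌊300 * M ^ 2 * L⌋₊ + 1 := ⟨_, rfl⟩
  have h300 : 0 ≤ 300 * M ^ 2 * L := by positivity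
  have hn1 : 1 ≤ n := by omega
  have hnle : (n : ℝ) ≤ 301 * (M ^ 2 * L) := by
    have h1 := Nat.floor_le h300
    rw [hn]
    push_cast
    linarith
  have hn0 : (0 : ℝ) < n := by
    have : (1 : ℝ) ≤ n := by exact_mod_cast hn1
    linarith
  have hZn : hfin.toFinset.card ≤ n := by
    rw [← Set.ncard_eq_toFinset_card _ hfin]
    have h1 : {z : ℂ | ‖z‖ ≤ 5 / 4 ∧ wd (G z) e' = 0}.ncard ≤ ⌊300 * M ^ 2 * L⌋₊ :=
      Nat.le_floor hcard
    omega
  obtain ⟨r, hr1, hr2, hrZ⟩ := gap u ρ (4 * q * S) (by positivity) hfin.toFinset n hn1 hZn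
  refine ⟨r, hr1, hr2, fun v hv => ?_⟩
  obtain ⟨δ, hδ⟩ : ∃ δ : ℝ, δ = q * S / (400 * (M ^ 2 * L)) := ⟨_, rfl⟩
  have hδ0 : 0 < δ := by rw [hδ]; positivity
  have hδq : δ ≤ q * S := by
    rw [hδ, div_le_iff₀ (by positivity)]
    nlinarith
  have hδn : δ < 4 * q * S / (4 * n) := by
    have h1 : 4 * q * S / (4 * (n : ℝ)) = q * S / n := by
      field_simp
    rw [h1, hδ, div_lt_div_iff₀ (by positivity) hn0]
    apply mul_lt_mul_of_pos_left _ hqS
    linarith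
  have hρ2 := hρ.r2
  have hρ1 := hρ.r1
  -- on the ball
  have hbx : ∀ x ∈ Metric.ball v δ, |‖x - u‖ - r| < δ := by
    intro x hx
    rw [Metric.mem_ball, dist_eq_norm] at hx
    have h1 := abs_norm_sub_norm_le (x - u) (v - u)
    rw [sub_sub_sub_cancel_right, hv] at h1
    linarith
  have hb10 : ∀ x ∈ Metric.ball v δ, |‖x - u‖ - ρ| ≤ 10 * q * S := by
    intro x hx
    have h1 := abs_lt.1 (hbx x hx)
    rw [abs_le]
    constructor <;> linarith [h1.1, h1.2]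
  have hbu : ∀ x ∈ Metric.ball v δ, ‖x - u‖ ≤ η * S := by
    intro x hx
    have h1 := abs_lt.1 (hbx x hx)
    linarith [h1.2]
  have hbS : ∀ x ∈ Metric.ball v δ, ‖x - u‖ ≤ S / 2 := by
    intro x hx
    linarith [hbu x hx]
  have hpr : ∀ x ∈ Metric.ball v δ, pr (G x) e ≠ 0 := fun x hx => (bt_pr h hG x (hbS x hx)).2.2.2
  have hJ : ∀ x ∈ Metric.ball v δ, k2 / 40 * t * w * nm (F u) ≤ ‖Jc G x‖ := by
    intro x hx
    refine low h hρ hG x ((hb10 x hx).trans ?_)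
    linarith
  have hJpos : 0 < k2 / 40 * t * w * nm (F u) := by positivity
  have hJ0 : ∀ x ∈ Metric.ball v δ, Jc G x ≠ 0 := by
    intro x hx
    rw [← norm_pos_iff]
    exact lt_of_lt_of_le hJpos (hJ x hx)
  have he := h.dir.one
  have hder : ∀ x ∈ Metric.ball v δ, deriv (hh e G) x = Jc G x / (pr (G x) e) ^ 2 :=
    fun x hx => (hh_der hG.dif he (hpr x hx)).deriv
  have hne : ∀ x ∈ Metric.ball v δ, deriv (hh e G) x ≠ 0 := by
    intro x hx
    rw [hder x hx]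
    exact div_ne_zero (hJ0 x hx) (pow_ne_zero 2 (hpr x hx))
  have hB0 : 0 ≤ 24 * M ^ 2 * L / (q * S) := by positivity
  have hdd : ∀ x ∈ Metric.ball v δ, ‖deriv (deriv (hh e G)) x‖ ≤
      24 * M ^ 2 * L / (q * S) * ‖deriv (hh e G) x‖ := by
    intro x hx
    have h1 := logd h hρ hG x (hb10 x hx)
    have h2 := (bt_pr h hG x (hbS x hx)).2.2.1
    refine (hh_der2 hG.dif he (hpr x hx) h1 h2).trans ?_
    apply mul_le_mul_of_nonneg_right _ (norm_nonneg _)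
    have h3 : 2 * (5 / S) = 10 * q / (q * S) := by
      field_simp
      norm_num
    rw [h3, ← add_div]
    apply div_le_div_of_nonneg_right _ hqS.le
    have hq8 := h.kog.q1'
    linarith
  have hBδ : 24 * M ^ 2 * L / (q * S) * δ ≤ 1 / 4 := by
    have h1 : 24 * M ^ 2 * L / (q * S) * δ = 24 / 400 := by
      rw [hδ]
      field_simp
    rw [h1]
    norm_num
  obtain ⟨-, -, hsurj⟩ := surj_log hδ0 (hh_diff hG.dif he hpr) hne hB0 hdd hBδ
  by_contra hcon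
  rw [not_le] at hcon
  have hvm : v ∈ Metric.ball v δ := Metric.mem_ball_self hδ0
  have hd : k2 * t * w / (70 * nm (F u)) ≤ ‖deriv (hh e G) v‖ := by
    rw [hder v hvm, norm_div, norm_pow]
    have h1 := (bt_pr h hG v (hbS v hvm)).2.1
    have h2 := hJ v hvm
    have h3 : 0 < ‖pr (G v) e‖ := norm_pos_iff.2 (hpr v hvm)
    rw [le_div_iff₀ (by positivity)]
    have h4 : ‖pr (G v) e‖ ^ 2 ≤ 7 / 4 * nm (F u) ^ 2 := by nlinarith
    calc k2 * t * w / (70 * nm (F u)) * ‖pr (G v) e‖ ^ 2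
        ≤ k2 * t * w / (70 * nm (F u)) * (7 / 4 * nm (F u) ^ 2) :=
          mul_le_mul_of_nonneg_left h4 (by positivity)
      _ = k2 / 40 * t * w * nm (F u) := by
          field_simp
          norm_num
      _ ≤ _ := h2
  have hr : k2 * t * w * q * S / (60000 * M ^ 2 * L * nm (F u)) ≤ 1 / 2 * ‖deriv (hh e G) v‖ * δ := by
    have h1 : 1 / 2 * (k2 * t * w / (70 * nm (F u))) * δ ≤ 1 / 2 * ‖deriv (hh e G) v‖ * δ := by
      gcongr
    refine le_trans ?_ h1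
    have h2 : 1 / 2 * (k2 * t * w / (70 * nm (F u))) * δ =
        k2 * t * w * q * S / (56000 * M ^ 2 * L * nm (F u)) := by
      rw [hδ]
      field_simp
      norm_num
    rw [h2]
    apply div_le_div_of_nonneg_left (by positivity) (by positivity)
    have h3 : 0 ≤ M ^ 2 * L * nm (F u) := by positivity
    nlinarith
  have h0 : hh e G c ∈ Metric.ball (hh e G v) (1 / 2 * ‖deriv (hh e G) v‖ * δ) := by
    rw [Metric.mem_ball, dist_eq_norm, norm_sub_rev]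
    linarith
  obtain ⟨z, hzb, hz0⟩ := hsurj h0
  have h1 : wd (G c) (G z) = 0 := hh_eq he (hpr z hzb) (bt_pr h hG c hcS).2.2.2 hz0
  have h2 : wd (G z) e' = 0 := by
    rw [frame (G c) (G z) e' he'.one, he'.wdd, he'.prr, zero_mul, sub_zero] at h1
    rcases mul_eq_zero.1 h1 with h3 | h3
    · exact absurd (by exact_mod_cast h3) hGc.ne'
    · have h4 : wd (G z) e' = -wd e' (G z) := by
        simp only [wd]
        ring
      rw [h4, h3, neg_zero]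
  have hz54 : ‖z‖ ≤ 5 / 4 := by
    have h3 := norm_add_le (z - u) u
    rw [sub_add_cancel] at h3
    have h4 := hbu z hzb
    linarith [h.u1]
  have h3 := hrZ z (by
    rw [Set.Finite.mem_toFinset]
    exact ⟨hz54, h2⟩)
  have h4 := hbx z hzb
  linarith

end Pool.Agent.H84.LG.CV
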