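import Pool.Agent.H84.LG.Avo

/-!
[H84 LG CH1]  POLYLOG RATE (copy of the module of SHARP RATE), piece 5: from a critical point of the new map to a critical point of the old map.

`Pr`: the new critical point `c'` comes from the old critical point `c = pt d b u`.
* `pre`: `exists_pt` for `c'`: `c' = z • pt d b u'`, `‖u'‖ ≤ 1/3`; it is enough to treat `pt d b u'` (the statement is about
  `c' = pt d b u'` only). `JJ_pt_iff`: `Jc (Fb (X+Y) b) u' = 0`, `Ctx.cvd` gives `u` with `‖u - u'‖ ≤ be^4`, so `‖u‖ ≤ 1/2`,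
  and `JJ X (pt d b u) = 0`. `chi`: `FF X (pt d b u) = r • Fb X b u` with `r > 0` (`FF_ptX`; `r = ((√(1+‖u‖²/d))⁻¹)^d`) and the
  same for `X + Y`, `u'`; `chi_smul`. `val`: `wd_nx_pt` (`H47/SR/Hm`): `DD (ob (X+Y) c' 0) (ob X c 0) =
  √d ‖wd (Fb X b u) (Fb (X+Y) b u')‖/(nm nm) ≤ √d 2 cY σ w b/nm (Fb X b u) ≤ 10 cY σ √d EE = D0` (`EE_dn`, `cX/8 = 10 cY`).
  `rat`: `EE_rat`.
* `xr`: `xx cX (be σ) s w (X+Y) c' i = be · (EE'/EE)(Ph'/Ph) · xx cX σ s w X c i`, factors from `EE_rat` (101/100) and `two1`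
  (`1 + be`), so the ratio is between `9/10` and `11/10`.
-/

set_option autoImplicit false

open Polynomial ComplexConjugate Filter Topology

namespace Pool.Agent.H84.LG

open Pool.H70.SF Pool.Agent.H85.LD Pool.H91.SR Pool.Agent.H70.PL Pool.Agent.H47.SR

variable {d : ℕ} {A e CN σ : ℝ} {s : Finset ℂ} {w : ℂ → ℝ} {Xs X Y : CV d}

/-- `c'` comes from `pt d b u` -/
structure Pr (e σ : ℝ) (s : Finset ℂ) (w : ℂ → ℝ) (X Y : CV d) (b u : ℂ) (c' : ℂ × ℂ) : Prop where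
  mem : b ∈ s
  le : ‖u‖ ≤ 1 / 2
  crit : JJ X (pt d b u) = 0
  unit : IsU c'
  val : DD d (ob (X + Y) c' 0) (ob X (pt d b u) 0) ≤ D0 σ s w X (pt d b u)
  chi' : ‖chi (FF X (pt d b u)) (FF (X + Y) c') - ee (Fb X b u) (Fb Y b u)‖ ≤
      be e d ^ 4 * σ * (w b / nm (Fb X b u))
  rat1 : EE s w (X + Y) c' ≤ 101 / 100 * EE s w X (pt d b u)
  rat2 : EE s w X (pt d b u) ≤ 101 / 100 * EE s w (X + Y) c'

theorem pre (h : Stg A e CN σ s w Xs X) (hY : Amp s w (cY * σ) Y) {b u' : ℂ} (hb : b ∈ s) (hu' : ‖u'‖ ≤ 1 / 3)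
    (hc' : JJ (X + Y) (pt d b u') = 0) : ∃ u, Pr e σ s w X Y b u (pt d b u') := by
  have hctx := h.ctx
  have hd := hctx.d1
  have hamp := amp1 h
  have hbe := hctx.bpos
  have hbs := hctx.bsm
  have hJ1 := (JJ_pt_iff hd (X + Y) b u').1 hc'
  obtain ⟨u, huu, hJu, hchi, hwd, hr1, hr2⟩ := hctx.cvd X Y σ h.spos (sle1 h) hamp hY b hb u' hu' hJ1
  have hb1 : be e d ≤ 1 / 6 := by linarith
  have hb4 : be e d ^ 4 ≤ 1 / 6 := by
    have h1 : be e d ^ 3 ≤ 1 := pow_le_one₀ hbe.le (by linarith)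
    have h2 : be e d ^ 4 = be e d ^ 3 * be e d := by ring
    rw [h2]
    nlinarith
  have hu : ‖u‖ ≤ 1 / 2 := by
    have h1 : ‖u‖ ≤ ‖u - u'‖ + ‖u'‖ := by
      have h2 := norm_add_le (u - u') u'
      rwa [sub_add_cancel] at h2
    linarith
  have hn := (nm_low hctx hamp hb (u := u) (by linarith)).2
  have hn' := (nm_low hctx (amp2 h hY) hb (u := u') (by linarith)).2
  have hsd : (0 : ℝ) < √d := sd_pos hd
  have hw := hctx.wor.wgt.pos b
  have hs := h.spos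
  have hE := EE_dn hctx hamp hb hu
  obtain ⟨hE1, hE2⟩ := EE_rat hctx hamp (amp2 h hY) hb hu (u' := u') (by linarith) huu hr1 hr2
  refine ⟨u, hb, hu, (JJ_pt_iff hd X b u).2 hJu, pt_unit d b u', ?_, ?_, hE1, hE2⟩
  · show √d * ‖wd (nx (X + Y) (pt d b u')) (nx X (pt d b u))‖ ≤ D0 σ s w X (pt d b u)
    rw [wd_nx_pt, Pool.Agent.H47.SF.wd_comm]
    have h1 : ‖wd (Fb X b u) (Fb (X + Y) b u')‖ / (nm (Fb (X + Y) b u') * nm (Fb X b u)) ≤
        2 * cY * σ * (w b / nm (Fb X b u)) := by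
      rw [div_le_iff₀ (by positivity)]
      have h2 : 2 * cY * σ * (w b / nm (Fb X b u)) * (nm (Fb (X + Y) b u') * nm (Fb X b u)) =
          2 * cY * σ * w b * nm (Fb (X + Y) b u') := by
        field_simp
      rw [h2]
      exact hwd
    have hcY : 0 < 2 * cY * σ := by
      unfold cY
      positivity
    have h3 : 2 * cY * σ * (w b / nm (Fb X b u)) ≤ 2 * cY * σ * (5 * EE s w X (pt d b u)) :=
      mul_le_mul_of_nonneg_left hE hcY.le
    have h4 : √d * (‖wd (Fb X b u) (Fb (X + Y) b u')‖ / (nm (Fb (X + Y) b u') * nm (Fb X b u))) ≤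
        √d * (2 * cY * σ * (5 * EE s w X (pt d b u))) := mul_le_mul_of_nonneg_left (h1.trans h3) hsd.le
    refine h4.trans (le_of_eq ?_)
    unfold D0 cX cY
    ring
  · have h1 : (0 : ℝ) < ((√(1 + ‖u‖ ^ 2 / d))⁻¹) ^ d := by positivity
    have h2 : (0 : ℝ) < ((√(1 + ‖u'‖ ^ 2 / d))⁻¹) ^ d := by positivity
    have h3 : FF X (pt d b u) = (((((√(1 + ‖u‖ ^ 2 / d))⁻¹) ^ d : ℝ)) : ℂ) • Fb X b u := by
      rw [FF_ptX]
      push_cast
      rfl
    rw [h3, FF_ptX (X + Y), chi_smul _ _ h1 (by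
      have h4 : (((√(1 + ‖u'‖ ^ 2 / d))⁻¹ : ℝ) : ℂ) ≠ 0 := by
        have h5 : (0 : ℝ) < (√(1 + ‖u'‖ ^ 2 / d))⁻¹ := by positivity
        exact_mod_cast h5.ne'
      exact pow_ne_zero _ h4)]
    rw [← mul_div_assoc]
    exact hchi

/-- comparison of the old and the new influence -/
theorem xr (h : Stg A e CN σ s w Xs X) (hY : Amp s w (cY * σ) Y) {b u : ℂ} {c' : ℂ × ℂ} (hp : Pr e σ s w X Y b u c')
    {J : ℕ} (hJ : ∀ i < J, xx cX σ s w X (pt d b u) i ≤ rs e d)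
    (hJ3 : xx cX σ s w X (pt d b u) J ≤ 3 * rs e d / be e d) {i : ℕ} (hi : i ≤ J) :
    9 / 10 * (be e d * xx cX σ s w X (pt d b u) i) ≤ xx cX (be e d * σ) s w (X + Y) c' i ∧
    xx cX (be e d * σ) s w (X + Y) c' i ≤ 11 / 10 * (be e d * xx cX σ s w X (pt d b u) i) ∧
    DD d (ob (X + Y) c' i) (ob X (pt d b u) i) ≤ xx cX σ s w X (pt d b u) i / 4 := by
  have hctx := h.ctx
  have hd := hctx.d1
  have hbe := hctx.bpos
  have hbs := hctx.bsm
  obtain ⟨t1, t2, t3⟩ := two1 h (pt_unit d b u) hp.crit hJ hJ3 hY hp.unit hp.val hi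
  have hE := EE_pos h (pt_unit d b u)
  have hE1 := hp.rat1
  have hE2 := hp.rat2
  have hP := Ph_nn X (pt d b u) i
  have hP' := Ph_nn (X + Y) c' i
  obtain ⟨E, hEe⟩ : ∃ E, E = EE s w X (pt d b u) := ⟨_, rfl⟩
  obtain ⟨E', hEe'⟩ : ∃ E', E' = EE s w (X + Y) c' := ⟨_, rfl⟩
  obtain ⟨P, hPe⟩ : ∃ P, P = Ph X (pt d b u) i := ⟨_, rfl⟩
  obtain ⟨P', hPe'⟩ : ∃ P', P' = Ph (X + Y) c' i := ⟨_, rfl⟩
  have hx : be e d * xx cX σ s w X (pt d b u) i = (cX * be e d * σ * √d) * (E * P) := by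
    unfold xx
    rw [hEe, hPe]
    ring
  have hx' : xx cX (be e d * σ) s w (X + Y) c' i = (cX * be e d * σ * √d) * (E' * P') := by
    unfold xx
    rw [hEe', hPe']
    ring
  have hk : 0 ≤ cX * be e d * σ * √d := by
    have h1 := h.spos
    unfold cX
    positivity
  rw [← hEe] at hE hE1 hE2
  rw [← hEe'] at hE1 hE2
  rw [← hPe] at hP t2 t3
  rw [← hPe'] at hP' t2 t3
  have hE' : 0 ≤ E' := by linarith
  have hb1 : be e d ≤ 1 / 100 := by linarith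
  have t2' : P' ≤ 101 / 100 * P := by
    have h1 : (1 + be e d) * P ≤ (101 / 100) * P := mul_le_mul_of_nonneg_right (by linarith) hP
    linarith
  have t3' : P ≤ 101 / 100 * P' := by
    have h1 : (1 + be e d) * P' ≤ (101 / 100) * P' := mul_le_mul_of_nonneg_right (by linarith) hP'
    linarith
  have a1 : E' * P' ≤ 11 / 10 * (E * P) := by
    have h1 : E' * P' ≤ (101 / 100 * E) * (101 / 100 * P) := mul_le_mul hE1 t2' hP' (by linarith)
    have h2 : 0 ≤ E * P := mul_nonneg hE.le hP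
    linarith
  have a2 : 9 / 10 * (E * P) ≤ E' * P' := by
    have h1 : E * P ≤ (101 / 100 * E') * (101 / 100 * P') := mul_le_mul hE2 t3' hP (by linarith)
    have h2 : 0 ≤ E' * P' := mul_nonneg hE' hP'
    linarith
  refine ⟨?_, ?_, t1⟩
  · rw [hx, hx']
    have h1 := mul_le_mul_of_nonneg_left a2 hk
    linarith
  · rw [hx, hx']
    have h1 := mul_le_mul_of_nonneg_left a1 hk
    linarith

end Pool.Agent.H84.LG
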