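import Pool.Agent.H84.LG.Kon

/-!
[H84 LG CTX]  POLYLOG RATE, piece 5: the explicit constants of the stages and everything that is used for one degree
(copy of `H84/SR2/Ctx` with the new constants).

`cY` amplitude of the perturbations of one stage (relative to `σ`), `cX` the factor in `xx`, `cS` the first `σ` is
`cS * hh d`, `c1` bound of the total perturbation, `TT` the truncation radius.
-/

set_option autoImplicit false

open Polynomial ComplexConjugate Filter Topology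

namespace Pool.Agent.H84.LG

open Pool.H70.SF Pool.Agent.H85.LD Pool.H91.SR Pool.Agent.H70.PL Pool.Agent.H47.SR

noncomputable def cY : ℝ := 10 ^ 10
noncomputable def cX : ℝ := 8 * 10 ^ 11
noncomputable def cS : ℝ := 10 ^ 7
noncomputable def c1 : ℝ := 10 ^ 18
/-- radius of truncation -/
noncomputable def TT (d : ℕ) : ℝ := 20 * LL d

/-- everything that is used in one stage -/
structure Ctx (A e CN : ℝ) (d : ℕ) (s : Finset ℂ) (w : ℂ → ℝ) (Xs : CV d) : Prop where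
  d1 : 1 ≤ d
  e0 : 0 < e
  e4 : e ≤ 1 / 4
  wor : Wor A e d s w Xs
  CN1 : 1 ≤ CN
  cnt : CntB c1 CN s w Xs
  cvd : CvdB c1 cY e s w Xs
  one : OneB c1 e s w Xs
  rat : RatB c1 cY e s w Xs
  two : TwoB c1 cY 1 e s w Xs
  L1 : 1 ≤ LL d
  bpos : 0 < be e d
  bsm : 10 ^ 30 * be e d ≤ 1
  exp : 10 ≤ be e d ^ 2 * xl d
  kt : 0 < k1 A e d * tt e d
  near : 2 * (c1 * hh d) ≤ k1 A e d * tt e d
  near2 : 10 ^ 30 * hh d ≤ k1 A e d * tt e d
  h1 : c1 * hh d ≤ 1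
  tail : 10 ^ 16 * Real.exp (-(2 * TT d)) ≤ be e d ^ 4
  lll : 4 * ((CN * LL d) * (CN * LL d + 2) * (16 * (2 * 10 ^ 18 * be e d) ^ 2)) * (65 * (2 * TT d + 1) ^ 2) ≤ 1

private theorem ctx_lll {CN L b : ℝ} (hCN : 1 ≤ CN) (hL : 1 ≤ L) (hb : 0 < b)
    (h : 10 ^ 22 * CN * L ^ 2 * b ≤ 1) :
    4 * ((CN * L) * (CN * L + 2) * (16 * (2 * 10 ^ 18 * b) ^ 2)) * (65 * (2 * (20 * L) + 1) ^ 2) ≤ 1 := by
  have h1 : CN * L + 2 ≤ 3 * (CN * L) := by nlinarith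
  have h2 : 2 * (20 * L) + 1 ≤ 41 * L := by linarith
  have hCL : 0 < CN * L := by positivity
  have h3 : 4 * ((CN * L) * (CN * L + 2) * (16 * (2 * 10 ^ 18 * b) ^ 2)) * (65 * (2 * (20 * L) + 1) ^ 2)
      ≤ 4 * ((CN * L) * (3 * (CN * L)) * (16 * (2 * 10 ^ 18 * b) ^ 2)) * (65 * (41 * L) ^ 2) := by
    gcongr
  have h4 : 0 ≤ 10 ^ 22 * CN * L ^ 2 * b := by positivity
  have h5 : (10 ^ 22 * CN * L ^ 2 * b) ^ 2 ≤ 1 := pow_le_one₀ h4 h
  have h6 : 0 ≤ (CN * L ^ 2 * b) ^ 2 := sq_nonneg _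
  have h7 : 4 * ((CN * L) * (3 * (CN * L)) * (16 * (2 * 10 ^ 18 * b) ^ 2)) * (65 * (41 * L) ^ 2)
      = (83915520 * 10 ^ 36) * (CN * L ^ 2 * b) ^ 2 := by ring
  have h8 : (10 ^ 22 * CN * L ^ 2 * b) ^ 2 = (10 ^ 8 * 10 ^ 36) * (CN * L ^ 2 * b) ^ 2 := by ring
  rw [h8] at h5
  rw [h7] at h3
  refine h3.trans (le_trans ?_ h5)
  apply mul_le_mul_of_nonneg_right _ h6
  norm_num

theorem ctx_ev {A : ℝ} (hA : 1 ≤ A) (hcnt : CntStmt A) (hcvd : CvdStmt A) (hone : OneStmt A) (hrat : RatStmt A)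
    (htwo : TwoStmt A) : ∃ CN : ℝ, Lg A fun e d s w Xs => Ctx A e CN d s w Xs := by
  have hc1 : (1 : ℝ) ≤ c1 := by
    unfold c1
    norm_num
  have hcY : (1 : ℝ) ≤ cY := by
    unfold cY
    norm_num
  obtain ⟨CN, hCN, hcN⟩ := hcnt c1 hc1
  refine ⟨CN, fun e he he4 => ?_⟩
  have hA0 : 0 < A := by linarith
  filter_upwards [hcN e he he4, hcvd c1 cY hc1 hcY e he he4, hone c1 hc1 e he he4,
    hrat c1 cY hc1 hcY e he he4, htwo c1 cY 1 hc1 hcY le_rfl e he he4, LL_one,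
    be_LL e (10 ^ 30) (k := 0) (by norm_num), be_LL e (10 ^ 22 * CN) (k := 2) le_rfl, LL_ge 10,
    LL_ev (10 ^ 16) 12 (a := 40) (by norm_num), hh_small1 (2 * c1) hA0 e,
    hh_small1 (10 ^ 30) hA0 e, eventually_ge_atTop 2, LL_ev c1 0 (a := 1 / 2) (by norm_num)] with d
    g1 g2 g3 g4 g5 g6 g7 g8 g9 g10 g11 g12 g13 g14 s w Xs hW
  have hd1 : (1 : ℝ) ≤ (d : ℝ) := by exact_mod_cast (by omega : 1 ≤ d)
  have hd0 : (0 : ℝ) < (d : ℝ) := by linarith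
  have hb := be_pos e g13
  rw [pow_zero, mul_one] at g7 g14
  have hL : 0 < LL d := by linarith
  have hqn := qn_pos hA0 e g13
  have htt := tt_pos e g13
  have hhp := hh_pos (d := d) (by omega)
  have hL0 : TT d = 20 * LL d := rfl
  refine ⟨by omega, he, he4, hW, hCN, g1 s w Xs hW, g2 s w Xs hW, g3 s w Xs hW, g4 s w Xs hW,
    g5 s w Xs hW, g6, hb, g7, ?_, ?_, ?_, ?_, ?_, ?_, ?_⟩
  · have h1 : be e d ^ 2 * xl d = LL d ^ 24 := by
      have h2 := be_L (e := e) hL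
      unfold xl
      calc be e d ^ 2 * LL d ^ 30 = (be e d * LL d ^ 3) ^ 2 * LL d ^ 24 := by ring
        _ = LL d ^ 24 := by rw [h2]; ring
    rw [h1]
    calc (10 : ℝ) ≤ LL d := g9
      _ = LL d ^ 1 := (pow_one _).symm
      _ ≤ LL d ^ 24 := pow_le_pow_right₀ g6 (by norm_num)
  · unfold k1
    exact mul_pos (pow_pos hqn 2) htt
  · calc 2 * (c1 * hh d) = (2 * c1) * hh d := by ring
      _ ≤ _ := g11
  · exact g12
  · calc c1 * hh d ≤ (d : ℝ) ^ (1 / 2 : ℝ) * hh d := mul_le_mul_of_nonneg_right g14 hhp.le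
      _ = 1 := by
        rw [← Real.sqrt_eq_rpow]
        exact hh_sqrt (by omega)
  · have h1 : Real.exp (-(2 * TT d)) = ((d : ℝ) ^ (40 : ℝ))⁻¹ := by
      rw [hL0]
      unfold LL
      rw [← Real.rpow_neg hd0.le, Real.rpow_def_of_pos hd0]
      congr 1
      ring
    have h2 : 0 < (d : ℝ) ^ (40 : ℝ) := Real.rpow_pos_of_pos hd0 _
    rw [h1, ← div_eq_mul_inv, div_le_iff₀ h2]
    have h3 : be e d ^ 4 * LL d ^ 12 = 1 := by
      have h4 := be_L (e := e) hL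
      calc be e d ^ 4 * LL d ^ 12 = (be e d * LL d ^ 3) ^ 4 := by ring
        _ = 1 := by rw [h4, one_pow]
    calc (10 : ℝ) ^ 16 = be e d ^ 4 * (10 ^ 16 * LL d ^ 12) := by
          linear_combination (-(10 : ℝ) ^ 16) * h3
      _ ≤ be e d ^ 4 * (d : ℝ) ^ (40 : ℝ) := mul_le_mul_of_nonneg_left g10 (by positivity)
  · rw [hL0]
    exact ctx_lll hCN g6 hb g8

end Pool.Agent.H84.LG
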