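import Pool.Agent.H70.PL.Def
import Pool.Agent.H73.ST.Def
import Pool.Agent.H91.SR.Chb
import Pool.Agent.H47.SR.Hm

/-!
POLYLOG RATE (MP_8f2e1c_an): common definitions of pieces 3-6 and the statements between the chapters. This is the
module `H84/SR2/Def` (SHARP RATE) with other constants.

Homogeneous coordinates: `X : CV d`, points of the sphere are unit vectors of `ℂ × ℂ`. `Fb X b u` (`H47/SR/Hm`) is the
map in the chart of centre `b`, `DD d y z` the distance in cells (`√d` times the chordal distance), `WW` the weight on the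
sphere, `EE = WW / |FF X|`. Constants (`L = LL d = log d`): `be = L^(-3)` (ratio of consecutive stages),
`tt = L^130/√d` (relative size of the static noise), `hh d = 1/√d`, `qq = be^5`, `q1 = qq/(A L)`, `qn = q1/(A L)`,
`k1 = qn^2`, `k2 = qn^4`, `kap = L^(-90)`, `xl = L^30` (expansion at good points), `de = be^4` (distance of good
points from the critical points of the static map), `rs = be^2` (size of an orbit point when it is treated). The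
parameter `e` is a dummy, it is kept so that the modules of SHARP RATE can be copied.
`Wor A e d s w Xs`: net `s`, weight `w`, static map `Xs`. `Amp s w a Y`: `Y` has relative amplitude at most `a`.
`Gd d Xs δ y`: `y` is at distance at least `δ` from the critical points of `Xs`.
`xx`: size of the influence of a perturbation `σ` at the orbit point `j` of the critical point `c`; `Act`: the orbit
has not been treated up to `j`; `HH`: the induction hypothesis of the stages.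
-/

set_option autoImplicit false

open Polynomial ComplexConjugate Filter Topology

namespace Pool.Agent.H84.LG

open Pool.H70.SF Pool.Agent.H85.LD Pool.H91.SR Pool.Agent.H70.PL Pool.Agent.H47.SR

/-- distance in cells -/
noncomputable def DD (d : ℕ) (y z : ℂ × ℂ) : ℝ := √d * ‖wd y z‖

/-- the weight on the sphere -/
noncomputable def WW (d : ℕ) (s : Finset ℂ) (w : ℂ → ℝ) (y : ℂ × ℂ) : ℝ :=
  ∑ b ∈ s, w b * Real.exp (-(3 * DD d y (wB b)))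

/-- weight over size of the map -/
noncomputable def EE {d : ℕ} (s : Finset ℂ) (w : ℂ → ℝ) (X : CV d) (c : ℂ × ℂ) : ℝ := WW d s w c / nm (FF X c)

/-- affine coordinate of the direction `G` at the direction `a` -/
noncomputable def chi (a G : ℂ × ℂ) : ℂ := wd a G / pr G a

/-- linear part of the displacement of the value -/
noncomputable def ee (a y : ℂ × ℂ) : ℂ := wd a y / (n2 a : ℂ)

/-- `1 ≤ pp j ≤ j` for `j ≥ 1`, every value `≥ 1` is attained infinitely often -/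
def pp (j : ℕ) : ℕ := max 1 (Nat.unpair j).1

/-- absolute bound of the static map in charts -/
noncomputable def MM : ℝ := 10 ^ 6

noncomputable def hh (d : ℕ) : ℝ := 1 / √d
noncomputable def LL (d : ℕ) : ℝ := Real.log d
/-- ratio of consecutive stages -/
noncomputable def be (_e : ℝ) (d : ℕ) : ℝ := (LL d)⁻¹ ^ 3
noncomputable def tt (_e : ℝ) (d : ℕ) : ℝ := LL d ^ 130 * hh d
noncomputable def qq (e : ℝ) (d : ℕ) : ℝ := be e d ^ 5
noncomputable def q1 (A e : ℝ) (d : ℕ) : ℝ := qq e d / (A * LL d)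
noncomputable def qn (A e : ℝ) (d : ℕ) : ℝ := q1 A e d / (A * LL d)
noncomputable def k1 (A e : ℝ) (d : ℕ) : ℝ := qn A e d ^ 2
noncomputable def k2 (A e : ℝ) (d : ℕ) : ℝ := qn A e d ^ 4
noncomputable def kap (_e : ℝ) (d : ℕ) : ℝ := (LL d)⁻¹ ^ 90
/-- lower bound of the expansion at good points -/
noncomputable def xl (d : ℕ) : ℝ := LL d ^ 30
/-- distance of good points from the critical points -/
noncomputable def de (e : ℝ) (d : ℕ) : ℝ := be e d ^ 4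
/-- size at which an orbit point is treated -/
noncomputable def rs (e : ℝ) (d : ℕ) : ℝ := be e d ^ 2

/-- the world of the static map -/
structure Wor (A e : ℝ) (d : ℕ) (s : Finset ℂ) (w : ℂ → ℝ) (Xs : CV d) : Prop where
  sep : Sep d s
  cov : Pool.Agent.H91.LD.Cov d s
  wgt : Wgt d w
  sta : ∀ b ∈ s, Sta MM (w b) (tt e d) (k1 A e d) (k2 A e d) (qn A e d) (Fb Xs b)

/-- amplitude at most `a` -/
def Amp {d : ℕ} (s : Finset ℂ) (w : ℂ → ℝ) (a : ℝ) (Y : CV d) : Prop :=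
  ∀ b ∈ s, ∀ u : ℂ, ‖u‖ ≤ 3 → nm (Fb Y b u) ≤ a * w b

/-- good points -/
def Gd {d : ℕ} (Xs : CV d) (δ : ℝ) (y : ℂ × ℂ) : Prop := ∀ z, IsU z → JJ Xs z = 0 → δ ≤ DD d y z

/-- the influence at the orbit point `j` -/
noncomputable def xx {d : ℕ} (Cx σ : ℝ) (s : Finset ℂ) (w : ℂ → ℝ) (X : CV d) (c : ℂ × ℂ) (j : ℕ) : ℝ :=
  Cx * σ * √d * EE s w X c * Ph X c j

/-- not treated up to `j` -/
def Act {d : ℕ} (e Cx σ : ℝ) (s : Finset ℂ) (w : ℂ → ℝ) (X : CV d) (c : ℂ × ℂ) (j : ℕ) : Prop :=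
  ∀ i ≤ j, xx Cx σ s w X c i ≤ rs e d

/-- induction hypothesis of the stages -/
def HH {d : ℕ} (e Cx σ : ℝ) (s : Finset ℂ) (w : ℂ → ℝ) (Xs X : CV d) : Prop :=
  ∀ c, IsU c → JJ X c = 0 → ∀ j, Act e Cx σ s w X c j →
    Gd Xs (de e d + xx Cx σ s w X c j) (ob X c j) ∧
    (1 ≤ j → de e d + xx Cx σ s w X c j ≤ DD d (ob X c j) (ob X c (j - pp j)))

/-- large degree: all nets, weights and static maps -/
def Lg (A : ℝ) (R : (e : ℝ) → (d : ℕ) → (s : Finset ℂ) → (w : ℂ → ℝ) → (Xs : CV d) → Prop) : Prop :=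
  ∀ e : ℝ, 0 < e → e ≤ 1 / 4 → ∀ᶠ d : ℕ in atTop, ∀ (s : Finset ℂ) (w : ℂ → ℝ) (Xs : CV d),
    Wor A e d s w Xs → R e d s w Xs

/-- piece 1, the static stage -/
def WorStmt (A : ℝ) : Prop := ∀ e : ℝ, 0 < e → e ≤ 1 / 4 → ∀ᶠ d : ℕ in atTop, ∀ (s : Finset ℂ) (w : ℂ → ℝ)
  (P0 Q0 : ℂ[X]), Sep d s → Pool.Agent.H91.LD.Cov d s → Wgt d w → P0.natDegree ≤ d → Q0.natDegree ≤ d →
  (∀ z, wm d P0 z ≤ w z) → (∀ z, wm d Q0 z ≤ w z) →
  ∃ P Q : ℂ[X], P.natDegree ≤ d ∧ Q.natDegree ≤ d ∧ (∀ z, wm d (P - P0) z ≤ tt e d * w z) ∧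
    (∀ z, wm d (Q - Q0) z ≤ tt e d * w z) ∧ Wor A e d s w (cvp d P Q)

/-- piece 2, zero count, for one world -/
def CntB (C1 CN : ℝ) {d : ℕ} (s : Finset ℂ) (w : ℂ → ℝ) (Xs : CV d) : Prop :=
  ∀ X : CV d, Amp s w (C1 * hh d) (X - Xs) → ∀ b ∈ s, ∃ Z : Finset ℂ, (Z.card : ℝ) ≤ CN * LL d ∧
    ∀ u : ℂ, ‖u‖ ≤ 5 / 4 → Jc (Fb X b) u = 0 → u ∈ Z

/-- piece 2, zero count -/
def CntStmt (A : ℝ) : Prop := ∀ C1 : ℝ, 1 ≤ C1 → ∃ CN : ℝ, 1 ≤ CN ∧ Lg A fun _ _ s w Xs => CntB C1 CN s w Xs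

/-- piece 3, displacement of critical values, for one world -/
def CvdB (C1 CY e : ℝ) {d : ℕ} (s : Finset ℂ) (w : ℂ → ℝ) (Xs : CV d) : Prop :=
  ∀ (X Y : CV d) (σ : ℝ), 0 < σ → σ ≤ C1 * hh d → Amp s w (C1 * hh d) (X - Xs) → Amp s w (CY * σ) Y →
  ∀ b ∈ s, ∀ u' : ℂ, ‖u'‖ ≤ 1 / 3 → Jc (Fb (X + Y) b) u' = 0 →
  ∃ u : ℂ, ‖u - u'‖ ≤ be e d ^ 4 ∧ Jc (Fb X b) u = 0 ∧
    ‖chi (Fb X b u) (Fb (X + Y) b u') - ee (Fb X b u) (Fb Y b u)‖ ≤ be e d ^ 4 * σ * w b / nm (Fb X b u) ∧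
    ‖wd (Fb X b u) (Fb (X + Y) b u')‖ ≤ (2 * CY) * σ * w b * nm (Fb (X + Y) b u') ∧
    nm (Fb (X + Y) b u') ≤ (1 + be e d) * nm (Fb X b u) ∧ nm (Fb X b u) ≤ (1 + be e d) * nm (Fb (X + Y) b u')

/-- piece 3, displacement of critical values -/
def CvdStmt (A : ℝ) : Prop := ∀ C1 CY : ℝ, 1 ≤ C1 → 1 ≤ CY → Lg A fun e _ s w Xs => CvdB C1 CY e s w Xs

/-- piece 4, ONE (A): expansion at good points, for one world -/
def OneB (C1 e : ℝ) {d : ℕ} (s : Finset ℂ) (w : ℂ → ℝ) (Xs : CV d) : Prop :=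
  ∀ X : CV d, Amp s w (C1 * hh d) (X - Xs) → ∀ y, IsU y → Gd Xs (de e d) y → xl d ≤ ‖aa X y‖

/-- piece 4, ONE (A): expansion at good points -/
def OneStmt (A : ℝ) : Prop := ∀ C1 : ℝ, 1 ≤ C1 → Lg A fun e _ s w Xs => OneB C1 e s w Xs

/-- piece 4, RATIO, for one world -/
def RatB (C1 CY e : ℝ) {d : ℕ} (s : Finset ℂ) (w : ℂ → ℝ) (Xs : CV d) : Prop :=
  ∀ (X Y : CV d) (σ : ℝ), 0 < σ → σ ≤ C1 * hh d → Amp s w (C1 * hh d) (X - Xs) → Amp s w (CY * σ) Y →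
  ∀ (x : ℝ) (y y' : ℂ × ℂ), 0 < x → x ≤ rs e d → IsU y → IsU y' → Gd Xs (de e d + x) y → DD d y y' ≤ x / 2 →
    ‖aa (X + Y) y'‖ * x ≤ 2 * rs e d / be e d → ‖aa X y‖ ≤ 11 / 10 * ‖aa (X + Y) y'‖

/-- piece 4, RATIO -/
def RatStmt (A : ℝ) : Prop := ∀ C1 CY : ℝ, 1 ≤ C1 → 1 ≤ CY → Lg A fun e _ s w Xs => RatB C1 CY e s w Xs

/-- piece 4, TWO: orbits of perturbed maps, for one world -/
def TwoB (C1 CY CD e : ℝ) {d : ℕ} (s : Finset ℂ) (w : ℂ → ℝ) (Xs : CV d) : Prop :=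
  ∀ (X : CV d) (σ D0 : ℝ) (c : ℂ × ℂ) (J : ℕ), 0 < σ → σ ≤ C1 * hh d → Amp s w (C1 * hh d) (X - Xs) → IsU c →
  (∀ l < J, Gd Xs (de e d) (ob X c l)) → σ * √d ≤ CD * D0 → Ph X c J * D0 ≤ be e d →
  (∀ (Y : CV d) (c1 : ℂ × ℂ), Amp s w (CY * σ) Y → IsU c1 → DD d (ob (X + Y) c1 0) (ob X c 0) ≤ D0 → ∀ i ≤ J,
    DD d (ob (X + Y) c1 i) (ob X c i) ≤ 2 * Ph X c i * D0 ∧
    Ph (X + Y) c1 i ≤ (1 + be e d) * Ph X c i ∧ Ph X c i ≤ (1 + be e d) * Ph (X + Y) c1 i) ∧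
  (∀ (Y1 Y2 : CV d) (c1 c2 : ℂ × ℂ), Amp s w (CY * σ) Y1 → Amp s w (CY * σ) Y2 → IsU c1 → IsU c2 →
    DD d (ob (X + Y1) c1 0) (ob X c 0) ≤ D0 → DD d (ob (X + Y2) c2 0) (ob X c 0) ≤ D0 → ∀ i ≤ J,
    |DD d (ob (X + Y1) c1 i) (ob (X + Y2) c2 i) - Ph X c i * DD d (ob (X + Y1) c1 0) (ob (X + Y2) c2 0)| ≤
      be e d ^ 2 * Ph X c i * (DD d (ob (X + Y1) c1 0) (ob (X + Y2) c2 0) + σ * √d))

/-- piece 4, TWO: orbits of perturbed maps. `CD` is a given constant -/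
def TwoStmt (A : ℝ) : Prop := ∀ C1 CY CD : ℝ, 1 ≤ C1 → 1 ≤ CY → 1 ≤ CD → Lg A fun e _ s w Xs =>
  TwoB C1 CY CD e s w Xs

/-- piece 5: the sequence of maps -/
def StaStmt (A : ℝ) : Prop := ∃ C1 : ℝ, 1 ≤ C1 ∧ Lg A fun e d s w Xs =>
  ∃ X : ℕ → CV d, (∀ n, Amp s w (C1 * hh d) (X n - Xs)) ∧
    (∀ n, Amp s w (C1 * hh d * be e d ^ n) (X (n + 1) - X n)) ∧
    ∀ j, ∃ n0, ∀ n ≥ n0, ∀ c, IsU c → JJ (X n) c = 0 → Gd Xs (de e d) (ob (X n) c j) ∧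
      (1 ≤ j → de e d ≤ DD d (ob (X n) c j) (ob (X n) c (j - pp j)))

end Pool.Agent.H84.LG
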