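import Pool.Agent.H84.LG.Tgt

/-!
[H84 LG DIA]  POLYLOG RATE (copy of the module of SHARP RATE), piece 5: the targets and their diameter.

`IsJ .. c J`: `J` is the orbit index of `c` to be treated. `Tg .. b u τ`: the target of the critical point `pt d b u`,
`τ = some z`: the orbit point `J` of the new map is near `z`; `τ = none`: it is near the orbit point `J - pp J`. It is the set
of all `v` such that some perturbation `Y` (all cells arbitrary) and some unit vector `c'` with value near the old one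
have `chi` within `2 be^4 σ w/|F|` of `v` and the bad position.
* `IsJ_uniq`: both are the first index with `xx > rs`.
* `wd_nx`: `nx X c = (nm (FF X c))⁻¹ • FF X c` (`nx`, `nm`), `wd_smul_left`, `wd_smul_right`.
* `val_small`: by `wd_nx` the left side is `‖wd (nx ..) (nx ..)‖ nm nm`, and `‖wd (nx (X+Y) c') (nx X c)‖ ≤ D0/√d = 10^11 σ EE`,
  `σ ≤ 10^7 hh`, `EE ≤ 25000 w b/nm (Fb X b u)` (`EE_up`), `nm ≥ k1 tt/2 w b` (`nm_low`), so it is at most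
  `5 * 10^22 * hh / (k1 tt) ≤ 1/2` (`near2`; `1 = hh * √d`).
* `chi_nx`: `chi_dist`, `wd_nx`.
* `Tg_diam`. Let `v1, v2` be in the target, `(J, Y1, a1)`, `(J, Y2, a2)` the data (`IsJ_uniq`), `x = xx J`, `P = Ph X c J`,
  `Δ = DD (ob (X+Y1) a1 0) (ob (X+Y2) a2 0)`, `ρ = rh ≤ 5 be x` (`de = be^4 = be² rs ≤ be x`). `x = cX σ √d EE P`.
  `two2` (`i = J`): `P Δ ≤ DD_J + be² P (Δ + σ√d)`, `DD_J` = distance of the two orbit points `J`.
  `some z`: `DD_J ≤ 2ρ ≤ 10 be x` (`DD_tri`, `DD_comm`, `isU_ob`, `amp2`).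
  `none`: `i = J - pp J < J`, `DD_J ≤ 2ρ + DD_i`, `two2` for `i`: `DD_i ≤ Ph i (1 + be²) (Δ + σ√d)`, `Ph i ≤ be² P / 10`
  (`Ph_jump`). In both cases `DD_J ≤ 10 be x + be² P (Δ + σ√d)`, so (divide by `P > 0`, `be` tiny)
  `Δ ≤ 2 (10 be cX EE + 2 be²) σ √d ≤ (17 * 10^12 + 1) be EE σ √d` with `1 ≤ 10^7 EE`.
  `‖v1 - v2‖ ≤ 4 be^4 σ (w b/nm) + ‖chi1 - chi2‖`, `‖chi1 - chi2‖ ≤ 2 Δ/√d ≤ 4 * 10^13 be σ EE ≤ 10^18 be σ (w b/nm)`
  with `EE_up` (`4 * 10^13 * 25000 = 10^18`; use the slightly better `3.5 * 10^13 * 25000 < 9 * 10^17` to have room for the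
  first term).
-/

set_option autoImplicit false

open Polynomial ComplexConjugate Filter Topology

namespace Pool.Agent.H84.LG

open Pool.H70.SF Pool.Agent.H85.LD Pool.H91.SR Pool.Agent.H70.PL Pool.Agent.H47.SR

variable {d : ℕ}

/-- `J` is the orbit index to be treated -/
def IsJ (e σ : ℝ) (s : Finset ℂ) (w : ℂ → ℝ) (X : CV d) (c : ℂ × ℂ) (J : ℕ) : Prop :=
  (∀ i < J, xx cX σ s w X c i ≤ rs e d) ∧ rs e d < xx cX σ s w X c J ∧ xx cX σ s w X c J ≤ 3 * rs e d / be e d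

/-- radius of the targets -/
noncomputable def rh (e σ : ℝ) (s : Finset ℂ) (w : ℂ → ℝ) (X : CV d) (c : ℂ × ℂ) (J : ℕ) : ℝ :=
  de e d + 4 * be e d * xx cX σ s w X c J

/-- bad position of the orbit point `J` -/
def Cl (X' : CV d) (c' : ℂ × ℂ) (J : ℕ) (ρ : ℝ) : Option (ℂ × ℂ) → Prop
  | some z => IsU z ∧ DD d (ob X' c' J) z ≤ ρ
  | none => 1 ≤ J ∧ DD d (ob X' c' J) (ob X' c' (J - pp J)) ≤ ρ

/-- the target -/
def Tg (e σ : ℝ) (s : Finset ℂ) (w : ℂ → ℝ) (X : CV d) (b u : ℂ) (τ : Option (ℂ × ℂ)) : Set ℂ :=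
  {v | ∃ (J : ℕ) (Y : CV d) (c' : ℂ × ℂ), IsJ e σ s w X (pt d b u) J ∧ Amp s w (cY * σ) Y ∧ IsU c' ∧
    DD d (ob (X + Y) c' 0) (ob X (pt d b u) 0) ≤ D0 σ s w X (pt d b u) ∧
    ‖chi (FF X (pt d b u)) (FF (X + Y) c') - v‖ ≤ 2 * be e d ^ 4 * σ * (w b / nm (Fb X b u)) ∧
    Cl (X + Y) c' J (rh e σ s w X (pt d b u) J) τ}

variable {A e CN σ : ℝ} {s : Finset ℂ} {w : ℂ → ℝ} {Xs X : CV d}

theorem IsJ_uniq {c : ℂ × ℂ} {J J' : ℕ} (h : IsJ e σ s w X c J) (h' : IsJ e σ s w X c J') : J = J' := by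
  rcases lt_trichotomy J J' with h1 | h1 | h1
  · have h2 := h'.1 J h1
    have h3 := h.2.1
    linarith
  · exact h1
  · have h2 := h.1 J' h1
    have h3 := h'.2.1
    linarith

theorem wd_nx (X1 X2 : CV d) (c1 c2 : ℂ × ℂ) (h1 : 0 < nm (FF X1 c1)) (h2 : 0 < nm (FF X2 c2)) :
    ‖wd (nx X1 c1) (nx X2 c2)‖ = ‖wd (FF X1 c1) (FF X2 c2)‖ / (nm (FF X1 c1) * nm (FF X2 c2)) := by
  unfold nx
  rw [Pool.H26.SF.wd_smul_left, Pool.H26.SF.wd_smul_right, norm_mul, norm_mul, Complex.norm_real,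
    Complex.norm_real]
  have e1 : ∀ a : ℂ × ℂ, ‖(√(n2 a))⁻¹‖ = (nm a)⁻¹ := by
    intro a
    rw [Real.norm_of_nonneg (inv_nonneg.2 (Real.sqrt_nonneg _))]
    rfl
  rw [e1, e1]
  field_simp

theorem val_small (h : Stg A e CN σ s w Xs X) {b : ℂ} (hb : b ∈ s) {u : ℂ} (hu : ‖u‖ ≤ 1 / 2) {Y : CV d}
    (hY : Amp s w (cY * σ) Y) {c' : ℂ × ℂ} (hc' : IsU c')
    (hD : DD d (ob (X + Y) c' 0) (ob X (pt d b u) 0) ≤ D0 σ s w X (pt d b u)) :
    ‖wd (FF X (pt d b u)) (FF (X + Y) c')‖ ≤ 1 / 2 * (nm (FF X (pt d b u)) * nm (FF (X + Y) c')) := by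
  have hd1 := h.ctx.d1
  have hsd : (0 : ℝ) < √d := Real.sqrt_pos.2 (by exact_mod_cast hd1)
  have n1 : 0 < nm (FF X (pt d b u)) := nmFF_pos h.ctx (amp1 h) (pt_unit d b u)
  have n2' : 0 < nm (FF (X + Y) c') := nmFF_pos h.ctx (amp2 h hY) hc'
  have e1 := wd_nx (X + Y) X c' (pt d b u) n2' n1
  have h1 : ‖wd (nx (X + Y) c') (nx X (pt d b u))‖ ≤ 10 ^ 11 * σ * EE s w X (pt d b u) := by
    have h2 : √d * ‖wd (nx (X + Y) c') (nx X (pt d b u))‖ ≤ √d * (10 ^ 11 * σ * EE s w X (pt d b u)) := by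
      refine hD.trans (le_of_eq ?_)
      unfold D0 cX
      ring
    exact le_of_mul_le_mul_left h2 hsd
  have h2 := EE_up h.ctx (amp1 h) hb hu
  obtain ⟨h3, h4⟩ := nm_low h.ctx (amp1 h) hb (show ‖u‖ ≤ 2 by linarith)
  have hkt := h.ctx.kt
  have hwb := h.ctx.wor.wgt.pos b
  have h5 : w b / nm (Fb X b u) ≤ 2 / (k1 A e d * tt e d) := by
    rw [div_le_div_iff₀ h4 hkt]
    linarith
  have h6 : 10 ^ 11 * σ * EE s w X (pt d b u) ≤ 1 / 2 := by
    have hs1 := h.sle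
    unfold cS at hs1
    have hn2 := h.ctx.near2
    have hσ := h.spos
    have h7 : EE s w X (pt d b u) ≤ 25000 * (2 / (k1 A e d * tt e d)) := h2.trans (by linarith)
    have hh0 := hh_pos hd1
    calc 10 ^ 11 * σ * EE s w X (pt d b u)
        ≤ 10 ^ 11 * σ * (25000 * (2 / (k1 A e d * tt e d))) :=
          mul_le_mul_of_nonneg_left h7 (by positivity)
      _ ≤ 10 ^ 11 * (10 ^ 7 * hh d) * (25000 * (2 / (k1 A e d * tt e d))) := by
          refine mul_le_mul_of_nonneg_right ?_ (by positivity)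
          linarith
      _ = 5 * 10 ^ 22 * (hh d / (k1 A e d * tt e d)) := by ring
      _ ≤ 5 * 10 ^ 22 * (1 / 10 ^ 30) := by
          refine mul_le_mul_of_nonneg_left ?_ (by positivity)
          rw [div_le_div_iff₀ hkt (by norm_num)]
          linarith
      _ ≤ 1 / 2 := by norm_num
  rw [e1, div_le_iff₀ (mul_pos n2' n1)] at h1
  have e2 : ‖wd (FF X (pt d b u)) (FF (X + Y) c')‖ = ‖wd (FF (X + Y) c') (FF X (pt d b u))‖ :=
    Pool.Agent.H47.SF.wd_comm _ _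
  rw [e2]
  refine h1.trans ?_
  have h8 := mul_le_mul_of_nonneg_right h6 (mul_pos n2' n1).le
  linarith

theorem chi_nx (h : Stg A e CN σ s w Xs X) {b : ℂ} (hb : b ∈ s) {u : ℂ} (hu : ‖u‖ ≤ 1 / 2) {Y1 Y2 : CV d}
    (hY1 : Amp s w (cY * σ) Y1) (hY2 : Amp s w (cY * σ) Y2) {a1 a2 : ℂ × ℂ} (h1 : IsU a1) (h2 : IsU a2)
    (hD1 : DD d (ob (X + Y1) a1 0) (ob X (pt d b u) 0) ≤ D0 σ s w X (pt d b u))
    (hD2 : DD d (ob (X + Y2) a2 0) (ob X (pt d b u) 0) ≤ D0 σ s w X (pt d b u)) :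
    √d * ‖chi (FF X (pt d b u)) (FF (X + Y1) a1) - chi (FF X (pt d b u)) (FF (X + Y2) a2)‖ ≤
      2 * DD d (ob (X + Y1) a1 0) (ob (X + Y2) a2 0) := by
  have n0 : 0 < nm (FF X (pt d b u)) := nmFF_pos h.ctx (amp1 h) (pt_unit d b u)
  have n1 : 0 < nm (FF (X + Y1) a1) := nmFF_pos h.ctx (amp2 h hY1) h1
  have n2' : 0 < nm (FF (X + Y2) a2) := nmFF_pos h.ctx (amp2 h hY2) h2
  have e1 := chi_dist n0 n1 n2' (val_small h hb hu hY1 h1 hD1) (val_small h hb hu hY2 h2 hD2)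
  rw [← wd_nx (X + Y1) (X + Y2) a1 a2 n1 n2'] at e1
  have e2 := mul_le_mul_of_nonneg_left e1 (Real.sqrt_nonneg (d : ℝ))
  refine e2.trans (le_of_eq ?_)
  unfold DD
  show _ = 2 * (√d * ‖wd (nx (X + Y1) a1) (nx (X + Y2) a2)‖)
  ring

/-- the numerical end of the proof of `Tg_diam` -/
private theorem dia_num {b x P Δ E σd : ℝ} (hb : 0 < b) (hb1 : 10 ^ 30 * b ≤ 1) (hP : 0 < P) (hΔ : 0 ≤ Δ)
    (hE : 1 ≤ 10 ^ 7 * E) (hσ : 0 ≤ σd) (hx : x = 8 * 10 ^ 11 * σd * E * P)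
    (h : P * Δ ≤ 10 * b * x + b ^ 2 * P * (Δ + σd) + b ^ 2 * P * (Δ + σd)) :
    Δ ≤ 17 * 10 ^ 12 * b * E * σd := by
  have h1 : P * Δ ≤ P * (8 * 10 ^ 12 * b * E * σd + 2 * b ^ 2 * (Δ + σd)) := by
    refine h.trans (le_of_eq ?_)
    rw [hx]
    ring
  have h2 := le_of_mul_le_mul_left h1 hP
  have hb2 : 2 * b ^ 2 ≤ 1 / 2 := by
    have h3 : b ≤ 1 / 2 := by linarith
    nlinarith
  have hb3 : 2 * b ^ 2 * Δ ≤ 1 / 2 * Δ := mul_le_mul_of_nonneg_right hb2 hΔ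
  have hE0 : 0 < E := by
    by_contra h3
    rw [not_lt] at h3
    linarith
  have hb4 : 4 * b ^ 2 * σd ≤ b * E * σd := by
    refine mul_le_mul_of_nonneg_right ?_ hσ
    have h4 : 4 * b ≤ E := by
      have h5 : 4 * b ≤ 1 / 10 ^ 7 := by
        rw [le_div_iff₀ (by norm_num)]
        linarith
      have h6 : 1 / 10 ^ 7 ≤ E := by
        rw [div_le_iff₀ (by norm_num)]
        linarith
      linarith
    have h7 := mul_le_mul_of_nonneg_left h4 hb.le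
    calc 4 * b ^ 2 = b * (4 * b) := by ring
      _ ≤ b * E := h7
  have h8 : 0 ≤ b * E * σd := by positivity
  linarith

private theorem dia_ptl {x y z t : ℂ × ℂ} (hx : IsU x) (hy : IsU y) (hz : IsU z) (ht : IsU t) :
    DD d x t ≤ DD d x y + DD d y z + DD d z t := by
  have h1 := DD_tri (d := d) hx hy ht
  have h2 := DD_tri (d := d) hy hz ht
  linarith

theorem Tg_diam (h : Stg A e CN σ s w Xs X) {b : ℂ} (hb : b ∈ s) {u : ℂ} (hu : ‖u‖ ≤ 1 / 2)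
    (hc0 : JJ X (pt d b u) = 0) (τ : Option (ℂ × ℂ)) {v1 v2 : ℂ} (h1 : v1 ∈ Tg e σ s w X b u τ)
    (h2 : v2 ∈ Tg e σ s w X b u τ) : ‖v1 - v2‖ ≤ 10 ^ 18 * be e d * (σ * (w b / nm (Fb X b u))) := by
  obtain ⟨J, Y1, a1, j1, hY1, ha1, hD1, hv1, hC1⟩ := h1
  obtain ⟨J', Y2, a2, j2, hY2, ha2, hD2, hv2, hC2⟩ := h2
  obtain rfl := IsJ_uniq j1 j2
  have hc : IsU (pt d b u) := pt_unit d b u
  have hchi := chi_nx h hb hu hY1 hY2 ha1 ha2 hD1 hD2
  set c := pt d b u with hcdef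
  obtain ⟨hJ1, hJ2, hJ3⟩ := j1
  have hsd : (0 : ℝ) < √d := Real.sqrt_pos.2 (by exact_mod_cast h.ctx.d1)
  have hb0 := h.ctx.bpos
  have hbsm := h.ctx.bsm
  have hb1 : be e d ≤ 1 := by nlinarith
  have hσ := h.spos
  obtain ⟨x, hx⟩ : ∃ x, x = xx cX σ s w X c J := ⟨_, rfl⟩
  obtain ⟨P, hP⟩ : ∃ P, P = Ph X c J := ⟨_, rfl⟩
  obtain ⟨Δ, hΔ⟩ : ∃ Δ, Δ = DD d (ob (X + Y1) a1 0) (ob (X + Y2) a2 0) := ⟨_, rfl⟩
  have hP0 : 0 < P := by
    rw [hP]
    exact Ph_pos h hc hc0 hJ1 le_rfl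
  have hΔ0 : 0 ≤ Δ := by
    rw [hΔ]
    exact DD_nonneg _ _
  have hxe : x = 8 * 10 ^ 11 * (σ * √d) * EE s w X c * P := by
    rw [hx, hP]
    unfold xx cX
    ring
  have hx0 : 0 < x := by
    rw [hx]
    exact xx_pos h hc hc0 hJ1 le_rfl
  have hρ : rh e σ s w X c J ≤ 5 * be e d * x := by
    unfold rh de
    rw [← hx]
    rw [← hx] at hJ2
    unfold rs at hJ2
    have h3 : be e d ^ 4 ≤ be e d * x := by
      calc be e d ^ 4 = be e d * (be e d * be e d ^ 2) := by ring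
        _ ≤ be e d * (1 * be e d ^ 2) :=
            mul_le_mul_of_nonneg_left (mul_le_mul_of_nonneg_right hb1 (by positivity)) hb0.le
        _ ≤ be e d * x := mul_le_mul_of_nonneg_left (by linarith) hb0.le
    linarith
  have hU1 : ∀ i, IsU (ob (X + Y1) a1 i) := fun i => isU_ob h.ctx (amp2 h hY1) ha1 i
  have hU2 : ∀ i, IsU (ob (X + Y2) a2 i) := fun i => isU_ob h.ctx (amp2 h hY2) ha2 i
  have htJ := two2 h hc hc0 hJ1 hJ3 hY1 hY2 ha1 ha2 hD1 hD2 (le_refl J)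
  rw [← hP, ← hΔ] at htJ
  have htJ1 := (abs_le.1 htJ).1
  have hDJ : DD d (ob (X + Y1) a1 J) (ob (X + Y2) a2 J) ≤ 10 * be e d * x + be e d ^ 2 * P * (Δ + σ * √d) := by
    have hpos : 0 ≤ be e d ^ 2 * P * (Δ + σ * √d) := by positivity
    cases τ with
    | some z =>
      obtain ⟨hz, hz1⟩ := hC1
      obtain ⟨-, hz2⟩ := hC2
      have h3 := DD_tri (d := d) (hU1 J) hz (hU2 J)
      rw [DD_comm z] at h3
      linarith
    | none =>
      obtain ⟨hJ0, hz1⟩ := hC1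
      obtain ⟨-, hz2⟩ := hC2
      have hpp : 1 ≤ pp J := le_max_left _ _
      have hi : J - pp J < J := by omega
      have hti := two2 h hc hc0 hJ1 hJ3 hY1 hY2 ha1 ha2 hD1 hD2 hi.le
      rw [← hΔ] at hti
      have hti2 := (abs_le.1 hti).2
      have hjump := Ph_jump h hc hc0 hJ1 hi (le_refl J)
      rw [← hP] at hjump
      have hPi := Ph_nn X c (J - pp J)
      have h3 := dia_ptl (d := d) (hU1 J) (hU1 (J - pp J)) (hU2 (J - pp J)) (hU2 J)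
      rw [DD_comm (ob (X + Y2) a2 (J - pp J)) (ob (X + Y2) a2 J)] at h3
      have h4 : DD d (ob (X + Y1) a1 (J - pp J)) (ob (X + Y2) a2 (J - pp J)) ≤
          be e d ^ 2 * P * (Δ + σ * √d) := by
        have h5 : 0 ≤ σ * √d := by positivity
        have h6 : DD d (ob (X + Y1) a1 (J - pp J)) (ob (X + Y2) a2 (J - pp J)) ≤
            Ph X c (J - pp J) * (2 * (Δ + σ * √d)) := by
          have h7 : be e d ^ 2 * Ph X c (J - pp J) * (Δ + σ * √d) ≤ 1 * Ph X c (J - pp J) * (Δ + σ * √d) := by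
            refine mul_le_mul_of_nonneg_right (mul_le_mul_of_nonneg_right ?_ hPi) (by linarith)
            exact pow_le_one₀ hb0.le hb1
          have h8 : 0 ≤ Ph X c (J - pp J) * (σ * √d) := mul_nonneg hPi h5
          have e3 : Ph X c (J - pp J) * (2 * (Δ + σ * √d)) = Ph X c (J - pp J) * Δ +
            1 * Ph X c (J - pp J) * (Δ + σ * √d) + Ph X c (J - pp J) * (σ * √d) := by ring
          rw [e3]
          linarith
        refine h6.trans ?_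
        have h9 : Ph X c (J - pp J) ≤ be e d ^ 2 * P / 10 := by linarith
        calc Ph X c (J - pp J) * (2 * (Δ + σ * √d)) ≤ be e d ^ 2 * P / 10 * (2 * (Δ + σ * √d)) :=
              mul_le_mul_of_nonneg_right h9 (by positivity)
          _ = 1 / 5 * (be e d ^ 2 * P * (Δ + σ * √d)) := by ring
          _ ≤ be e d ^ 2 * P * (Δ + σ * √d) := by linarith
      linarith
  have hE := EE_one h.ctx (amp1 h) hc
  have hΔ1 : Δ ≤ 17 * 10 ^ 12 * be e d * EE s w X c * (σ * √d) := by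
    refine dia_num hb0 hbsm hP0 hΔ0 hE (by positivity) hxe ?_
    linarith
  have hchi2 : ‖chi (FF X c) (FF (X + Y1) a1) - chi (FF X c) (FF (X + Y2) a2)‖ ≤
      34 * 10 ^ 12 * be e d * EE s w X c * σ := by
    rw [← hΔ] at hchi
    have h3 : √d * ‖chi (FF X c) (FF (X + Y1) a1) - chi (FF X c) (FF (X + Y2) a2)‖ ≤
        √d * (34 * 10 ^ 12 * be e d * EE s w X c * σ) := by
      refine hchi.trans ?_
      linarith
    exact le_of_mul_le_mul_left h3 hsd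
  have hEu := EE_up h.ctx (amp1 h) hb hu
  obtain ⟨-, hnm⟩ := nm_low h.ctx (amp1 h) hb (show ‖u‖ ≤ 2 by linarith)
  have hwb := h.ctx.wor.wgt.pos b
  obtain ⟨W, hW⟩ : ∃ W, W = w b / nm (Fb X b u) := ⟨_, rfl⟩
  have hW0 : 0 < W := by
    rw [hW]
    positivity
  rw [← hW] at hEu hv1 hv2 ⊢
  have hchi3 : ‖chi (FF X c) (FF (X + Y1) a1) - chi (FF X c) (FF (X + Y2) a2)‖ ≤
      85 * 10 ^ 16 * be e d * (σ * W) := by
    refine hchi2.trans ?_
    have h3 : 34 * 10 ^ 12 * be e d * σ * EE s w X c ≤ 34 * 10 ^ 12 * be e d * σ * (25000 * W) :=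
      mul_le_mul_of_nonneg_left hEu (by positivity)
    linarith
  have hb4 : be e d ^ 4 ≤ be e d := by
    calc be e d ^ 4 ≤ be e d ^ 1 := pow_le_pow_of_le_one hb0.le hb1 (by norm_num)
      _ = be e d := pow_one _
  have hfin : 4 * be e d ^ 4 * σ * W ≤ 4 * be e d * σ * W := by
    refine mul_le_mul_of_nonneg_right (mul_le_mul_of_nonneg_right ?_ hσ.le) hW0.le
    linarith
  have htri : ‖v1 - v2‖ ≤ ‖chi (FF X c) (FF (X + Y1) a1) - v1‖ +
      ‖chi (FF X c) (FF (X + Y1) a1) - chi (FF X c) (FF (X + Y2) a2)‖ + ‖chi (FF X c) (FF (X + Y2) a2) - v2‖ := by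
    have e4 : v1 - v2 = -(chi (FF X c) (FF (X + Y1) a1) - v1) +
      (chi (FF X c) (FF (X + Y1) a1) - chi (FF X c) (FF (X + Y2) a2)) + (chi (FF X c) (FF (X + Y2) a2) - v2) := by
      ring
    rw [e4]
    refine (norm_add_le _ _).trans (add_le_add ((norm_add_le _ _).trans ?_) le_rfl)
    rw [norm_neg]
  have hlast : 0 ≤ be e d * (σ * W) := by positivity
  have e5 : 4 * be e d * σ * W = 4 * (be e d * (σ * W)) := by ring
  have e6 : 85 * 10 ^ 16 * be e d * (σ * W) = 85 * 10 ^ 16 * (be e d * (σ * W)) := by ring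
  have e7 : 10 ^ 18 * be e d * (σ * W) = 10 ^ 18 * (be e d * (σ * W)) := by ring
  rw [e6] at hchi3
  rw [e5] at hfin
  rw [e7]
  linarith

end Pool.Agent.H84.LG
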