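import Pool.Agent.H47.SR.Nea
import Pool.Agent.H47.SR.Rec
import Pool.Agent.H84.LG.CPlb
import Pool.Agent.H84.LG.CPlc
import Pool.Agent.H70.PL.Nex
import Pool.Agent.H70.PL.Ncm2

/-!
POLYLOG RATE (copy of `H47/SR/One` with the constants of `H84/LG`) (MP_8f2e1c_an), piece 4 in homogeneous coordinates: ONE (A), (B), (C) and RATIO (D).

`Sys`: all the data of the static map `Xs` (in all charts). `Clo sg s w X X1`: `X1` is at distance `sg w` of `X` in all charts.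
`Far R Xs y`: all critical points of `Xs` have cell distance at least `R` from `y`. `K4`: the relations between the constants used
in piece 4 (all true for large `d`), `θ` is the relative error.
-/

set_option autoImplicit false

open Finset
open Pool.H70.SF Pool.H91.SR Pool.Agent.H85.LD Pool.Agent.H91.LD

namespace Pool.Agent.H84.LG.FO

open Pool.Agent.H47.SR

/-- all the data of the static map -/
structure Sys (M A L t τ q q1 qn k1 k2 kap : ℝ) (d : ℕ) (s : Finset ℂ) (w : ℂ → ℝ) (Xs : CV d) : Prop where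
  d1 : 1 ≤ d
  M1 : 1 ≤ M
  A1 : 100 * M ≤ A
  kon : Pool.Agent.H84.LG.PL.Kog A L t τ q q1 qn k1 k2 kap
  cov : Cov d s
  wp : ∀ b ∈ s, 0 < w b
  sta : ∀ b ∈ s, Pool.Agent.H70.PL.Sta M (w b) t k1 k2 qn (Fb Xs b)

/-- distance of two maps, relative to the weight, in all charts -/
def Clo {d : ℕ} (sg : ℝ) (s : Finset ℂ) (w : ℂ → ℝ) (X X1 : CV d) : Prop :=
  ∀ b ∈ s, ∀ v, ‖v‖ ≤ 3 → Pool.Agent.H70.PL.nm (Fb X1 b v - Fb X b v) ≤ sg * w b

/-- far from the critical points of the static map -/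
def Far {d : ℕ} (R : ℝ) (Xs : CV d) (y : ℂ × ℂ) : Prop := ∀ z, IsU z → JJ Xs z = 0 → R ≤ √d * ‖wd y z‖

/-- relations between the constants -/
structure K4 (M L t τ q k1 kap R θ : ℝ) (d : ℕ) : Prop where
  R0 : 0 < R
  qR : q ≤ R / 2
  R1 : R ≤ 1 / 4
  L1 : 1 ≤ L
  θ0 : 0 < θ
  θ1 : θ ≤ 1 / 100
  kt : 0 < kap * t
  kk : kap ≤ k1
  big : 1000000 * M ^ 3 * (L / R + 1) ≤ θ * (√d * (kap * t))
  τs : 1000000 * M ^ 2 * τ ≤ θ * (kap * t)

variable {M A L t τ q q1 qn k1 k2 kap : ℝ} {d : ℕ} {s : Finset ℂ} {w : ℂ → ℝ} {Xs : CV d}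

theorem Sys.tpos (H : Sys M A L t τ q q1 qn k1 k2 kap d s w Xs) : 0 < t :=
  (Real.exp_pos _).trans_le H.kon.tL

theorem Sys.k1pos (H : Sys M A L t τ q q1 qn k1 k2 kap d s w Xs) : 0 < k1 :=
  (Real.exp_pos _).trans_le H.kon.k1L

theorem Sys.nm_pos (H : Sys M A L t τ q q1 qn k1 k2 kap d s w Xs) {b : ℂ} (hb : b ∈ s) {u : ℂ} (hu : ‖u‖ ≤ 2) :
    0 < Pool.Agent.H70.PL.nm (Fb Xs b u) := by
  have h1 := (H.sta b hb).low u hu
  have h2 := H.tpos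
  have h3 := H.k1pos
  have h4 := H.wp b hb
  exact lt_of_lt_of_le (by positivity) h1

theorem Clo.per {τ : ℝ} {X : CV d} (h : Clo τ s w Xs X) {b : ℂ} (hb : b ∈ s) :
    Pool.Agent.H70.PL.Per τ (w b) (Fb Xs b) (Fb X b) :=
  ⟨Fb_diff X b, fun u hu => h b hb u hu⟩

/-- the map does not vanish -/
theorem Sys.nm_posX (H : Sys M A L t τ q q1 qn k1 k2 kap d s w Xs) {X : CV d} (hX : Clo τ s w Xs X)
    {b : ℂ} (hb : b ∈ s) {u : ℂ} (hu : ‖u‖ ≤ 2) : 0 < Pool.Agent.H70.PL.nm (Fb X b u) := by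
  have h1 := (H.sta b hb).low u hu
  have h2 := H.tpos
  have h3 := H.k1pos
  have h4 := H.wp b hb
  have h5 := hX b hb u (by linarith)
  have h6 := Pool.Agent.H70.PL.nm_rev (Fb Xs b u) (Fb X b u)
  rw [Pool.Agent.H70.PL.nm_sub_comm] at h6
  have h7 : 0 < k1 * t * w b := by positivity
  have h8 : τ ≤ k1 * t / 100 := by
    have e1 := H.kon.τk
    have e9 : kap ≤ 1 := by
      have := (H.kon.fac H.M1 H.A1).2.2.2.2.2.2.2.2.2.1
      linarith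
    have e8 : 100 ≤ A := by linarith [H.A1, H.M1]
    have e10 := H.kon.τ0
    have e11 : A * τ ≤ k1 * t := by
      have : kap * k1 * t ≤ 1 * (k1 * t) := by
        rw [mul_assoc]
        exact mul_le_mul_of_nonneg_right e9 (by positivity)
      linarith
    have e12 : 100 * τ ≤ A * τ := mul_le_mul_of_nonneg_right e8 e10
    linarith
  have h9 : τ * w b ≤ k1 * t / 100 * w b := mul_le_mul_of_nonneg_right h8 h4.le
  nlinarith

/-- the image of a unit vector is a unit vector -/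
theorem Sys.nx_unit (H : Sys M A L t τ q q1 qn k1 k2 kap d s w Xs) {X : CV d} (hX : Clo τ s w Xs X)
    {y : ℂ × ℂ} (hy : IsU y) : IsU (nx X y) := by
  obtain ⟨b, hb, u, z, hu, hz, rfl⟩ := exists_pt H.d1 H.cov hy
  apply Pool.Agent.H47.SF.nx_isU
  rw [Pool.Agent.H47.SF.nuF_smul, hz, one_pow, one_mul]
  show 0 < Pool.Agent.H70.PL.nm (FF X (pt d b u))
  rw [nm_FF_pt]
  have := H.nm_posX hX hb (u := u) (by linarith)
  positivity

/-- zero free disc of the static Jacobian -/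
theorem Far.zf (hd : 1 ≤ d) {R : ℝ} {b u z : ℂ} {y : ℂ × ℂ} (hz : ‖z‖ = 1) (hy : y = z • pt d b u) (hF : Far R Xs y) :
    ∀ v, ‖v - u‖ < R → Pool.Agent.H70.PL.Jc (Fb Xs b) v ≠ 0 := by
  intro v hv h0
  have h1 := hF (pt d b v) (pt_unit d b v) ((JJ_pt_iff hd Xs b v).2 h0)
  rw [hy, Pool.H26.SF.wd_smul_left, norm_mul, hz, one_mul, wd_pt d hd] at h1
  have h2 : ‖u - v‖ / (√(1 + ‖u‖ ^ 2 / d) * √(1 + ‖v‖ ^ 2 / d)) ≤ ‖u - v‖ := by
    refine div_le_self (norm_nonneg _) ?_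
    have e1 : 1 ≤ √(1 + ‖u‖ ^ 2 / d) := Real.one_le_sqrt.2 (by
      have : 0 ≤ ‖u‖ ^ 2 / d := by positivity
      linarith)
    have e2 : 1 ≤ √(1 + ‖v‖ ^ 2 / d) := Real.one_le_sqrt.2 (by
      have : 0 ≤ ‖v‖ ^ 2 / d := by positivity
      linarith)
    nlinarith
  rw [norm_sub_rev] at hv
  linarith

theorem Far.mono {R R' : ℝ} {y : ℂ × ℂ} (h : Far R Xs y) (hR : R' ≤ R) : Far R' Xs y :=
  fun z hz h0 => le_trans hR (h z hz h0)

theorem Far.near {R x : ℝ} {y y' : ℂ × ℂ} (h : Far (R + x) Xs y) (hy : IsU y) (hy' : IsU y')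
    (hD : √d * ‖wd y y'‖ ≤ x) : Far R Xs y' := by
  intro z hz h0
  have h1 := h z hz h0
  have h2 := mul_le_mul_of_nonneg_left (Pool.Agent.H47.SF.tri hy hy' hz) (Real.sqrt_nonneg (d : ℝ))
  rw [mul_add] at h2
  linarith

/-- (A) -/
theorem one_A (H : Sys M A L t τ q q1 qn k1 k2 kap d s w Xs) {X : CV d} (hX : Clo τ s w Xs X) {R θ : ℝ}
    (K : K4 M L t τ q k1 kap R θ d) {b u z : ℂ} {y : ℂ × ℂ} {S : ℝ} (hb : b ∈ s) (hu : ‖u‖ ≤ 1) (hz : ‖z‖ = 1)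
    (hy : y = z • pt d b u) (hS : Pool.Agent.H70.PL.Nsc (Fb Xs b) u S) (hF : Far R Xs y) :
    √d * (kap * t) / (3 * M) ≤ ‖aa X y‖ * S := by
  have h1 := (Pool.Agent.H84.LG.CV.plA M A L t τ q q1 qn k1 k2 kap (w b) H.M1 H.A1 (H.wp b hb) H.kon (Fb Xs b) (Fb X b)
    (H.sta b hb) (hX.per hb) u hu S hS R K.qR K.R1 (hF.zf H.d1 hz hy)).2.1
  rw [hy, aa_phase X hz, aa_ptX H.d1]
  have h2 : (1 : ℝ) ≤ 1 + ‖u‖ ^ 2 / d := by
    have : 0 ≤ ‖u‖ ^ 2 / d := by positivity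
    linarith
  have hS0 := hS.1
  have h3 : √d * (kap * t) / (3 * M) = √d * (kap * t / (3 * M)) := by ring
  rw [h3]
  calc √d * (kap * t / (3 * M)) ≤ √d * (‖Pool.Agent.H70.PL.Jc (Fb X b) u‖ / Pool.Agent.H70.PL.nm (Fb X b u) ^ 2 * S) :=
        mul_le_mul_of_nonneg_left h1 (Real.sqrt_nonneg _)
    _ = √d * (‖Pool.Agent.H70.PL.Jc (Fb X b) u‖ / Pool.Agent.H70.PL.nm (Fb X b u) ^ 2) * 1 * S := by ring
    _ ≤ √d * (‖Pool.Agent.H70.PL.Jc (Fb X b) u‖ / Pool.Agent.H70.PL.nm (Fb X b u) ^ 2) * (1 + ‖u‖ ^ 2 / d) * S := by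
        refine mul_le_mul_of_nonneg_right ?_ hS0.le
        refine mul_le_mul_of_nonneg_left h2 ?_
        positivity

/-- (A) without the natural scale -/
theorem one_A' (H : Sys M A L t τ q q1 qn k1 k2 kap d s w Xs) {X : CV d} (hX : Clo τ s w Xs X) {R θ : ℝ}
    (K : K4 M L t τ q k1 kap R θ d) {y : ℂ × ℂ} (hyU : IsU y) (hF : Far R Xs y) :
    √d * (kap * t) / (3 * M) ≤ ‖aa X y‖ := by
  obtain ⟨b, hb, u, z, hu, hz, hy⟩ := exists_pt H.d1 H.cov hyU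
  obtain ⟨S, hS⟩ := Pool.Agent.H70.PL.nsc_ex (Fb_diff Xs b).continuous u (H.nm_pos hb (by linarith))
  have h1 := one_A H hX K hb (by linarith) hz hy hS hF
  have h2 := hS.2.1
  have h3 := hS.1
  nlinarith [norm_nonneg (aa X y)]

/-- (B) -/
theorem one_B (H : Sys M A L t τ q q1 qn k1 k2 kap d s w Xs) {X X1 X2 : CV d} (hX : Clo τ s w Xs X)
    {sg : ℝ} (hs0 : 0 ≤ sg) (hsτ : sg ≤ τ)
    (h1 : Clo sg s w X X1) (h2 : Clo sg s w X X2) {R θ : ℝ} (K : K4 M L t τ q k1 kap R θ d)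
    {b u z : ℂ} {y : ℂ × ℂ} {S : ℝ} (hb : b ∈ s) (hu : ‖u‖ ≤ 1 / 3) (hz : ‖z‖ = 1)
    (hy : y = z • pt d b u) (hS : Pool.Agent.H70.PL.Nsc (Fb Xs b) u S) (hF : Far R Xs y) {y1 y2 : ℂ × ℂ}
    (hy1 : IsU y1) (hy2 : IsU y2) {e : ℝ} (he : 0 ≤ e) (heR : 6000 * M ^ 2 * L * e ≤ R) (heS : 300 * e ≤ S)
    (hD1 : √d * ‖wd y y1‖ ≤ e) (hD2 : √d * ‖wd y y2‖ ≤ e) :
    |√d * ‖wd (nx X1 y1) (nx X2 y2)‖ - ‖aa X y‖ * (√d * ‖wd y1 y2‖)| ≤
      ‖aa X y‖ * (4000 * M ^ 2 * (e * (L / R + 1 / S)) * (√d * ‖wd y1 y2‖) + 30 * (sg / (kap * t))) := by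
  have hS0 := hS.1
  have hS1 := hS.2.1
  have hM := H.M1
  have he4 : e ≤ 1 / 150 := by linarith
  obtain ⟨u1, z1, g1, g2, g3, g4, _⟩ := chart_near H.d1 hu hz hy hy1 (by linarith)
  obtain ⟨u2, z2, l1, l2, l3, l4, _⟩ := chart_near H.d1 hu hz hy hy2 (by linarith)
  have hB := Pool.Agent.H84.LG.CV.plB M A L t τ q q1 qn k1 k2 kap (w b) H.M1 H.A1 (H.wp b hb) H.kon (Fb Xs b) (Fb X b)
    (Fb X1 b) (Fb X2 b) (H.sta b hb) (hX.per hb) u (by linarith) S hS R K.qR K.R1 (hF.zf H.d1 hz hy) sg hs0 hsτ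
    (fun v hv => h1 b hb v hv) (fun v hv => h2 b hb v hv) (3 / 2 * e) (by linarith) (by linarith) (by linarith)
    u1 u2 (by linarith) (by linarith)
  have hkt := K.kt
  have hR0 := K.R0
  have hL1 := K.L1
  have hσ : 0 ≤ sg / (kap * t) := div_nonneg hs0 hkt.le
  have hLR : 0 ≤ L / R := div_nonneg (by linarith) hR0.le
  have hη0 : 0 ≤ 1000 * M ^ 2 * (3 / 2 * e * (L / R + 1 / S)) := by positivity
  have hT := trB H.d1 X X1 X2 (by linarith) g3 l3 (e := 3 / 2 * e) (by linarith) (by linarith) (by linarith) hη0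
    (by positivity) hB
  have e1 : ‖wd (nx X1 y1) (nx X2 y2)‖ = ‖wd (nx X1 (pt d b u1)) (nx X2 (pt d b u2))‖ := by
    rw [g2, l2, nx_phase X1 g1, nx_phase X2 l1]
    exact wd_phase (by rw [norm_pow, g1, one_pow]) (by rw [norm_pow, l1, one_pow]) _ _
  have e2 : ‖wd y1 y2‖ = ‖wd (pt d b u1) (pt d b u2)‖ := by
    rw [g2, l2]
    exact wd_phase g1 l1 _ _
  have e3 : ‖aa X y‖ = ‖aa X (pt d b u)‖ := by
    rw [hy, aa_phase X hz]
  rw [e1, e2, e3]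
  refine le_trans hT ?_
  refine mul_le_mul_of_nonneg_left ?_ (norm_nonneg _)
  have hD0 : 0 ≤ √d * ‖wd (pt d b u1) (pt d b u2)‖ := by positivity
  have hM2 : 1 ≤ M ^ 2 := by nlinarith
  refine add_le_add (mul_le_mul_of_nonneg_right ?_ hD0) ?_
  · have hx : e ≤ e * (L / R + 1 / S) := by
      have : 1 ≤ 1 / S := by rw [le_div_iff₀ hS0]; linarith
      nlinarith
    have hx0 : 0 ≤ e * (L / R + 1 / S) := le_trans he hx
    have hx2 : e ≤ M ^ 2 * (e * (L / R + 1 / S)) := by nlinarith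
    have e5 : 2 * (1000 * M ^ 2 * (3 / 2 * e * (L / R + 1 / S))) + 2 * (3 / 2 * e) =
      3000 * (M ^ 2 * (e * (L / R + 1 / S))) + 3 * e := by ring
    rw [e5]
    have e6 : 4000 * M ^ 2 * (e * (L / R + 1 / S)) = 4000 * (M ^ 2 * (e * (L / R + 1 / S))) := by ring
    rw [e6]
    have hx4 : 0 ≤ M ^ 2 * (e * (L / R + 1 / S)) := by positivity
    linarith
  · linarith

/-- (C) -/
theorem one_C (H : Sys M A L t τ q q1 qn k1 k2 kap d s w Xs) {X X1 : CV d} (hX : Clo τ s w Xs X)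
    {sg : ℝ} (hs0 : 0 ≤ sg) (hsτ : sg ≤ τ)
    (h1 : Clo sg s w X X1) {R θ : ℝ} (K : K4 M L t τ q k1 kap R θ d)
    {b u z : ℂ} {y : ℂ × ℂ} {S : ℝ} (hb : b ∈ s) (hu : ‖u‖ ≤ 1 / 3) (hz : ‖z‖ = 1)
    (hy : y = z • pt d b u) (hS : Pool.Agent.H70.PL.Nsc (Fb Xs b) u S) (hF : Far R Xs y) {y1 : ℂ × ℂ}
    (hy1 : IsU y1) {e : ℝ} (he : 0 ≤ e) (heR : 6000 * M ^ 2 * L * e ≤ R) (heS : 300 * e ≤ S)
    (hD1 : √d * ‖wd y y1‖ ≤ e) :
    (1 - 4000 * M ^ 2 * (e * (L / R + 1 / S) + sg / (kap * t))) * ‖aa X y‖ ≤ ‖aa X1 y1‖ ∧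
      ‖aa X1 y1‖ ≤ (1 + 4000 * M ^ 2 * (e * (L / R + 1 / S) + sg / (kap * t))) * ‖aa X y‖ := by
  have hS0 := hS.1
  have hS1 := hS.2.1
  have hM := H.M1
  have he4 : e ≤ 1 / 150 := by linarith
  obtain ⟨u1, z1, g1, g2, g3, g4, _⟩ := chart_near H.d1 hu hz hy hy1 (by linarith)
  have hC := Pool.Agent.H84.LG.CV.plC M A L t τ q q1 qn k1 k2 kap (w b) H.M1 H.A1 (H.wp b hb) H.kon K.kk (Fb Xs b)
    (Fb X b) (Fb X1 b) (H.sta b hb) (hX.per hb) (Fb_diff X1 b) u (by linarith) S hS R K.qR K.R1 (hF.zf H.d1 hz hy) sg hs0 hsτ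
    (fun v hv => h1 b hb v hv) (3 / 2 * e) (by linarith) (by linarith) (by linarith) u1 (by linarith)
  have hkt := K.kt
  have hR0 := K.R0
  have hL1 := K.L1
  have hσ : 0 ≤ sg / (kap * t) := div_nonneg hs0 hkt.le
  have hLR : 0 ≤ L / R := div_nonneg (by linarith) hR0.le
  have hη0 : 0 ≤ 1000 * M ^ 2 * (3 / 2 * e * (L / R + 1 / S) + sg / (kap * t)) := by positivity
  have hT := trC H.d1 X X1 (by linarith) g3 (e := 3 / 2 * e) (by linarith) (by linarith) hη0 hC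
  have e2 : ‖aa X1 y1‖ = ‖aa X1 (pt d b u1)‖ := by
    rw [g2, aa_phase X1 g1]
  have e3 : ‖aa X y‖ = ‖aa X (pt d b u)‖ := by
    rw [hy, aa_phase X hz]
  rw [e2, e3]
  have hM2 : 1 ≤ M ^ 2 := by nlinarith
  have key : 2 * (1000 * M ^ 2 * (3 / 2 * e * (L / R + 1 / S) + sg / (kap * t))) + 2 * (3 / 2 * e) ≤
      4000 * M ^ 2 * (e * (L / R + 1 / S) + sg / (kap * t)) := by
    have hx : e ≤ e * (L / R + 1 / S) := by
      have : 1 ≤ 1 / S := by rw [le_div_iff₀ hS0]; linarith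
      nlinarith
    have hx0 : 0 ≤ e * (L / R + 1 / S) := le_trans he hx
    have hx2 : e ≤ M ^ 2 * (e * (L / R + 1 / S)) := by nlinarith
    have hx3 : 0 ≤ M ^ 2 * (sg / (kap * t)) := by positivity
    have e5 : 2 * (1000 * M ^ 2 * (3 / 2 * e * (L / R + 1 / S) + sg / (kap * t))) + 2 * (3 / 2 * e) =
      3000 * (M ^ 2 * (e * (L / R + 1 / S))) + 2000 * (M ^ 2 * (sg / (kap * t))) + 3 * e := by ring
    rw [e5]
    have e6 : 4000 * M ^ 2 * (e * (L / R + 1 / S) + sg / (kap * t)) =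
      4000 * (M ^ 2 * (e * (L / R + 1 / S))) + 4000 * (M ^ 2 * (sg / (kap * t))) := by ring
    rw [e6]
    have hx4 : 0 ≤ M ^ 2 * (e * (L / R + 1 / S)) := by positivity
    linarith
  constructor
  · refine le_trans (mul_le_mul_of_nonneg_right ?_ (norm_nonneg _)) hT.1
    linarith
  · refine le_trans hT.2 (mul_le_mul_of_nonneg_right ?_ (norm_nonneg _))
    linarith

end Pool.Agent.H84.LG.FO
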