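import Pool.Agent.H84.LG.FOne

/-!
POLYLOG RATE (copy of `H47/SR/Two` with the constants of `H84/LG`) (MP_8f2e1c_an), piece 4 in homogeneous coordinates: RATIO (D) and TWO.
-/

set_option autoImplicit false

open Finset
open Pool.H70.SF Pool.H91.SR Pool.Agent.H85.LD Pool.Agent.H91.LD

namespace Pool.Agent.H84.LG.FO

open Pool.Agent.H47.SR

variable {M A L t τ q q1 qn k1 k2 kap : ℝ} {d : ℕ} {s : Finset ℂ} {w : ℂ → ℝ} {Xs : CV d}

/-- the expansion bound is large -/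
theorem K4.lam {R θ : ℝ} (K : K4 M L t τ q k1 kap R θ d) (hM : 1 ≤ M) :
    30000000 * M ^ 2 * (L / R + 1) ≤ √d * (kap * t) / (3 * M) ∧ 100000000 * M ^ 2 ≤ √d * (kap * t) := by
  have h1 := K.big
  have h2 := K.θ0
  have h3 := K.θ1
  have hLR : 0 ≤ L / R := div_nonneg (by linarith [K.L1]) K.R0.le
  have h4 : 0 ≤ √d * (kap * t) := by
    have := K.kt
    positivity
  have hM3 : 0 < M ^ 3 := by positivity
  have h5 : θ * (√d * (kap * t)) ≤ 1 / 100 * (√d * (kap * t)) := mul_le_mul_of_nonneg_right h3 h4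
  have h6 : 100000000 * M ^ 3 * (L / R + 1) ≤ √d * (kap * t) := by linarith
  constructor
  · rw [le_div_iff₀ (by linarith)]
    have h7 : 0 ≤ M ^ 3 * (L / R + 1) := by positivity
    nlinarith
  · have h7 : M ^ 2 ≤ M ^ 3 * (L / R + 1) := by
      have h8 : M ^ 2 ≤ M ^ 3 := by nlinarith
      nlinarith
    linarith

/-- RATIO -/
theorem ratio (H : Sys M A L t τ q q1 qn k1 k2 kap d s w Xs) {X X1 : CV d} (hX : Clo τ s w Xs X)
    (hX1 : Clo τ s w Xs X1) {sg : ℝ} (hs0 : 0 ≤ sg) (hsτ : sg ≤ τ) (h1 : Clo sg s w X X1) {R θ : ℝ}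
    (K : K4 M L t τ q k1 kap R θ d) {x : ℝ} {y y' : ℂ × ℂ} (hx : 0 < x) (hy : IsU y) (hy' : IsU y')
    (hF : Far (R + x) Xs y) (hD : √d * ‖wd y y'‖ ≤ x / 2) (hax : ‖aa X1 y'‖ * x ≤ 2) :
    ‖aa X y‖ ≤ 11 / 10 * ‖aa X1 y'‖ := by
  have hM := H.M1
  have hR0 := K.R0
  have hL1 := K.L1
  have hkt := K.kt
  have hLR : 0 ≤ L / R := div_nonneg (by linarith) hR0.le
  obtain ⟨hΛ, hΛ2⟩ := K.lam hM
  obtain ⟨Λ, hΛe⟩ : ∃ Λ, Λ = √d * (kap * t) / (3 * M) := ⟨_, rfl⟩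
  rw [← hΛe] at hΛ
  have hM2 : 1 ≤ M ^ 2 := by nlinarith
  have hΛ3 : 30000000 ≤ Λ := by nlinarith
  have hFy' : Far R Xs y' := Far.near (hF.mono (by linarith : R + x / 2 ≤ R + x)) hy hy' hD
  have hFy : Far R Xs y := hF.mono (by linarith)
  have a1 := one_A' H hX1 K hy' hFy'
  rw [← hΛe] at a1
  have hxΛ : x * Λ ≤ 2 := by
    have : x * Λ ≤ x * ‖aa X1 y'‖ := mul_le_mul_of_nonneg_left a1 hx.le
    linarith
  have hxs : x ≤ 1 / 15000000 := by nlinarith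
  obtain ⟨b, hb, u, z, hu, hz, hyc⟩ := exists_pt H.d1 H.cov hy
  obtain ⟨S, hS⟩ := Pool.Agent.H70.PL.nsc_ex (Fb_diff Xs b).continuous u (H.nm_pos hb (by linarith))
  obtain ⟨u', z', g1, g2, g3, g4, _⟩ := chart_near H.d1 hu hz hyc hy' (by linarith)
  obtain ⟨S', hS'⟩ := Pool.Agent.H70.PL.nsc_ex (Fb_diff Xs b).continuous u' (H.nm_pos hb (by linarith))
  have a2 := one_A H hX1 K hb g3 g1 g2 hS' hFy'
  rw [← hΛe] at a2
  have hS0 := hS.1
  have hS1 := hS.2.1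
  have hS'0 := hS'.1
  have hS'1 := hS'.2.1
  have hxS' : x * Λ ≤ 2 * S' := by
    have e1 : x * Λ ≤ x * (‖aa X1 y'‖ * S') := mul_le_mul_of_nonneg_left a2 hx.le
    have e2 : x * (‖aa X1 y'‖ * S') = (‖aa X1 y'‖ * x) * S' := by ring
    have e3 : (‖aa X1 y'‖ * x) * S' ≤ 2 * S' := mul_le_mul_of_nonneg_right hax hS'0.le
    linarith
  have hcmp := Pool.Agent.H70.PL.nsc_cmp2 (Fb_diff Xs b) hS hS' (H.nm_pos hb (by linarith))
  have hxx : 30000000 * x ≤ 2 * S' := by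
    have : 30000000 * x ≤ Λ * x := mul_le_mul_of_nonneg_right hΛ3 hx.le
    linarith
  have hSS : S' ≤ 16 * S := by linarith
  have hxS : x * Λ ≤ 32 * S := by linarith
  -- conditions of (C)
  have c1 : 6000 * M ^ 2 * L * (x / 2) ≤ R := by
    have e1 : x * (30000000 * M ^ 2 * (L / R)) ≤ 2 := by
      have : x * (30000000 * M ^ 2 * (L / R)) ≤ x * Λ := by
        refine mul_le_mul_of_nonneg_left ?_ hx.le
        have : 0 ≤ M ^ 2 := by positivity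
        linarith
      linarith
    have e2 : x * (30000000 * M ^ 2 * (L / R)) = (30000000 * M ^ 2 * L * x) / R := by ring
    rw [e2, div_le_iff₀ hR0] at e1
    have e3 : 0 ≤ M ^ 2 * L * x := by positivity
    linarith
  have c2 : 300 * (x / 2) ≤ S := by
    have : 30000000 * x ≤ 32 * S := by linarith
    linarith
  have hC := one_C H hX hs0 hsτ h1 K hb hu hz hyc hS hFy hy' (e := x / 2) (by linarith) c1 c2 hD
  have hη : 4000 * M ^ 2 * (x / 2 * (L / R + 1 / S) + sg / (kap * t)) ≤ 1 / 100 := by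
    have e1 : M ^ 2 * (x / 2 * (L / R)) ≤ 1 / 30000000 := by
      have f1 : x * (30000000 * M ^ 2 * (L / R)) ≤ 2 := by
        have : x * (30000000 * M ^ 2 * (L / R)) ≤ x * Λ := by
          refine mul_le_mul_of_nonneg_left ?_ hx.le
          have : 0 ≤ M ^ 2 := by positivity
          linarith
        linarith
      have f2 : M ^ 2 * (x / 2 * (L / R)) = x * (30000000 * M ^ 2 * (L / R)) / 60000000 := by ring
      rw [f2]
      linarith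
    have e2 : M ^ 2 * (x / 2 * (1 / S)) ≤ 16 / 30000000 := by
      have f1 : x * (30000000 * M ^ 2) ≤ 32 * S := by
        have : x * (30000000 * M ^ 2) ≤ x * Λ := by
          refine mul_le_mul_of_nonneg_left ?_ hx.le
          have : 0 ≤ M ^ 2 * (L / R) := by positivity
          linarith
        linarith
      have f2 : M ^ 2 * (x / 2 * (1 / S)) = (x * (30000000 * M ^ 2) / 60000000) / S := by
        field_simp
        norm_num
      rw [f2, div_le_iff₀ hS0]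
      linarith
    have e3 : M ^ 2 * (sg / (kap * t)) ≤ 1 / 100000000 := by
      have f1 := K.τs
      have f2 : M ^ 2 * (sg / (kap * t)) = (M ^ 2 * sg) / (kap * t) := by ring
      rw [f2, div_le_iff₀ hkt]
      have f3 : M ^ 2 * sg ≤ M ^ 2 * τ := mul_le_mul_of_nonneg_left hsτ (by positivity)
      have f4 : θ * (kap * t) ≤ 1 / 100 * (kap * t) := mul_le_mul_of_nonneg_right K.θ1 hkt.le
      linarith
    have e4 : 4000 * M ^ 2 * (x / 2 * (L / R + 1 / S) + sg / (kap * t)) =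
      4000 * (M ^ 2 * (x / 2 * (L / R))) + 4000 * (M ^ 2 * (x / 2 * (1 / S))) + 4000 * (M ^ 2 * (sg / (kap * t))) := by ring
    rw [e4]
    linarith
  have hC1 := hC.1
  have hC2 : (1 - 1 / 100) * ‖aa X y‖ ≤ ‖aa X1 y'‖ :=
    le_trans (mul_le_mul_of_nonneg_right (by linarith) (norm_nonneg _)) hC1
  have := norm_nonneg (aa X y)
  linarith

/-- all local facts at a good point -/
theorem loc (H : Sys M A L t τ q q1 qn k1 k2 kap d s w Xs) {X : CV d} (hX : Clo τ s w Xs X)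
    {sg : ℝ} (hs0 : 0 ≤ sg) (hsτ : sg ≤ τ) {R θ : ℝ}
    (K : K4 M L t τ q k1 kap R θ d) {y : ℂ × ℂ} (hy : IsU y) (hF : Far R Xs y) :
    ∃ S : ℝ, 0 < S ∧ S ≤ 1 ∧ √d * (kap * t) / (3 * M) ≤ ‖aa X y‖ * S ∧
      (∀ X1 X2 : CV d, Clo sg s w X X1 → Clo sg s w X X2 → ∀ y1 y2 : ℂ × ℂ, IsU y1 → IsU y2 → ∀ e : ℝ, 0 ≤ e →
        6000 * M ^ 2 * L * e ≤ R → 300 * e ≤ S → √d * ‖wd y y1‖ ≤ e → √d * ‖wd y y2‖ ≤ e →
        |√d * ‖wd (nx X1 y1) (nx X2 y2)‖ - ‖aa X y‖ * (√d * ‖wd y1 y2‖)| ≤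
          ‖aa X y‖ * (4000 * M ^ 2 * (e * (L / R + 1 / S)) * (√d * ‖wd y1 y2‖) + 30 * (sg / (kap * t)))) ∧
      (∀ X1 : CV d, Clo sg s w X X1 → ∀ y1 : ℂ × ℂ, IsU y1 → ∀ e : ℝ, 0 ≤ e →
        6000 * M ^ 2 * L * e ≤ R → 300 * e ≤ S → √d * ‖wd y y1‖ ≤ e →
        (1 - 4000 * M ^ 2 * (e * (L / R + 1 / S) + sg / (kap * t))) * ‖aa X y‖ ≤ ‖aa X1 y1‖ ∧
        ‖aa X1 y1‖ ≤ (1 + 4000 * M ^ 2 * (e * (L / R + 1 / S) + sg / (kap * t))) * ‖aa X y‖) := by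
  obtain ⟨b, hb, u, z, hu, hz, hyc⟩ := exists_pt H.d1 H.cov hy
  obtain ⟨S, hS⟩ := Pool.Agent.H70.PL.nsc_ex (Fb_diff Xs b).continuous u (H.nm_pos hb (by linarith))
  refine ⟨S, hS.1, hS.2.1, one_A H hX K hb (by linarith) hz hyc hS hF, ?_, ?_⟩
  · intro X1 X2 c1 c2 y1 y2 hy1 hy2 e he heR heS hD1 hD2
    exact one_B H hX hs0 hsτ c1 c2 K hb hu hz hyc hS hF hy1 hy2 he heR heS hD1 hD2
  · intro X1 c1 y1 hy1 e he heR heS hD1
    exact one_C H hX hs0 hsτ c1 K hb hu hz hyc hS hF hy1 he heR heS hD1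

/-- the data of a good orbit -/
structure Orb (M t kap θ sg c1 D0 : ℝ) (d : ℕ) (X : CV d) (J : ℕ) (y : ℕ → ℂ × ℂ) : Prop where
  cn : 0 ≤ c1
  cb : 1000000 * M ^ 2 * c1 ≤ θ * (√d * (kap * t))
  Dn : 0 ≤ D0
  sD : sg * √d ≤ c1 * D0
  J1 : lm (fun i => ‖aa X (y i)‖) J * D0 ≤ 1

/-- the choice of the scales along the orbit with all consequences -/
theorem orb_loc (H : Sys M A L t τ q q1 qn k1 k2 kap d s w Xs) {X : CV d} (hX : Clo τ s w Xs X)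
    {sg : ℝ} (hs0 : 0 ≤ sg) (hsτ : sg ≤ τ) {R θ : ℝ}
    (K : K4 M L t τ q k1 kap R θ d) {c1 D0 : ℝ} {J : ℕ} {y : ℕ → ℂ × ℂ}
    (O : Orb M t kap θ sg c1 D0 d X J y) (hyU : ∀ i ≤ J, IsU (y i))
    (hF : ∀ i < J, Far R Xs (y i)) :
    ∃ η : ℕ → ℝ, (∀ i < J, 2 ≤ ‖aa X (y i)‖) ∧ (∀ i < J, 0 ≤ η i) ∧ ∑ i ∈ range J, η i ≤ θ / 10 ∧
      (∀ X1 X2 : CV d, Clo sg s w X X1 → Clo sg s w X X2 → ∀ y1 y2 : ℂ × ℂ, IsU y1 → IsU y2 → ∀ i < J,
        √d * ‖wd (y i) y1‖ ≤ 2 * lm (fun i => ‖aa X (y i)‖) i * D0 →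
        √d * ‖wd (y i) y2‖ ≤ 2 * lm (fun i => ‖aa X (y i)‖) i * D0 →
        |√d * ‖wd (nx X1 y1) (nx X2 y2)‖ - ‖aa X (y i)‖ * (√d * ‖wd y1 y2‖)| ≤
          ‖aa X (y i)‖ * (η i * (√d * ‖wd y1 y2‖) + 30 * (sg / (kap * t)))) ∧
      (∀ X1 : CV d, Clo sg s w X X1 → ∀ y1 : ℂ × ℂ, IsU y1 → ∀ i < J,
        √d * ‖wd (y i) y1‖ ≤ 2 * lm (fun i => ‖aa X (y i)‖) i * D0 →
        (1 - η i) * ‖aa X (y i)‖ ≤ ‖aa X1 y1‖ ∧ ‖aa X1 y1‖ ≤ (1 + η i) * ‖aa X (y i)‖) := by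
  have hM := H.M1
  have hR0 := K.R0
  have hL1 := K.L1
  have hkt := K.kt
  have hLR : 0 ≤ L / R := div_nonneg (by linarith) hR0.le
  obtain ⟨hΛ, hΛ2⟩ := K.lam hM
  obtain ⟨Λ, hΛe⟩ : ∃ Λ, Λ = √d * (kap * t) / (3 * M) := ⟨_, rfl⟩
  rw [← hΛe] at hΛ
  have hM2 : 1 ≤ M ^ 2 := by nlinarith
  have hΛ3 : 30000000 ≤ Λ := by nlinarith
  have hex : ∀ i, ∃ S : ℝ, i < J → (0 < S ∧ S ≤ 1 ∧ Λ ≤ ‖aa X (y i)‖ * S ∧
      (∀ X1 X2 : CV d, Clo sg s w X X1 → Clo sg s w X X2 → ∀ y1 y2 : ℂ × ℂ, IsU y1 → IsU y2 → ∀ e : ℝ, 0 ≤ e →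
        6000 * M ^ 2 * L * e ≤ R → 300 * e ≤ S → √d * ‖wd (y i) y1‖ ≤ e → √d * ‖wd (y i) y2‖ ≤ e →
        |√d * ‖wd (nx X1 y1) (nx X2 y2)‖ - ‖aa X (y i)‖ * (√d * ‖wd y1 y2‖)| ≤
          ‖aa X (y i)‖ * (4000 * M ^ 2 * (e * (L / R + 1 / S)) * (√d * ‖wd y1 y2‖) + 30 * (sg / (kap * t)))) ∧
      (∀ X1 : CV d, Clo sg s w X X1 → ∀ y1 : ℂ × ℂ, IsU y1 → ∀ e : ℝ, 0 ≤ e →
        6000 * M ^ 2 * L * e ≤ R → 300 * e ≤ S → √d * ‖wd (y i) y1‖ ≤ e →
        (1 - 4000 * M ^ 2 * (e * (L / R + 1 / S) + sg / (kap * t))) * ‖aa X (y i)‖ ≤ ‖aa X1 y1‖ ∧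
        ‖aa X1 y1‖ ≤ (1 + 4000 * M ^ 2 * (e * (L / R + 1 / S) + sg / (kap * t))) * ‖aa X (y i)‖)) := by
    intro i
    by_cases hi : i < J
    · obtain ⟨S, h⟩ := loc H hX hs0 hsτ K (hyU i hi.le) (hF i hi)
      rw [← hΛe] at h
      exact ⟨S, fun _ => h⟩
    · exact ⟨1, fun h => absurd h hi⟩
  choose S hS using hex
  obtain ⟨a, hae⟩ : ∃ a : ℕ → ℝ, a = fun i => ‖aa X (y i)‖ := ⟨_, rfl⟩
  have hai : ∀ i, ‖aa X (y i)‖ = a i := fun i => by rw [hae]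
  have hJ := O.J1
  rw [← hae] at hJ ⊢
  have hσ0 : 0 ≤ sg / (kap * t) := div_nonneg hs0 hkt.le
  obtain ⟨s1, s2, s3, s4⟩ := sum_eta J a S Λ D0 (L / R) (4000 * M ^ 2) (sg / (kap * t)) 1 (by linarith)
    (fun i hi => ⟨(hS i hi).1, (hS i hi).2.1⟩) (fun i hi => by rw [← hai]; exact (hS i hi).2.2.1) O.Dn hLR (by positivity)
    hσ0 hJ
  -- smallness of the radii
  have hrad : ∀ i < J, 6000 * M ^ 2 * L * (2 * lm a i * D0) ≤ R ∧ 300 * (2 * lm a i * D0) ≤ S i := by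
    intro i hi
    have h1 := s3 i hi
    obtain ⟨hS0, hS1, _⟩ := hS i hi
    have hl0 : 0 ≤ lm a i * D0 := mul_nonneg (lm_pos s1 i hi.le).le O.Dn
    have h2 : 3 * lm a i * D0 * Λ ≤ 3 * S i := by
      have e1 : 3 * (1 / Λ) * S i * Λ = 3 * S i := by
        have : Λ ≠ 0 := by linarith
        field_simp
      calc 3 * lm a i * D0 * Λ ≤ 3 * (1 / Λ) * S i * Λ := mul_le_mul_of_nonneg_right h1 (by linarith)
        _ = 3 * S i := e1
    constructor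
    · have e1 : (lm a i * D0) * (30000000 * M ^ 2 * (L / R)) ≤ 1 := by
        have : (lm a i * D0) * (30000000 * M ^ 2 * (L / R)) ≤ (lm a i * D0) * Λ := by
          refine mul_le_mul_of_nonneg_left ?_ hl0
          have : 0 ≤ M ^ 2 := by positivity
          linarith
        linarith
      have e2 : (lm a i * D0) * (30000000 * M ^ 2 * (L / R)) = (30000000 * M ^ 2 * L * (lm a i * D0)) / R := by ring
      rw [e2, div_le_iff₀ hR0] at e1
      have e3 : 0 ≤ M ^ 2 * L * (lm a i * D0) := by positivity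
      linarith
    · have : (lm a i * D0) * 30000000 ≤ (lm a i * D0) * Λ := mul_le_mul_of_nonneg_left hΛ3 hl0
      linarith
  have hsum : ∑ i ∈ range J, 4000 * M ^ 2 * (3 * lm a i * D0 * (L / R + 1 / S i) + sg / (kap * t)) ≤ θ / 10 := by
    refine le_trans s4 ?_
    have hsd : 0 < √d * (kap * t) := by
      have := sd_pos H.d1
      positivity
    have hθ0 := K.θ0
    have e1 : M ^ 2 * (6 * (L / R + 1) * 1 / Λ) ≤ 18 * θ / 1000000 := by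
      have f1 : M ^ 2 * (6 * (L / R + 1) * 1 / Λ) = 18 * (M ^ 3 * (L / R + 1)) / (√d * (kap * t)) := by
        rw [hΛe]
        field_simp
        ring
      rw [f1, div_le_iff₀ hsd]
      have := K.big
      linarith
    have e2 : M ^ 2 * ((J : ℝ) * (sg / (kap * t))) ≤ θ / 1000000 := by
      have f1 : (J : ℝ) ≤ lm a J := J_le_lm s1
      have f2 : M ^ 2 * ((J : ℝ) * (sg / (kap * t))) = M ^ 2 * ((J : ℝ) * (sg * √d)) / (√d * (kap * t)) := by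
        have : √(d : ℝ) ≠ 0 := (sd_pos H.d1).ne'
        field_simp
      rw [f2, div_le_iff₀ hsd]
      have f3 : (J : ℝ) * (sg * √d) ≤ lm a J * (c1 * D0) := by
        refine mul_le_mul f1 O.sD (by positivity) (lm_pos s1 J le_rfl).le
      have f4 : lm a J * (c1 * D0) ≤ c1 := by
        have : lm a J * (c1 * D0) = c1 * (lm a J * D0) := by ring
        rw [this]
        have := mul_le_mul_of_nonneg_left hJ O.cn
        linarith
      have f5 : M ^ 2 * ((J : ℝ) * (sg * √d)) ≤ M ^ 2 * c1 := mul_le_mul_of_nonneg_left (le_trans f3 f4) (by positivity)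
      have := O.cb
      linarith
    have e3 : 4000 * M ^ 2 * (6 * (L / R + 1) * 1 / Λ + ↑J * (sg / (kap * t))) =
      4000 * (M ^ 2 * (6 * (L / R + 1) * 1 / Λ)) + 4000 * (M ^ 2 * ((J : ℝ) * (sg / (kap * t)))) := by ring
    rw [e3]
    linarith
  refine ⟨fun i => 4000 * M ^ 2 * (3 * lm a i * D0 * (L / R + 1 / S i) + sg / (kap * t)), ?_, s2, hsum, ?_, ?_⟩
  · intro i hi
    rw [hai]
    exact s1 i hi
  · intro X1 X2 c1' c2' y1 y2 hy1 hy2 i hi hD1 hD2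
    obtain ⟨hS0, hS1, _, hB, _⟩ := hS i hi
    obtain ⟨r1, r2⟩ := hrad i hi
    have hl0 : 0 ≤ lm a i * D0 := mul_nonneg (lm_pos s1 i hi.le).le O.Dn
    have h := hB X1 X2 c1' c2' y1 y2 hy1 hy2 (2 * lm a i * D0) (by linarith) r1 r2 hD1 hD2
    refine le_trans h ?_
    refine mul_le_mul_of_nonneg_left ?_ (norm_nonneg _)
    have hD0 : 0 ≤ √d * ‖wd y1 y2‖ := by positivity
    have hLS : 0 ≤ L / R + 1 / S i := by positivity
    refine add_le_add (mul_le_mul_of_nonneg_right ?_ hD0) le_rfl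
    have e1 : 0 ≤ lm a i * D0 * (L / R + 1 / S i) := mul_nonneg hl0 hLS
    have e2 : 0 ≤ 4000 * M ^ 2 := by positivity
    refine mul_le_mul_of_nonneg_left ?_ e2
    linarith
  · intro X1 c1' y1 hy1 i hi hD1
    obtain ⟨hS0, hS1, _, _, hC⟩ := hS i hi
    obtain ⟨r1, r2⟩ := hrad i hi
    have hl0 : 0 ≤ lm a i * D0 := mul_nonneg (lm_pos s1 i hi.le).le O.Dn
    have h := hC X1 c1' y1 hy1 (2 * lm a i * D0) (by linarith) r1 r2 hD1
    have hLS : 0 ≤ L / R + 1 / S i := by positivity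
    have e1 : 0 ≤ lm a i * D0 * (L / R + 1 / S i) := mul_nonneg hl0 hLS
    have e2 : 0 ≤ 4000 * M ^ 2 := by positivity
    have e3 : 4000 * M ^ 2 * (2 * lm a i * D0 * (L / R + 1 / S i) + sg / (kap * t)) ≤
        4000 * M ^ 2 * (3 * lm a i * D0 * (L / R + 1 / S i) + sg / (kap * t)) := by
      refine mul_le_mul_of_nonneg_left ?_ e2
      linarith
    constructor
    · refine le_trans (mul_le_mul_of_nonneg_right ?_ (norm_nonneg _)) h.1
      linarith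
    · refine le_trans h.2 (mul_le_mul_of_nonneg_right ?_ (norm_nonneg _))
      linarith

/-- the additive error is small -/
theorem iota_small (H : Sys M A L t τ q q1 qn k1 k2 kap d s w Xs) {X : CV d} {sg : ℝ} (hs0 : 0 ≤ sg) {R θ : ℝ}
    (K : K4 M L t τ q k1 kap R θ d) {c1 D0 : ℝ} {J : ℕ} {y : ℕ → ℂ × ℂ}
    (O : Orb M t kap θ sg c1 D0 d X J y) :
    0 ≤ 30 * (sg / (kap * t)) ∧ 10 * (30 * (sg / (kap * t))) ≤ D0 ∧ 10 * (30 * (sg / (kap * t))) ≤ θ * (sg * √d) := by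
  have hM := H.M1
  have hkt := K.kt
  have hθ0 := K.θ0
  have hθ1 := K.θ1
  have hsd0 := sd_pos H.d1
  have hsd : 0 < √d * (kap * t) := by positivity
  have hM2 : 1 ≤ M ^ 2 := by nlinarith
  have e0 : sg / (kap * t) = (sg * √d) / (√d * (kap * t)) := by
    field_simp
  have hσ0 : 0 ≤ sg / (kap * t) := div_nonneg hs0 hkt.le
  refine ⟨by positivity, ?_, ?_⟩
  · have h1 : 300 * (sg / (kap * t)) ≤ D0 := by
      rw [e0, ← mul_div_assoc, div_le_iff₀ hsd]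
      have h2 := O.sD
      have h3 := O.cb
      have h4 := O.cn
      have h5 := O.Dn
      have h6 : 1000000 * c1 ≤ θ * (√d * (kap * t)) := by
        have : 1000000 * c1 ≤ 1000000 * M ^ 2 * c1 := by nlinarith
        linarith
      have h7 : θ * (√d * (kap * t)) ≤ 1 / 100 * (√d * (kap * t)) := mul_le_mul_of_nonneg_right hθ1 hsd.le
      have h8 : 300 * c1 ≤ √d * (kap * t) := by linarith
      have h9 : 300 * c1 * D0 ≤ √d * (kap * t) * D0 := mul_le_mul_of_nonneg_right h8 h5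
      linarith
    linarith
  · have h1 : 300 * (sg / (kap * t)) ≤ θ * (sg * √d) := by
      rw [e0, ← mul_div_assoc, div_le_iff₀ hsd]
      have h2 := K.big
      have hLR : 0 ≤ L / R := div_nonneg (by linarith [K.L1]) K.R0.le
      have h3 : 300 ≤ θ * (√d * (kap * t)) := by
        have : 1 ≤ M ^ 3 * (L / R + 1) := by
          have : 1 ≤ M ^ 3 := one_le_pow₀ hM
          nlinarith
        linarith
      have h4 : 0 ≤ sg * √d := by positivity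
      have h5 := mul_le_mul_of_nonneg_right h3 h4
      linarith
    linarith

/-- TWO, one orbit -/
theorem two_one (H : Sys M A L t τ q q1 qn k1 k2 kap d s w Xs) {X : CV d} (hX : Clo τ s w Xs X)
    {sg : ℝ} (hs0 : 0 ≤ sg) (hsτ : sg ≤ τ) {R θ : ℝ}
    (K : K4 M L t τ q k1 kap R θ d) {c1 D0 : ℝ} {J : ℕ} {y : ℕ → ℂ × ℂ}
    (O : Orb M t kap θ sg c1 D0 d X J y) (hyU : IsU (y 0)) (hy : ∀ i < J, y (i + 1) = nx X (y i))
    (hF : ∀ i < J, Far R Xs (y i)) {X1 : CV d} {z : ℕ → ℂ × ℂ} (hX1 : Clo τ s w Xs X1) (hc : Clo sg s w X X1)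
    (hz0 : IsU (z 0)) (hz : ∀ i < J, z (i + 1) = nx X1 (z i)) (hD : √d * ‖wd (z 0) (y 0)‖ ≤ D0) :
    ∀ i ≤ J, IsU (z i) ∧ √d * ‖wd (z i) (y i)‖ ≤ 2 * lm (fun i => ‖aa X (y i)‖) i * D0 ∧
      (1 - θ / 10) * lm (fun i => ‖aa X (y i)‖) i ≤ lm (fun i => ‖aa X1 (z i)‖) i ∧
      lm (fun i => ‖aa X1 (z i)‖) i ≤ (1 + 2 * (θ / 10)) * lm (fun i => ‖aa X (y i)‖) i := by
  have hunit : ∀ (V : CV d) (v : ℕ → ℂ × ℂ), Clo τ s w Xs V → IsU (v 0) → (∀ i < J, v (i + 1) = nx V (v i)) →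
      ∀ i ≤ J, IsU (v i) := by
    intro V v hV hv0 hv i
    induction i with
    | zero => intro _; exact hv0
    | succ i ih =>
      intro hi
      rw [hv i (by omega)]
      exact H.nx_unit hV (ih (by omega))
  have hyU' := hunit X y hX hyU hy
  have hzU := hunit X1 z hX1 hz0 hz
  obtain ⟨η, h2, hη, hsum, hB, hC⟩ := orb_loc H hX hs0 hsτ K O hyU' hF
  obtain ⟨i0, i1, i2⟩ := iota_small H hs0 K O
  have hθ1 := K.θ1
  have hcX : Clo sg s w X X := by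
    intro b hb v hv
    rw [sub_self, (Pool.Agent.H70.PL.nm_eq_zero 0).2 rfl]
    exact mul_nonneg hs0 (H.wp b hb).le
  have hrec := rec_boot J (fun i => ‖aa X (y i)‖) η (fun i => √d * ‖wd (z i) (y i)‖) (30 * (sg / (kap * t))) D0 (θ / 10)
    i0 i1 h2 hη hsum (by linarith) (fun i _ => by positivity) hD (fun i hi hxi => by
      have hzi := hzU i hi.le
      have hyi := hyU' i hi.le
      have hD0 : 0 ≤ 2 * lm (fun i => ‖aa X (y i)‖) i * D0 := le_trans (by positivity) hxi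
      have h1 : √d * ‖wd (y i) (z i)‖ ≤ 2 * lm (fun i => ‖aa X (y i)‖) i * D0 := by
        rw [Pool.Agent.H47.SF.wd_comm]
        exact hxi
      have h3 : √d * ‖wd (y i) (y i)‖ ≤ 2 * lm (fun i => ‖aa X (y i)‖) i * D0 := by
        have : wd (y i) (y i) = 0 := by unfold wd; ring
        rw [this, norm_zero, mul_zero]
        exact hD0
      have h := hB X1 X hc hcX (z i) (y i) hzi hyi i hi h1 h3
      rw [hz i hi, hy i hi]
      exact h)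
  have hrat := lm_ratio J (fun i => ‖aa X (y i)‖) (fun i => ‖aa X1 (z i)‖) η (θ / 10) h2 hη hsum (by linarith)
    (fun i hi => by
      have hzi := hzU i hi.le
      have h1 : √d * ‖wd (y i) (z i)‖ ≤ 2 * lm (fun i => ‖aa X (y i)‖) i * D0 := by
        rw [Pool.Agent.H47.SF.wd_comm]
        exact (hrec i hi.le).1
      exact hC X1 hc (z i) hzi i hi h1)
  intro i hi
  exact ⟨hzU i hi, (hrec i hi).1, (hrat i hi).1, (hrat i hi).2⟩

/-- TWO, two orbits -/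
theorem two_two (H : Sys M A L t τ q q1 qn k1 k2 kap d s w Xs) {X : CV d} (hX : Clo τ s w Xs X)
    {sg : ℝ} (hs0 : 0 ≤ sg) (hsτ : sg ≤ τ) {R θ : ℝ}
    (K : K4 M L t τ q k1 kap R θ d) {c1 D0 : ℝ} {J : ℕ} {y : ℕ → ℂ × ℂ}
    (O : Orb M t kap θ sg c1 D0 d X J y) (hyU : IsU (y 0)) (hy : ∀ i < J, y (i + 1) = nx X (y i))
    (hF : ∀ i < J, Far R Xs (y i)) {X1 X2 : CV d} {z1 z2 : ℕ → ℂ × ℂ} (hX1 : Clo τ s w Xs X1) (hX2 : Clo τ s w Xs X2)
    (hc1 : Clo sg s w X X1) (hc2 : Clo sg s w X X2)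
    (hz10 : IsU (z1 0)) (hz20 : IsU (z2 0)) (hz1 : ∀ i < J, z1 (i + 1) = nx X1 (z1 i))
    (hz2 : ∀ i < J, z2 (i + 1) = nx X2 (z2 i)) (hD1 : √d * ‖wd (z1 0) (y 0)‖ ≤ D0) (hD2 : √d * ‖wd (z2 0) (y 0)‖ ≤ D0) :
    ∀ i ≤ J, |√d * ‖wd (z1 i) (z2 i)‖ - lm (fun i => ‖aa X (y i)‖) i * (√d * ‖wd (z1 0) (z2 0)‖)| ≤
      θ * lm (fun i => ‖aa X (y i)‖) i * (√d * ‖wd (z1 0) (z2 0)‖ + sg * √d) := by
  have hunit : ∀ i ≤ J, IsU (y i) := by
    intro i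
    induction i with
    | zero => intro _; exact hyU
    | succ i ih =>
      intro hi
      rw [hy i (by omega)]
      exact H.nx_unit hX (ih (by omega))
  obtain ⟨η, h2, hη, hsum, hB, hC⟩ := orb_loc H hX hs0 hsτ K O hunit hF
  obtain ⟨i0, i1, i2⟩ := iota_small H hs0 K O
  have hθ1 := K.θ1
  have hθ0 := K.θ0
  have t1 := two_one H hX hs0 hsτ K O hyU hy hF hX1 hc1 hz10 hz1 hD1
  have t2 := two_one H hX hs0 hsτ K O hyU hy hF hX2 hc2 hz20 hz2 hD2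
  have hx0 : √d * ‖wd (z1 0) (z2 0)‖ ≤ 2 * D0 := by
    have h := mul_le_mul_of_nonneg_left (Pool.Agent.H47.SF.tri hz10 hyU hz20) (Real.sqrt_nonneg (d : ℝ))
    rw [mul_add, Pool.Agent.H47.SF.wd_comm (y 0) (z2 0)] at h
    linarith
  have hD0 := O.Dn
  have hrec := rec_boot J (fun i => ‖aa X (y i)‖) η (fun i => √d * ‖wd (z1 i) (z2 i)‖) (30 * (sg / (kap * t))) (2 * D0)
    (θ / 10) i0 (by linarith) h2 hη hsum (by linarith) (fun i _ => by positivity) hx0 (fun i hi _ => by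
      have h1 : √d * ‖wd (y i) (z1 i)‖ ≤ 2 * lm (fun i => ‖aa X (y i)‖) i * D0 := by
        rw [Pool.Agent.H47.SF.wd_comm]
        exact (t1 i hi.le).2.1
      have h3 : √d * ‖wd (y i) (z2 i)‖ ≤ 2 * lm (fun i => ‖aa X (y i)‖) i * D0 := by
        rw [Pool.Agent.H47.SF.wd_comm]
        exact (t2 i hi.le).2.1
      have h := hB X1 X2 hc1 hc2 (z1 i) (z2 i) (t1 i hi.le).1 (t2 i hi.le).1 i hi h1 h3
      rw [hz1 i hi, hz2 i hi]
      exact h)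
  intro i hi
  have h := (hrec i hi).2
  refine le_trans h ?_
  have hl0 : 0 ≤ lm (fun i => ‖aa X (y i)‖) i := (lm_pos h2 i hi).le
  obtain ⟨x0, hx0e⟩ : ∃ x0, x0 = √d * ‖wd (z1 0) (z2 0)‖ := ⟨_, rfl⟩
  have hx00 : 0 ≤ x0 := by rw [hx0e]; positivity
  rw [← hx0e]
  have e0 : θ * lm (fun i => ‖aa X (y i)‖) i * (x0 + sg * √d) = lm (fun i => ‖aa X (y i)‖) i * (θ * (x0 + sg * √d)) := by ring
  rw [e0]
  refine mul_le_mul_of_nonneg_left ?_ hl0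
  have e1 : θ / 10 * (30 * (sg / (kap * t))) ≤ 1 * (30 * (sg / (kap * t))) :=
    mul_le_mul_of_nonneg_right (by linarith) i0
  nlinarith

end Pool.Agent.H84.LG.FO
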