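import Pool.Agent.H84.LG.Geo

/-!
[H84 LG GE2]  POLYLOG RATE (copy of the module of SHARP RATE), piece 5: bounds of the map and of the numbers `EE`.

Library: `H91/SR/Chb` (`exists_pt`), `H47/SR/Hm` (`nm_FF_pt`), `H70/PL/Pr` (`nm`).
* `nm_low`: `Sta.low` and `Amp`, `near` (`Fb X = Fb Xs + Fb (X - Xs)`, `nm_rev`), `‖u‖ ≤ 2`. `nm_up`: `Sta.bd`, `h1`.
* `nmFF_pos`, `isU_ob`: `exists_pt`, `nm_FF_pt`, `nm_low`, phases; `IsU (nx X y)`: `n2_smul`, `n2_eq`.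
* `EE_up`, `EE_dn`: `nm_FF_pt`, `fac_up`, `fac_low`, `WW_up`, `WW_low`. `EE_one`: for `c = z • pt d b u` (`exists_pt`)
  `EE ≥ (w b / nm (Fb X b u))/5 ≥ 1/(5 (MM+1)) ≥ 10^(-7)`.
* `EE_rat`: `WW_mov`, `DD_pt_le`, and `((1+‖u'‖²/d)/(1+‖u‖²/d))^(d/2) ≤ exp((‖u'‖²-‖u‖²)/2) ≤ exp(‖u-u'‖/2)`; everything is
  at most `(1 + be) exp (4 be^4) ≤ 101/100`.
-/

set_option autoImplicit false

open Polynomial ComplexConjugate Filter Topology

namespace Pool.Agent.H84.LG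

open Pool.H70.SF Pool.Agent.H85.LD Pool.H91.SR Pool.Agent.H70.PL Pool.Agent.H47.SR

variable {d : ℕ}

variable {A e CN : ℝ} {s : Finset ℂ} {w : ℂ → ℝ} {Xs X : CV d}

theorem nm_low (h : Ctx A e CN d s w Xs) (hX : Amp s w (c1 * hh d) (X - Xs)) {b : ℂ} (hb : b ∈ s) {u : ℂ}
    (hu : ‖u‖ ≤ 2) : k1 A e d * tt e d / 2 * w b ≤ nm (Fb X b u) ∧ 0 < nm (Fb X b u) := by
  have hw : 0 < w b := h.wor.wgt.pos b
  have h1 := (h.wor.sta b hb).low u hu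
  have h2 := hX b hb u (hu.trans (by norm_num))
  rw [Fb_sub] at h2
  have h3 := nm_rev (Fb Xs b u) (Fb X b u)
  rw [nm_sub_comm] at h3
  have h4 : c1 * hh d * w b ≤ k1 A e d * tt e d / 2 * w b :=
    mul_le_mul_of_nonneg_right (by linarith [h.near]) hw.le
  have h5 : 0 < k1 A e d * tt e d / 2 * w b := mul_pos (by linarith [h.kt]) hw
  have h6 : k1 A e d * tt e d / 2 * w b ≤ nm (Fb X b u) := by
    have h7 : k1 A e d * tt e d * w b = k1 A e d * tt e d / 2 * w b + k1 A e d * tt e d / 2 * w b := by ring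
    linarith
  exact ⟨h6, h5.trans_le h6⟩

theorem nm_up (h : Ctx A e CN d s w Xs) (hX : Amp s w (c1 * hh d) (X - Xs)) {b : ℂ} (hb : b ∈ s) {u : ℂ}
    (hu : ‖u‖ ≤ 3) : nm (Fb X b u) ≤ (MM + 1) * w b := by
  have hw : 0 < w b := h.wor.wgt.pos b
  have h1 := (h.wor.sta b hb).bd u (hu.trans (by norm_num))
  have h2 := hX b hb u hu
  rw [Fb_sub] at h2
  have h3 := nm_rev (Fb X b u) (Fb Xs b u)
  have h4 : c1 * hh d * w b ≤ 1 * w b := mul_le_mul_of_nonneg_right h.h1 hw.le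
  linarith

theorem nmFF_pos (h : Ctx A e CN d s w Xs) (hX : Amp s w (c1 * hh d) (X - Xs)) {y : ℂ × ℂ} (hy : IsU y) :
    0 < nm (FF X y) := by
  obtain ⟨b, hb, u, z, hu, hz, rfl⟩ := exists_pt h.d1 h.wor.cov hy
  have hz0 : nm (FF X (z • pt d b u)) = nm (FF X (pt d b u)) := by
    rw [Pool.Agent.H47.SF.FF_smul, nm_smul, norm_pow, hz, one_pow, one_mul]
  rw [hz0, nm_FF_pt]
  exact mul_pos (fac_pos h.d1 u) (nm_low h hX hb (hu.trans (by norm_num))).2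

theorem isU_nx (h : Ctx A e CN d s w Xs) (hX : Amp s w (c1 * hh d) (X - Xs)) {y : ℂ × ℂ} (hy : IsU y) :
    IsU (nx X y) := by
  have h1 := nmFF_pos h hX hy
  show n2 (nx X y) = 1
  unfold nx
  rw [Pool.Agent.H47.SF.n2_smul, Complex.norm_real, Real.norm_eq_abs,
    abs_of_nonneg (inv_nonneg.2 (Real.sqrt_nonneg _))]
  have h2 : 0 < n2 (FF X y) := by
    rw [n2_eq]
    positivity
  rw [inv_pow, Real.sq_sqrt h2.le, inv_mul_cancel₀ h2.ne']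

theorem isU_ob (h : Ctx A e CN d s w Xs) (hX : Amp s w (c1 * hh d) (X - Xs)) {c : ℂ × ℂ} (hc : IsU c) (j : ℕ) :
    IsU (ob X c j) := by
  induction j with
  | zero => exact isU_nx h hX hc
  | succ j ih => exact isU_nx h hX ih

theorem EE_up (h : Ctx A e CN d s w Xs) (hX : Amp s w (c1 * hh d) (X - Xs)) {b : ℂ} (hb : b ∈ s) {u : ℂ}
    (hu : ‖u‖ ≤ 1 / 2) : EE s w X (pt d b u) ≤ 25000 * (w b / nm (Fb X b u)) := by
  have hw : 0 < w b := h.wor.wgt.pos b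
  have h1 := WW_up h.d1 h.wor.sep h.wor.wgt (b := b) hu
  have h2 := (nm_low h hX hb (hu.trans (by norm_num))).2
  have h3 := fac_low h.d1 hu
  have h4 : 7 / 8 * nm (Fb X b u) ≤ nm (FF X (pt d b u)) := by
    rw [nm_FF_pt]
    exact mul_le_mul_of_nonneg_right h3 h2.le
  have h5 : 0 < nm (FF X (pt d b u)) := lt_of_lt_of_le (by positivity) h4
  unfold EE
  rw [div_le_iff₀ h5]
  have h6 : 25000 * (w b / nm (Fb X b u)) * (7 / 8 * nm (Fb X b u)) ≤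
      25000 * (w b / nm (Fb X b u)) * nm (FF X (pt d b u)) :=
    mul_le_mul_of_nonneg_left h4 (by positivity)
  have h7 : 25000 * (w b / nm (Fb X b u)) * (7 / 8 * nm (Fb X b u)) = 21875 * w b := by
    field_simp
    ring
  linarith

theorem EE_dn (h : Ctx A e CN d s w Xs) (hX : Amp s w (c1 * hh d) (X - Xs)) {b : ℂ} (hb : b ∈ s) {u : ℂ}
    (hu : ‖u‖ ≤ 1 / 2) : w b / nm (Fb X b u) ≤ 5 * EE s w X (pt d b u) := by
  have hw : 0 < w b := h.wor.wgt.pos b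
  have h1 := WW_low h.d1 h.wor.wgt.pos hb hu
  have h2 := (nm_low h hX hb (hu.trans (by norm_num))).2
  have h3 := fac_up h.d1 u
  have h3' := fac_pos h.d1 u
  have h4 : nm (FF X (pt d b u)) ≤ nm (Fb X b u) := by
    rw [nm_FF_pt]
    have := mul_le_mul_of_nonneg_right h3 h2.le
    linarith
  have h5 : 0 < nm (FF X (pt d b u)) := by
    rw [nm_FF_pt]
    exact mul_pos h3' h2
  unfold EE
  have h6 : w b / nm (Fb X b u) ≤ w b / nm (FF X (pt d b u)) :=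
    div_le_div_of_nonneg_left hw.le h5 h4
  refine h6.trans ?_
  rw [← mul_div_assoc]
  exact div_le_div_of_nonneg_right h1 h5.le

theorem EE_one (h : Ctx A e CN d s w Xs) (hX : Amp s w (c1 * hh d) (X - Xs)) {c : ℂ × ℂ} (hc : IsU c) :
    1 ≤ 10 ^ 7 * EE s w X c := by
  obtain ⟨b, hb, u, z, hu, hz, rfl⟩ := exists_pt h.d1 h.wor.cov hc
  rw [EE_phase s w X hz]
  have hw : 0 < w b := h.wor.wgt.pos b
  have h1 := EE_dn h hX hb (hu.trans (by norm_num))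
  have h2 := (nm_low h hX hb (hu.trans (by norm_num))).2
  have h3 := nm_up h hX hb (hu.trans (by norm_num))
  have h4 : 1 / (MM + 1) ≤ w b / nm (Fb X b u) := by
    have hM : (0 : ℝ) < MM + 1 := by
      unfold MM
      norm_num
    rw [div_le_div_iff₀ hM h2]
    linarith
  have h5 : 1 / (MM + 1) = 1 / 1000001 := by
    unfold MM
    norm_num
  rw [h5] at h4
  have h6 : 1 / 1000001 ≤ 5 * EE s w X (pt d b u) := h4.trans h1
  have h7 : (10 : ℝ) ^ 7 = 10000000 := by norm_num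
  rw [h7]
  linarith

private theorem fac_rat (hd : 1 ≤ d) {u u' : ℂ} (hu : ‖u‖ ≤ 1 / 2) (hu' : ‖u'‖ ≤ 1 / 2) :
    ((√(1 + ‖u‖ ^ 2 / d))⁻¹) ^ d ≤ ((√(1 + ‖u'‖ ^ 2 / d))⁻¹) ^ d * Real.exp (‖u - u'‖ / 2) := by
  have hd0 : (0 : ℝ) < d := by exact_mod_cast hd
  have hx : 0 ≤ ‖u‖ ^ 2 / (d : ℝ) := by positivity
  have hx' : 0 ≤ ‖u'‖ ^ 2 / (d : ℝ) := by positivity
  set x : ℝ := ‖u‖ ^ 2 / (d : ℝ) with hxd
  set x' : ℝ := ‖u'‖ ^ 2 / (d : ℝ) with hxd'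
  have hδ0 : 0 ≤ |x' - x| := abs_nonneg _
  have h1 : 1 + x' ≤ (1 + x) * Real.exp |x' - x| := by
    have h2 := Real.add_one_le_exp |x' - x|
    have h3 : (1 + x) * (|x' - x| + 1) ≤ (1 + x) * Real.exp |x' - x| :=
      mul_le_mul_of_nonneg_left h2 (by linarith)
    have h4 := le_abs_self (x' - x)
    have h5 : 0 ≤ x * |x' - x| := mul_nonneg hx hδ0
    nlinarith
  have h2 : √(1 + x') ≤ √(1 + x) * Real.exp (|x' - x| / 2) := by
    have h3 := Real.sqrt_le_sqrt h1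
    rw [Real.sqrt_mul (by linarith)] at h3
    have h4 : √(Real.exp |x' - x|) = Real.exp (|x' - x| / 2) := by
      rw [Real.sqrt_eq_iff_mul_self_eq (Real.exp_pos _).le (Real.exp_pos _).le, ← Real.exp_add]
      congr 1
      ring
    rwa [h4] at h3
  have hs : 0 < √(1 + x) := Real.sqrt_pos.2 (by linarith)
  have hs' : 0 < √(1 + x') := Real.sqrt_pos.2 (by linarith)
  have h3 : (√(1 + x))⁻¹ ≤ (√(1 + x'))⁻¹ * Real.exp (|x' - x| / 2) := by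
    rw [← div_eq_inv_mul, inv_eq_one_div, div_le_div_iff₀ hs hs', one_mul]
    linarith
  have h4 : ((√(1 + x))⁻¹) ^ d ≤ ((√(1 + x'))⁻¹ * Real.exp (|x' - x| / 2)) ^ d :=
    pow_le_pow_left₀ (inv_nonneg.2 hs.le) h3 d
  rw [mul_pow, ← Real.exp_nat_mul] at h4
  refine h4.trans (mul_le_mul_of_nonneg_left (Real.exp_le_exp.2 ?_) (by positivity))
  have h5 : |x' - x| = |‖u'‖ ^ 2 - ‖u‖ ^ 2| / d := by
    rw [hxd, hxd', ← sub_div, abs_div, abs_of_pos hd0]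
  have h6 : |‖u'‖ ^ 2 - ‖u‖ ^ 2| ≤ ‖u - u'‖ := by
    have h7 : ‖u'‖ ^ 2 - ‖u‖ ^ 2 = (‖u'‖ - ‖u‖) * (‖u'‖ + ‖u‖) := by ring
    rw [h7, abs_mul, abs_of_nonneg (add_nonneg (norm_nonneg u') (norm_nonneg u))]
    have h8 := abs_norm_sub_norm_le u' u
    rw [norm_sub_rev] at h8
    have h9 := norm_nonneg u
    have h10 := norm_nonneg u'
    have h11 : |‖u'‖ - ‖u‖| * (‖u'‖ + ‖u‖) ≤ |‖u'‖ - ‖u‖| * 1 :=
      mul_le_mul_of_nonneg_left (by linarith) (abs_nonneg _)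
    linarith
  rw [h5]
  have h12 : (d : ℝ) * (|‖u'‖ ^ 2 - ‖u‖ ^ 2| / d / 2) = |‖u'‖ ^ 2 - ‖u‖ ^ 2| / 2 := by
    field_simp
  rw [h12]
  linarith

private theorem num_rat {x : ℝ} (h0 : 0 < x) (h : 10 ^ 30 * x ≤ 1) :
    Real.exp (3 * x ^ 4) * (Real.exp (x ^ 4 / 2) * (1 + x)) ≤ 101 / 100 := by
  have hx1 : x ≤ 1 / 1000 := by
    have : (10 : ℝ) ^ 30 * x = 1000 * x * 10 ^ 27 := by ring
    have h27 : (1 : ℝ) ≤ 10 ^ 27 := by norm_num
    have h1000 : 1000 * x ≤ 1000 * x * 10 ^ 27 := by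
      have : 0 ≤ 1000 * x := by linarith
      nlinarith
    linarith
  have hx4 : x ^ 4 ≤ 1 / 1000 := by
    have h2 : x ^ 4 ≤ x ^ 1 := pow_le_pow_of_le_one h0.le (by linarith) (by norm_num)
    rw [pow_one] at h2
    linarith
  have hx40 : 0 < x ^ 4 := by positivity
  rw [← mul_assoc, ← Real.exp_add]
  have h3 : Real.exp (3 * x ^ 4 + x ^ 4 / 2) ≤ 1 / (1 - (3 * x ^ 4 + x ^ 4 / 2)) := by
    have h4 := Real.add_one_le_exp (-(3 * x ^ 4 + x ^ 4 / 2))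
    have h5 : 0 < 1 - (3 * x ^ 4 + x ^ 4 / 2) := by linarith
    rw [le_div_iff₀ h5]
    have h6 : Real.exp (3 * x ^ 4 + x ^ 4 / 2) * Real.exp (-(3 * x ^ 4 + x ^ 4 / 2)) = 1 := by
      rw [← Real.exp_add, add_neg_cancel, Real.exp_zero]
    calc Real.exp (3 * x ^ 4 + x ^ 4 / 2) * (1 - (3 * x ^ 4 + x ^ 4 / 2)) ≤
          Real.exp (3 * x ^ 4 + x ^ 4 / 2) * Real.exp (-(3 * x ^ 4 + x ^ 4 / 2)) :=
          mul_le_mul_of_nonneg_left (by linarith) (Real.exp_pos _).le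
      _ = 1 := h6
  have h7 : 1 / (1 - (3 * x ^ 4 + x ^ 4 / 2)) ≤ 1.004 := by
    rw [div_le_iff₀ (by linarith)]
    linarith
  have h8 : Real.exp (3 * x ^ 4 + x ^ 4 / 2) * (1 + x) ≤ 1.004 * (1 + x) :=
    mul_le_mul_of_nonneg_right (h3.trans h7) (by linarith)
  linarith

private theorem EE_rat1 (h : Ctx A e CN d s w Xs) (hX : Amp s w (c1 * hh d) (X - Xs)) {X' : CV d}
    (hX' : Amp s w (c1 * hh d) (X' - Xs)) {b : ℂ} (hb : b ∈ s) {u u' : ℂ} (hu : ‖u‖ ≤ 1 / 2) (hu' : ‖u'‖ ≤ 1 / 2)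
    (huu : ‖u - u'‖ ≤ be e d ^ 4) (h2 : nm (Fb X b u) ≤ (1 + be e d) * nm (Fb X' b u')) :
    EE s w X' (pt d b u') ≤ 101 / 100 * EE s w X (pt d b u) := by
  have p1 := (nm_low h hX hb (hu.trans (by norm_num))).2
  have p2 := (nm_low h hX' hb (hu'.trans (by norm_num))).2
  have f1 := fac_pos h.d1 u
  have f2 := fac_pos h.d1 u'
  have hr := fac_rat h.d1 hu hu'
  have hW0 : 0 ≤ WW d s w (pt d b u) := by
    have := WW_low h.d1 h.wor.wgt.pos hb hu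
    have hw := h.wor.wgt.pos b
    linarith
  have hW := WW_mov (d := d) (s := s) h.wor.wgt.pos (pt_unit d b u') (pt_unit d b u)
  have hD : DD d (pt d b u') (pt d b u) ≤ be e d ^ 4 := by
    refine (DD_pt_le h.d1 b u' u).trans ?_
    rw [norm_sub_rev]
    exact huu
  have hE1 : Real.exp (3 * DD d (pt d b u') (pt d b u)) ≤ Real.exp (3 * be e d ^ 4) :=
    Real.exp_le_exp.2 (by linarith)
  have hW2 : WW d s w (pt d b u') ≤ WW d s w (pt d b u) * Real.exp (3 * be e d ^ 4) :=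
    hW.trans (mul_le_mul_of_nonneg_left hE1 hW0)
  have hr2 : ((√(1 + ‖u‖ ^ 2 / d))⁻¹) ^ d ≤
      ((√(1 + ‖u'‖ ^ 2 / d))⁻¹) ^ d * Real.exp (be e d ^ 4 / 2) :=
    hr.trans (mul_le_mul_of_nonneg_left (Real.exp_le_exp.2 (by linarith)) f2.le)
  have hn := num_rat h.bpos h.bsm
  unfold EE
  rw [nm_FF_pt, nm_FF_pt]
  set F : ℝ := ((√(1 + ‖u‖ ^ 2 / d))⁻¹) ^ d with hF
  set F' : ℝ := ((√(1 + ‖u'‖ ^ 2 / d))⁻¹) ^ d with hF'
  set n : ℝ := nm (Fb X b u) with hnn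
  set n' : ℝ := nm (Fb X' b u') with hnn'
  set W : ℝ := WW d s w (pt d b u) with hWW
  rw [← mul_div_assoc, div_le_div_iff₀ (mul_pos f2 p2) (mul_pos f1 p1)]
  have hb0 : 0 < be e d := h.bpos
  have h3 : F * n ≤ F' * Real.exp (be e d ^ 4 / 2) * ((1 + be e d) * n') :=
    mul_le_mul hr2 h2 p1.le (by positivity)
  calc WW d s w (pt d b u') * (F * n) ≤ W * Real.exp (3 * be e d ^ 4) * (F * n) :=
        mul_le_mul_of_nonneg_right hW2 (mul_pos f1 p1).le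
    _ ≤ W * Real.exp (3 * be e d ^ 4) * (F' * Real.exp (be e d ^ 4 / 2) * ((1 + be e d) * n')) :=
        mul_le_mul_of_nonneg_left h3 (mul_nonneg hW0 (Real.exp_pos _).le)
    _ = (Real.exp (3 * be e d ^ 4) * (Real.exp (be e d ^ 4 / 2) * (1 + be e d))) * (W * (F' * n')) := by
        ring
    _ ≤ 101 / 100 * (W * (F' * n')) :=
        mul_le_mul_of_nonneg_right hn (mul_nonneg hW0 (mul_pos f2 p2).le)
    _ = 101 / 100 * W * (F' * n') := by ring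

theorem EE_rat (h : Ctx A e CN d s w Xs) (hX : Amp s w (c1 * hh d) (X - Xs)) {X' : CV d}
    (hX' : Amp s w (c1 * hh d) (X' - Xs)) {b : ℂ} (hb : b ∈ s) {u u' : ℂ} (hu : ‖u‖ ≤ 1 / 2) (hu' : ‖u'‖ ≤ 1 / 2)
    (huu : ‖u - u'‖ ≤ be e d ^ 4) (h1 : nm (Fb X' b u') ≤ (1 + be e d) * nm (Fb X b u))
    (h2 : nm (Fb X b u) ≤ (1 + be e d) * nm (Fb X' b u')) :
    EE s w X' (pt d b u') ≤ 101 / 100 * EE s w X (pt d b u) ∧
    EE s w X (pt d b u) ≤ 101 / 100 * EE s w X' (pt d b u') := by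
  refine ⟨EE_rat1 h hX hX' hb hu hu' huu h2, EE_rat1 h hX' hX hb hu' hu ?_ h1⟩
  rw [norm_sub_rev]
  exact huu

end Pool.Agent.H84.LG
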