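import Pool.Agent.H84.LG.Bas
import Pool.Agent.H84.LG.Ctx
import Pool.Agent.H47.SR.Nea

/-!
[H84 LG GEO]  POLYLOG RATE (copy of the module of SHARP RATE), piece 5: weights on the sphere and the numbers `EE`.

Library: `H91/SR/Chb` (`wd_pt`, `pt_unit`, `exists_pt`, `wB_unit`), `H47/SR/Hm` (`nm_FF_pt`, `wd_nx_pt`), `H47/SR/Nea`
(`pt_zero`, `chart_near`), `H85/LD/Net` (`net_sum`), `H85/LD/Sg` (`sg`), `H70/PL/Pr` (`nm`).
* `wd_wB`: direct computation (it is the `key` in the proof of `cov_unit` in `Chb`).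
* `DD_pt_le`: `wd_pt`, the square roots are `≥ 1`. `DD_cen`: `v = 0`, `pt_zero`.
* `fac_up`: `(√(1+x))⁻¹ ≤ 1`. `fac_low`: `(1+‖u‖²/d)^(d/2) ≤ exp(‖u‖²/2) ≤ exp(1/8) ≤ 8/7` (`Real.add_one_le_exp`).
* `WW_mov`: termwise `DD y b ≥ DD z b - DD y z` (`DD_tri`; all vectors are unit).
* `WW_low`: one term of the sum, `DD ≤ 1/2`, `exp (-3/2) ≥ 1/5`.
* `WW_up`: `t = √d sg b c`: `w c ≤ w b exp t` (`Wgt.lip`), `DD (pt d b u) (wB c) ≥ t - 1/2`, so the term is at most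
  `w b exp (3/2) exp (-2t) ≤ w b exp(3/2) exp(-t)`; `net_sum`, `exp(3/2) ≤ 5`.
-/

set_option autoImplicit false

open Polynomial ComplexConjugate Filter Topology

namespace Pool.Agent.H84.LG

open Pool.H70.SF Pool.Agent.H85.LD Pool.H91.SR Pool.Agent.H70.PL Pool.Agent.H47.SR

variable {d : ℕ}

theorem wd_wB (z b : ℂ) : ‖wd (wB z) (wB b)‖ = sg z b := by
  have hz := rb_pos z
  have hb := rb_pos b
  unfold sg wd wB
  simp only
  have e : z / (rb z : ℂ) * (1 / (rb b : ℂ)) - 1 / (rb z : ℂ) * (b / (rb b : ℂ)) =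
      (z - b) / ((rb z : ℂ) * (rb b : ℂ)) := by
    have h1 := rbc_ne z
    have h2 := rbc_ne b
    field_simp
  rw [e, norm_div, norm_mul, Complex.norm_real, Complex.norm_real, Real.norm_eq_abs,
    Real.norm_eq_abs, abs_of_pos hz, abs_of_pos hb, Real.sqrt_mul (by positivity)]
  rfl

private theorem one_le_rt (u : ℂ) : 1 ≤ √(1 + ‖u‖ ^ 2 / (d : ℝ)) := by
  apply Real.le_sqrt_of_sq_le
  have : 0 ≤ ‖u‖ ^ 2 / (d : ℝ) := by positivity
  linarith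

private theorem DD_pt (hd : 1 ≤ d) (b u v : ℂ) : DD d (pt d b u) (pt d b v) =
    ‖u - v‖ / (√(1 + ‖u‖ ^ 2 / d) * √(1 + ‖v‖ ^ 2 / d)) := wd_pt d hd b u v

private theorem rt_le (hd : 1 ≤ d) {u : ℂ} (hu : ‖u‖ ≤ 1) : √(1 + ‖u‖ ^ 2 / (d : ℝ)) ≤ √2 := by
  apply Real.sqrt_le_sqrt
  have h1 : (1 : ℝ) ≤ d := by exact_mod_cast hd
  have h2 : ‖u‖ ^ 2 / (d : ℝ) ≤ 1 := by
    rw [div_le_one (by linarith)]
    have h3 : ‖u‖ ^ 2 ≤ 1 := pow_le_one₀ (norm_nonneg _) hu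
    linarith
  linarith

theorem DD_pt_le (hd : 1 ≤ d) (b u v : ℂ) : DD d (pt d b u) (pt d b v) ≤ ‖u - v‖ := by
  rw [DD_pt hd]
  exact div_le_self (norm_nonneg _) (one_le_mul_of_one_le_of_one_le (one_le_rt u) (one_le_rt v))

theorem DD_pt_ge (hd : 1 ≤ d) (b : ℂ) {u v : ℂ} (hu : ‖u‖ ≤ 1) (hv : ‖v‖ ≤ 1) :
    ‖u - v‖ ≤ 2 * DD d (pt d b u) (pt d b v) := by
  rw [DD_pt hd]
  have h1 := one_le_rt (d := d) u
  have h2 := one_le_rt (d := d) v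
  have h3 : √(1 + ‖u‖ ^ 2 / (d : ℝ)) * √(1 + ‖v‖ ^ 2 / (d : ℝ)) ≤ 2 := by
    calc √(1 + ‖u‖ ^ 2 / (d : ℝ)) * √(1 + ‖v‖ ^ 2 / (d : ℝ)) ≤ √2 * √2 :=
          mul_le_mul (rt_le hd hu) (rt_le hd hv) (by linarith) (Real.sqrt_nonneg _)
      _ = 2 := Real.mul_self_sqrt (by norm_num)
  have h4 : 0 < √(1 + ‖u‖ ^ 2 / (d : ℝ)) * √(1 + ‖v‖ ^ 2 / (d : ℝ)) :=
    mul_pos (by linarith) (by linarith)
  rw [← mul_div_assoc, le_div_iff₀ h4]
  have h5 := mul_le_mul_of_nonneg_left h3 (norm_nonneg (u - v))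
  linarith

theorem DD_cen (hd : 1 ≤ d) (b u : ℂ) : DD d (pt d b u) (wB b) ≤ ‖u‖ := by
  have h1 := DD_pt_le hd b u 0
  rwa [Pool.Agent.H47.SR.pt_zero, sub_zero] at h1

theorem fac_up (hd : 1 ≤ d) (u : ℂ) : ((√(1 + ‖u‖ ^ 2 / d))⁻¹) ^ d ≤ 1 := by
  refine pow_le_one₀ (by positivity) ?_
  exact inv_le_one_of_one_le₀ (one_le_rt u)

theorem fac_pos (hd : 1 ≤ d) (u : ℂ) : 0 < ((√(1 + ‖u‖ ^ 2 / d))⁻¹) ^ d := by
  have h1 := one_le_rt (d := d) u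
  exact pow_pos (inv_pos.2 (by linarith)) _

theorem fac_low (hd : 1 ≤ d) {u : ℂ} (hu : ‖u‖ ≤ 1 / 2) : 7 / 8 ≤ ((√(1 + ‖u‖ ^ 2 / d))⁻¹) ^ d := by
  have hd0 : (0 : ℝ) < d := by exact_mod_cast hd
  have hx : 0 ≤ ‖u‖ ^ 2 / (d : ℝ) := by positivity
  have h1 := one_le_rt (d := d) u
  have h2 : √(1 + ‖u‖ ^ 2 / (d : ℝ)) ≤ Real.exp (‖u‖ ^ 2 / (d : ℝ) / 2) := by
    apply Real.sqrt_le_iff.2
    refine ⟨(Real.exp_pos _).le, ?_⟩
    rw [← Real.exp_nat_mul]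
    have h3 := Real.add_one_le_exp (‖u‖ ^ 2 / (d : ℝ))
    have h4 : ((2 : ℕ) : ℝ) * (‖u‖ ^ 2 / (d : ℝ) / 2) = ‖u‖ ^ 2 / (d : ℝ) := by
      push_cast
      ring
    rw [h4]
    linarith
  have h3 : Real.exp (-(‖u‖ ^ 2 / (d : ℝ) / 2)) ≤ (√(1 + ‖u‖ ^ 2 / (d : ℝ)))⁻¹ := by
    rw [Real.exp_neg]
    exact inv_anti₀ (by linarith) h2
  have h4 : Real.exp (-(‖u‖ ^ 2 / (d : ℝ) / 2)) ^ d ≤ (√(1 + ‖u‖ ^ 2 / (d : ℝ)))⁻¹ ^ d :=
    pow_le_pow_left₀ (Real.exp_pos _).le h3 d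
  refine le_trans ?_ h4
  rw [← Real.exp_nat_mul]
  have h5 : (d : ℝ) * -(‖u‖ ^ 2 / (d : ℝ) / 2) = -(‖u‖ ^ 2 / 2) := by
    field_simp
  rw [h5]
  have h6 : ‖u‖ ^ 2 ≤ (1 / 2) ^ 2 := pow_le_pow_left₀ (norm_nonneg _) hu 2
  have h7 := Real.add_one_le_exp (-(‖u‖ ^ 2 / 2))
  linarith

theorem WW_mov {s : Finset ℂ} {w : ℂ → ℝ} (hw : ∀ b, 0 < w b) {y z : ℂ × ℂ} (hy : IsU y) (hz : IsU z) :
    WW d s w y ≤ WW d s w z * Real.exp (3 * DD d y z) := by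
  unfold WW
  rw [Finset.sum_mul]
  refine Finset.sum_le_sum fun b _ => ?_
  rw [mul_assoc, ← Real.exp_add]
  refine mul_le_mul_of_nonneg_left (Real.exp_le_exp.2 ?_) (hw b).le
  have h1 := DD_tri (d := d) hz hy (wB_unit b)
  rw [DD_comm z y] at h1
  linarith

private theorem exp32 : Real.exp (3 / 2) ≤ 5 := by
  have h1 := Real.exp_one_lt_d9
  have h2 : Real.exp (1 / 2) ^ 2 = Real.exp 1 := by
    rw [← Real.exp_nat_mul]
    norm_num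
  have h3 : Real.exp (1 / 2) ≤ 1.65 := by
    apply le_of_sq_le_sq _ (by norm_num)
    rw [h2]
    norm_num at h1 ⊢
    linarith
  have h4 : Real.exp (3 / 2) = Real.exp 1 * Real.exp (1 / 2) := by
    rw [← Real.exp_add]
    norm_num
  rw [h4]
  have h5 : Real.exp 1 * Real.exp (1 / 2) ≤ 2.7182818286 * 1.65 :=
    mul_le_mul h1.le h3 (Real.exp_pos _).le (by norm_num)
  refine h5.trans (by norm_num)

theorem WW_low (hd : 1 ≤ d) {s : Finset ℂ} {w : ℂ → ℝ} (hw : ∀ b, 0 < w b) {b u : ℂ} (hb : b ∈ s)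
    (hu : ‖u‖ ≤ 1 / 2) : w b ≤ 5 * WW d s w (pt d b u) := by
  have h1 : w b * Real.exp (-(3 * DD d (pt d b u) (wB b))) ≤ WW d s w (pt d b u) :=
    Finset.single_le_sum (f := fun c => w c * Real.exp (-(3 * DD d (pt d b u) (wB c))))
      (fun c _ => mul_nonneg (hw c).le (Real.exp_pos _).le) hb
  · have h2 : DD d (pt d b u) (wB b) ≤ 1 / 2 := (DD_cen hd b u).trans hu
    have h3 : Real.exp (-(3 / 2)) ≤ Real.exp (-(3 * DD d (pt d b u) (wB b))) :=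
      Real.exp_le_exp.2 (by linarith)
    have h4 : 1 / 5 ≤ Real.exp (-(3 / 2)) := by
      rw [Real.exp_neg, one_div]
      exact inv_anti₀ (Real.exp_pos _) exp32
    have h5 : w b * (1 / 5) ≤ w b * Real.exp (-(3 * DD d (pt d b u) (wB b))) :=
      mul_le_mul_of_nonneg_left (h4.trans h3) (hw b).le
    linarith

theorem WW_up (hd : 1 ≤ d) {s : Finset ℂ} (hs : Sep d s) {w : ℂ → ℝ} (hw : Wgt d w) {b u : ℂ} (hu : ‖u‖ ≤ 1 / 2) :
    WW d s w (pt d b u) ≤ 20000 * w b := by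
  have h1 : ∀ c ∈ s, w c * Real.exp (-(3 * DD d (pt d b u) (wB c))) ≤
      w b * 5 * Real.exp (-(√d * sg b c)) := by
    intro c _
    have ht : 0 ≤ √d * sg b c := mul_nonneg (Real.sqrt_nonneg _) (sg_nonneg b c)
    have h2 : DD d (wB b) (wB c) = √d * sg b c := by
      unfold DD
      rw [wd_wB]
    have h3 := DD_tri (d := d) (wB_unit b) (pt_unit d b u) (wB_unit c)
    have h4 : DD d (wB b) (pt d b u) ≤ 1 / 2 := by
      rw [DD_comm]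
      exact (DD_cen hd b u).trans hu
    rw [h2] at h3
    have h5 : w c * Real.exp (-(3 * DD d (pt d b u) (wB c))) ≤
        w b * Real.exp (√d * sg b c) * Real.exp (-(3 * DD d (pt d b u) (wB c))) :=
      mul_le_mul_of_nonneg_right (hw.lip b c) (Real.exp_pos _).le
    refine h5.trans ?_
    have hE : Real.exp (√d * sg b c) * Real.exp (-(3 * DD d (pt d b u) (wB c))) ≤
        Real.exp (3 / 2) * Real.exp (-(√d * sg b c)) := by
      rw [← Real.exp_add, ← Real.exp_add]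
      exact Real.exp_le_exp.2 (by linarith)
    have h6 : Real.exp (3 / 2) * Real.exp (-(√d * sg b c)) ≤ 5 * Real.exp (-(√d * sg b c)) :=
      mul_le_mul_of_nonneg_right exp32 (Real.exp_pos _).le
    have h7 := mul_le_mul_of_nonneg_left (hE.trans h6) (hw.pos b).le
    calc w b * Real.exp (√d * sg b c) * Real.exp (-(3 * DD d (pt d b u) (wB c)))
        = w b * (Real.exp (√d * sg b c) * Real.exp (-(3 * DD d (pt d b u) (wB c)))) := by ring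
      _ ≤ w b * (5 * Real.exp (-(√d * sg b c))) := h7
      _ = w b * 5 * Real.exp (-(√d * sg b c)) := by ring
  have h8 : WW d s w (pt d b u) ≤ ∑ c ∈ s, w b * 5 * Real.exp (-(√d * sg b c)) :=
    Finset.sum_le_sum h1
  rw [← Finset.mul_sum] at h8
  have h9 := net_sum d hd s hs b
  have h10 : w b * 5 * ∑ c ∈ s, Real.exp (-(√d * sg b c)) ≤ w b * 5 * 4000 :=
    mul_le_mul_of_nonneg_left h9 (mul_nonneg (hw.pos b).le (by norm_num))
  linarith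

end Pool.Agent.H84.LG
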