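import Pool.Agent.H84.LG.Geo

/-!
[H84 LG KER]  POLYLOG RATE (copy of the module of SHARP RATE), piece 5: coherent states and the perturbations of one stage.

`KV d c`: coefficients of `en d c 0`; `kr d b c u`: its value in the chart `b`; `YY d s w F` the perturbation with the
letters `F`.
* `hev_KV`: `en d c 0 = C (1/√((1+‖c‖²)^d)) * (1 + C (conj c) X)^d` (`en`, `n = 0`), coefficient `k` is
  `(1/rb c^d) (d choose k) (conj c)^k`; so `hev` is `((conj c) y.1 + y.2)^d / rb c^d` (`add_pow`), and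
  `pr y (wB c) = (conj c y.1 + y.2)/rb c`. (`√((1+‖c‖²)^d) = rb c ^ d`: `Real.sqrt_eq_rpow` or `sqrt_pow'` as in `hev_sc`.)
* `kr_own`: `pr (wB b + t • wC b) (wB b) = 1` (or: `hev_sc` and `en_chart` with `n = 0`).
* `Fb_YY`: `hev` is linear (`hev_add`, `hev_csmul`), induction over the finite set.
* `kr_norm`: for `y = wB b + (u/√d) • wC b` (a positive multiple of `pt d b u`): `lag` gives
  `‖pr y (wB c)‖² = (1+‖u‖²/d) (1 - ‖wd (pt d b u) (wB c)‖²)`; `(1+x)^(d/2) ≤ exp (d x/2)`, `(1-x)^(d/2) ≤ exp (-d x/2)`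
  (`Real.add_one_le_exp`), so `‖kr d b c u‖ ≤ exp (9/2) exp (-D²/2)`, `D = DD d (pt d b u) (wB c)`, `‖u‖ ≤ 3`.
* `D ≥ t - 3` with `t = √d sg b c` (`DD_tri`, `DD_cen`, `wd_wB`). `kr_sum`: `-D²/2 ≤ 2 - 2D ≤ 8 - 2t`, `w c ≤ w b exp t`,
  so each term is at most `w b exp (25/2) exp (-t)`; `net_sum`; `4000 exp (25/2) ≤ 2 * 10^9`. `kr_tail`:
  `-D²/2 ≤ 8 - 4D ≤ 20 - 4t`, each term is at most `w b exp (49/2) exp (-2T) exp (-t)`; `4000 exp (49/2) ≤ 10^15`.
* `Amp_YY`: `nm (F c) ≤ 3/2`, `Fb_YY`, `kr_sum`, `3 * 10^9 ≤ cY`.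
-/

set_option autoImplicit false

open Polynomial ComplexConjugate Filter Topology

namespace Pool.Agent.H84.LG

open Pool.H70.SF Pool.Agent.H85.LD Pool.H91.SR Pool.Agent.H70.PL Pool.Agent.H47.SR

/-- coefficients of the coherent state -/
noncomputable def KV (d : ℕ) (c : ℂ) : Fin (d + 1) → ℂ := fun k => (en d c 0).coeff (k : ℕ)

/-- the coherent state of `c` in the chart `b` -/
noncomputable def kr (d : ℕ) (b c u : ℂ) : ℂ := hev (KV d c) (wB b + (u / ((√d : ℝ) : ℂ)) • wC b)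

/-- the perturbation with the letters `F` -/
noncomputable def YY (d : ℕ) (s : Finset ℂ) (w : ℂ → ℝ) (F : ℂ → ℂ × ℂ) : CV d :=
  ∑ c ∈ s, (((w c : ℂ) * (F c).1) • KV d c, ((w c : ℂ) * (F c).2) • KV d c)

variable {d : ℕ}

private theorem KV_coe (c : ℂ) (k : Fin (d + 1)) :
    KV d c k = (1 / (rb c : ℂ) ^ d) * (((d.choose (k : ℕ) : ℕ) : ℂ) * (conj c) ^ (k : ℕ)) := by
  have h1 : √((1 + ‖c‖ ^ 2) ^ d) = rb c ^ d := sqrt_pow' (by positivity) d
  have h2 : (1 + C (conj c) * X : ℂ[X]) ^ d =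
      ∑ m ∈ Finset.range (d + 1), C ((conj c) ^ m * ((d.choose m : ℕ) : ℂ)) * X ^ m := by
    rw [add_comm, add_pow]
    refine Finset.sum_congr rfl fun m _ => ?_
    rw [one_pow, mul_one, mul_pow, C_mul, C_pow, C_eq_natCast]
    ring
  unfold KV en
  rw [pow_zero, one_mul, Nat.sub_zero, coeff_C_mul, h2, finsetSum_coeff]
  simp only [coeff_C_mul_X_pow]
  rw [Finset.sum_ite_eq, if_pos (Finset.mem_range.2 k.2), h1]
  push_cast
  ring

theorem hev_KV (c : ℂ) (y : ℂ × ℂ) : hev (KV d c) y = (pr y (wB c)) ^ d := by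
  have h1 : pr y (wB c) = (conj c * y.1 + y.2) / (rb c : ℂ) := by
    unfold pr wB
    simp only [map_div₀, Complex.conj_ofReal, map_one]
    ring
  rw [h1, div_pow, add_pow]
  unfold hev
  simp only [KV_coe]
  rw [Finset.sum_range, Finset.sum_div]
  refine Finset.sum_congr rfl fun k _ => ?_
  rw [mul_pow]
  ring

theorem kr_own (hd : 1 ≤ d) (b u : ℂ) : kr d b b u = 1 := by
  have h1 : pr (wB b + (u / ((√d : ℝ) : ℂ)) • wC b) (wB b) = 1 := by
    obtain ⟨t, ht⟩ : ∃ t : ℂ, t = u / ((√d : ℝ) : ℂ) := ⟨_, rfl⟩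
    rw [← ht]
    have h2 := rbc_sq b
    have h3 := rbc_ne b
    unfold pr wB wC
    simp only [Prod.fst_add, Prod.snd_add, Prod.smul_fst, Prod.smul_snd, smul_eq_mul, map_div₀,
      Complex.conj_ofReal, map_one]
    field_simp
    rw [h2]
    ring
  unfold kr
  rw [hev_KV, h1, one_pow]

theorem Fb_YY (s : Finset ℂ) (w : ℂ → ℝ) (F : ℂ → ℂ × ℂ) (b u : ℂ) :
    Fb (YY d s w F) b u = ∑ c ∈ s, ((w c : ℂ) * kr d b c u) • F c := by
  unfold YY
  induction s using Finset.cons_induction with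
  | empty =>
    simp only [Finset.sum_empty]
    unfold Fb FF hev
    simp
  | cons a s ha ih =>
    rw [Finset.sum_cons, Finset.sum_cons, Fb_add, ih]
    congr 1
    show FF _ _ = _
    unfold FF kr
    simp only [hev_csmul]
    ext
    · simp only [Prod.smul_fst, smul_eq_mul]
      ring
    · simp only [Prod.smul_snd, smul_eq_mul]
      ring

theorem kr_norm (hd : 1 ≤ d) (b c : ℂ) {u : ℂ} (hu : ‖u‖ ≤ 3) :
    ‖kr d b c u‖ ≤ Real.exp (9 / 2) * Real.exp (-(DD d (pt d b u) (wB c) ^ 2 / 2)) := by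
  have hd0 : (0 : ℝ) < d := by exact_mod_cast hd
  obtain ⟨y, hy⟩ : ∃ y : ℂ × ℂ, y = wB b + (u / ((√d : ℝ) : ℂ)) • wC b := ⟨_, rfl⟩
  obtain ⟨A, hA⟩ : ∃ A : ℝ, A = 1 + ‖u‖ ^ 2 / d := ⟨_, rfl⟩
  have hA0 : 0 < A := by rw [hA]; positivity
  have hny : nm y ^ 2 = A := by
    rw [← n2_eq, hy, n2_lin, norm_div_sqrt, hA]
  have hnc : nm (wB c) ^ 2 = 1 := by
    rw [← n2_eq]
    exact wB_unit c
  have hl := lag y (wB c)
  rw [hny, hnc, mul_one] at hl
  have hpt : pt d b u = (((√A)⁻¹ : ℝ) : ℂ) • y := by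
    rw [hA, hy]
    rfl
  obtain ⟨x, hx⟩ : ∃ x : ℝ, x = ‖wd (pt d b u) (wB c)‖ ^ 2 := ⟨_, rfl⟩
  have hx0 : 0 ≤ x := by rw [hx]; positivity
  have hwx : ‖wd y (wB c)‖ ^ 2 = A * x := by
    rw [hx, hpt, Pool.H26.SF.wd_smul_left, norm_mul, Complex.norm_real, Real.norm_of_nonneg (by positivity), mul_pow,
      inv_pow, Real.sq_sqrt hA0.le]
    field_simp
  have hpr : ‖pr y (wB c)‖ ^ 2 = A * (1 - x) := by linarith
  have hx1 : 0 ≤ 1 - x := by
    have h1 : 0 ≤ A * (1 - x) := by rw [← hpr]; positivity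
    exact nonneg_of_mul_nonneg_right h1 hA0
  have hD : DD d (pt d b u) (wB c) ^ 2 = d * x := by
    unfold DD
    rw [mul_pow, Real.sq_sqrt hd0.le, hx]
  have hk : ‖kr d b c u‖ ^ 2 = A ^ d * (1 - x) ^ d := by
    unfold kr
    rw [hev_KV, ← hy, norm_pow, ← pow_mul, mul_comm d 2, pow_mul, hpr, mul_pow]
  have h1 : A ^ d ≤ Real.exp 9 := by
    have h2 : A ≤ Real.exp (‖u‖ ^ 2 / d) := by
      rw [hA, add_comm]
      exact Real.add_one_le_exp _
    calc A ^ d ≤ Real.exp (‖u‖ ^ 2 / d) ^ d := pow_le_pow_left₀ hA0.le h2 d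
      _ = Real.exp (‖u‖ ^ 2) := by
          rw [← Real.exp_nat_mul]
          congr 1
          field_simp
      _ ≤ Real.exp 9 := by
          apply Real.exp_le_exp.2
          nlinarith [norm_nonneg u]
  have h3 : (1 - x) ^ d ≤ Real.exp (-(d * x)) := by
    have h2 : 1 - x ≤ Real.exp (-x) := by
      have := Real.add_one_le_exp (-x)
      linarith
    calc (1 - x) ^ d ≤ Real.exp (-x) ^ d := pow_le_pow_left₀ hx1 h2 d
      _ = Real.exp (-(d * x)) := by
          rw [← Real.exp_nat_mul]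
          congr 1
          ring
  apply le_of_sq_le_sq _ (by positivity)
  rw [hk, mul_pow, ← Real.exp_nat_mul, ← Real.exp_nat_mul, hD]
  have e1 : ((2 : ℕ) : ℝ) * (9 / 2) = 9 := by norm_num
  have e2 : ((2 : ℕ) : ℝ) * -((d : ℝ) * x / 2) = -(d * x) := by push_cast; ring
  rw [e1, e2]
  exact mul_le_mul h1 h3 (by positivity) (by positivity)

private theorem DD_far (hd : 1 ≤ d) (b c : ℂ) {u : ℂ} (hu : ‖u‖ ≤ 3) :
    √d * sg b c - 3 ≤ DD d (pt d b u) (wB c) := by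
  have h1 := DD_tri (d := d) (wB_unit b) (pt_unit d b u) (wB_unit c)
  have h2 := DD_cen hd b u
  rw [DD_comm] at h2
  have h3 : DD d (wB b) (wB c) = √d * sg b c := by
    unfold DD
    rw [wd_wB]
  linarith

theorem kr_sum (hd : 1 ≤ d) {s : Finset ℂ} (hs : Sep d s) {w : ℂ → ℝ} (hw : Wgt d w) (b : ℂ) {u : ℂ}
    (hu : ‖u‖ ≤ 3) : ∑ c ∈ s, w c * ‖kr d b c u‖ ≤ 2 * 10 ^ 9 * w b := by
  have hwb := hw.pos b
  have hterm : ∀ c ∈ s, w c * ‖kr d b c u‖ ≤ w b * Real.exp (25 / 2) * Real.exp (-(√d * sg b c)) := by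
    intro c _
    have hD := DD_far hd b c hu
    have hk := kr_norm hd b c hu
    have hl := hw.lip b c
    obtain ⟨t, ht⟩ : ∃ t : ℝ, t = √d * sg b c := ⟨_, rfl⟩
    obtain ⟨D, hDD⟩ : ∃ D : ℝ, D = DD d (pt d b u) (wB c) := ⟨_, rfl⟩
    rw [← ht, ← hDD] at hD
    rw [← hDD] at hk
    rw [← ht] at hl
    rw [← ht]
    have h1 : -(D ^ 2 / 2) ≤ 8 - 2 * t := by nlinarith [sq_nonneg (D - 2)]
    have h2 : ‖kr d b c u‖ ≤ Real.exp (9 / 2) * Real.exp (8 - 2 * t) :=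
      hk.trans (mul_le_mul_of_nonneg_left (Real.exp_le_exp.2 h1) (Real.exp_pos _).le)
    calc w c * ‖kr d b c u‖ ≤ (w b * Real.exp t) * (Real.exp (9 / 2) * Real.exp (8 - 2 * t)) :=
          mul_le_mul hl h2 (norm_nonneg _) (by positivity)
      _ = w b * (Real.exp t * (Real.exp (9 / 2) * Real.exp (8 - 2 * t))) := by ring
      _ = w b * (Real.exp (25 / 2) * Real.exp (-t)) := by
          rw [← Real.exp_add, ← Real.exp_add, ← Real.exp_add]
          congr 2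
          ring
      _ = _ := by ring
  refine (Finset.sum_le_sum hterm).trans ?_
  rw [← Finset.mul_sum]
  have h1 := net_sum d hd s hs b
  have h2 : Real.exp (25 / 2) ≤ 450000 := by
    have h3 : Real.exp (25 / 2) ≤ Real.exp 13 := Real.exp_le_exp.2 (by norm_num)
    have h4 : Real.exp 13 = Real.exp 1 ^ 13 := by
      rw [← Real.exp_nat_mul]
      norm_num
    have h5 : Real.exp 1 ^ 13 ≤ (2.7182818286 : ℝ) ^ 13 :=
      pow_le_pow_left₀ (Real.exp_pos _).le Real.exp_one_lt_d9.le 13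
    rw [h4] at h3
    refine h3.trans (h5.trans ?_)
    norm_num
  calc w b * Real.exp (25 / 2) * ∑ c ∈ s, Real.exp (-(√d * sg b c))
      ≤ w b * 450000 * 4000 := by
        apply mul_le_mul _ h1 (Finset.sum_nonneg fun _ _ => (Real.exp_pos _).le) (by positivity)
        exact mul_le_mul_of_nonneg_left h2 hwb.le
    _ ≤ _ := by linarith

theorem kr_tail (hd : 1 ≤ d) {s : Finset ℂ} (hs : Sep d s) {w : ℂ → ℝ} (hw : Wgt d w) (b : ℂ) {u : ℂ}
    (hu : ‖u‖ ≤ 3) {T : ℝ} (hT : 0 ≤ T) :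
    ∑ c ∈ s.filter (fun c => ¬ √d * sg b c ≤ T), w c * ‖kr d b c u‖ ≤ 10 ^ 15 * Real.exp (-(2 * T)) * w b := by
  have hwb := hw.pos b
  have hterm : ∀ c ∈ s.filter (fun c => ¬ √d * sg b c ≤ T), w c * ‖kr d b c u‖ ≤
      w b * Real.exp (49 / 2) * Real.exp (-(2 * T)) * Real.exp (-(√d * sg b c)) := by
    intro c hc
    have hT' := (Finset.mem_filter.1 hc).2
    rw [not_le] at hT'
    have hD := DD_far hd b c hu
    have hk := kr_norm hd b c hu
    have hl := hw.lip b c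
    obtain ⟨t, ht⟩ : ∃ t : ℝ, t = √d * sg b c := ⟨_, rfl⟩
    obtain ⟨D, hDD⟩ : ∃ D : ℝ, D = DD d (pt d b u) (wB c) := ⟨_, rfl⟩
    rw [← ht, ← hDD] at hD
    rw [← hDD] at hk
    rw [← ht] at hl hT'
    rw [← ht]
    have h1 : -(D ^ 2 / 2) ≤ 20 - 4 * t := by nlinarith [sq_nonneg (D - 4)]
    have h2 : ‖kr d b c u‖ ≤ Real.exp (9 / 2) * Real.exp (20 - 4 * t) :=
      hk.trans (mul_le_mul_of_nonneg_left (Real.exp_le_exp.2 h1) (Real.exp_pos _).le)
    calc w c * ‖kr d b c u‖ ≤ (w b * Real.exp t) * (Real.exp (9 / 2) * Real.exp (20 - 4 * t)) :=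
          mul_le_mul hl h2 (norm_nonneg _) (by positivity)
      _ = w b * (Real.exp t * (Real.exp (9 / 2) * Real.exp (20 - 4 * t))) := by ring
      _ = w b * (Real.exp (49 / 2) * (Real.exp (-(2 * t)) * Real.exp (-t))) := by
          rw [← Real.exp_add, ← Real.exp_add, ← Real.exp_add, ← Real.exp_add]
          congr 2
          ring
      _ ≤ w b * (Real.exp (49 / 2) * (Real.exp (-(2 * T)) * Real.exp (-t))) := by
          apply mul_le_mul_of_nonneg_left _ hwb.le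
          apply mul_le_mul_of_nonneg_left _ (Real.exp_pos _).le
          apply mul_le_mul_of_nonneg_right _ (Real.exp_pos _).le
          exact Real.exp_le_exp.2 (by linarith)
      _ = _ := by ring
  refine (Finset.sum_le_sum hterm).trans ?_
  rw [← Finset.mul_sum]
  have h1 : ∑ c ∈ s.filter (fun c => ¬ √d * sg b c ≤ T), Real.exp (-(√d * sg b c)) ≤ 4000 := by
    refine le_trans ?_ (net_sum d hd s hs b)
    exact Finset.sum_le_sum_of_subset_of_nonneg (Finset.filter_subset _ _)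
      fun _ _ _ => (Real.exp_pos _).le
  have h2 : Real.exp (49 / 2) ≤ 10 ^ 11 := by
    have h3 : Real.exp (49 / 2) ≤ Real.exp 25 := Real.exp_le_exp.2 (by norm_num)
    have h4 : Real.exp 25 = Real.exp 1 ^ 25 := by
      rw [← Real.exp_nat_mul]
      norm_num
    have h5 : Real.exp 1 ^ 25 ≤ (2.7182818286 : ℝ) ^ 25 :=
      pow_le_pow_left₀ (Real.exp_pos _).le Real.exp_one_lt_d9.le 25
    rw [h4] at h3
    refine h3.trans (h5.trans ?_)
    norm_num
  calc w b * Real.exp (49 / 2) * Real.exp (-(2 * T)) *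
        ∑ c ∈ s.filter (fun c => ¬ √d * sg b c ≤ T), Real.exp (-(√d * sg b c))
      ≤ w b * 10 ^ 11 * Real.exp (-(2 * T)) * 4000 := by
        apply mul_le_mul _ h1 (Finset.sum_nonneg fun _ _ => (Real.exp_pos _).le) (by positivity)
        apply mul_le_mul_of_nonneg_right _ (Real.exp_pos _).le
        exact mul_le_mul_of_nonneg_left h2 hwb.le
    _ = 4 * 10 ^ 14 * (Real.exp (-(2 * T)) * w b) := by ring
    _ ≤ 10 ^ 15 * (Real.exp (-(2 * T)) * w b) := by
        apply mul_le_mul_of_nonneg_right _ (by positivity)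
        norm_num
    _ = _ := by ring

private theorem nm_sum (s : Finset ℂ) (f : ℂ → ℂ × ℂ) : nm (∑ c ∈ s, f c) ≤ ∑ c ∈ s, nm (f c) := by
  induction s using Finset.cons_induction with
  | empty =>
    simp only [Finset.sum_empty]
    rw [(nm_eq_zero _).2 rfl]
  | cons a s ha ih =>
    rw [Finset.sum_cons, Finset.sum_cons]
    exact (nm_add _ _).trans (by linarith)

theorem Amp_YY (hd : 1 ≤ d) {s : Finset ℂ} (hs : Sep d s) {w : ℂ → ℝ} (hw : Wgt d w) (F : ℂ → ℂ × ℂ)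
    (hF : ∀ c, ‖(F c).1‖ ≤ 1 ∧ ‖(F c).2‖ ≤ 1) {σ : ℝ} (hσ : 0 ≤ σ) :
    Amp s w (cY * σ) ((σ : ℂ) • YY d s w F) := by
  intro b _ u hu
  have hF' : ∀ c, nm (F c) ≤ 3 / 2 := by
    intro c
    obtain ⟨h1, h2⟩ := hF c
    apply le_of_sq_le_sq _ (by norm_num)
    rw [nm_sq]
    nlinarith [norm_nonneg (F c).1, norm_nonneg (F c).2]
  rw [Fb_csmul, nm_smul, Complex.norm_real, Real.norm_of_nonneg hσ, Fb_YY]
  have h1 : nm (∑ c ∈ s, ((w c : ℂ) * kr d b c u) • F c) ≤ 3 / 2 * (2 * 10 ^ 9 * w b) := by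
    refine (nm_sum s _).trans ?_
    calc ∑ c ∈ s, nm (((w c : ℂ) * kr d b c u) • F c) ≤ ∑ c ∈ s, 3 / 2 * (w c * ‖kr d b c u‖) := by
          apply Finset.sum_le_sum
          intro c _
          rw [nm_smul, norm_mul, Complex.norm_real, Real.norm_of_nonneg (hw.pos c).le]
          have h2 : 0 ≤ w c * ‖kr d b c u‖ := mul_nonneg (hw.pos c).le (norm_nonneg _)
          calc w c * ‖kr d b c u‖ * nm (F c) ≤ w c * ‖kr d b c u‖ * (3 / 2) :=
                mul_le_mul_of_nonneg_left (hF' c) h2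
            _ = _ := by ring
      _ = 3 / 2 * ∑ c ∈ s, w c * ‖kr d b c u‖ := by rw [Finset.mul_sum]
      _ ≤ _ := mul_le_mul_of_nonneg_left (kr_sum hd hs hw b hu) (by norm_num)
  refine (mul_le_mul_of_nonneg_left h1 hσ).trans ?_
  unfold cY
  have h3 : 0 ≤ σ * w b := mul_nonneg hσ (hw.pos b).le
  nlinarith

end Pool.Agent.H84.LG
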