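import Pool.Agent.H70.PL.Cau

/-!
POLYLOG RATE (MP_8f2e1c_an), piece 2, module GRW: a point near `u` where a function is large and does not grow fast
(replaces Hadamard's three circles theorem).

`grow`: suppose not. Then for every `v` with `‖v - u‖ ≤ K ρ` and `nm (G u) ≤ nm (G v)` there is `x`, `‖x - v‖ ≤ ρ`, with
`2 nm (G v) < nm (G x)`. Induction: for `k ≤ K` there is `v` with `‖v - u‖ ≤ k ρ` and `2^k nm (G u) ≤ nm (G v)` (`k = 0`: `v = u`;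
the bound `nm (G u) ≤ 2^k nm (G u)` is `one_le_pow`). For `k = K`: `2^K nm (G u) ≤ nm (G v) ≤ B`, a contradiction.
`grow2`: `nm (G x - G v) ≤ 3 nm (G v)` for `‖x - v‖ ≤ ρ` (`nm_sub`), Schwarz (`schP`) gives
`nm (G n - G v) ≤ ‖n - v‖ / ρ * (3 nm (G v)) ≤ (3/16) nm (G v)`, and `nm_rev`.
-/

set_option autoImplicit false

namespace Pool.Agent.H84.LG.PL

open Pool.H70.SF Pool.Agent.H70.PL

theorem grow {G : ℂ → ℂ × ℂ} (u : ℂ) (B ρ : ℝ) (K : ℕ) (hρ : 0 < ρ)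
    (hB : ∀ v, ‖v - u‖ ≤ K * ρ → nm (G v) ≤ B) (h0 : B < 2 ^ K * nm (G u)) :
    ∃ v, ‖v - u‖ ≤ K * ρ ∧ nm (G u) ≤ nm (G v) ∧ ∀ x, ‖x - v‖ ≤ ρ → nm (G x) ≤ 2 * nm (G v) := by
  by_contra hcon
  push Not at hcon
  have key : ∀ k : ℕ, k ≤ K → ∃ v, ‖v - u‖ ≤ k * ρ ∧ 2 ^ k * nm (G u) ≤ nm (G v) := by
    intro k
    induction k with
    | zero =>
      intro _
      exact ⟨u, by simp, by simp⟩
    | succ k ih =>
      intro hk
      obtain ⟨v, hv1, hv2⟩ := ih (by omega)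
      have hkK : (k : ℝ) ≤ K := by exact_mod_cast (by omega : k ≤ K)
      have h1 : nm (G u) ≤ nm (G v) := by
        have h2 : (1 : ℝ) ≤ 2 ^ k := one_le_pow₀ (by norm_num)
        have := nm_nonneg (G u)
        nlinarith
      obtain ⟨x, hx1, hx2⟩ := hcon v (hv1.trans (mul_le_mul_of_nonneg_right hkK hρ.le)) h1
      refine ⟨x, ?_, ?_⟩
      · have h2 := norm_add_le (x - v) (v - u)
        rw [sub_add_sub_cancel] at h2
        push_cast
        linarith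
      · rw [pow_succ]
        linarith
  obtain ⟨v, hv1, hv2⟩ := key K le_rfl
  have := hB v hv1
  linarith

theorem grow2 {G : ℂ → ℂ × ℂ} (hG : Differentiable ℂ G) (v : ℂ) (ρ δ : ℝ) (hρ : 0 < ρ) (hδ : 16 * δ ≤ ρ)
    (h : ∀ x, ‖x - v‖ ≤ ρ → nm (G x) ≤ 2 * nm (G v)) (n : ℂ) (hn : ‖n - v‖ ≤ δ) :
    3 / 4 * nm (G v) ≤ nm (G n) := by
  have hδ0 : 0 ≤ δ := (norm_nonneg _).trans hn
  have h0 := nm_nonneg (G v)
  have h1 := schP hG v ρ (3 * nm (G v)) hρ (fun x hx => by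
    have h2 := nm_sub (G x) (G v)
    have h3 := h x hx
    linarith) n (by linarith)
  have h4 : ‖n - v‖ / ρ ≤ 1 / 16 := by
    rw [div_le_iff₀ hρ]
    linarith
  have h5 : ‖n - v‖ / ρ * (3 * nm (G v)) ≤ 1 / 16 * (3 * nm (G v)) :=
    mul_le_mul_of_nonneg_right h4 (by positivity)
  have h6 := nm_rev (G v) (G n)
  rw [nm_sub_comm] at h6
  linarith

end Pool.Agent.H84.LG.PL
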