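import Pool.Agent.H84.LG.PDef
import Pool.Agent.H84.LG.PGrw
import Pool.Agent.H70.PL.Sca
import Pool.Agent.H70.PL.Har

/-!
POLYLOG RATE (MP_8f2e1c_an), piece 2, module F1: lower bound of the Jacobian at points far from its zeros.

Let `a = nm (F u) ≥ k1 t w > 0`, `b = nm (F' u)`, `a ≤ M w`.
CLAIM: there is `n`, `‖n - u‖ ≤ 2 q1 S`, with `(k2/4) t w (a + b) ≤ ‖Jc F n‖`.
 Case A, `b ≤ a`: `net` with `v = u` gives `n`, `‖n - u‖ ≤ qn S`, `‖J n‖ ≥ k2 t w nm (F n) ≥ k2 t w a / 2` (`nsc_nm`).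
 Case B, `a < b`: let `K = ⌈4 M L⌉`, so `4 M L ≤ K ≤ 5 M L`, and `ρ = q1 S / K`. On `‖v - u‖ ≤ K ρ = q1 S ≤ 1/8`: `nm (F' v) ≤ M w`
 (Cauchy `cauP` with radius 1, `‖v‖ + 1 ≤ 4`). `M w < 2^K b`: `b > a ≥ k1 t w ≥ exp (-2 L) w` and `M < 2^K exp (-2 L)`, because
 `log M + 2 L ≤ (M - 1) + 2 L ≤ (M - 1) L + 2 L ≤ 2 M L < K log 2`. `grow` for `G = deriv F`: `v` with `‖v - u‖ ≤ q1 S`,
 `b ≤ nm (F' v)`, and `nm (F' x) ≤ 2 nm (F' v)` on `‖x - v‖ ≤ ρ`. `net` at `v`: `n` with `‖n - v‖ ≤ qn S`; `16 qn S ≤ ρ` as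
 `16 K qn ≤ 80 M L qn ≤ A L qn ≤ q1`. `grow2`: `nm (F' n) ≥ (3/4) b`, so `‖J n‖ ≥ k2 t w nm (F' n) ≥ (3/8) k2 t w (a + b)`.
HARNACK: `har` with `r = q S`, `x = 2 q1 S`, `X = 2 a M w` (on `‖z - u‖ ≤ S`: `nm (F z) ≤ 3a/2`, `nm (F' z) ≤ M w`), `K = A L / 16`
(`8 x K = A L q1 S ≤ q S`): `X exp (-K) ≤ (k2/4) t w a`, because `8 M exp (-K) ≤ k2 t`: `k2 t ≥ exp (-2 L)` and
`K ≥ (100/16) M L ≥ 2 L + 4 M`, `8 M exp (-4 M) ≤ 1` (`exp (4 M) = exp (2 M)² ≥ (1 + 2 M)² ≥ 8 M`).
So `(k2/4) t w (a + b) ≤ ‖J n‖ ≤ 2 ‖J u‖`.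
-/

set_option autoImplicit false

namespace Pool.Agent.H84.LG.PL

open Pool.H70.SF Pool.Agent.H70.PL

theorem f1_claim (M A L t τ q q1 qn k1 k2 kap w : ℝ) (hM : 1 ≤ M) (hA : 100 * M ≤ A)
    (hw : 0 < w) (hK : Kog A L t τ q q1 qn k1 k2 kap) (F : ℂ → ℂ × ℂ)
    (hF : Sta M w t k1 k2 qn F) (u : ℂ) (hu : ‖u‖ ≤ 5 / 4) (S : ℝ) (hS : Nsc F u S) :
    ∃ n, ‖n - u‖ ≤ 2 * q1 * S ∧ k2 / 4 * t * w * (nm (F u) + nm (deriv F u)) ≤ ‖Jc F n‖ := by
  obtain ⟨hA0, ht, hqn, hk1, hk2, hkap, hq, hq1q, hqnq1, -, -, -, -, -, -⟩ := hK.fac hM hA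
  have hq1p := hK.q1p
  have hq8 := hK.q1'
  have hL := hK.L1
  have hSp : 0 < S := hS.1
  have hS1 : S ≤ 1 := hS.2.1
  have hlow : k1 * t * w ≤ nm (F u) := hF.low u (by linarith)
  obtain ⟨a, ha⟩ : ∃ a, a = nm (F u) := ⟨_, rfl⟩
  obtain ⟨b, hb⟩ : ∃ b, b = nm (deriv F u) := ⟨_, rfl⟩
  rw [← ha] at hlow ⊢
  rw [← hb]
  have hk1tw : 0 < k1 * t * w := by positivity
  have hapos : 0 < a := lt_of_lt_of_le hk1tw hlow
  have hk2tw : 0 < k2 * t * w := by positivity
  have hqnS : qn * S ≤ q1 * S := mul_le_mul_of_nonneg_right (by linarith) hSp.le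
  have hq1S : q1 * S ≤ 1 / 800 * S := mul_le_mul_of_nonneg_right (by linarith) hSp.le
  rcases le_or_gt b a with hc | hc
  · obtain ⟨n, hn1, hn2⟩ := hF.net u S (by linarith) hS u (by
      rw [sub_self, norm_zero]
      linarith)
    have hn4 := (nsc_nm hS n (by linarith)).1
    rw [← ha] at hn4
    refine ⟨n, by nlinarith, le_trans ?_ hn2⟩
    have h5 : 0 ≤ nm (deriv F n) := nm_nonneg _
    have h6 : k2 * t * w * ((a + b) / 4) ≤ k2 * t * w * (nm (F n) + nm (deriv F n)) :=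
      mul_le_mul_of_nonneg_left (by linarith) hk2tw.le
    linarith
  · obtain ⟨K, hKd⟩ : ∃ K, K = ⌈4 * M * L⌉₊ := ⟨_, rfl⟩
    have hML : 1 ≤ M * L := one_le_mul_of_one_le_of_one_le hM hL
    have hK1 : 4 * (M * L) ≤ K := by
      have := Nat.le_ceil (4 * M * L)
      rw [hKd]
      linarith
    have hK2 : (K : ℝ) ≤ 5 * (M * L) := by
      have := (Nat.ceil_lt_add_one (by positivity : 0 ≤ 4 * M * L)).le
      rw [hKd]
      linarith
    have hK0 : (0 : ℝ) < K := by linarith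
    obtain ⟨ρ, hρ⟩ : ∃ ρ, ρ = q1 * S / K := ⟨_, rfl⟩
    have hρ0 : 0 < ρ := by rw [hρ]; positivity
    have hKρ : K * ρ = q1 * S := by
      rw [hρ]
      field_simp
    have hB : ∀ v, ‖v - u‖ ≤ K * ρ → nm (deriv F v) ≤ M * w := by
      intro v hv
      rw [hKρ] at hv
      have h1 := cauP hF.dif v 1 (M * w) one_pos fun x hx => by
        apply hF.bd
        have h2 : x = (x - v) + ((v - u) + u) := by ring
        have h3 := norm_add_le (x - v) ((v - u) + u)
        have h4 := norm_add_le (v - u) u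
        rw [← h2] at h3
        linarith
      rwa [div_one] at h1
    have h0 : M * w < 2 ^ K * nm (deriv F u) := by
      rw [← hb]
      have e1 : M ≤ Real.exp (M - 1) := by
        have := Real.add_one_le_exp (M - 1)
        linarith
      have e2 : Real.exp (M - 1 + 2 * L) < 2 ^ K := by
        have e3 : (2 : ℝ) ^ K = Real.exp (K * Real.log 2) := by
          rw [mul_comm, Real.exp_mul, Real.exp_log (by norm_num), Real.rpow_natCast]
        rw [e3]
        apply Real.exp_lt_exp.2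
        have e4 := Real.log_two_gt_d9
        have e5 : 4 * (M * L) * Real.log 2 ≤ K * Real.log 2 :=
          mul_le_mul_of_nonneg_right hK1 (by linarith)
        have e6 : 4 * (M * L) * 0.6 ≤ 4 * (M * L) * Real.log 2 :=
          mul_le_mul_of_nonneg_left (by linarith) (by linarith)
        have e7 : M - 1 ≤ (M - 1) * L := by nlinarith
        have e8 : L ≤ M * L := by nlinarith
        nlinarith
      have e4 : Real.exp (-L) * Real.exp (-L) ≤ k1 * t :=
        mul_le_mul hK.k1L hK.tL (Real.exp_pos _).le hk1.le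
      have e5 : M < 2 ^ K * (Real.exp (-L) * Real.exp (-L)) := by
        have e6 : M * Real.exp (2 * L) ≤ Real.exp (M - 1 + 2 * L) := by
          rw [Real.exp_add]
          exact mul_le_mul_of_nonneg_right e1 (Real.exp_pos _).le
        have e7 := lt_of_le_of_lt e6 e2
        have e8 : Real.exp (2 * L) * (Real.exp (-L) * Real.exp (-L)) = 1 := by
          rw [← Real.exp_add, ← Real.exp_add]
          rw [show 2 * L + (-L + -L) = 0 by ring, Real.exp_zero]
        have e9 : 0 < Real.exp (-L) * Real.exp (-L) := by positivity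
        calc M = M * Real.exp (2 * L) * (Real.exp (-L) * Real.exp (-L)) := by
              rw [mul_assoc, e8, mul_one]
          _ < 2 ^ K * (Real.exp (-L) * Real.exp (-L)) := mul_lt_mul_of_pos_right e7 e9
      have e6 : (0 : ℝ) < 2 ^ K := by positivity
      calc M * w < 2 ^ K * (Real.exp (-L) * Real.exp (-L)) * w := mul_lt_mul_of_pos_right e5 hw
        _ ≤ 2 ^ K * (k1 * t) * w := by
            apply mul_le_mul_of_nonneg_right _ hw.le
            exact mul_le_mul_of_nonneg_left e4 e6.le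
        _ = 2 ^ K * (k1 * t * w) := by ring
        _ ≤ 2 ^ K * b := mul_le_mul_of_nonneg_left (by linarith) e6.le
    obtain ⟨v, hv1, hv2, hv3⟩ := grow (G := deriv F) u (M * w) ρ K hρ0 hB h0
    rw [hKρ] at hv1
    rw [← hb] at hv2
    obtain ⟨n, hn1, hn2⟩ := hF.net u S (by linarith) hS v (by linarith)
    have h16 : 16 * (qn * S) ≤ ρ := by
      rw [hρ, le_div_iff₀ hK0]
      have e1 : 16 * qn * K ≤ q1 := by
        have e2 : 16 * qn * K ≤ 16 * qn * (5 * (M * L)) :=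
          mul_le_mul_of_nonneg_left hK2 (by positivity)
        have e3 : 16 * qn * (5 * (M * L)) ≤ A * L * qn := by
          have e4 : 0 ≤ L * qn := by positivity
          have e5 : 80 * M ≤ A := by linarith
          have e6 := mul_le_mul_of_nonneg_right e5 e4
          linarith
        linarith [hK.qnq]
      calc 16 * (qn * S) * K = (16 * qn * K) * S := by ring
        _ ≤ q1 * S := mul_le_mul_of_nonneg_right e1 hSp.le
    have hg := grow2 (dif_der hF.dif) v ρ (qn * S) hρ0 h16 hv3 n hn1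
    have hnu : ‖n - u‖ ≤ 2 * q1 * S := by
      have h2 := norm_add_le (n - v) (v - u)
      rw [sub_add_sub_cancel] at h2
      linarith
    refine ⟨n, hnu, le_trans ?_ hn2⟩
    have h5 : 0 ≤ nm (F n) := nm_nonneg _
    have h6 : k2 * t * w * ((a + b) / 4) ≤ k2 * t * w * (nm (F n) + nm (deriv F n)) :=
      mul_le_mul_of_nonneg_left (by linarith) hk2tw.le
    linarith

/-- (F1) -/
theorem f1 (M A L t τ q q1 qn k1 k2 kap w : ℝ) (hM : 1 ≤ M) (hA : 100 * M ≤ A)
    (hw : 0 < w) (hK : Kog A L t τ q q1 qn k1 k2 kap) (F : ℂ → ℂ × ℂ)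
    (hF : Sta M w t k1 k2 qn F) (u : ℂ) (hu : ‖u‖ ≤ 5 / 4) (S : ℝ) (hS : Nsc F u S)
    (hz : ∀ z, ‖z - u‖ < q * S → Jc F z ≠ 0) :
    k2 / 8 * t * w * (nm (F u) + nm (deriv F u)) ≤ ‖Jc F u‖ := by
  obtain ⟨hA0, ht, hqn, hk1, hk2, hkap, hq, hq1q, hqnq1, -, -, -, -, -, -⟩ := hK.fac hM hA
  obtain ⟨n, hn1, hn2⟩ := f1_claim M A L t τ q q1 qn k1 k2 kap w hM hA hw hK F hF u hu S hS
  have hSp : 0 < S := hS.1
  have hS1 : S ≤ 1 := hS.2.1
  have hL := hK.L1
  have hq8 := hK.q1'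
  have hq1p := hK.q1p
  have hlow : k1 * t * w ≤ nm (F u) := hF.low u (by linarith)
  have hk1tw : 0 < k1 * t * w := by positivity
  have hapos : 0 < nm (F u) := lt_of_lt_of_le hk1tw hlow
  have hbnn : 0 ≤ nm (deriv F u) := nm_nonneg _
  have hML : 1 ≤ M * L := one_le_mul_of_one_le_of_one_le hM hL
  have hAL : 100 * (M * L) ≤ A * L := by
    have := mul_le_mul_of_nonneg_right hA (by linarith : 0 ≤ L)
    linarith
  have hqS : q * S ≤ 1 / 8 * S := mul_le_mul_of_nonneg_right hq8 hSp.le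
  have e4 : 8 * M * Real.exp (-(4 * M)) ≤ 1 := by
    rw [Real.exp_neg, ← div_eq_mul_inv, div_le_one (Real.exp_pos _)]
    have e5 : Real.exp (4 * M) = Real.exp (2 * M) * Real.exp (2 * M) := by
      rw [← Real.exp_add]
      congr 1
      ring
    rw [e5]
    have e6 := Real.add_one_le_exp (2 * M)
    have e7 : (2 * M + 1) * (2 * M + 1) ≤ Real.exp (2 * M) * Real.exp (2 * M) :=
      mul_le_mul e6 e6 (by linarith) (Real.exp_pos _).le
    nlinarith [sq_nonneg (2 * M - 1)]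
  have e5 : 8 * M * Real.exp (-(A * L / 16)) ≤ k2 * t := by
    have e1 : Real.exp (-L) * Real.exp (-L) ≤ k2 * t :=
      mul_le_mul hK.k2L hK.tL (Real.exp_pos _).le hk2.le
    have e2 : -(A * L / 16) ≤ (-L + -L) + -(4 * M) := by nlinarith
    have e3 : Real.exp (-(A * L / 16)) ≤ Real.exp (-L) * Real.exp (-L) * Real.exp (-(4 * M)) := by
      rw [← Real.exp_add, ← Real.exp_add]
      exact Real.exp_le_exp.2 e2
    calc 8 * M * Real.exp (-(A * L / 16))
        ≤ 8 * M * (Real.exp (-L) * Real.exp (-L) * Real.exp (-(4 * M))) :=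
          mul_le_mul_of_nonneg_left e3 (by linarith)
      _ = (Real.exp (-L) * Real.exp (-L)) * (8 * M * Real.exp (-(4 * M))) := by ring
      _ ≤ (Real.exp (-L) * Real.exp (-L)) * 1 :=
          mul_le_mul_of_nonneg_left e4 (by positivity)
      _ ≤ k2 * t := by rw [mul_one]; exact e1
  have hKK : 2 * nm (F u) * (M * w) * Real.exp (-(A * L / 16)) ≤
      k2 / 4 * t * w * (nm (F u) + nm (deriv F u)) := by
    have e6 : 0 ≤ nm (F u) * w / 4 := by positivity
    have e7 := mul_le_mul_of_nonneg_right e5 e6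
    have e8 : 0 ≤ k2 / 4 * t * w * nm (deriv F u) := by positivity
    linarith
  have hh := har (Jc F) u (q * S) (2 * nm (F u) * (M * w)) (2 * q1 * S) (A * L / 16)
    (dif_Jc hF.dif).differentiableOn
    (fun z hz' => hz z (by rwa [Metric.mem_ball, dist_eq_norm] at hz'))
    (fun z hz' => by
      rw [Metric.mem_ball, dist_eq_norm] at hz'
      have h1 := (nsc_nm hS z (by linarith)).2
      have h2 := cauP hF.dif z 1 (M * w) one_pos fun x hx => by
        apply hF.bd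
        have h2 : x = (x - z) + ((z - u) + u) := by ring
        have h3 := norm_add_le (x - z) ((z - u) + u)
        have h4 := norm_add_le (z - u) u
        rw [← h2] at h3
        linarith
      rw [div_one] at h2
      have hMw : 0 < M * w := by positivity
      calc ‖Jc F z‖ ≤ nm (F z) * nm (deriv F z) := wd_le _ _
        _ ≤ (3 / 2 * nm (F u)) * (M * w) := mul_le_mul h1 h2 (nm_nonneg _) (by positivity)
        _ ≤ 2 * nm (F u) * (M * w) := mul_le_mul_of_nonneg_right (by linarith) hMw.le)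
    n hn1 (by positivity) (by linarith) (by
      have := hK.q1q
      calc 8 * (2 * q1 * S) * (A * L / 16) = (A * L * q1) * S := by ring
        _ ≤ q * S := mul_le_mul_of_nonneg_right this hSp.le)
    (hKK.trans hn2)
  linarith

end Pool.Agent.H84.LG.PL
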