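import Mathlib
import Pool.Agent.H91.SR.Lim
import Pool.Agent.H91.SR.Seq
import Pool.Agent.H84.LG.TFin
import Pool.Agent.H84.LG.Kon
import Pool.Agent.H84.LG.Def

/-!
POLYLOG RATE (MP_8f2e1c_an), piece 6: the core statement from the statements of the other pieces (compare `H91/SR/Cor`).
-/

set_option autoImplicit false

open Filter Topology Polynomial Metric MeasureTheory

namespace Pool.Agent.H84.LG.TO

open Pool.H91.SR

open Pool.H70.SF Pool.H26.SF Pool.Agent.H70.PL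
open Pool.Agent.H79.Eul (pol)
open Pool.Agent.H79.Par (HypDeg)
open Pool.Agent.H85.LD (Wgt Sep wm sg mu sc)
open Pool.Agent.H91.LD (Cov)
open Pool.Agent.H47.SR (Fb)

variable {d : ℕ}

theorem par_nx (X : CV d) {a b : ℂ × ℂ} (hb : IsU b) (h : wd a b = 0) : wd (nx X a) (nx X b) = 0 := by
  have h1 := smul_of_wd hb h
  obtain ⟨z, hz⟩ : ∃ z, z = a.1 * (starRingEnd ℂ) b.1 + a.2 * (starRingEnd ℂ) b.2 := ⟨_, rfl⟩
  rw [← hz] at h1
  have h2 : FF X a = z ^ d • FF X b := by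
    rw [h1, Pool.Agent.H47.SF.FF_smul]
  unfold nx
  rw [h2, wd_smul_left, wd_smul_left, wd_smul_right]
  have h3 : wd (FF X b) (FF X b) = 0 := by unfold wd; ring
  rw [h3]
  simp

/-- no critical orbit is eventually periodic -/
theorem inf_of_pp {X : CV d} (hN : Nz X) {c : ℂ × ℂ} (hc : IsU c)
    (h : ∀ j, 1 ≤ j → wd (ob X c j) (ob X c (j - pp j)) ≠ 0) (n m : ℕ) (hnm : n < m) :
    wd (ob X c n) (ob X c m) ≠ 0 := by
  intro h0
  have h1 : ∀ k, wd (ob X c (n + k)) (ob X c (m + k)) = 0 := by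
    intro k
    induction k with
    | zero => exact h0
    | succ k ih => exact par_nx X (hN.ob hc (m + k)).1 ih
  obtain ⟨q, hq⟩ : ∃ q, q = m - n := ⟨_, rfl⟩
  obtain ⟨j, hj⟩ : ∃ j, j = Nat.pair q m := ⟨_, rfl⟩
  have hjm : m ≤ j := by rw [hj]; exact Nat.right_le_pair q m
  have hpp : pp j = q := by
    unfold pp
    rw [hj, Nat.unpair_pair]
    simp only
    omega
  have h2 := h j (by omega)
  have h3 := h1 (j - m)
  rw [show m + (j - m) = j by omega, show n + (j - m) = j - q by omega] at h3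
  rw [hpp] at h2
  apply h2
  have h4 : wd (ob X c j) (ob X c (j - q)) = -wd (ob X c (j - q)) (ob X c j) := by unfold wd; ring
  rw [h4, h3, neg_zero]

/-- the limit of the stages is a limit of hyperbolic maps -/
theorem main_limit_pp (hd : 2 ≤ d) {Xs : ℕ → CV d} {Xi : CV d} (hX : Tendsto Xs atTop (𝓝 Xi)) (hN : Nz Xi)
    {Z : Set (ℂ × ℂ)} {δ : ℝ} (hδ : 0 < δ) (hexp : ∀ y, IsU y → (∀ z ∈ Z, δ ≤ ‖wd y z‖) → 2 ≤ ‖aa Xi y‖)
    (H1 : ∀ j, ∀ᶠ s in atTop, ∀ c, IsU c → JJ (Xs s) c = 0 → ∀ z ∈ Z, δ ≤ ‖wd (ob (Xs s) c j) z‖)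
    (H2 : ∀ j, 1 ≤ j → ∀ᶠ s in atTop, ∀ c, IsU c → JJ (Xs s) c = 0 →
      δ ≤ ‖wd (ob (Xs s) c j) (ob (Xs s) c (j - pp j))‖) {ε : ℝ} (hε : 0 < ε) : ∃ w ∈ ball Xi ε, HypDeg w := by
  have hwd : Continuous (fun p : (ℂ × ℂ) × (ℂ × ℂ) => ‖wd p.1 p.2‖) := by
    unfold wd
    fun_prop
  have hgood : ∀ c, IsU c → JJ Xi c = 0 → ∀ j, 2 ≤ ‖al Xi c j‖ := by
    intro c hc hJ j
    unfold al
    refine hexp _ (hN.ob hc j).1 ?_
    intro z hz
    have hg : Continuous (fun p : (ℂ × ℂ) × (ℂ × ℂ) => ‖wd p.1 z‖) :=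
      hwd.comp (continuous_fst.prodMk continuous_const)
    exact limit_closed (by omega) hX hN hg (i := j) (j := j) (by
      filter_upwards [H1 j] with s hs c hc hJ
      exact hs c hc hJ z hz) hc hJ
  refine bridge hd hN (fun c hc hJ => ⟨1, 2, one_pos, by norm_num, fun n => ?_⟩) ?_ hε
  · rw [one_mul]
    exact Ph_pow (hgood c hc hJ) n
  · obtain ⟨c, hc, hJ⟩ := exists_crit hd hN
    refine ⟨c, hc, hJ, inf_of_pp hN hc fun j hj h0 => ?_⟩
    have h1 := limit_closed (by omega) hX hN hwd (H2 j hj) hc hJ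
    simp only at h1
    rw [h0, norm_zero] at h1
    linarith

theorem cvp_pol (X : CV d) : cvp d (pol X.1) (pol X.2) = X := by
  unfold cvp
  ext k
  · exact Pool.H26.SF.pol_coeff X.1 k
  · exact Pool.H26.SF.pol_coeff X.2 k

theorem pol_cvp {P Q : ℂ[X]} (hP : P.natDegree ≤ d) (hQ : Q.natDegree ≤ d) :
    pol (cvp d P Q).1 = P ∧ pol (cvp d P Q).2 = Q :=
  ⟨Pool.Agent.H79.Eul.pol_cf hP, Pool.Agent.H79.Eul.pol_cf hQ⟩

theorem pol_sub1 (u v : Fin (d + 1) → ℂ) : pol (u - v) = pol u - pol v := by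
  unfold Pool.Agent.H79.Eul.pol
  rw [← Finset.sum_sub_distrib]
  refine Finset.sum_congr rfl fun k _ => ?_
  rw [Pi.sub_apply, C_sub, sub_mul]

theorem Fb_cvp (P Q : ℂ[X]) (b u : ℂ) : Fb (cvp d P Q) b u = (sc d b P u, sc d b Q u) := by
  unfold Fb
  rw [FF_sc]

theorem nm_fst_le (a : ℂ × ℂ) : ‖a.1‖ ≤ nm a := by
  unfold nm n2
  apply Real.le_sqrt_of_sq_le
  have := sq_nonneg ‖a.2‖
  linarith

theorem nm_snd_le (a : ℂ × ℂ) : ‖a.2‖ ≤ nm a := by
  unfold nm n2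
  apply Real.le_sqrt_of_sq_le
  have := sq_nonneg ‖a.1‖
  linarith

/-- from amplitude in charts to the weighted modulus -/
theorem amp_wm {s : Finset ℂ} {w : ℂ → ℝ} (hd : 1 ≤ d) (hs : Cov d s) (hw : Wgt d w) {a : ℝ} (ha : 0 ≤ a) {Y : CV d}
    (hY : Amp s w a Y) (z : ℂ) : wm d (pol Y.1) z ≤ 2 * a * w z ∧ wm d (pol Y.2) z ≤ 2 * a * w z := by
  obtain ⟨b, hb, hzb⟩ := hs z
  obtain ⟨u, hu, hm, hph⟩ := Pool.Agent.H91.LD.chart_pt d hd b z hzb
  have hY1 := hY b hb u (by linarith)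
  rw [← cvp_pol Y, Fb_cvp] at hY1
  have hwb : w b ≤ 2 * w z := by
    have h1 := hw.lip z b
    have h2 : √(d : ℝ) * sg z b ≤ 1 / 4 := by
      have hd0 : (0 : ℝ) < √d := Real.sqrt_pos.2 (by exact_mod_cast hd)
      rw [lt_div_iff₀ (by positivity)] at hzb
      linarith
    have h3 : Real.exp (√(d : ℝ) * sg z b) ≤ 2 := by
      have h4 := Real.exp_le_exp.2 h2
      have h5 : Real.exp (1 / 4) ≤ 1 / (1 - 1 / 4) :=
        Real.exp_bound_div_one_sub_of_interval (by norm_num) (by norm_num)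
      norm_num at h5
      linarith
    have h4 := hw.pos z
    nlinarith
  have hgen : ∀ G : ℂ[X], G.natDegree ≤ d → ‖sc d b G u‖ ≤ a * w b → wm d G z ≤ 2 * a * w z := by
    intro G hG h
    rw [← hph, Pool.Agent.H85.LD.wm_ph d b G hG _ hm]
    have h1 : ‖(Pool.Agent.H85.LD.Gc d b G).eval (u / ((√d : ℝ) : ℂ))‖ = ‖sc d b G u‖ := rfl
    rw [h1, hph]
    have h2 : (1 : ℝ) ≤ √((1 + ‖u / ((√d : ℝ) : ℂ)‖ ^ 2) ^ d) := by
      rw [Real.one_le_sqrt]
      apply one_le_pow₀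
      have := sq_nonneg ‖u / ((√d : ℝ) : ℂ)‖
      linarith
    have h3 : ‖sc d b G u‖ / √((1 + ‖u / ((√d : ℝ) : ℂ)‖ ^ 2) ^ d) ≤ ‖sc d b G u‖ := div_le_self (norm_nonneg _) h2
    have h4 : a * w b ≤ a * (2 * w z) := mul_le_mul_of_nonneg_left hwb ha
    linarith
  exact ⟨hgen _ (Pool.H26.SF.pol_deg _) ((nm_fst_le _).trans hY1), hgen _ (Pool.H26.SF.pol_deg _) ((nm_snd_le _).trans hY1)⟩

theorem Fb_cont (b u : ℂ) : Continuous (fun X : CV d => Fb X b u) := by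
  unfold Fb FF hev
  fun_prop

theorem nm_cont : Continuous nm := by
  unfold nm n2
  fun_prop

theorem nm_add (a b : ℂ × ℂ) : nm (a + b) ≤ nm a + nm b := by
  have h1 : nm (a + b) ^ 2 ≤ (nm a + nm b) ^ 2 := by
    have hn : ∀ x : ℂ × ℂ, 0 ≤ n2 x := fun x => Pool.Agent.H47.SF.n2_nonneg x
    have e1 : nm (a + b) ^ 2 = n2 (a + b) := Real.sq_sqrt (hn _)
    have e2 : nm a ^ 2 = n2 a := Real.sq_sqrt (hn _)
    have e3 : nm b ^ 2 = n2 b := Real.sq_sqrt (hn _)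
    have e4 : nm a * nm b = √(n2 a * n2 b) := by
      unfold nm
      rw [Real.sqrt_mul (hn _)]
    have e5 : ‖a.1‖ * ‖b.1‖ + ‖a.2‖ * ‖b.2‖ ≤ √(n2 a * n2 b) := by
      apply Real.le_sqrt_of_sq_le
      unfold n2
      nlinarith [sq_nonneg (‖a.1‖ * ‖b.2‖ - ‖a.2‖ * ‖b.1‖)]
    have e6 : n2 (a + b) ≤ (‖a.1‖ + ‖b.1‖) ^ 2 + (‖a.2‖ + ‖b.2‖) ^ 2 := by
      unfold n2
      have f1 : ‖(a + b).1‖ ≤ ‖a.1‖ + ‖b.1‖ := norm_add_le _ _
      have f2 : ‖(a + b).2‖ ≤ ‖a.2‖ + ‖b.2‖ := norm_add_le _ _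
      have g1 := pow_le_pow_left₀ (norm_nonneg _) f1 2
      have g2 := pow_le_pow_left₀ (norm_nonneg _) f2 2
      linarith
    rw [e1, add_sq, e2, e3, mul_assoc, e4]
    have e7 : n2 a = ‖a.1‖ ^ 2 + ‖a.2‖ ^ 2 := rfl
    have e8 : n2 b = ‖b.1‖ ^ 2 + ‖b.2‖ ^ 2 := rfl
    nlinarith
  have h2 : 0 ≤ nm a + nm b := add_nonneg (Real.sqrt_nonneg _) (Real.sqrt_nonneg _)
  exact le_of_sq_le_sq h1 h2

theorem nm_neg (a : ℂ × ℂ) : nm (-a) = nm a := by
  unfold nm n2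
  rw [Prod.fst_neg, Prod.snd_neg, norm_neg, norm_neg]

theorem Fb_sub (X Y : CV d) (b u : ℂ) : Fb (X - Y) b u = Fb X b u - Fb Y b u := by
  unfold Fb FF hev
  ext
  · simp only [Prod.fst_sub, Pi.sub_apply, sub_mul, Finset.sum_sub_distrib]
  · simp only [Prod.snd_sub, Pi.sub_apply, sub_mul, Finset.sum_sub_distrib]

/-- closedness of the amplitude condition -/
theorem amp_limit {s : Finset ℂ} {w : ℂ → ℝ} {a : ℝ} {Xn : ℕ → CV d} {Xi Xs : CV d} (h : Tendsto Xn atTop (𝓝 Xi))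
    (hA : ∀ n, Amp s w a (Xn n - Xs)) : Amp s w a (Xi - Xs) := by
  intro b hb u hu
  have h1 : Tendsto (fun n => nm (Fb (Xn n - Xs) b u)) atTop (𝓝 (nm (Fb (Xi - Xs) b u))) := by
    have h2 : Continuous (fun X : CV d => nm (Fb X b u)) := nm_cont.comp (Fb_cont b u)
    exact (h2.tendsto _).comp (h.sub_const Xs)
  exact le_of_tendsto h1 (Eventually.of_forall fun n => hA n b hb u hu)

/-- nondegeneracy of the maps near the static map -/
theorem nz_of_amp {A e : ℝ} {s : Finset ℂ} {w : ℂ → ℝ} {Xs X : CV d} (hd : 1 ≤ d) (hW : Wor A e d s w Xs) {a : ℝ}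
    (ha : a < k1 A e d * tt e d) (hX : Amp s w a (X - Xs)) : Nz X := by
  intro y hy
  obtain ⟨b, hb, u, z, hu, hz, hyz⟩ := exists_pt hd hW.cov hy
  have h1 := (hW.sta b hb).low u (by linarith)
  have h2 := hX b hb u (by linarith)
  have hwb := hW.wgt.pos b
  have h3 : 0 < nm (Fb X b u) := by
    have h4 : nm (Fb Xs b u) ≤ nm (Fb X b u) + nm (Fb (X - Xs) b u) := by
      have h5 : Fb Xs b u = Fb X b u + -(Fb (X - Xs) b u) := by
        rw [Fb_sub]
        ext <;> simp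
      have h6 := nm_add (Fb X b u) (-(Fb (X - Xs) b u))
      rw [← h5, nm_neg] at h6
      exact h6
    have h7 : a * w b < k1 A e d * tt e d * w b := mul_lt_mul_of_pos_right ha hwb
    linarith
  have h4 : 0 < n2 (Fb X b u) := by
    unfold nm at h3
    exact Real.sqrt_pos.1 h3
  rw [hyz, Pool.Agent.H47.SF.FF_smul, Pool.Agent.H47.SF.n2_smul, norm_pow, hz]
  unfold pt
  rw [Pool.Agent.H47.SF.FF_smul, Pool.Agent.H47.SF.n2_smul]
  have h5 : n2 (FF X (wB b + (u / ((√d : ℝ) : ℂ)) • wC b)) = n2 (Fb X b u) := rfl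
  rw [h5, norm_pow, Complex.norm_real, Real.norm_eq_abs, abs_of_nonneg (by positivity)]
  positivity

theorem de_pos {e : ℝ} (hd : 2 ≤ d) : 0 < de e d := by
  unfold de
  exact pow_pos (be_pos e hd) 4

/-- **the core statement** -/
theorem core {A : ℝ} (hA : 1 ≤ A) (hW : WorStmt A) (hO : OneStmt A) (hS : StaStmt A) : CoreL := by
  obtain ⟨C0, hC0, henv⟩ := Pool.Agent.H85.LD.exists_env
  obtain ⟨C1, hC1, hSt⟩ := hS
  have hOn := hO C1 hC1
  obtain ⟨e, he⟩ : ∃ e : ℝ, e = 1 / 4 := ⟨_, rfl⟩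
  have he0 : 0 < e := by rw [he]; norm_num
  have he1 : e ≤ 1 / 4 := by rw [he]
  have hA0 : 0 < A := by linarith
  have ev1 := hW e he0 he1
  have ev2 := hOn e he0 he1
  have ev3 := hSt e he0 he1
  obtain ⟨d0, hd0⟩ := eventually_atTop.1 ((((ev1.and ev2).and ev3).and (LL_ge 2)).and (hh_small (2 * C1) hA0 e))
  refine ⟨2 * (2 * C1 + 1) ^ 2 * C0, by positivity, d0, fun d hd hd2 P Q hP hQ h0 => ?_⟩
  obtain ⟨⟨⟨⟨g1, g2⟩, g3⟩, g4⟩, g5⟩ := hd0 d hd
  have hd1 : 1 ≤ d := by omega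
  have hdR : (1 : ℝ) ≤ d := by exact_mod_cast hd1
  have hdp : (0 : ℝ) < d := by linarith
  have hsq : 1 ≤ √(d : ℝ) := Real.one_le_sqrt.2 hdR
  obtain ⟨w, hw, _, hPQ, hwi, hmass⟩ := henv d hd1 P Q hP hQ h0
  have hPw : ∀ z, wm d P z ≤ w z := fun z => by
    have := hPQ z
    have := Pool.Agent.H85.LD.wm_nonneg d Q z
    linarith
  have hQw : ∀ z, wm d Q z ≤ w z := fun z => by
    have := hPQ z
    have := Pool.Agent.H85.LD.wm_nonneg d P z
    linarith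
  obtain ⟨s, hs1, hs2⟩ := Pool.Agent.H85.LD.exists_net (1 / (4 * √(d : ℝ))) (by positivity) (by
    rw [div_le_one (by positivity)]
    linarith)
  obtain ⟨P1, Q1, hP1, hQ1, hP1w, hQ1w, hWor⟩ := g1 s w P Q hs1 hs2 hw hP hQ hPw hQw
  obtain ⟨Xn, hX1, hX2, hX3⟩ := g3 s w (cvp d P1 Q1) hWor
  have hLL1 : 1 ≤ LL d := by linarith
  have hbe0 := be_pos e hd2
  have hbe1 : be e d < 1 := by
    have h1 := be_L (e := e) (d := d) (by linarith)
    have h2 : 2 ^ 3 ≤ LL d ^ 3 := pow_le_pow_left₀ (by norm_num) g4 3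
    nlinarith
  have hhp := hh_pos hd1
  -- the limit
  obtain ⟨Pi, Qi, hPi, hQi, hlim, _, _⟩ := seq_pair d w hw.pos hwi (fun n => pol (Xn n).1) (fun n => pol (Xn n).2)
    (fun n => Pool.H26.SF.pol_deg _) (fun n => Pool.H26.SF.pol_deg _) (fun n => 2 * (C1 * hh d * be e d ^ n))
    (fun n => by positivity) (((summable_geometric_of_lt_one hbe0.le hbe1).mul_left (C1 * hh d)).mul_left 2)
    (fun n z => by
      have h1 := (amp_wm hd1 hs2 hw (by positivity) (hX2 n) z).1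
      rw [Prod.fst_sub, pol_sub1] at h1
      exact h1)
    (fun n z => by
      have h1 := (amp_wm hd1 hs2 hw (by positivity) (hX2 n) z).2
      rw [Prod.snd_sub, pol_sub1] at h1
      exact h1)
  simp only [cvp_pol] at hlim
  obtain ⟨Xi, hXi⟩ : ∃ Xi : CV d, Xi = cvp d Pi Qi := ⟨_, rfl⟩
  rw [← hXi] at hlim
  have hpol : pol Xi.1 = Pi ∧ pol Xi.2 = Qi := by rw [hXi]; exact pol_cvp hPi hQi
  have hamp : Amp s w (C1 * hh d) (Xi - cvp d P1 Q1) := amp_limit hlim hX1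
  have hk : C1 * hh d < k1 A e d * tt e d := by
    have hkap := kap_le_one e hLL1
    have htt := tt_pos e hd2
    have hk1 : 0 ≤ k1 A e d := by unfold k1; positivity
    have h1 : kap e d * k1 A e d * tt e d ≤ 1 * k1 A e d * tt e d := by
      apply mul_le_mul_of_nonneg_right _ htt.le
      exact mul_le_mul_of_nonneg_right hkap hk1
    have h2 : 0 < C1 * hh d := by positivity
    linarith
  have hNz : Nz Xi := nz_of_amp hd1 hWor hk hamp
  refine ⟨Xi, fun δ hδ => ?_, ?_⟩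
  · have hsp : 0 < √(d : ℝ) := by linarith
    have hdd : ∀ y z : ℂ × ℂ, de e d / √d ≤ ‖wd y z‖ ↔ de e d ≤ DD d y z := by
      intro y z
      unfold DD
      rw [div_le_iff₀ hsp, mul_comm]
    refine main_limit_pp hd2 hlim hNz (Z := {z | IsU z ∧ JJ (cvp d P1 Q1) z = 0}) (δ := de e d / √d)
      (div_pos (de_pos hd2) hsp) ?_ ?_ ?_ hδ
    · intro y hy h
      have hxl : 2 ≤ xl d := by
        unfold xl
        calc (2 : ℝ) ≤ LL d := g4
          _ = LL d ^ 1 := (pow_one _).symm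
          _ ≤ LL d ^ 30 := pow_le_pow_right₀ hLL1 (by norm_num)
      refine hxl.trans (g2 s w (cvp d P1 Q1) hWor Xi hamp y hy ?_)
      intro z hz hJ
      exact (hdd y z).1 (h z ⟨hz, hJ⟩)
    · intro j
      obtain ⟨n0, hn0⟩ := hX3 j
      filter_upwards [eventually_ge_atTop n0] with n hn c hc hJ z hz
      exact (hdd _ _).2 ((hn0 n hn c hc hJ).1 z hz.1 hz.2)
    · intro j hj
      obtain ⟨n0, hn0⟩ := hX3 j
      filter_upwards [eventually_ge_atTop n0] with n hn c hc hJ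
      exact (hdd _ _).2 ((hn0 n hn c hc hJ).2 hj)
  · -- the norm
    have htt := tt_pos e hd2
    have hht := hh_le_tt e hLL1
    have hbound : ∀ (R R1 Ri : ℂ[X]), (∀ z, wm d (R1 - R) z ≤ tt e d * w z) → (∀ z, wm d (Ri - R1) z ≤ 2 * (C1 * hh d) * w z) →
        ∀ z, wm d (R - Ri) z ≤ ((2 * C1 + 1) * tt e d) * w z := by
      intro R R1 Ri h1 h2 z
      rw [wm_sub_comm]
      have h3 : Ri - R = (Ri - R1) + (R1 - R) := by ring
      rw [h3]
      refine (Pool.Agent.H85.LD.wm_add_le _ _ _ _).trans ?_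
      have h4 := h1 z
      have h5 := h2 z
      have hwz := hw.pos z
      have h6 : 2 * (C1 * hh d) * w z ≤ 2 * (C1 * tt e d) * w z := by
        apply mul_le_mul_of_nonneg_right _ hwz.le
        have := mul_le_mul_of_nonneg_left hht (show 0 ≤ C1 by linarith)
        linarith
      nlinarith
    have hdiff1 : Pi - P1 = pol (Xi - cvp d P1 Q1).1 := by
      rw [Prod.fst_sub, pol_sub1, hpol.1, (pol_cvp (d := d) hP1 hQ1).1]
    have hdiff2 : Qi - Q1 = pol (Xi - cvp d P1 Q1).2 := by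
      rw [Prod.snd_sub, pol_sub1, hpol.2, (pol_cvp (d := d) hP1 hQ1).2]
    have hA1 : ∀ z, wm d (Pi - P1) z ≤ 2 * (C1 * hh d) * w z := by
      intro z
      rw [hdiff1]
      exact (amp_wm hd1 hs2 hw (by positivity) hamp z).1
    have hA2 : ∀ z, wm d (Qi - Q1) z ≤ 2 * (C1 * hh d) * w z := by
      intro z
      rw [hdiff2]
      exact (amp_wm hd1 hs2 hw (by positivity) hamp z).2
    have hB1 := hbound P P1 Pi hP1w hA1
    have hB2 := hbound Q Q1 Qi hQ1w hA2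
    rw [hpol.1, hpol.2]
    have hK : 0 ≤ (2 * C1 + 1) * tt e d := mul_nonneg (by linarith) htt.le
    obtain ⟨I, hI⟩ : ∃ I : ℝ, I = (d + 1) * ∫ z, w z ^ 2 ∂mu := ⟨_, rfl⟩
    have hI0 : 0 ≤ I := by
      rw [hI]
      have : 0 ≤ ∫ z, w z ^ 2 ∂mu := integral_nonneg fun z => by positivity
      positivity
    have hN1 := Pool.Agent.H91.LD.Nd_le d w hwi (P - Pi) ((natDegree_sub_le _ _).trans (max_le hP hPi)) _ hK hB1
    have hN2 := Pool.Agent.H91.LD.Nd_le d w hwi (Q - Qi) ((natDegree_sub_le _ _).trans (max_le hQ hQi)) _ hK hB2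
    rw [← hI] at hN1 hN2 hmass
    have htt2 : tt e d ^ 2 ≤ Real.log d ^ 260 / d := by
      unfold tt hh LL
      rw [mul_pow, ← pow_mul, div_pow, one_pow, Real.sq_sqrt hdp.le]
      rw [mul_one_div]
    have hp : 0 ≤ Real.log d ^ 260 / d := by
      have := Real.log_natCast_nonneg d
      positivity
    have h1 : ((2 * C1 + 1) * tt e d) ^ 2 * I ≤ (2 * C1 + 1) ^ 2 * (Real.log d ^ 260 / d) * (C0 * (Pool.Agent.H85.LD.Nd d P + Pool.Agent.H85.LD.Nd d Q)) := by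
      rw [mul_pow]
      apply mul_le_mul _ hmass hI0 (by positivity)
      exact mul_le_mul_of_nonneg_left htt2 (by positivity)
    have h2 : 2 * ((2 * C1 + 1) ^ 2 * (Real.log d ^ 260 / d) * (C0 * (Pool.Agent.H85.LD.Nd d P + Pool.Agent.H85.LD.Nd d Q))) =
        2 * (2 * C1 + 1) ^ 2 * C0 * (Real.log d ^ 260 / d) * (Pool.Agent.H85.LD.Nd d P + Pool.Agent.H85.LD.Nd d Q) := by ring
    linarith

end Pool.Agent.H84.LG.TO
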