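import Pool.Agent.H84.LG.PF2
import Pool.Agent.H84.LG.TCor

/-!
POLYLOG RATE (MP_8f2e1c_an): `CntStmt A` for every `A ≥ 100 MM`, from the planar zero count (`H84/LG/PF2`).
-/

set_option autoImplicit false

open Filter Topology

namespace Pool.Agent.H84.LG.TO

open Pool.H91.SR

open Pool.H70.SF Pool.Agent.H70.PL Pool.Agent.H84.LG.PL
open Pool.Agent.H47.SR (Fb Fb_diff)

/-- a map of small distance from the static map is a planar perturbation in every chart -/
theorem per_of {d : ℕ} {s : Finset ℂ} {w : ℂ → ℝ} {a : ℝ} {X Xs : CV d} (h : Amp s w a (X - Xs)) {b : ℂ}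
    (hb : b ∈ s) : Per a (w b) (Fb Xs b) (Fb X b) := by
  refine ⟨Fb_diff X b, fun u hu => ?_⟩
  rw [← Fb_sub]
  exact h b hb u hu

theorem cntstmt {A : ℝ} (hA : 100 * MM ≤ A) : CntStmt A := by
  have hM : (1 : ℝ) ≤ MM := by unfold MM; norm_num
  intro C1 hC1
  refine ⟨300 * MM ^ 2, by nlinarith, ?_⟩
  intro e he he4
  filter_upwards [kon_ev (A := A) (C1 := C1) (e := e) (by linarith) (by linarith)] with d hK s w Xs hW X hX b hb
  obtain ⟨h1, h2⟩ := f2_J MM A (LL d) (tt e d) (C1 * hh d) (qq e d) (q1 A e d) (qn A e d) (k1 A e d) (k2 A e d)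
    (kap e d) (w b) hM hA (hW.wgt.pos b) hK (Fb Xs b) (Fb X b) (hW.sta b hb) (per_of hX hb)
  refine ⟨h1.toFinset, ?_, fun u hu hJ => ?_⟩
  · rw [← Set.ncard_eq_toFinset_card _ h1]
    exact h2
  · rw [Set.Finite.mem_toFinset]
    exact ⟨hu, hJ⟩

end Pool.Agent.H84.LG.TO
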