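import Pool.Agent.H84.LG.TWor
import Pool.Agent.H84.LG.TCnt
import Pool.Agent.H84.LG.CCvs
import Pool.Agent.H84.LG.FStm
import Pool.Agent.H84.LG.Seq

/-!
POLYLOG RATE (MP_8f2e1c_an): the theorem, from the seven pieces (compare `H91/SR/Top`).
-/

set_option autoImplicit false

open Polynomial

namespace Pool.Agent.H84.LG

open Pool.Agent.H85.LD (Nd)
open Pool.Agent.H44.Fatou (Hyp)

theorem polylog_core : TO.CoreL := by
  have hA : (1 : ℝ) ≤ 100 * MM := by unfold MM; norm_num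
  have hO : OneStmt (100 * MM) := FO.oneStmt le_rfl
  exact TO.core hA (TO.worstmt hA) hO (sta hA (TO.cntstmt le_rfl) (CV.cvdStmt _ le_rfl) hO
    (FO.ratStmt le_rfl) (FO.twoStmt le_rfl))

/-- the final words -/
theorem polylog_rate : ∃ C : ℝ, ∀ d : ℕ, 2 ≤ d → ∀ P Q : ℂ[X],
    P.natDegree ≤ d → Q.natDegree ≤ d → (P ≠ 0 ∨ Q ≠ 0) →
    ∃ P' Q' : ℂ[X], IsCoprime P' Q' ∧ max P'.natDegree Q'.natDegree = d ∧ Hyp P' Q' ∧
      Nd d (P - P') + Nd d (Q - Q') ≤ C * (Real.log d ^ 260 / d) * (Nd d P + Nd d Q) :=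
  TO.words polylog_core

end Pool.Agent.H84.LG
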