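import Pool.Agent.H73.ST.Stat
import Pool.Agent.H84.LG.Kon

/-!
POLYLOG RATE (MP_8f2e1c_an): `WorStmt A` for every `A ≥ 1`, from the static stage (`H73/ST/Stat`).
-/

set_option autoImplicit false

open Polynomial Filter Topology

namespace Pool.Agent.H84.LG.TO

open Pool.H91.SR

open Pool.H70.SF Pool.Agent.H85.LD Pool.Agent.H70.PL Pool.Agent.H73.ST
open Pool.Agent.H47.SR (Fb Fb_diff)

private theorem fb_eq (d : ℕ) (P Q : ℂ[X]) (b : ℂ) : Fb (cvp d P Q) b = Fc d b P Q := by
  funext u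
  exact FF_sc d b P Q u

private theorem nsc_iff {F : ℂ → ℂ × ℂ} {u : ℂ} {S : ℝ} (h : Nsc F u S) : NSc F u S :=
  ⟨h.1, h.2.1, h.2.2.1, h.2.2.2⟩

theorem worstmt {A : ℝ} (hA : 1 ≤ A) : WorStmt A := by
  intro e he he4
  obtain ⟨C1, hC1, hst⟩ := static
  have hA0 : 0 < A := by linarith
  filter_upwards [LL_ge (C1 * 3 ^ 20), kon_ev (A := A) (C1 := 0) (e := e) hA le_rfl, LL_ge 1,
    eventually_ge_atTop 4] with d h1 hK h4 h5 s w P0 Q0 hs hc hw hP0 hQ0 hwP hwQ
  have hd0 : (0 : ℝ) < d := by exact_mod_cast (by omega : 0 < d)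
  have hd1 : (1 : ℝ) ≤ d := by exact_mod_cast (by omega : 1 ≤ d)
  have hL0 : 0 < LL d := by linarith
  have ht : 0 < tt e d := tt_pos e (by omega)
  have ht1 : tt e d ≤ 1 := hK.t1
  have hqe := qn_eq (e := e) hA0 (d := d) (by omega)
  have hq : 0 < qn A e d := qn_pos hA0 e (by omega)
  have hq1 : qn A e d ≤ 1 := by
    rw [hqe]
    exact inv_le_one_of_one_le₀ (one_le_mul_of_one_le_of_one_le (one_le_pow₀ hA) (one_le_pow₀ h4))
  have hlt : Real.log (1 / tt e d) ≤ LL d := by
    rw [one_div, Real.log_inv]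
    have := Real.log_le_log (Real.exp_pos _) hK.tL
    rw [Real.log_exp] at this
    linarith
  have hlt0 : 0 ≤ Real.log (1 / tt e d) := Real.log_nonneg (by rw [one_le_div ht]; exact ht1)
  have hlq : Real.log (1 / qn A e d) ≤ LL d := by
    rw [one_div, Real.log_inv]
    have := Real.log_le_log (Real.exp_pos _) hK.qnL
    rw [Real.log_exp] at this
    linarith
  have hlq0 : 0 ≤ Real.log (1 / qn A e d) := Real.log_nonneg (by rw [one_le_div hq]; exact hq1)
  have hcond : C1 * (1 + Real.log (1 / tt e d) + Real.log (1 / qn A e d)) ^ 20 * qn A e d ^ 2 ≤ 1 := by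
    have e1 : (1 + Real.log (1 / tt e d) + Real.log (1 / qn A e d)) ^ 20 ≤ (3 * LL d) ^ 20 :=
      pow_le_pow_left₀ (by linarith) (by linarith) 20
    have e2 : qn A e d ^ 2 ≤ (LL d ^ 34)⁻¹ := by
      rw [hqe, inv_pow]
      apply inv_anti₀ (by positivity)
      have h6 : (1 : ℝ) ≤ A ^ 4 := one_le_pow₀ hA
      have h7 : 0 < LL d ^ 34 := by positivity
      nlinarith
    calc C1 * (1 + Real.log (1 / tt e d) + Real.log (1 / qn A e d)) ^ 20 * qn A e d ^ 2 ≤
          C1 * (3 * LL d) ^ 20 * (LL d ^ 34)⁻¹ := by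
            apply mul_le_mul _ e2 (by positivity) (by positivity)
            exact mul_le_mul_of_nonneg_left e1 (by linarith)
      _ = C1 * 3 ^ 20 * LL d ^ 20 * (LL d ^ 34)⁻¹ := by ring
      _ ≤ LL d * LL d ^ 20 * (LL d ^ 34)⁻¹ := by
            apply mul_le_mul_of_nonneg_right _ (by positivity)
            exact mul_le_mul_of_nonneg_right h1 (by positivity)
      _ = LL d ^ 21 * (LL d ^ 34)⁻¹ := by ring
      _ ≤ LL d ^ 34 * (LL d ^ 34)⁻¹ := by
            apply mul_le_mul_of_nonneg_right _ (by positivity)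
            exact pow_le_pow_right₀ h4 (by norm_num)
      _ = 1 := mul_inv_cancel₀ (by positivity)
  obtain ⟨P, Q, hP, hQ, hPn, hQn, hS⟩ := hst (tt e d) (qn A e d) ht ht1 hq hq1 hcond d h5 s hs w hw P0 Q0 hP0 hQ0
    hwP hwQ
  refine ⟨P, Q, hP, hQ, hPn, hQn, ⟨hs, hc, hw, ?_⟩⟩
  intro b hb
  have hWb := hw.pos b
  have h6 := hS b hb
  refine ⟨Fb_diff _ _, ?_, ?_, ?_⟩
  · intro u hu
    rw [fb_eq]
    have hP2 : ∀ z, wm d P z ≤ 2 * w z := by
      intro z
      have := wm_add_le d (P - P0) P0 z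
      rw [sub_add_cancel] at this
      have h7 := hPn z
      have h8 := hwP z
      have h9 := hw.pos z
      nlinarith
    have hQ2 : ∀ z, wm d Q z ≤ 2 * w z := by
      intro z
      have := wm_add_le d (Q - Q0) Q0 z
      rw [sub_add_cancel] at this
      have h7 := hQn z
      have h8 := hwQ z
      have h9 := hw.pos z
      nlinarith
    have h7 := Fc_size d (by omega) w hw b P Q hP hQ 2 (by norm_num) (fun z _ => hP2 z) (fun z _ => hQ2 z) u hu
    have h8 : nm (Fc d b P Q u) = nr (Fc d b P Q u) := rfl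
    rw [h8]
    unfold MM
    refine h7.trans ?_
    nlinarith
  · intro u hu
    rw [fb_eq]
    have h7 := h6.low u hu
    have h8 : 0 ≤ nr (Fc d b P0 Q0 u) := nr_nonneg _
    have h9 : k1 A e d * tt e d * w b ≤ qn A e d ^ 2 * (nr (Fc d b P0 Q0 u) + tt e d * w b) := by
      unfold k1
      have := mul_nonneg (pow_nonneg hq.le 2) h8
      linarith
    exact h9.trans h7
  · intro u S hu hN v hv
    rw [fb_eq] at hN ⊢
    exact h6.net u S hu (nsc_iff hN) v hv

end Pool.Agent.H84.LG.TO
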